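import Pool.Agent.H533R2.VD.Spec

set_option autoImplicit false

namespace Pool.Agent.H533R2.VD

open Set
open Pool.Agent.H899R2.VP
open Pool.Agent.H533R2.VO (Glu Lev OS G BlkC Ic)

/-- blocks: the centre -/
theorem t_BK1 (h1 : S_BKF) (h2 : S_OBQ) (h3 : S_OBS) : S_BK1 := by
  intro S f N N' B B' x x' hS hf hN hN' hx hx' hr
  have e1 : Ic (Ob S f N B) x x = {x} := (h1 S f N B hS hf hN x).1 hx
  have e2 : Ic (Ob S f N' B') x' x' = {x'} := (h1 S f N' B' hS hf hN' x').1 hx'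
  have npc : ∀ i, ¬ pc N B i x := fun i ⟨b, hb, _⟩ => hx ⟨b, hb⟩
  have npd : ∀ i, ¬ pd N B i x := fun i ⟨b, hb, _⟩ => hx ⟨b, hb⟩
  have npc' : ∀ i, ¬ pc N' B' i x' := fun i ⟨b, hb, _⟩ => hx' ⟨b, hb⟩
  have npd' : ∀ i, ¬ pd N' B' i x' := fun i ⟨b, hb, _⟩ => hx' ⟨b, hb⟩
  refine h2 S f N N' B B' x x' {(x, x')} (h3 S f N B hS hf hN) (h3 S f N' B' hS hf hN') ?_ ?_ ?_ ?_ ?_ ?_
  · rintro ⟨a, b⟩ hab
    simp only [mem_singleton_iff, Prod.mk.injEq] at hab
    rw [e1, e2]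
    exact ⟨by simp [hab.1], by simp [hab.2]⟩
  · intro u hu v hv
    simp only [mem_singleton_iff] at hu hv
    subst hu; subst hv
    simp
  · intro i u hu v hv
    simp only [mem_singleton_iff] at hu hv
    subst hu; subst hv
    exact hr i
  · intro y hy
    rw [e1, mem_singleton_iff] at hy
    exact ⟨x', by simp [hy]⟩
  · intro y hy
    rw [e2, mem_singleton_iff] at hy
    exact ⟨x, by simp [hy]⟩
  · intro i u hu
    simp only [mem_singleton_iff] at hu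
    subst hu
    exact ⟨⟨fun h => absurd h (npc i), fun h => absurd h (npc' i)⟩,
      ⟨fun h => absurd h (npd i), fun h => absurd h (npd' i)⟩⟩

end Pool.Agent.H533R2.VD
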