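import Pool.Agent.H533R2.VD.Spec

set_option autoImplicit false

namespace Pool.Agent.H533R2.VD

open Set
open Pool.Agent.H899R2.VP
open Pool.Agent.H533R2.VO (Glu Lev OS G BlkC Ic iso_symm0 iso_trans0)

/-- Colours on the child of `x`. -/
private theorem bk2_col (h4 : S_CT2) (h5 : S_SGN1) {S : Set (St a3 × Set ℕ)} {N : St a3}
    {B : ℕ → ℕ → Prop} (hC : Ctr S N B) {x b u : ℕ} (hb : B b x) (hu : u ∈ Cn N x b) (i : ℕ) :
    (pc N B i u ↔ rp N i b x = true) ∧ (pd N B i u ↔ rp N i x b = true) := by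
  obtain ⟨c1, _, c3, _, c5, _⟩ := h4 S N B hC
  have hbu : B b u := (c1 x u b (c3 x u b hb hu)).1 hb
  have hce := c5 x u b hb hu i
  obtain ⟨s1, _, _⟩ := h5 S N B hC b u hbu
  rw [(s1 i).1, (s1 i).2, hce.1, hce.2]
  exact ⟨Iff.rfl, Iff.rfl⟩

theorem t_BK2 (h1 : S_BKF) (h2 : S_OBQ) (h3 : S_OBS) (h4 : S_CT2) (h5 : S_SGN1) : S_BK2 := by
  intro S f N N' B B' x x' b b' n hS hf hC hC' hb hb' hsy hsy' hrp hty hty'
  have e1 : Ic (Ob S f N B) x x = Cn N x b := (h1 S f N B hS hf hC x).2.1 b hb hsy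
  have e2 : Ic (Ob S f N' B') x' x' = Cn N' x' b' := (h1 S f N' B' hS hf hC' x').2.1 b' hb' hsy'
  obtain ⟨_, b1, hb1, hi1⟩ := hty
  obtain ⟨_, b2, hb2, hi2⟩ := hty'
  rw [(h4 S N B hC).2.1 x b1 b hb1 hb] at hi1
  rw [(h4 S N' B' hC').2.1 x' b2 b' hb2 hb'] at hi2
  obtain ⟨q, _, hq1, hq2, hq3, hq4⟩ := iso_trans0 (iso_symm0 hi1) hi2
  refine h2 S f N N' B B' x x' q (h3 S f N B hS hf hC) (h3 S f N' B' hS hf hC') ?_ hq2.1 ?_ ?_ ?_ ?_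
  · rw [e1, e2]
    exact hq1
  · intro i u hu v hv
    exact PIso_rp hq2 hu hv i
  · rw [e1]
    exact hq3
  · rw [e2]
    exact hq4
  · intro i u hu
    have m := hq1 hu
    have k1 := bk2_col h4 h5 hC hb m.1 i
    have k2 := bk2_col h4 h5 hC' hb' m.2 i
    rw [k1.1, k1.2, k2.1, k2.2, (hrp i).1, (hrp i).2]
    exact ⟨Iff.rfl, Iff.rfl⟩

end Pool.Agent.H533R2.VD
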