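import Pool.Agent.H533R2.VD.Spec

set_option autoImplicit false

/-! Task BK3 (helper317). -/

namespace Pool.Agent.H533R2.VD

open Set
open Pool.Agent.H899R2.VP
open Pool.Agent.H533R2.VO (Glu Lev OS G BlkC Ic)

private lemma bk3_sb (h1 : S_BKF) (h5 : S_SGN1) {S : Set (St a3 × Set ℕ)} {f : ℕ → St a3 × Set ℕ}
    {N : St a3} {B : ℕ → ℕ → Prop} {x b n : ℕ} (hS : CF S) (hf : Enu S f) (hc : Ctr S N B)
    (hb : B b x) (hs : sy N B x) (hn : ty S f N B n x ∧ ∀ m < n, ¬ ty S f N B m x) :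
    SB (f n) N b (fun i => rp N i b x = true) (Ic (Ob S f N B) x x) ∧
    ∀ y ∈ Ic (Ob S f N B) x x, ∀ i, (pc N B i y ↔ rp N i b x = true) ∧
      (pd N B i y ↔ rp N i x b = true) := by
  obtain ⟨-, -, k3⟩ := h1 S f N B hS hf hc x
  obtain ⟨k4, k5⟩ := k3 b n hb hs hn.1 hn.2
  have hsg := (h5 S N B hc b x hb).1
  refine ⟨⟨hc.cs, ?_, ?_, ?_⟩, ?_⟩
  · intro hbx
    exact (hc.cone b b (k4 b hbx).1).1 rfl
  · intro y hy
    exact ⟨(k4 y hy).2.2.1, (k4 y hy).2.2.2⟩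
  · intro y hy w hw hD i
    rw [k5 y hy w hw hD i]
    exact (hsg i).1
  · intro y hy i
    have h := (k4 y hy).2.1 i
    exact ⟨h.1.trans (hsg i).1, h.2.trans (hsg i).2⟩

theorem t_BK3 (h1 : S_BKF) (h2 : S_SBI) (h3 : S_OBQ) (h4 : S_OBS) (h5 : S_SGN1) : S_BK3 := by
  intro S f N N' B B' x x' b b' n hS hf hc hc' hb hb' hs hs' hr hn hn' hcard
  obtain ⟨s1, p1⟩ := bk3_sb h1 h5 hS hf hc hb hs hn
  obtain ⟨s2, p2⟩ := bk3_sb h1 h5 hS hf hc' hb' hs' hn'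
  have hκ : (fun i => rp N' i b' x' = true) = fun i => rp N i b x = true := by
    funext i
    rw [(hr i).1]
  rw [hκ] at s2
  obtain ⟨q, q1, q2, q3, q4, q5⟩ := h2 (f n) N N' b b' _ _ _ s1 s2 hcard
  refine h3 S f N N' B B' x x' q (h4 S f N B hS hf hc) (h4 S f N' B' hS hf hc') q1 q2 q3 q4 q5 ?_
  intro i u hu
  obtain ⟨hu1, hu2⟩ := q1 hu
  refine ⟨?_, ?_⟩
  · rw [(p1 u.1 hu1 i).1, (p2 u.2 hu2 i).1, (hr i).1]
  · rw [(p1 u.1 hu1 i).2, (p2 u.2 hu2 i).2, (hr i).2]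

end Pool.Agent.H533R2.VD
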