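import Pool.Agent.H533R2.VD.Spec

set_option autoImplicit false

namespace Pool.Agent.H533R2.VD

open Set
open Pool.Agent.H899R2.VP
open Pool.Agent.H533R2.VO (Glu Lev OS G BlkC Ic)

theorem bkf_mem {S : Set (St a3 × Set ℕ)} {f : ℕ → St a3 × Set ℕ} {N : St a3}
    {B : ℕ → ℕ → Prop} {x y : ℕ} :
    y ∈ Ic (Ob S f N B) x x ↔ ¬ Ll S f N B y x ∧ ¬ Ll S f N B x y := by
  unfold Ic Adj Ob
  simp

theorem t_BKF (h1 : S_CT1) (h2 : S_CT2) (h3 : S_CT3) (h4 : S_COL) (h5 : S_SGN1) (h6 : S_SGN2)
    (h7 : S_IDL) (h8 : S_LL2) (h9 : S_LL4) (h10 : S_OB1) : S_BKF := by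
  intro S f N B hS hf hC x
  have hcs := hC.cs
  obtain ⟨c1, c2, c3⟩ := h1 S N B hC
  obtain ⟨d1, d2, d3, d4, d5, d6⟩ := h2 S N B hC
  obtain ⟨i1, i2, i3, i4, i5⟩ := h7 S f N B hS hf hC
  obtain ⟨o1, o2, o3⟩ := h10 S f N B hS hf hC
  have hLB : ∀ u v, B u v → Ll S f N B u v := fun u v h => Or.inl h
  have hLv : ∀ y, y ∈ Ic (Ob S f N B) x x → Lv B x y := by
    intro y hy
    rw [bkf_mem] at hy
    exact ⟨fun h => hy.2 (hLB _ _ h), fun h => hy.1 (hLB _ _ h)⟩
  refine ⟨?_, ?_, ?_⟩
  · intro hx
    ext y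
    rw [bkf_mem]
    constructor
    · rintro ⟨-, hy⟩
      by_contra hne
      exact hy (hLB _ _ (hC.cen x hx y hne))
    · intro hy
      have : y = x := hy
      subst this
      exact ⟨o1 y, o1 y⟩
  · intro b hb hsy
    have hbx : b ≠ x := (hC.cone b x hb).1
    ext y
    constructor
    · intro hy
      have hl := hLv y hy
      rw [bkf_mem] at hy
      by_contra hD
      have hD' : ¬ D N x y b := hD
      have hne : x ≠ y := by
        rintro rfl
        exact hD' (hcs.refl x b hbx.symm)
      rcases (h8 S f N B hC x y b hb hl hne hD' hsy).1 with h | h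
      · exact hy.2 h
      · exact hy.1 h
    · intro hD
      have hD' : D N x y b := hD
      have hl := d3 x y b hb hD'
      have hby : B b y := (d1 x y b hl).1 hb
      rw [bkf_mem]
      constructor
      · intro h
        rcases h with h | h
        · exact hl.2 h
        · exact h.2.2.2.1 b hby (hcs.symm _ _ _ hD')
      · intro h
        rcases h with h | h
        · exact hl.1 h
        · exact h.2.2.2.1 b hb hD'
  · intro b n hb hsy hty hmin
    have hbx : b ≠ x := (hC.cone b x hb).1
    -- level facts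
    have hlv : ∀ y, Lv B x y → B b y ∧ sy N B y ∧ (Ll S f N B x y ↔ idl S f N B x y) ∧
        (Ll S f N B y x ↔ idl S f N B y x) := by
      intro y hl
      have hby : B b y := (d1 x y b hl).1 hb
      have hsy' : sy N B y := (h6 S N B hC b x y hb hl).1.1 hsy
      exact ⟨hby, hsy', h9 S f N B hS hf hC x y b hb hl hsy,
        h9 S f N B hS hf hC y x b hby ⟨hl.2, hl.1⟩ hsy'⟩
    have htyy : ∀ y, y ∈ Ic (Ob S f N B) x x → ty S f N B n y ∧ ¬ idl S f N B x y ∧
        ¬ idl S f N B y x := by
      intro y hy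
      have hl := hLv y hy
      obtain ⟨hby, hsy', e1, e2⟩ := hlv y hl
      rw [bkf_mem] at hy
      have n1 : ¬ idl S f N B x y := fun h => hy.2 (e1.2 h)
      have n2 : ¬ idl S f N B y x := fun h => hy.1 (e2.2 h)
      refine ⟨?_, n1, n2⟩
      obtain ⟨n', hn', hm'⟩ := i5 y b hby
      rcases lt_trichotomy n n' with h | h | h
      · exact absurd ⟨n, hty, fun m hm => hm' m (lt_of_le_of_lt hm h)⟩ n1
      · rw [h]; exact hn'
      · exact absurd ⟨n', hn', fun m hm => hmin m (lt_of_le_of_lt hm h)⟩ n2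
    have hcol : ∀ y, y ∈ Ic (Ob S f N B) x x → ∀ i, (pc N B i y ↔ pc N B i x) ∧
        (pd N B i y ↔ pd N B i x) := by
      intro y hy i
      have hl := hLv y hy
      obtain ⟨hby, hsy', -, -⟩ := hlv y hl
      have hce := (h6 S N B hC b x y hb hl).2.1 hsy
      have s1 := (h5 S N B hC b x hb).1 i
      have s2 := (h5 S N B hC b y hby).1 i
      rw [s1.1, s1.2, s2.1, s2.2, (hce i).1, (hce i).2]
      exact ⟨Iff.rfl, Iff.rfl⟩
    refine ⟨?_, ?_⟩
    · intro y hy
      have hl := hLv y hy
      obtain ⟨hby, hsy', -, -⟩ := hlv y hl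
      obtain ⟨hty', n1, n2⟩ := htyy y hy
      refine ⟨hby, hcol y hy, ?_, ?_⟩
      · intro w hw
        have hw' : D N y w b := hw
        have hlw := d3 y w b hby hw'
        have hlxw : Lv B x w := by
          constructor
          · intro h
            rcases c3 x y w h with h' | h'
            · exact hl.1 h'
            · exact hlw.1 h'
          · intro h
            rcases c3 w y x h with h' | h'
            · exact hlw.2 h'
            · exact hl.2 h'
        obtain ⟨hbw, hsw, e1, e2⟩ := hlv w hlxw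
        have hti := i4 y w b hby hw'
        rw [bkf_mem]
        constructor
        · intro h
          obtain ⟨m, hm1, hm2⟩ := e2.1 h
          exact n2 ⟨m, (hti m).2 hm1, hm2⟩
        · intro h
          obtain ⟨m, hm1, hm2⟩ := e1.1 h
          exact n1 ⟨m, hm1, fun k hk hk' => hm2 k hk ((hti k).1 hk')⟩
      · obtain ⟨-, b', hb', hiso⟩ := hty'
        rw [d2 y b b' hby hb']
        exact hiso
    · intro y hy w hw hD i
      have hly := hLv y hy
      have hlw := hLv w hw
      obtain ⟨hby, hsy', -, -⟩ := hlv y hly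
      obtain ⟨hbw, hsw, -, -⟩ := hlv w hlw
      have hne : y ≠ w := by
        rintro rfl
        exact hD (hcs.refl y b (hC.cone b y hby).1.symm)
      have hlyw : Lv B y w := by
        constructor
        · intro h
          rcases c3 y x w h with h' | h'
          · exact hly.2 h'
          · exact hlw.1 h'
        · intro h
          rcases c3 w x y h with h' | h'
          · exact hlw.2 h'
          · exact hly.1 h'
      obtain ⟨g1, g2, g3, g4, g5⟩ := (h3 S N B hC).1 y w b hlyw hby hne hD
      have hdeg := hcs.deg b y w g4 hne g5 g1 g2 g3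
      have hsc := ((h5 S N B hC b y hby).2.1).1 hsy'
      have hcol' := ((h4 (rp N) b y w hdeg).2.2.1 hsc).2
      have s2 := (h5 S N B hC b y hby).1 i
      rw [(hcol' i).1, ← s2.1]
      exact (hcol y hy i).1

end Pool.Agent.H533R2.VD
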