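import Pool.Agent.H533R2.VD.Spec
import Pool.Agent.H899R2.VP.Bnd

set_option autoImplicit false

/-! H533 VD, task BL3: a full binary tree from unbounded ranks (helper722). -/

namespace Pool.Agent.H533R2.VD
open Set MeasureTheory
open Pool.Agent.H899R2.VP

theorem bl3_polish_of {X : Type*} [TopologicalSpace X] [h1 : SecondCountableTopology X]
    [h2 : TopologicalSpace.IsCompletelyMetrizableSpace X] : PolishSpace X := { h1, h2 with }

/-- data -/
abbrev Bl3D : Type := (ℕ → Bool) × (ℕ → ℕ → ℕ → Bool)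

/-- rank read from data -/
def bl3R (w : Bl3D) (β : Ordinal.{0}) (p : ℕ) : Prop :=
  Rk (fun p => w.1 p = true) (fun p q r => w.2 p q r = true) β p

theorem bl3R_rel {w : Bl3D} {β : Ordinal.{0}} {p : ℕ} (h : bl3R w β p) : w.1 p = true :=
  Rk_rel (B := fun p => w.1 p = true) (Sp := fun p q r => w.2 p q r = true) h

theorem bl3R_mono {w : Bl3D} {β γ : Ordinal.{0}} {p : ℕ} (hle : γ ≤ β) (h : bl3R w β p) :
    bl3R w γ p :=
  Rk_mono (B := fun p => w.1 p = true) (Sp := fun p q r => w.2 p q r = true) hle h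

theorem bl3R_split {w : Bl3D} {β : Ordinal.{0}} {p : ℕ} (h : bl3R w (β + 1) p) :
    ∃ F : ℕ × ℕ, w.2 p F.1 F.2 = true ∧ bl3R w β F.1 ∧ bl3R w β F.2 := by
  unfold bl3R at h
  rw [Rk_iff] at h
  obtain ⟨q, r, h1, h2, h3⟩ := h.2 β (lt_add_one _)
  exact ⟨(q, r), h1, h2, h3⟩

/-- invariant of the construction -/
def bl3Inv (g : (ℕ → ℕ) → Bl3D) (m : ℕ) (s : ℕ → ℕ) (p : List Bool → ℕ) (T : Set ℕ)
    (U : Set (ℕ × ℕ × ℕ)) : Prop :=
  ∀ β : Ordinal.{0}, β < Ordinal.omega 1 → ∃ z : ℕ → ℕ, (∀ i < m, z i = s i) ∧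
    (∀ l : List Bool, l.length = m → bl3R (g z) β (p l)) ∧
    (∀ u ∈ T, (g z).1 u = true) ∧ ∀ u ∈ U, (g z).2 u.1 u.2.1 u.2.2 = true

theorem bl3Inv_step {g : (ℕ → ℕ) → Bl3D} {m : ℕ} {s : ℕ → ℕ} {p : List Bool → ℕ} {T : Set ℕ}
    {U : Set (ℕ × ℕ × ℕ)} (h : bl3Inv g m s p T U) : ∃ (k : ℕ) (p' : List Bool → ℕ),
      bl3Inv g (m + 1) (Function.update s m k) p' (T ∪ {u | ∃ l : List Bool, l.length = m ∧ u = p l})
        (U ∪ {u | ∃ l : List Bool, l.length = m ∧
          u = (p l, p' (l ++ [false]), p' (l ++ [true]))}) := by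
  classical
  obtain ⟨⟨k, q⟩, hk⟩ := pigeon (κ := ℕ × (List.Vector Bool m → ℕ × ℕ))
    (fun β κ => ∃ z : ℕ → ℕ, (∀ i < m, z i = s i) ∧ z m = κ.1 ∧
      (∀ l : List.Vector Bool m, (g z).2 (p l.1) (κ.2 l).1 (κ.2 l).2 = true ∧
        bl3R (g z) β (κ.2 l).1 ∧ bl3R (g z) β (κ.2 l).2) ∧
      (∀ u ∈ T ∪ {u | ∃ l : List Bool, l.length = m ∧ u = p l}, (g z).1 u = true) ∧
      ∀ u ∈ U, (g z).2 u.1 u.2.1 u.2.2 = true)
    (by
      rintro β γ κ hγ ⟨z, h1, h2, h3, h4, h5⟩
      exact ⟨z, h1, h2, fun i => ⟨(h3 i).1, bl3R_mono hγ (h3 i).2.1, bl3R_mono hγ (h3 i).2.2⟩,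
        h4, h5⟩)
    (by
      intro β hβ
      have hs : β + 1 < Ordinal.omega 1 := (Cardinal.isSuccLimit_omega 1).add_one_lt hβ
      obtain ⟨z, hz1, hz2, hz3, hz4⟩ := h _ hs
      have hw : ∀ l : List.Vector Bool m, ∃ F : ℕ × ℕ, (g z).2 (p l.1) F.1 F.2 = true ∧
          bl3R (g z) β F.1 ∧ bl3R (g z) β F.2 := fun l => bl3R_split (hz2 l.1 l.2)
      choose w hw1 using hw
      refine ⟨(z m, w), z, hz1, rfl, hw1, ?_, hz4⟩
      rintro u (hu | ⟨l, hl, rfl⟩)
      · exact hz3 u hu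
      · exact bl3R_rel (hz2 l hl))
  let q0 : List Bool → ℕ × ℕ := fun l => if h : l.length = m then q ⟨l, h⟩ else (0, 0)
  have hq0 : ∀ (l : List Bool) (h : l.length = m), q0 l = q ⟨l, h⟩ := by
    intro l h
    simp only [q0, dif_pos h]
  let p' : List Bool → ℕ := fun l =>
    if l.getLast? = some true then (q0 l.dropLast).2 else (q0 l.dropLast).1
  refine ⟨k, p', ?_⟩
  intro β hβ
  obtain ⟨z, h1, h2, h3, h4, h5⟩ := hk β hβ
  have h3' : ∀ l : List Bool, l.length = m → (g z).2 (p l) (q0 l).1 (q0 l).2 = true ∧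
        bl3R (g z) β (q0 l).1 ∧ bl3R (g z) β (q0 l).2 := by
    intro l hl
    rw [hq0 l hl]
    exact h3 ⟨l, hl⟩
  refine ⟨z, fun i hi => ?_, ?_, h4, ?_⟩
  · rcases Nat.lt_succ_iff_lt_or_eq.1 hi with hi | rfl
    · rw [Function.update_of_ne hi.ne]; exact h1 i hi
    · rw [Function.update_self]; exact h2
  · intro l hl
    have hd : l.dropLast.length = m := by
      rw [List.length_dropLast, hl]; rfl
    simp only [p']
    split_ifs
    · exact (h3' _ hd).2.2
    · exact (h3' _ hd).2.1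
  · rintro u (hu | ⟨l, hl, rfl⟩)
    · exact h5 u hu
    · have e1 : p' (l ++ [false]) = (q0 l).1 := by
        simp only [p', List.dropLast_concat, List.getLast?_append, List.getLast?_singleton]
        simp
      have e2 : p' (l ++ [true]) = (q0 l).2 := by
        simp only [p', List.dropLast_concat, List.getLast?_append, List.getLast?_singleton]
        simp
      simp only [e1, e2]
      exact (h3' l hl).1

theorem bl3_tree (g : (ℕ → ℕ) → Bl3D) (hg : Continuous g)
    (h : ∀ ξ : Ordinal.{0}, ξ < Ordinal.omega 1 → ∃ z, ∃ p, bl3R (g z) ξ p) :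
    ∃ z, ∃ P : List Bool → ℕ, (∀ l, (g z).1 (P l) = true) ∧
      ∀ l, (g z).2 (P l) (P (l ++ [false])) (P (l ++ [true])) = true := by
  classical
  obtain ⟨x0, hxy⟩ := pigeon (κ := ℕ)
    (fun β κ => ∃ z : ℕ → ℕ, bl3R (g z) β κ)
    (by
      rintro β γ κ hγ ⟨z, h1⟩
      exact ⟨z, bl3R_mono hγ h1⟩)
    (by
      intro β hβ
      obtain ⟨z, x, hz⟩ := h β hβ
      exact ⟨x, z, hz⟩)
  have h0 : bl3Inv g 0 (fun _ => 0) (fun _ => x0) ∅ ∅ := by
    intro β hβ
    obtain ⟨z, hz⟩ := hxy β hβ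
    exact ⟨z, fun i hi => absurd hi (Nat.not_lt_zero i), fun l _ => hz,
      fun u hu => absurd hu (by simp), fun u hu => absurd hu (by simp)⟩
  -- the sequence of states
  obtain ⟨S, hS⟩ : ∃ S : ℕ → (ℕ → ℕ) × (List Bool → ℕ) × Set ℕ × Set (ℕ × ℕ × ℕ),
      ∀ n, bl3Inv g n (S n).1 (S n).2.1 (S n).2.2.1 (S n).2.2.2 ∧
        ∃ (k : ℕ) (p' : List Bool → ℕ), S (n + 1) =
        (Function.update (S n).1 n k, p', (S n).2.2.1 ∪
          {u | ∃ l : List Bool, l.length = n ∧ u = (S n).2.1 l},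
          (S n).2.2.2 ∪ {u | ∃ l : List Bool, l.length = n ∧
          u = ((S n).2.1 l, p' (l ++ [false]), p' (l ++ [true]))}) := by
    have hst : ∀ n (σ : {σ : (ℕ → ℕ) × (List Bool → ℕ) × Set ℕ × Set (ℕ × ℕ × ℕ) //
        bl3Inv g n σ.1 σ.2.1 σ.2.2.1 σ.2.2.2}),
        ∃ τ : {σ : (ℕ → ℕ) × (List Bool → ℕ) × Set ℕ × Set (ℕ × ℕ × ℕ) //
          bl3Inv g (n + 1) σ.1 σ.2.1 σ.2.2.1 σ.2.2.2},
          ∃ (k : ℕ) (p' : List Bool → ℕ), τ.1 =
            (Function.update σ.1.1 n k, p', σ.1.2.2.1 ∪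
              {u | ∃ l : List Bool, l.length = n ∧ u = σ.1.2.1 l},
              σ.1.2.2.2 ∪ {u | ∃ l : List Bool, l.length = n ∧
                u = (σ.1.2.1 l, p' (l ++ [false]), p' (l ++ [true]))}) := by
      rintro n ⟨σ, hσ⟩
      obtain ⟨k, p', hh⟩ := bl3Inv_step hσ
      exact ⟨⟨_, hh⟩, k, p', rfl⟩
    choose F hF using hst
    let G : ∀ n, {σ : (ℕ → ℕ) × (List Bool → ℕ) × Set ℕ × Set (ℕ × ℕ × ℕ) //
        bl3Inv g n σ.1 σ.2.1 σ.2.2.1 σ.2.2.2} :=
      fun n => Nat.rec ⟨(fun _ => 0, fun _ => x0, ∅, ∅), h0⟩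
        (fun n σ => F n σ) n
    exact ⟨fun n => (G n).1, fun n => ⟨(G n).2, hF n (G n)⟩⟩
  choose hinv k p' hstep using hS
  set z : ℕ → ℕ := fun i => (S (i + 1)).1 i with hz
  have hmono1 : ∀ n, (S n).2.2.1 ⊆ (S (n + 1)).2.2.1 := by
    intro n
    rw [hstep n]
    exact subset_union_left
  have hmono1' : Monotone fun n => (S n).2.2.1 := monotone_nat_of_le_succ hmono1
  have hmono2 : ∀ n, (S n).2.2.2 ⊆ (S (n + 1)).2.2.2 := by
    intro n
    rw [hstep n]
    exact subset_union_left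
  have hmono2' : Monotone fun n => (S n).2.2.2 := monotone_nat_of_le_succ hmono2
  have hpre : ∀ n, ∀ i < n, (S n).1 i = z i := by
    intro n
    induction n with
    | zero => intro i hi; exact absurd hi (Nat.not_lt_zero i)
    | succ n ih =>
      intro i hi
      rcases Nat.lt_succ_iff_lt_or_eq.1 hi with hi | rfl
      · rw [hstep n]
        simp only [Function.update_of_ne hi.ne]
        exact ih i hi
      · rfl
  have hzm : ∀ m, ∃ w : ℕ → ℕ, (∀ i < m, w i = z i) ∧
      (∀ u ∈ (S m).2.2.1, (g w).1 u = true) ∧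
      (∀ u ∈ (S m).2.2.2, (g w).2 u.1 u.2.1 u.2.2 = true) := by
    intro m
    obtain ⟨w, hw1, -, hw2, hw3⟩ := hinv m 0 (Ordinal.omega_pos 1)
    exact ⟨w, fun i hi => (hw1 i hi).trans (hpre m i hi), hw2, hw3⟩
  choose w hw1 hw2 hw3 using hzm
  have hlim : Filter.Tendsto w Filter.atTop (nhds z) := by
    rw [tendsto_pi_nhds]
    intro i
    apply tendsto_const_nhds.congr'
    filter_upwards [Filter.eventually_gt_atTop i] with m hm
    exact (hw1 m i hm).symm
  have hp1 : ∀ n, ∀ u ∈ (S n).2.2.1, (g z).1 u = true := by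
    intro n u hu
    have hc : Continuous fun z => (g z).1 u :=
      (continuous_apply u).comp (continuous_fst.comp hg)
    have hlim2 := (hc.tendsto z).comp hlim
    exact (isClosed_singleton (x := true)).mem_of_tendsto hlim2
      (by filter_upwards [Filter.eventually_ge_atTop n] with m hm using
        hw2 m u (hmono1' hm hu))
  have hp2 : ∀ n, ∀ u ∈ (S n).2.2.2, (g z).2 u.1 u.2.1 u.2.2 = true := by
    intro n u hu
    have hc : Continuous fun z => (g z).2 u.1 u.2.1 u.2.2 :=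
      (continuous_apply u.2.2).comp ((continuous_apply u.2.1).comp ((continuous_apply u.1).comp
        (continuous_snd.comp hg)))
    have hlim2 := (hc.tendsto z).comp hlim
    exact (isClosed_singleton (x := true)).mem_of_tendsto hlim2
      (by filter_upwards [Filter.eventually_ge_atTop n] with m hm using
        hw3 m u (hmono2' hm hu))
  refine ⟨z, fun l => (S l.length).2.1 l, fun l => ?_, fun l => ?_⟩
  · have hmem : (S l.length).2.1 l ∈ (S (l.length + 1)).2.2.1 := by
      rw [hstep l.length]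
      exact Or.inr ⟨l, rfl, rfl⟩
    exact hp1 (l.length + 1) _ hmem
  · have hpp : (S (l.length + 1)).2.1 = p' l.length := by rw [hstep l.length]
    have hmem : ((S l.length).2.1 l, (S (l.length + 1)).2.1 (l ++ [false]),
        (S (l.length + 1)).2.1 (l ++ [true])) ∈ (S (l.length + 1)).2.2.2 := by
      rw [hpp, hstep l.length]
      exact Or.inr ⟨l, rfl, rfl⟩
    have h1 := hp2 (l.length + 1) _ hmem
    have e1 : (l ++ [false]).length = l.length + 1 := by simp
    have e2 : (l ++ [true]).length = l.length + 1 := by simp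
    simp only [e1, e2]
    exact h1

theorem t_BL3 : S_BL3 := by
  intro K B Sp hK hB hSp h
  classical
  have b1 : BorelSpace ((i : ℕ) → (Fin (a3 i) → ℕ) → Bool) := inferInstance
  have b2' : BorelSpace (ℕ → Bool) := inferInstance
  have s2' : SecondCountableTopology (ℕ → Bool) := inferInstance
  have b2'' : BorelSpace (ℕ → ℕ → Bool) := inferInstance
  have s2'' : SecondCountableTopology (ℕ → ℕ → Bool) := inferInstance
  have b2 : BorelSpace (ℕ → ℕ → ℕ → Bool) := Pi.borelSpace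
  have s2 : SecondCountableTopology (ℕ → ℕ → ℕ → Bool) := inferInstance
  have s1 : SecondCountableTopology (St a3) := inferInstance
  have b3 : BorelSpace (St a3) := inferInstance
  have b3' : BorelSpace Bl3D := inferInstance
  have b4 : BorelSpace (St a3 × Bl3D) := inferInstance
  have b5 : PolishSpace (St a3 × Bl3D) := bl3_polish_of
  set W : Set (St a3 × Bl3D) :=
    {Q | Q.1 ∈ K ∧ (∀ p, Q.2.1 p = true ↔ Q.1 ∈ K ∧ B Q.1 p) ∧
      ∀ p q r, Q.2.2 p q r = true ↔ Q.1 ∈ K ∧ Sp Q.1 p q r} with hW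
  have hWm : MeasurableSet W := by
    have h1 : MeasurableSet {Q : St a3 × Bl3D | Q.1 ∈ K} := measurable_fst hK
    have h2 : MeasurableSet {Q : St a3 × Bl3D |
        ∀ p, Q.2.1 p = true ↔ Q.1 ∈ K ∧ B Q.1 p} := by
      apply measurableSet_setOfPred.2
      refine Measurable.forall fun x => ?_
      refine Measurable.iff ?_ ?_
      · apply measurableSet_setOfPred.1
        have h3 : Measurable (fun Q : St a3 × Bl3D => Q.2.1 x) :=
          (measurable_pi_apply x).comp (measurable_fst.comp measurable_snd)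
        exact h3 (measurableSet_singleton true)
      · apply measurableSet_setOfPred.1
        exact measurable_fst (hB x)
    have h3 : MeasurableSet {Q : St a3 × Bl3D |
        ∀ p q r, Q.2.2 p q r = true ↔ Q.1 ∈ K ∧ Sp Q.1 p q r} := by
      apply measurableSet_setOfPred.2
      refine Measurable.forall fun x => Measurable.forall fun y => Measurable.forall fun y' => ?_
      refine Measurable.iff ?_ ?_
      · apply measurableSet_setOfPred.1
        have h3 : Measurable (fun Q : St a3 × Bl3D => Q.2.2 x y y') :=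
          (measurable_pi_apply y').comp ((measurable_pi_apply y).comp
            ((measurable_pi_apply x).comp (measurable_snd.comp measurable_snd)))
        exact h3 (measurableSet_singleton true)
      · apply measurableSet_setOfPred.1
        exact measurable_fst (hSp x y y')
    exact h1.inter (h2.inter h3)
  have hmemW : ∀ M ∈ K, (M, ((fun p => decide (B M p)), fun p q r => decide (Sp M p q r))) ∈ W := by
    intro M hM
    refine ⟨hM, fun x => ?_, fun p q r => ?_⟩
    · simp [hM]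
    · simp [hM]
  have han : AnalyticSet W := hWm.analyticSet
  rw [AnalyticSet] at han
  rcases han with he | ⟨f, hf, hr⟩
  · obtain ⟨M, hM, -⟩ := h 0 (Ordinal.omega_pos 1)
    have := hmemW M hM
    rw [he] at this
    exact absurd this (Set.notMem_empty _)
  · have hfW : ∀ z, f z ∈ W := fun z => by rw [← hr]; exact mem_range_self z
    have hiff1 : ∀ z x, ((f z).2.1 x = true ↔ B (f z).1 x) := by
      intro z x
      have h1 := (hfW z).2.1 x
      rw [h1]
      exact ⟨fun h => h.2, fun h => ⟨(hfW z).1, h⟩⟩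
    have hiff2 : ∀ z p q r, ((f z).2.2 p q r = true ↔ Sp (f z).1 p q r) := by
      intro z p q r
      have h1 := (hfW z).2.2 p q r
      rw [h1]
      exact ⟨fun h => h.2, fun h => ⟨(hfW z).1, h⟩⟩
    obtain ⟨z, P, hP1, hP2⟩ := bl3_tree (fun z => (f z).2) (continuous_snd.comp hf) (by
      intro ξ hξ
      obtain ⟨M, hM, x, hxy⟩ := h ξ hξ
      have h1 := hmemW M hM
      rw [← hr] at h1
      obtain ⟨z, hz⟩ := h1
      refine ⟨z, x, ?_⟩
      unfold bl3R
      have e1 : (fun p => (f z).2.1 p = true) = B M := by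
        funext p
        rw [hz]
        simp
      have e2 : (fun p q r => (f z).2.2 p q r = true) = Sp M := by
        funext p q r
        rw [hz]
        simp
      rw [e1, e2]
      exact hxy)
    exact ⟨(f z).1, (hfW z).1, P, fun s => (hiff1 z _).1 (hP1 s), fun s => (hiff2 z _ _ _).1 (hP2 s)⟩

end Pool.Agent.H533R2.VD
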