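import Pool.Agent.H533R2.VD.Spec

set_option autoImplicit false

/-! Countably many block types (helper118). -/

namespace Pool.Agent.H533R2.VD

open Set
open Pool.Agent.H899R2.VP
open Pool.Agent.H533R2.VO (Glu Lev OS G BlkC Ic S_MAIN)

theorem t_BLK3 (h1 : S_LAB3) (h2 : S_BK1) (h3 : S_BK2) (h4 : S_BK3) (h5 : S_IDL) : S_BLK3 := by
  intro α K S f b hK hS hf
  obtain ⟨c, hc⟩ := h1 α K hK 0 (Ordinal.omega_pos 1)
  let Inv : St a2 → ℕ → (ℕ × ℕ × ℕ × ℕ∞) → Prop := fun O x k =>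
    ∃ (N : St a3) (B : ℕ → ℕ → Prop), N ∈ K ∧ Ctr S N B ∧ O = Ob S f N B ∧
    (((¬ ∃ b, B b x) ∧ k = (0, c N [x], 0, 0)) ∨
     (∃ b n, B b x ∧ ¬ sy N B x ∧ ty S f N B n x ∧ k = (1, c N [b, x], n, 0)) ∨
     (∃ b n, B b x ∧ sy N B x ∧ (ty S f N B n x ∧ ∀ m < n, ¬ ty S f N B m x) ∧
       k = (2, c N [b, x], n, {C | ∃ y ∈ Ic (Ob S f N B) x x, C = Cn N y b}.encard)))
  have hex : ∀ O ∈ KP S f K b, ∀ x, ∃ k, Inv O x k := by
    rintro O ⟨v, -, hN, hC, hO⟩ x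
    by_cases hb : ∃ b', Be S b (ex (Rc O)) v b' x
    · obtain ⟨b', hb'⟩ := hb
      obtain ⟨n, hn1, hn2⟩ := (h5 S f _ _ hS hf hC).2.2.2.2 x b' hb'
      by_cases hsy : sy (ex (Rc O)) (Be S b (ex (Rc O)) v) x
      · exact ⟨_, _, _, hN, hC, hO, Or.inr (Or.inr ⟨b', n, hb', hsy, ⟨hn1, hn2⟩, rfl⟩)⟩
      · exact ⟨_, _, _, hN, hC, hO, Or.inr (Or.inl ⟨b', n, hb', hsy, hn1, rfl⟩)⟩
    · exact ⟨_, _, _, hN, hC, hO, Or.inl ⟨hb, rfl⟩⟩
  have hiso : ∀ O O' x x' k, Inv O x k → Inv O' x' k → IsoOn O O' (Ic O x x) (Ic O' x' x') ∅ := by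
    rintro O O' x x' k ⟨N, B, hN, hC, rfl, hk⟩ ⟨N', B', hN', hC', rfl, hk'⟩
    have key : ∀ b b', c N [b, x] = c N' [b', x'] →
        ∀ i, rp N i b x = rp N' i b' x' ∧ rp N i x b = rp N' i x' b' := by
      intro b b' he i
      have hp := (hc N hN N' hN' [b, x] [b', x'] rfl he).piso
      have m1 : (b, b') ∈ zipSet [b, x] [b', x'] := by simp [zipSet]
      have m2 : (x, x') ∈ zipSet [b, x] [b', x'] := by simp [zipSet]
      exact ⟨PIso_rp hp m1 m2 i, PIso_rp hp m2 m1 i⟩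
    rcases hk with ⟨hk1, hk2⟩ | ⟨b1, n, hb1, hk1, hk2, hk3⟩ | ⟨b1, n, hb1, hk1, hk2, hk3⟩
    · rcases hk' with ⟨hk1', hk2'⟩ | ⟨b1', n', hb1', hk1', hk2', hk3'⟩ |
        ⟨b1', n', hb1', hk1', hk2', hk3'⟩
      · have he := hk2.symm.trans hk2'
        simp only [Prod.mk.injEq] at he
        refine h2 S f N N' B B' x x' hS hf hC hC' hk1 hk1' fun i => ?_
        have hp := (hc N hN N' hN' [x] [x'] rfl he.2.1).piso
        have m2 : (x, x') ∈ zipSet [x] [x'] := by simp [zipSet]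
        exact PIso_rp hp m2 m2 i
      · have he := hk2.symm.trans hk3'
        simp at he
      · have he := hk2.symm.trans hk3'
        simp at he
    · rcases hk' with ⟨hk1', hk2'⟩ | ⟨b1', n', hb1', hk1', hk2', hk3'⟩ |
        ⟨b1', n', hb1', hk1', hk2', hk3'⟩
      · have he := hk3.symm.trans hk2'
        simp at he
      · have he := hk3.symm.trans hk3'
        simp only [Prod.mk.injEq] at he
        obtain ⟨-, he1, he2, -⟩ := he
        subst he2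
        exact h3 S f N N' B B' x x' b1 b1' n hS hf hC hC' hb1 hb1' hk1 hk1' (key b1 b1' he1)
          hk2 hk2'
      · have he := hk3.symm.trans hk3'
        simp at he
    · rcases hk' with ⟨hk1', hk2'⟩ | ⟨b1', n', hb1', hk1', hk2', hk3'⟩ |
        ⟨b1', n', hb1', hk1', hk2', hk3'⟩
      · have he := hk3.symm.trans hk2'
        simp at he
      · have he := hk3.symm.trans hk3'
        simp at he
      · have he := hk3.symm.trans hk3'
        simp only [Prod.mk.injEq] at he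
        obtain ⟨-, he1, he2, he3⟩ := he
        subst he2
        exact h4 S f N N' B B' x x' b1 b1' n hS hf hC hC' hb1 hb1' hk1 hk1' (key b1 b1' he1)
          hk2 hk2' he3
  classical
  haveI : Countable (ℕ × ℕ × ℕ × ℕ∞) := inferInstance
  obtain ⟨g, hg⟩ := exists_surjective_nat (ℕ × ℕ × ℕ × ℕ∞)
  have hch : ∀ k : ℕ × ℕ × ℕ × ℕ∞, ∃ P : St a2 × Set ℕ, ∀ O x, Inv O x k →
      ∃ O' x', P = (O', Ic O' x' x') ∧ Inv O' x' k := by
    intro k
    by_cases h : ∃ O x, Inv O x k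
    · obtain ⟨O, x, h⟩ := h
      exact ⟨(O, Ic O x x), fun _ _ _ => ⟨O, x, rfl, h⟩⟩
    · exact ⟨((fun _ _ => false, fun _ _ => false), ∅), fun O x hx => absurd ⟨O, x, hx⟩ h⟩
  choose P hP using hch
  refine ⟨fun n => P (g n), fun O hO x => ?_⟩
  obtain ⟨k, hk⟩ := hex O hO x
  obtain ⟨n, rfl⟩ := hg k
  obtain ⟨O', x', he, hi⟩ := hP (g n) O x hk
  refine ⟨n, ?_⟩
  simp only [he]
  exact hiso O' O x' x (g n) hi hk

end Pool.Agent.H533R2.VD
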