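import Pool.Agent.H533R2.VD.Spec

set_option autoImplicit false

namespace Pool.Agent.H533R2.VD

open Set
open Pool.Agent.H899R2.VP

theorem cbf_JJ {α : Ordinal.{0}} {M : St a3} {x z : ℕ → ℕ} (h : Cb α M x z) (m n : ℕ)
    (hmn : m ≤ n) : Nd M (x n) (x (n + 1)) ⊆ Nd M (x m) (x (m + 1)) := by
  induction n, hmn using Nat.le_induction with
  | base => exact subset_rfl
  | succ n _ ih => exact (h.JJ n).trans ih

theorem t_CBF : S_CBF := by
  intro α M x z h
  refine ⟨cbf_JJ h, ?_, ?_, ?_, ?_⟩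
  · intro m n hmn
    exact (h.XJ n).trans (cbf_JJ h m n hmn)
  · intro m n hmn
    exact (h.XJd m).mono_right (cbf_JJ h (m + 1) n hmn)
  · intro k hk
    exact h.cs.c2 _ _ _ hk hk
  · intro k
    exact h.cs.refl _ _ (h.ne k)

end Pool.Agent.H533R2.VD
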