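import Pool.Agent.H533R2.VD.Spec

set_option autoImplicit false

namespace Pool.Agent.H533R2.VD

open Set
open Pool.Agent.H899R2.VP
open Pool.Agent.H533R2.VO (Glu Lev OS G BlkC Ic)

theorem cnt3_countable {β : Ordinal.{0}} (hβ : β < Ordinal.omega 1) : Countable (Set.Iio β) := by
  rw [Set.countable_coe_iff, ← Cardinal.le_aleph0_iff_set_countable, Cardinal.mk_Iio_ordinal,
    Cardinal.lift_le_aleph0]
  rw [← Cardinal.ord_aleph, Cardinal.lt_ord, ← Cardinal.succ_aleph0, Order.lt_succ_iff] at hβ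
  exact hβ

theorem t_CNT3 (h1 : S_SIM3) (h2 : S_GENUC) : S_CNT3 := by
  intro α K S hG hS ξ
  induction ξ using WellFoundedLT.induction with
  | ind ξ ih =>
    intro hξ
    have hc := cnt3_countable hξ
    have ih' : ∀ i : Set.Iio ξ, ∃ S' : Set (St a3 × Set ℕ), CF S' ∧ S ⊆ S' ∧
        ∀ M ∈ K, ∀ p, Pr p → ¬ Rk (Bc S M) (Sc M) i.1 p → (M, Cc M p) ∈ S' :=
      fun i => ih i.1 i.2 (lt_trans i.2 hξ)
    choose T hTf hTS hT using ih'
    have hsim : ∀ i : Set.Iio ξ, ∃ S' : Set (St a3 × Set ℕ), CF S' ∧ T i ⊆ S' ∧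
        ∀ M ∈ K, ∀ p, Bc S' M p → ∃ q r, Sc M p q r ∧ Bc (T i) M q ∧ Bc (T i) M r :=
      fun i => h1 α K (T i) hG (hTf i)
    choose T' hT'f hT'T hT' using hsim
    obtain ⟨S', hS'f, hS'⟩ := h2 (Option (Set.Iio ξ))
      (fun o => match o with
        | none => S
        | some i => T' i) (by
          intro o
          cases o with
          | none => exact hS
          | some i => exact hT'f i)
    refine ⟨S', hS'f, hS' none, ?_⟩
    intro M hM p hp hr
    by_cases hmem : (M, Cc M p) ∈ S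
    · exact hS' none hmem
    · rw [Rk_iff] at hr
      have h3 : ¬ ∀ o' : Ordinal.{0}, o' < ξ → ∃ q r, Sc M p q r ∧
          Rk (Bc S M) (Sc M) o' q ∧ Rk (Bc S M) (Sc M) o' r := fun h => hr ⟨⟨hp, hmem⟩, h⟩
      push Not at h3
      obtain ⟨o', ho', h4⟩ := h3
      apply hS' (some ⟨o', ho'⟩)
      show (M, Cc M p) ∈ T' ⟨o', ho'⟩
      by_contra hcon
      obtain ⟨q, r, hsc, hq, hr'⟩ := hT' ⟨o', ho'⟩ M hM p ⟨hp, hcon⟩
      have e1 : Rk (Bc S M) (Sc M) o' q := by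
        by_contra h
        exact hq.2 (hT ⟨o', ho'⟩ M hM q hq.1 h)
      have e2 : Rk (Bc S M) (Sc M) o' r := by
        by_contra h
        exact hr'.2 (hT ⟨o', ho'⟩ M hM r hr'.1 h)
      exact h4 q r hsc e1 e2

end Pool.Agent.H533R2.VD
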