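import Pool.Agent.H533R2.VD.Spec
import Pool.Agent.H533R2.VO.GLC

set_option autoImplicit false

/-! Task CODE3: combs contradict the hypothesis of few models. -/

namespace Pool.Agent.H533R2.VD

open Set
open Pool.Agent.H899R2.VP
open Pool.Agent.H533R2.VO (Glu)

theorem t_CODE3 (h1 : S_SEQ3) (h2 : S_DSF) (h3 : S_DD) : S_CODE3 := by
  intro α K hG M hM x z hcb
  obtain ⟨t, ht⟩ := h1 α M x z hG.om hcb
  have hSU : SU α M x z t := ⟨hG.om, hcb, ht⟩
  refine hG.few ⟨fun σ => DS M x z t σ, ?_, ?_, ?_⟩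
  · unfold DS
    refine Pool.Agent.H533R2.VO.t_GLC a3 ℕ M (fun k => Cn M (x k) (z k))
      (fun k σ => t (2 * k + (σ k).toNat)) hcb.dj ?_
    intro k
    have h4 : Continuous fun b : Bool => t (2 * k + b.toNat) := continuous_of_discreteTopology
    exact h4.comp (continuous_apply k)
  · intro σ
    exact hG.closed M hM _ (h2 α M x z t hSU σ).1
  · intro c d hcd
    obtain ⟨e, he, _⟩ := exists_is hcd
    exact h3 α M x z t hSU c d e he

end Pool.Agent.H533R2.VD
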