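import Pool.Agent.H533R2.VD.Spec

set_option autoImplicit false

namespace Pool.Agent.H533R2.VD

open Set
open Pool.Agent.H899R2.VP
open Pool.Agent.H533R2.VO (Glu Lev OS G BlkC Ic)

theorem t_COL : S_COL := by
  intro N x y z h
  unfold Lin3 ce at *
  rcases h with ⟨h1, h2⟩ | ⟨h1, h2⟩ | ⟨h1, h2⟩ | ⟨h1, h2⟩ | ⟨h1, h2⟩ | ⟨h1, h2⟩
  all_goals
    refine ⟨?_, ?_, ?_, ?_⟩
    · first
        | (left; intro i; have a := h1 i; have b := h2 i; obtain ⟨a1, a2⟩ := a;
           obtain ⟨b1, b2⟩ := b; constructor <;> grind)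
        | (right; intro i; have a := h1 i; have b := h2 i; obtain ⟨a1, a2⟩ := a;
           obtain ⟨b1, b2⟩ := b; constructor <;> grind)
    · first
        | (left; intro i; have a := h1 i; have b := h2 i; obtain ⟨a1, a2⟩ := a;
           obtain ⟨b1, b2⟩ := b; constructor <;> grind)
        | (right; intro i; have a := h1 i; have b := h2 i; obtain ⟨a1, a2⟩ := a;
           obtain ⟨b1, b2⟩ := b; constructor <;> grind)
    · intro h3
      refine ⟨fun i => ?_, fun i => ?_⟩
      · obtain ⟨a1, a2⟩ := h1 i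
        obtain ⟨b1, b2⟩ := h2 i
        obtain ⟨c1, c2⟩ := h3 i
        clear h1 h2 h3
        constructor <;> grind
      · obtain ⟨a1, a2⟩ := h1 i
        obtain ⟨b1, b2⟩ := h2 i
        obtain ⟨c1, c2⟩ := h3 i
        clear h1 h2 h3
        constructor <;> grind
    · intro h3 i
      obtain ⟨a1, a2⟩ := h1 i
      obtain ⟨b1, b2⟩ := h2 i
      obtain ⟨c1, c2⟩ := h3 i
      clear h1 h2 h3
      constructor <;> grind

end Pool.Agent.H533R2.VD
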