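import Pool.Agent.H533R2.VD.Cor

set_option autoImplicit false

/-! Posets without the pattern `N` are completely decomposable. -/

namespace Pool.Agent.H533R2.VD

namespace COR1

theorem chk3 : ∀ a01 a10 a02 a20 a12 a21 : Bool,
    (!(a01 && a10) && !(a02 && a20) && !(a12 && a21) && !(a01 && a12 && !a02) && !(a02 && a21 &&
    !a01) && !(a10 && a02 && !a12) && !(a12 && a20 && !a10) && !(a20 && a01 && !a21) && !(a21
    && a10 && !a20) &&
    !(((a12 == a02) && (a21 == a20)) || (((a21 == a01) && (a12 == a10)) || ((a20 == a10) && (a02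
    == a01))))) = false := by
  decide +kernel

theorem b3 (a01 a10 a02 a20 a12 a21 : Bool)
    (h0 : (a01 && a10) = false) (h1 : (a02 && a20) = false) (h2 : (a12 && a21) = false) (h3 :
    (a01 && a12 && !a02) = false) (h4 : (a02 && a21 && !a01) = false) (h5 : (a10 && a02 &&
    !a12) = false) (h6 : (a12 && a20 && !a10) = false) (h7 : (a20 && a01 && !a21) = false) (h8
    : (a21 && a10 && !a20) = false) :
    (a12 = a02 ∧ a21 = a20) ∨
    (a21 = a01 ∧ a12 = a10) ∨
    (a20 = a10 ∧ a02 = a01) := by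
  have key := chk3 a01 a10 a02 a20 a12 a21
  simp only [h0, h1, h2, h3, h4, h5, h6, h7, h8, Bool.not_false, Bool.true_and,
    Bool.and_true, Bool.not_eq_false', Bool.or_eq_true, Bool.and_eq_true, beq_iff_eq] at key
  exact key

theorem chk4 : ∀ a01 a10 a02 a20 a12 a21 a03 a30 a13 a31 a23 a32 : Bool,
    (!(a01 && a10) && !(a02 && a20) && !(a12 && a21) && !(a03 && a30) && !(a13 && a31) && !(a23
    && a32) && !(a01 && a12 && !a02) && !(a01 && a13 && !a03) && !(a02 && a21 && !a01) && !(a02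
    && a23 && !a03) && !(a03 && a31 && !a01) && !(a03 && a32 && !a02) && !(a10 && a02 && !a12)
    && !(a10 && a03 && !a13) && !(a12 && a20 && !a10) && !(a12 && a23 && !a13) && !(a13 && a30
    && !a10) && !(a13 && a32 && !a12) && !(a20 && a01 && !a21) && !(a20 && a03 && !a23) &&
    !(a21 && a10 && !a20) && !(a21 && a13 && !a23) && !(a23 && a30 && !a20) && !(a23 && a31 &&
    !a21) && !(a30 && a01 && !a31) && !(a30 && a02 && !a32) && !(a31 && a10 && !a30) && !(a31
    && a12 && !a32) && !(a32 && a20 && !a30) && !(a32 && a21 && !a31) && !(a02 && a12 && a13 &&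
    !a01 && !a10 && !a23 && !a32 && !a03 && !a30) && !(a03 && a13 && a12 && !a01 && !a10 &&
    !a32 && !a23 && !a02 && !a20) && !(a01 && a21 && a23 && !a02 && !a20 && !a13 && !a31 &&
    !a03 && !a30) && !(a03 && a23 && a21 && !a02 && !a20 && !a31 && !a13 && !a01 && !a10) &&
    !(a01 && a31 && a32 && !a03 && !a30 && !a12 && !a21 && !a02 && !a20) && !(a02 && a32 && a31
    && !a03 && !a30 && !a21 && !a12 && !a01 && !a10) && !(a12 && a02 && a03 && !a10 && !a01 &&
    !a23 && !a32 && !a13 && !a31) && !(a13 && a03 && a02 && !a10 && !a01 && !a32 && !a23 &&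
    !a12 && !a21) && !(a10 && a20 && a23 && !a12 && !a21 && !a03 && !a30 && !a13 && !a31) &&
    !(a13 && a23 && a20 && !a12 && !a21 && !a30 && !a03 && !a10 && !a01) && !(a10 && a30 && a32
    && !a13 && !a31 && !a02 && !a20 && !a12 && !a21) && !(a12 && a32 && a30 && !a13 && !a31 &&
    !a20 && !a02 && !a10 && !a01) && !(a21 && a01 && a03 && !a20 && !a02 && !a13 && !a31 &&
    !a23 && !a32) && !(a23 && a03 && a01 && !a20 && !a02 && !a31 && !a13 && !a21 && !a12) &&
    !(a20 && a10 && a13 && !a21 && !a12 && !a03 && !a30 && !a23 && !a32) && !(a23 && a13 && a10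
    && !a21 && !a12 && !a30 && !a03 && !a20 && !a02) && !(a20 && a30 && a31 && !a23 && !a32 &&
    !a01 && !a10 && !a21 && !a12) && !(a21 && a31 && a30 && !a23 && !a32 && !a10 && !a01 &&
    !a20 && !a02) && !(a31 && a01 && a02 && !a30 && !a03 && !a12 && !a21 && !a32 && !a23) &&
    !(a32 && a02 && a01 && !a30 && !a03 && !a21 && !a12 && !a31 && !a13) && !(a30 && a10 && a12
    && !a31 && !a13 && !a02 && !a20 && !a32 && !a23) && !(a32 && a12 && a10 && !a31 && !a13 &&
    !a20 && !a02 && !a30 && !a03) && !(a30 && a20 && a21 && !a32 && !a23 && !a01 && !a10 &&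
    !a31 && !a13) && !(a31 && a21 && a20 && !a32 && !a23 && !a10 && !a01 && !a30 && !a03) &&
    !(((a12 == a02) && ((a21 == a20) && ((a13 == a03) && (a31 == a30)))) || (((a21 == a01) &&
    ((a12 == a10) && ((a23 == a03) && (a32 == a30)))) || (((a31 == a01) && ((a13 == a10) &&
    ((a32 == a02) && (a23 == a20)))) || (((a20 == a10) && ((a02 == a01) && ((a23 == a13) &&
    (a32 == a31)))) || (((a30 == a10) && ((a03 == a01) && ((a32 == a12) && (a23 == a21)))) ||
    (((a30 == a20) && ((a03 == a02) && ((a31 == a21) && (a13 == a12)))) || (((a13 == a03) &&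
    ((a31 == a30) && ((a23 == a03) && (a32 == a30)))) || (((a12 == a02) && ((a21 == a20) &&
    ((a32 == a02) && (a23 == a20)))) || (((a21 == a01) && ((a12 == a10) && ((a31 == a01) &&
    (a13 == a10)))) || ((a20 == a10) && ((a02 == a01) && ((a30 == a10) && (a03 ==
    a01)))))))))))))) = false := by
  decide +kernel

theorem b4 (a01 a10 a02 a20 a12 a21 a03 a30 a13 a31 a23 a32 : Bool)
    (h0 : (a01 && a10) = false) (h1 : (a02 && a20) = false) (h2 : (a12 && a21) = false) (h3 :
    (a03 && a30) = false) (h4 : (a13 && a31) = false) (h5 : (a23 && a32) = false) (h6 : (a01 &&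
    a12 && !a02) = false) (h7 : (a01 && a13 && !a03) = false) (h8 : (a02 && a21 && !a01) =
    false) (h9 : (a02 && a23 && !a03) = false) (h10 : (a03 && a31 && !a01) = false) (h11 : (a03
    && a32 && !a02) = false) (h12 : (a10 && a02 && !a12) = false) (h13 : (a10 && a03 && !a13) =
    false) (h14 : (a12 && a20 && !a10) = false) (h15 : (a12 && a23 && !a13) = false) (h16 :
    (a13 && a30 && !a10) = false) (h17 : (a13 && a32 && !a12) = false) (h18 : (a20 && a01 &&
    !a21) = false) (h19 : (a20 && a03 && !a23) = false) (h20 : (a21 && a10 && !a20) = false)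
    (h21 : (a21 && a13 && !a23) = false) (h22 : (a23 && a30 && !a20) = false) (h23 : (a23 &&
    a31 && !a21) = false) (h24 : (a30 && a01 && !a31) = false) (h25 : (a30 && a02 && !a32) =
    false) (h26 : (a31 && a10 && !a30) = false) (h27 : (a31 && a12 && !a32) = false) (h28 :
    (a32 && a20 && !a30) = false) (h29 : (a32 && a21 && !a31) = false) (h30 : (a02 && a12 &&
    a13 && !a01 && !a10 && !a23 && !a32 && !a03 && !a30) = false) (h31 : (a03 && a13 && a12 &&
    !a01 && !a10 && !a32 && !a23 && !a02 && !a20) = false) (h32 : (a01 && a21 && a23 && !a02 &&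
    !a20 && !a13 && !a31 && !a03 && !a30) = false) (h33 : (a03 && a23 && a21 && !a02 && !a20 &&
    !a31 && !a13 && !a01 && !a10) = false) (h34 : (a01 && a31 && a32 && !a03 && !a30 && !a12 &&
    !a21 && !a02 && !a20) = false) (h35 : (a02 && a32 && a31 && !a03 && !a30 && !a21 && !a12 &&
    !a01 && !a10) = false) (h36 : (a12 && a02 && a03 && !a10 && !a01 && !a23 && !a32 && !a13 &&
    !a31) = false) (h37 : (a13 && a03 && a02 && !a10 && !a01 && !a32 && !a23 && !a12 && !a21) =
    false) (h38 : (a10 && a20 && a23 && !a12 && !a21 && !a03 && !a30 && !a13 && !a31) = false)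
    (h39 : (a13 && a23 && a20 && !a12 && !a21 && !a30 && !a03 && !a10 && !a01) = false) (h40 :
    (a10 && a30 && a32 && !a13 && !a31 && !a02 && !a20 && !a12 && !a21) = false) (h41 : (a12 &&
    a32 && a30 && !a13 && !a31 && !a20 && !a02 && !a10 && !a01) = false) (h42 : (a21 && a01 &&
    a03 && !a20 && !a02 && !a13 && !a31 && !a23 && !a32) = false) (h43 : (a23 && a03 && a01 &&
    !a20 && !a02 && !a31 && !a13 && !a21 && !a12) = false) (h44 : (a20 && a10 && a13 && !a21 &&
    !a12 && !a03 && !a30 && !a23 && !a32) = false) (h45 : (a23 && a13 && a10 && !a21 && !a12 &&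
    !a30 && !a03 && !a20 && !a02) = false) (h46 : (a20 && a30 && a31 && !a23 && !a32 && !a01 &&
    !a10 && !a21 && !a12) = false) (h47 : (a21 && a31 && a30 && !a23 && !a32 && !a10 && !a01 &&
    !a20 && !a02) = false) (h48 : (a31 && a01 && a02 && !a30 && !a03 && !a12 && !a21 && !a32 &&
    !a23) = false) (h49 : (a32 && a02 && a01 && !a30 && !a03 && !a21 && !a12 && !a31 && !a13) =
    false) (h50 : (a30 && a10 && a12 && !a31 && !a13 && !a02 && !a20 && !a32 && !a23) = false)
    (h51 : (a32 && a12 && a10 && !a31 && !a13 && !a20 && !a02 && !a30 && !a03) = false) (h52 :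
    (a30 && a20 && a21 && !a32 && !a23 && !a01 && !a10 && !a31 && !a13) = false) (h53 : (a31 &&
    a21 && a20 && !a32 && !a23 && !a10 && !a01 && !a30 && !a03) = false) :
    (a12 = a02 ∧ a21 = a20 ∧ a13 = a03 ∧ a31 = a30) ∨
    (a21 = a01 ∧ a12 = a10 ∧ a23 = a03 ∧ a32 = a30) ∨
    (a31 = a01 ∧ a13 = a10 ∧ a32 = a02 ∧ a23 = a20) ∨
    (a20 = a10 ∧ a02 = a01 ∧ a23 = a13 ∧ a32 = a31) ∨
    (a30 = a10 ∧ a03 = a01 ∧ a32 = a12 ∧ a23 = a21) ∨
    (a30 = a20 ∧ a03 = a02 ∧ a31 = a21 ∧ a13 = a12) ∨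
    (a13 = a03 ∧ a31 = a30 ∧ a23 = a03 ∧ a32 = a30) ∨
    (a12 = a02 ∧ a21 = a20 ∧ a32 = a02 ∧ a23 = a20) ∨
    (a21 = a01 ∧ a12 = a10 ∧ a31 = a01 ∧ a13 = a10) ∨
    (a20 = a10 ∧ a02 = a01 ∧ a30 = a10 ∧ a03 = a01) := by
  have key := chk4 a01 a10 a02 a20 a12 a21 a03 a30 a13 a31 a23 a32
  simp only [h0, h1, h2, h3, h4, h5, h6, h7, h8, h9, h10, h11, h12, h13, h14, h15, h16, h17, h18, h19,
    h20, h21, h22, h23, h24, h25, h26, h27, h28, h29, h30, h31, h32, h33, h34, h35, h36, h37,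
    h38, h39, h40, h41, h42, h43, h44, h45, h46, h47, h48, h49, h50, h51, h52, h53, Bool.not_false, Bool.true_and,
    Bool.and_true, Bool.not_eq_false', Bool.or_eq_true, Bool.and_eq_true, beq_iff_eq] at key
  exact key


/-- it is enough to compare with one point of the module -/
theorem modI {x : R2} (hd : ∀ i u v, u ≠ v → x (i + 1) u v = false) (F X : Finset ℕ) (hXF : X ⊆ F)
    (h1 : 1 < X.card) (h2 : X.card < F.card) (a : ℕ) (h : ∀ u ∈ X, ∀ w ∈ F, w ∉ X →
      x 0 u w = x 0 a w ∧ x 0 w u = x 0 w a) :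
    ∃ X ⊆ F, 1 < X.card ∧ X.card < F.card ∧
      ∀ u ∈ X, ∀ v ∈ X, ∀ w ∈ F, w ∉ X → ce x u w v w := by
  refine ⟨X, hXF, h1, h2, fun u hu v hv w hw hwX i => ?_⟩
  cases i with
  | zero =>
    obtain ⟨e1, e2⟩ := h u hu w hw hwX
    obtain ⟨e3, e4⟩ := h v hv w hw hwX
    exact ⟨e1.trans e3.symm, e2.trans e4.symm⟩
  | succ i =>
    have huw : u ≠ w := by rintro rfl; exact hwX hu
    have hvw : v ≠ w := by rintro rfl; exact hwX hv
    rw [hd i u w huw, hd i v w hvw, hd i w u huw.symm, hd i w v hvw.symm]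
    exact ⟨rfl, rfl⟩

theorem mod2 {x : R2} (hd : ∀ i u v, u ≠ v → x (i + 1) u v = false) (F : Finset ℕ) (a b : ℕ)
    (hab : a ≠ b) (ha : a ∈ F) (hb : b ∈ F) (hF : 2 < F.card) (h : ∀ w ∈ F, w ≠ a → w ≠ b →
      x 0 b w = x 0 a w ∧ x 0 w b = x 0 w a) :
    ∃ X ⊆ F, 1 < X.card ∧ X.card < F.card ∧
      ∀ u ∈ X, ∀ v ∈ X, ∀ w ∈ F, w ∉ X → ce x u w v w := by
  refine modI hd F {a, b} ?_ ?_ ?_ a ?_
  · intro u hu
    rw [Finset.mem_insert, Finset.mem_singleton] at hu
    rcases hu with rfl | rfl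
    · exact ha
    · exact hb
  · rw [Finset.card_pair hab]; omega
  · rw [Finset.card_pair hab]; exact hF
  · intro u hu w hw hwX
    rw [Finset.mem_insert, Finset.mem_singleton, not_or] at hwX
    rw [Finset.mem_insert, Finset.mem_singleton] at hu
    rcases hu with rfl | rfl
    · exact ⟨rfl, rfl⟩
    · exact h w hw hwX.1 hwX.2

theorem mod3 {x : R2} (hd : ∀ i u v, u ≠ v → x (i + 1) u v = false) (F : Finset ℕ) (a b c : ℕ)
    (hab : a ≠ b) (hac : a ≠ c) (hbc : b ≠ c) (ha : a ∈ F) (hb : b ∈ F) (hc : c ∈ F)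
    (hF : 3 < F.card) (h : ∀ w ∈ F, w ≠ a → w ≠ b → w ≠ c →
      x 0 b w = x 0 a w ∧ x 0 w b = x 0 w a ∧ x 0 c w = x 0 a w ∧ x 0 w c = x 0 w a) :
    ∃ X ⊆ F, 1 < X.card ∧ X.card < F.card ∧
      ∀ u ∈ X, ∀ v ∈ X, ∀ w ∈ F, w ∉ X → ce x u w v w := by
  have hcard : ({a, b, c} : Finset ℕ).card = 3 :=
    Finset.card_eq_three.2 ⟨a, b, c, hab, hac, hbc, rfl⟩
  refine modI hd F {a, b, c} ?_ ?_ ?_ a ?_
  · intro u hu
    simp only [Finset.mem_insert, Finset.mem_singleton] at hu
    rcases hu with rfl | rfl | rfl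
    · exact ha
    · exact hb
    · exact hc
  · rw [hcard]; omega
  · rw [hcard]; exact hF
  · intro u hu w hw hwX
    simp only [Finset.mem_insert, Finset.mem_singleton, not_or] at hwX hu
    obtain ⟨e1, e2, e3, e4⟩ := h w hw hwX.1 hwX.2.1 hwX.2.2
    rcases hu with rfl | rfl | rfl
    · exact ⟨rfl, rfl⟩
    · exact ⟨e1, e2⟩
    · exact ⟨e3, e4⟩

theorem tr {p q r : Bool} (h : p = true → q = true → r = true) : (p && q && !r) = false := by
  cases p <;> cases q <;> cases r <;> simp_all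

theorem nf {p q r s t u v w z : Bool} (h : p = true → q = true → r = true → s = false → t = false →
    u = false → v = false → w = false → z = false → False) :
    (p && q && r && !s && !t && !u && !v && !w && !z) = false := by
  by_contra h'
  rw [Bool.not_eq_false] at h'
  simp only [Bool.and_eq_true, Bool.not_eq_true'] at h'
  obtain ⟨⟨⟨⟨⟨⟨⟨⟨h1, h2⟩, h3⟩, h4⟩, h5⟩, h6⟩, h7⟩, h8⟩, h9⟩ := h'
  exact h h1 h2 h3 h4 h5 h6 h7 h8 h9

end COR1

open COR1

theorem t_COR1 : S_COR1 := by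
  intro x hirr htr hd hN F hF
  have has : ∀ u v, (x 0 u v && x 0 v u) = false := by
    intro u v
    by_contra h
    rw [Bool.not_eq_false, Bool.and_eq_true] at h
    have h1 := htr u v u h.1 h.2
    rw [hirr u] at h1
    exact Bool.false_ne_true h1
  have ht : ∀ u v w, (x 0 u v && x 0 v w && !x 0 u w) = false := fun u v w => tr (htr u v w)
  have hn : ∀ a b c d, a ≠ b → c ≠ d → (x 0 a c && x 0 b c && x 0 b d && !x 0 a b && !x 0 b a &&
      !x 0 c d && !x 0 d c && !x 0 a d && !x 0 d a) = false := by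
    intro a b c d hab hcd
    refine nf fun h1 h2 h3 h4 h5 h6 h7 h8 h9 => ?_
    rcases hN a b c d h1 h2 h3 h4 h5 h6 h7 h8 h9 with h | h
    · exact hab h
    · exact hcd h
  rcases hF with hF | hF
  · obtain ⟨p0, p1, p2, h01, h02, h12, rfl⟩ := Finset.card_eq_three.1 hF
    rcases b3 _ _ _ _ _ _ (has p0 p1) (has p0 p2) (has p1 p2) (ht p0 p1 p2) (ht p0 p2 p1) (ht
      p1 p0 p2) (ht p1 p2 p0) (ht p2 p0 p1) (ht p2 p1 p0) with
      h | h | h
    · refine mod2 hd _ p0 p1 h01 (by simp) (by simp) (by rw [hF]; omega) ?_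
      intro w hw g0 g1
      simp only [Finset.mem_insert, Finset.mem_singleton] at hw
      rcases hw with e | e | e
      · exact absurd e g0
      · exact absurd e g1
      · rw [e]; exact ⟨h.1, h.2⟩
    · refine mod2 hd _ p0 p2 h02 (by simp) (by simp) (by rw [hF]; omega) ?_
      intro w hw g0 g1
      simp only [Finset.mem_insert, Finset.mem_singleton] at hw
      rcases hw with e | e | e
      · exact absurd e g0
      · rw [e]; exact ⟨h.1, h.2⟩
      · exact absurd e g1
    · refine mod2 hd _ p1 p2 h12 (by simp) (by simp) (by rw [hF]; omega) ?_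
      intro w hw g0 g1
      simp only [Finset.mem_insert, Finset.mem_singleton] at hw
      rcases hw with e | e | e
      · rw [e]; exact ⟨h.1, h.2⟩
      · exact absurd e g0
      · exact absurd e g1
  · obtain ⟨p0, G, h0, hG, hG3⟩ := Finset.card_eq_succ.1 hF
    obtain ⟨p1, p2, p3, h12, h13, h23, rfl⟩ := Finset.card_eq_three.1 hG3
    subst hG
    simp only [Finset.mem_insert, Finset.mem_singleton, not_or] at h0
    obtain ⟨h01, h02, h03⟩ := h0
    rcases b4 _ _ _ _ _ _ _ _ _ _ _ _ (has p0 p1) (has p0 p2) (has p1 p2) (has p0 p3) (has p1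
      p3) (has p2 p3) (ht p0 p1 p2) (ht p0 p1 p3) (ht p0 p2 p1) (ht p0 p2 p3) (ht p0 p3 p1) (ht
      p0 p3 p2) (ht p1 p0 p2) (ht p1 p0 p3) (ht p1 p2 p0) (ht p1 p2 p3) (ht p1 p3 p0) (ht p1 p3
      p2) (ht p2 p0 p1) (ht p2 p0 p3) (ht p2 p1 p0) (ht p2 p1 p3) (ht p2 p3 p0) (ht p2 p3 p1)
      (ht p3 p0 p1) (ht p3 p0 p2) (ht p3 p1 p0) (ht p3 p1 p2) (ht p3 p2 p0) (ht p3 p2 p1) (hn
      p0 p1 p2 p3 h01 h23) (hn p0 p1 p3 p2 h01 (Ne.symm h23)) (hn p0 p2 p1 p3 h02 h13) (hn p0
      p2 p3 p1 h02 (Ne.symm h13)) (hn p0 p3 p1 p2 h03 h12) (hn p0 p3 p2 p1 h03 (Ne.symm h12))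
      (hn p1 p0 p2 p3 (Ne.symm h01) h23) (hn p1 p0 p3 p2 (Ne.symm h01) (Ne.symm h23)) (hn p1 p2
      p0 p3 h12 h03) (hn p1 p2 p3 p0 h12 (Ne.symm h03)) (hn p1 p3 p0 p2 h13 h02) (hn p1 p3 p2
      p0 h13 (Ne.symm h02)) (hn p2 p0 p1 p3 (Ne.symm h02) h13) (hn p2 p0 p3 p1 (Ne.symm h02)
      (Ne.symm h13)) (hn p2 p1 p0 p3 (Ne.symm h12) h03) (hn p2 p1 p3 p0 (Ne.symm h12) (Ne.symm
      h03)) (hn p2 p3 p0 p1 h23 h01) (hn p2 p3 p1 p0 h23 (Ne.symm h01)) (hn p3 p0 p1 p2
      (Ne.symm h03) h12) (hn p3 p0 p2 p1 (Ne.symm h03) (Ne.symm h12)) (hn p3 p1 p0 p2 (Ne.symm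
      h13) h02) (hn p3 p1 p2 p0 (Ne.symm h13) (Ne.symm h02)) (hn p3 p2 p0 p1 (Ne.symm h23) h01)
      (hn p3 p2 p1 p0 (Ne.symm h23) (Ne.symm h01)) with
      h | h | h | h | h | h | h | h | h | h
    · refine mod2 hd _ p0 p1 h01 (by simp) (by simp) (by rw [hF]; omega) ?_
      intro w hw g0 g1
      simp only [Finset.mem_insert, Finset.mem_singleton] at hw
      rcases hw with e | e | e | e
      · exact absurd e g0
      · exact absurd e g1
      · rw [e]; exact ⟨h.1, h.2.1⟩
      · rw [e]; exact ⟨h.2.2.1, h.2.2.2⟩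
    · refine mod2 hd _ p0 p2 h02 (by simp) (by simp) (by rw [hF]; omega) ?_
      intro w hw g0 g1
      simp only [Finset.mem_insert, Finset.mem_singleton] at hw
      rcases hw with e | e | e | e
      · exact absurd e g0
      · rw [e]; exact ⟨h.1, h.2.1⟩
      · exact absurd e g1
      · rw [e]; exact ⟨h.2.2.1, h.2.2.2⟩
    · refine mod2 hd _ p0 p3 h03 (by simp) (by simp) (by rw [hF]; omega) ?_
      intro w hw g0 g1
      simp only [Finset.mem_insert, Finset.mem_singleton] at hw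
      rcases hw with e | e | e | e
      · exact absurd e g0
      · rw [e]; exact ⟨h.1, h.2.1⟩
      · rw [e]; exact ⟨h.2.2.1, h.2.2.2⟩
      · exact absurd e g1
    · refine mod2 hd _ p1 p2 h12 (by simp) (by simp) (by rw [hF]; omega) ?_
      intro w hw g0 g1
      simp only [Finset.mem_insert, Finset.mem_singleton] at hw
      rcases hw with e | e | e | e
      · rw [e]; exact ⟨h.1, h.2.1⟩
      · exact absurd e g0
      · exact absurd e g1
      · rw [e]; exact ⟨h.2.2.1, h.2.2.2⟩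
    · refine mod2 hd _ p1 p3 h13 (by simp) (by simp) (by rw [hF]; omega) ?_
      intro w hw g0 g1
      simp only [Finset.mem_insert, Finset.mem_singleton] at hw
      rcases hw with e | e | e | e
      · rw [e]; exact ⟨h.1, h.2.1⟩
      · exact absurd e g0
      · rw [e]; exact ⟨h.2.2.1, h.2.2.2⟩
      · exact absurd e g1
    · refine mod2 hd _ p2 p3 h23 (by simp) (by simp) (by rw [hF]; omega) ?_
      intro w hw g0 g1
      simp only [Finset.mem_insert, Finset.mem_singleton] at hw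
      rcases hw with e | e | e | e
      · rw [e]; exact ⟨h.1, h.2.1⟩
      · rw [e]; exact ⟨h.2.2.1, h.2.2.2⟩
      · exact absurd e g0
      · exact absurd e g1
    · refine mod3 hd _ p0 p1 p2 h01 h02 h12 (by simp) (by simp) (by simp) (by rw [hF]; omega) ?_
      intro w hw g0 g1 g2
      simp only [Finset.mem_insert, Finset.mem_singleton] at hw
      rcases hw with e | e | e | e
      · exact absurd e g0
      · exact absurd e g1
      · exact absurd e g2
      · rw [e]; exact ⟨h.1, h.2.1, h.2.2.1, h.2.2.2⟩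
    · refine mod3 hd _ p0 p1 p3 h01 h03 h13 (by simp) (by simp) (by simp) (by rw [hF]; omega) ?_
      intro w hw g0 g1 g2
      simp only [Finset.mem_insert, Finset.mem_singleton] at hw
      rcases hw with e | e | e | e
      · exact absurd e g0
      · exact absurd e g1
      · rw [e]; exact ⟨h.1, h.2.1, h.2.2.1, h.2.2.2⟩
      · exact absurd e g2
    · refine mod3 hd _ p0 p2 p3 h02 h03 h23 (by simp) (by simp) (by simp) (by rw [hF]; omega) ?_
      intro w hw g0 g1 g2
      simp only [Finset.mem_insert, Finset.mem_singleton] at hw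
      rcases hw with e | e | e | e
      · exact absurd e g0
      · rw [e]; exact ⟨h.1, h.2.1, h.2.2.1, h.2.2.2⟩
      · exact absurd e g1
      · exact absurd e g2
    · refine mod3 hd _ p1 p2 p3 h12 h13 h23 (by simp) (by simp) (by simp) (by rw [hF]; omega) ?_
      intro w hw g0 g1 g2
      simp only [Finset.mem_insert, Finset.mem_singleton] at hw
      rcases hw with e | e | e | e
      · rw [e]; exact ⟨h.1, h.2.1, h.2.2.1, h.2.2.2⟩
      · exact absurd e g0
      · exact absurd e g1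
      · exact absurd e g2

end Pool.Agent.H533R2.VD
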