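import Pool.Agent.H533R2.VD.Cor

set_option autoImplicit false

/-! Families of nested equivalence relations are completely decomposable. -/

namespace Pool.Agent.H533R2.VD

open Set

theorem t_COR3 : S_COR3 := by
  classical
  intro x hrefl hsymm htrans hodd hnest F hF
  set C : ℕ → ℕ → Set ℕ := fun u v => {i | x (2 * i) u v = true} with hC
  have mC : ∀ u v i, i ∈ C u v ↔ x (2 * i) u v = true := fun u v i => Iff.rfl
  have cs : ∀ u v, C u v = C v u := by
    intro u v
    ext i
    exact ⟨fun h => hsymm i u v h, fun h => hsymm i v u h⟩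
  have ct : ∀ u v w i, i ∈ C u v → i ∈ C v w → i ∈ C u w :=
    fun u v w i h1 h2 => htrans i u v w h1 h2
  have lam : ∀ u v w, C u v ⊆ C u w ∨ C u w ⊆ C u v := by
    intro u v w
    by_contra hcon
    push Not at hcon
    obtain ⟨h1, h2⟩ := hcon
    obtain ⟨i, hi, hi'⟩ := not_subset.1 h1
    obtain ⟨j, hj, hj'⟩ := not_subset.1 h2
    rcases hnest i j u v w hi hj with h | h
    · exact hj' h
    · exact hi' h
  have ultra : ∀ u v w, C u w ⊆ C u v → C u w ≠ C u v → C v w = C u w := by
    intro u v w h1 h2
    apply Subset.antisymm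
    · rcases lam v w u with h3 | h3
      · intro i hi
        have h4 := h3 hi
        rw [cs v u] at h4
        exact ct u v w i h4 hi
      · exfalso
        apply h2
        apply Subset.antisymm h1
        intro i hi
        have h5 : i ∈ C v u := by rw [cs v u]; exact hi
        exact ct u v w i hi (h3 h5)
    · intro i hi
      have h4 : i ∈ C v u := by rw [cs v u]; exact h1 hi
      exact ct v u w i h4 hi
  have hce : ∀ u v w, u ≠ w → v ≠ w → C u w = C v w → ce x u w v w := by
    intro u v w huw hvw h i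
    rcases Nat.even_or_odd' i with ⟨k, rfl | rfl⟩
    · have e1 : x (2 * k) u w = x (2 * k) v w := by
        rw [Bool.eq_iff_iff]
        exact ⟨fun h1 => (Set.ext_iff.1 h k).1 h1, fun h1 => (Set.ext_iff.1 h k).2 h1⟩
      have e2 : ∀ a b, x (2 * k) a b = x (2 * k) b a := by
        intro a b
        rw [Bool.eq_iff_iff]
        exact ⟨fun h1 => hsymm k a b h1, fun h1 => hsymm k b a h1⟩
      exact ⟨e1, by rw [e2 w u, e2 w v]; exact e1⟩
    · rw [hodd k u w huw, hodd k v w hvw, hodd k w u huw.symm, hodd k w v hvw.symm]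
      exact ⟨rfl, rfl⟩
  have hcard : 2 < F.card := by omega
  have hne : F.offDiag.Nonempty := by
    obtain ⟨a, ha, b, hb, hab⟩ := Finset.one_lt_card.1 (by omega : 1 < F.card)
    exact ⟨(a, b), Finset.mem_offDiag.2 ⟨ha, hb, hab⟩⟩
  obtain ⟨⟨u, v⟩, hP, hmax⟩ := Finset.exists_maximalFor (fun p : ℕ × ℕ => C p.1 p.2)
    F.offDiag hne
  obtain ⟨hu, hv, huv⟩ := Finset.mem_offDiag.1 hP
  simp only at hu hv huv
  have hmax' : ∀ a b, a ∈ F → b ∈ F → a ≠ b → C u v ⊆ C a b → C a b ⊆ C u v := by
    intro a b ha hb hab h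
    exact hmax (j := (a, b)) (Finset.mem_offDiag.2 ⟨ha, hb, hab⟩) h
  by_cases hall : ∀ w ∈ F, w = u ∨ C u w = C u v
  · refine ⟨{u, v}, ?_, ?_, ?_, ?_⟩
    · intro w hw
      rcases Finset.mem_insert.1 hw with rfl | hw
      · exact hu
      · rw [Finset.mem_singleton.1 hw]
        exact hv
    · rw [Finset.card_pair huv]
      norm_num
    · rw [Finset.card_pair huv]
      exact hcard
    · have key : ∀ a ∈ ({u, v} : Finset ℕ), ∀ w ∈ F, w ∉ ({u, v} : Finset ℕ) →
          a ≠ w ∧ C a w = C u v := by
        intro a ha w hw hwn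
        have hwu : w ≠ u := fun h => hwn (by rw [h]; exact Finset.mem_insert_self _ _)
        have hwv : w ≠ v := fun h => hwn (by
          rw [h]; exact Finset.mem_insert_of_mem (Finset.mem_singleton_self _))
        have h1 : C u w = C u v := (hall w hw).resolve_left hwu
        rcases Finset.mem_insert.1 ha with rfl | ha
        · exact ⟨hwu.symm, h1⟩
        · rw [Finset.mem_singleton.1 ha]
          refine ⟨hwv.symm, ?_⟩
          have h2 : C u v ⊆ C v w := by
            intro i hi
            have h3 : i ∈ C v u := by rw [cs v u]; exact hi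
            have h4 : i ∈ C u w := by rw [h1]; exact hi
            exact ct v u w i h3 h4
          exact Subset.antisymm (hmax' v w hv hw hwv.symm h2) h2
      intro a ha b hb w hw hwn
      obtain ⟨h1, h2⟩ := key a ha w hw hwn
      obtain ⟨h3, h4⟩ := key b hb w hw hwn
      exact hce a b w h1 h3 (by rw [h2, h4])
  · push Not at hall
    obtain ⟨w0, hw0, hw0u, hw0C⟩ := hall
    refine ⟨F.filter (fun w => w = u ∨ C u w = C u v), Finset.filter_subset _ _, ?_, ?_, ?_⟩
    · rw [Finset.one_lt_card]
      exact ⟨u, Finset.mem_filter.2 ⟨hu, Or.inl rfl⟩, v, Finset.mem_filter.2 ⟨hv, Or.inr rfl⟩, huv⟩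
    · apply Finset.card_lt_card
      rw [Finset.ssubset_iff_of_subset (Finset.filter_subset _ _)]
      refine ⟨w0, hw0, fun h => ?_⟩
      rcases (Finset.mem_filter.1 h).2 with h | h
      · exact hw0u h
      · exact hw0C h
    · have key : ∀ a ∈ F.filter (fun w => w = u ∨ C u w = C u v), ∀ w ∈ F,
          w ∉ F.filter (fun w => w = u ∨ C u w = C u v) → a ≠ w ∧ C a w = C u w := by
        intro a ha w hw hwn
        obtain ⟨haF, ha2⟩ := Finset.mem_filter.1 ha
        have haw : a ≠ w := fun h => hwn (h ▸ ha)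
        have hwu : w ≠ u := fun h => hwn (Finset.mem_filter.2 ⟨hw, Or.inl h⟩)
        have hwC : C u w ≠ C u v := fun h => hwn (Finset.mem_filter.2 ⟨hw, Or.inr h⟩)
        refine ⟨haw, ?_⟩
        by_cases hau : a = u
        · rw [hau]
        · have h1 : C u a = C u v := ha2.resolve_left hau
          have h2 : C u w ⊆ C u v := by
            rcases lam u w v with h | h
            · exact h
            · exact hmax' u w hu hw hwu.symm h
          exact ultra u a w (by rw [h1]; exact h2) (by rw [h1]; exact hwC)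
      intro a ha b hb w hw hwn
      obtain ⟨h1, h2⟩ := key a ha w hw hwn
      obtain ⟨h3, h4⟩ := key b hb w hw hwn
      exact hce a b w h1 h3 (by rw [h2, h4])

end Pool.Agent.H533R2.VD
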