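import Pool.Agent.H533R2.VD.Spec

set_option autoImplicit false

/-! CSBF: `Cs` is universal. -/

namespace Pool.Agent.H533R2.VD

open Set
open Pool.Agent.H899R2.VP
open Pool.Agent.H533R2.VO (Glu Lev OS G BlkC Ic)

theorem csbf_four {α : Ordinal.{0}} {M N : St a3} {X : Set ℕ} (hα : Ordinal.omega0 ≤ α)
    (h : BF M N X univ α ∅) (a b c d : ℕ) : ∃ (a' b' c' d' : ℕ) (p : Set (ℕ × ℕ)),
      PIso M N p ∧ (a', a) ∈ p ∧ (b', b) ∈ p ∧ (c', c) ∈ p ∧ (d', d) ∈ p := by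
  have h4 : BF M N X univ ((4 : ℕ) : Ordinal.{0}) ∅ :=
    h.mono ((Ordinal.natCast_lt_omega0 4).le.trans hα)
  obtain ⟨a', _, h3⟩ := h4.back (o' := ((3 : ℕ) : Ordinal.{0})) (by exact_mod_cast (by norm_num))
    (mem_univ a)
  obtain ⟨b', _, h2⟩ := h3.back (o' := ((2 : ℕ) : Ordinal.{0})) (by exact_mod_cast (by norm_num))
    (mem_univ b)
  obtain ⟨c', _, h1⟩ := h2.back (o' := ((1 : ℕ) : Ordinal.{0})) (by exact_mod_cast (by norm_num))
    (mem_univ c)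
  obtain ⟨d', _, h0⟩ := h1.back (o' := ((0 : ℕ) : Ordinal.{0})) (by exact_mod_cast (by norm_num))
    (mem_univ d)
  exact ⟨a', b', c', d', _, h0.piso, by simp, by simp, by simp, by simp⟩

theorem t_CSBF : S_CSBF := by
  intro α M N X hα hC h
  refine ⟨?_, ?_, ?_, ?_, ?_, ?_, ?_, ?_⟩
  · intro x y
    obtain ⟨a, b, _, _, p, hp, ha, hb, _, _⟩ := csbf_four hα h x y x x
    exact (hp.2.1 _ ha _ hb).symm.trans (hC.flat a b)
  · intro x z hxz
    obtain ⟨a, b, _, _, p, hp, ha, hb, _, _⟩ := csbf_four hα h x z x x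
    exact (PIso_D hp ha ha hb).1 (hC.refl a b fun e => hxz (hp.snd_eq ha hb e))
  · intro x y hD
    obtain ⟨a, b, _, _, p, hp, ha, hb, _, _⟩ := csbf_four hα h x y x x
    exact hC.irr a b ((PIso_D hp ha hb ha).2 hD)
  · intro x y z hD
    obtain ⟨a, b, c, _, p, hp, ha, hb, hc, _⟩ := csbf_four hα h x y z x
    exact (PIso_D hp hb ha hc).1 (hC.symm a b c ((PIso_D hp ha hb hc).2 hD))
  · intro x y z hD hD'
    obtain ⟨a, b, c, _, p, hp, ha, hb, hc, _⟩ := csbf_four hα h x y z x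
    exact hC.c2 a b c ((PIso_D hp ha hb hc).2 hD) ((PIso_D hp ha hc hb).2 hD')
  · intro x y z hD w
    obtain ⟨a, b, c, d, p, hp, ha, hb, hc, hd⟩ := csbf_four hα h x y z w
    rcases hC.c3 a b c ((PIso_D hp ha hb hc).2 hD) d with h1 | h1
    · exact Or.inl ((PIso_D hp ha hb hd).1 h1)
    · exact Or.inr ((PIso_D hp hd hb hc).1 h1)
  · intro x y z hD
    obtain ⟨a, b, c, _, p, hp, ha, hb, hc, _⟩ := csbf_four hα h x y z x
    exact (PIso_ce hp ha hc hb hc).1 (hC.mod a b c ((PIso_D hp ha hb hc).2 hD))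
  · intro x y z hxy hyz hxz h1 h2 h3
    obtain ⟨a, b, c, _, p, hp, ha, hb, hc, _⟩ := csbf_four hα h x y z x
    have hL : ∀ {u v w u' v' w' : ℕ}, (u', u) ∈ p → (v', v) ∈ p → (w', w) ∈ p →
        Lin3 (rp M) u' v' w' → Lin3 (rp N) u v w := fun hu hv hw hl =>
      ⟨(PIso_ce hp hu hv hu hw).1 hl.1, (PIso_ce hp hu hw hv hw).1 hl.2⟩
    rcases hC.deg a b c (fun e => hxy (hp.snd_eq ha hb e)) (fun e => hyz (hp.snd_eq hb hc e))
      (fun e => hxz (hp.snd_eq ha hc e)) (fun e => h1 ((PIso_D hp ha hb hc).1 e))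
      (fun e => h2 ((PIso_D hp ha hc hb).1 e)) (fun e => h3 ((PIso_D hp hb hc ha).1 e))
      with g | g | g | g | g | g
    · exact Or.inl (hL ha hb hc g)
    · exact Or.inr (Or.inl (hL ha hc hb g))
    · exact Or.inr (Or.inr (Or.inl (hL hb ha hc g)))
    · exact Or.inr (Or.inr (Or.inr (Or.inl (hL hb hc ha g))))
    · exact Or.inr (Or.inr (Or.inr (Or.inr (Or.inl (hL hc ha hb g)))))
    · exact Or.inr (Or.inr (Or.inr (Or.inr (Or.inr (hL hc hb ha g)))))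

end Pool.Agent.H533R2.VD
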