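import Pool.Agent.H533R2.VD.Spec

set_option autoImplicit false

namespace Pool.Agent.H533R2.VD

open Set
open Pool.Agent.H899R2.VP
open Pool.Agent.H533R2.VO (Glu Lev OS G BlkC Ic S_MAIN resBF resIso iso_refl0 iso_symm0 iso_trans0
  bf_comp0 bf_symm0)

theorem t_CT (h1 : S_MAIN) (h2 : S_KPG) (h3 : S_BLK3) (h4 : S_KPI) (h5 : S_FUN1)
    (h6 : S_OB2) : S_CT := by
  intro α K S b hG hS
  obtain ⟨f, hf⟩ : ∃ f, Enu S f := by
    exact hS.enu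
  obtain ⟨α', hα'⟩ := h2 α K S f b hG hS hf
  obtain ⟨h, hh⟩ := h1 _ α' (KP S f K b) hα' (h3 α K S f b hG hS hf)
  refine ⟨fun n => ex (Rc (h n)), fun N hN v hc => ?_⟩
  obtain ⟨n, hn⟩ := hh _ (h4 α K S f b hG hS hf N hN v hc)
  refine ⟨n, ?_⟩
  have h7 := h5 _ _ _ hn
  rw [h6 S f N (Be S b N v) hS hf hc, ← hG.exq N hN] at h7
  exact h7

end Pool.Agent.H533R2.VD
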