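import Pool.Agent.H533R2.VD.Spec

set_option autoImplicit false

namespace Pool.Agent.H533R2.VD

open Set
open Pool.Agent.H899R2.VP
open Pool.Agent.H533R2.VO (Glu Lev OS G BlkC Ic)

theorem t_CT1 : S_CT1 := by
  intro S N B hC
  have hN := hC.cs
  refine ⟨fun x h => (hC.cone x x h).1 rfl, ?_, ?_⟩
  · intro x y z hxy hyz
    obtain ⟨p, hpy, hpz⟩ := hC.cmp y z ⟨x, hxy⟩ ⟨y, hyz⟩
    have hD1 : D N p y z := ((hC.cone p z hpz).2 y).1 hyz
    have hD2 : D N p x y := ((hC.cone p y hpy).2 x).1 hxy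
    refine ((hC.cone p z hpz).2 x).2 ?_
    rcases hN.c3 _ _ _ hD1 x with h | h
    · exact absurd h (hN.c2 _ _ _ hD2)
    · exact hN.trans hD1 (hN.symm _ _ _ h)
  · intro x y z hxz
    by_cases hyz0 : y = z
    · subst hyz0
      exact Or.inl hxz
    by_cases hyz : B y z
    · exact Or.inr hyz
    by_cases hb : ∃ b, B b y
    · obtain ⟨p, hpy, hpz⟩ := hC.cmp y z hb ⟨x, hxz⟩
      have hD : D N p x z := ((hC.cone p z hpz).2 x).1 hxz
      have hn : y ∉ Cn N p z := fun h => hyz (((hC.cone p z hpz).2 y).2 h)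
      exact Or.inl (((hC.cone p y hpy).2 x).2
        (hN.cin (hN.self_mem (hC.cone p z hpz).1) hD hn))
    · exact absurd (hC.cen y hb z (Ne.symm hyz0)) hyz

end Pool.Agent.H533R2.VD
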