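import Pool.Agent.H533R2.VD.Spec

set_option autoImplicit false

/-! Levels and children. -/

namespace Pool.Agent.H533R2.VD

open Set
open Pool.Agent.H899R2.VP

theorem t_CT2 (h : S_CT1) : S_CT2 := by
  intro S N B hC
  obtain ⟨_, htr, hwk⟩ := h S N B hC
  have hcs : Cs N := hC.cs
  have hD : ∀ x y b, B x y → B b y → D N x b y := fun x y b h1 h2 => ((hC.cone x y h1).2 b).1 h2
  refine ⟨?_, ?_, ?_, ?_, ?_, ?_⟩
  · intro x y b hl
    constructor
    · intro h1
      rcases hwk b y x h1 with h2 | h2
      · exact h2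
      · exact absurd h2 hl.2
    · intro h1
      rcases hwk b x y h1 with h2 | h2
      · exact h2
      · exact absurd h2 hl.1
  · intro x b b' h1 h2
    exact hcs.ceq (hD b x b' h1 h2)
  · intro x y b h1 h2
    constructor
    · intro h3
      have h4 : B b y := htr b x y h1 h3
      exact hcs.c2 _ _ _ h2 (hD x y b h3 h4)
    · intro h3
      have h4 : D N b y x := hD b x y h1 h3
      exact hcs.c2 _ _ _ (hcs.symm _ _ _ h2) (hcs.symm _ _ _ h4)
  · intro x b b' h1 h2
    exact hcs.mod _ _ _ (hD b x b' h1 h2)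
  · intro x y b _ h2
    exact (hcs.mod _ _ _ h2).swap
  · intro x y b h1 h2
    exact hcs.mod _ _ _ (hD x y b h1 h2)

end Pool.Agent.H533R2.VD
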