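import Pool.Agent.H533R2.VD.Spec

set_option autoImplicit false

namespace Pool.Agent.H533R2.VD

open Set
open Pool.Agent.H899R2.VP

theorem t_CT3 (h1 : S_CT1) (h2 : S_CT2) : S_CT3 := by
  intro S N B hC
  obtain ⟨i1, i2, i3⟩ := h1 S N B hC
  obtain ⟨j1, j2, j3, j4, j5, j6⟩ := h2 S N B hC
  have hcs := hC.cs
  -- `D N b x' y` gives `B x' y`
  have key : ∀ b x' y, B b y → D N b x' y → B x' y := fun b x' y hb hd =>
    ((hC.cone b y hb).2 x').2 hd
  have keyR : ∀ b x' y, B b y → B x' y → D N b x' y := fun b x' y hb hd =>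
    ((hC.cone b y hb).2 x').1 hd
  constructor
  · intro x y b hL hb hxy hD
    have hby : B b y := (j1 x y b hL).1 hb
    refine ⟨fun h => ?_, fun h => ?_, hD, ?_, ?_⟩
    · exact hL.1 (key b x y hby h)
    · exact hL.2 (key b y x hb h)
    · rintro rfl; exact i1 _ hb
    · rintro rfl; exact i1 _ hby
  · intro x y w b hxyL hywL hb hxy hyw hxw hD1 hD2 hD3
    have hby : B b y := (j1 x y b hxyL).1 hb
    have hbw : B b w := (j1 y w b hywL).1 hby
    have hxwL : ¬ B x w ∧ ¬ B w x := by
      constructor
      · intro h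
        rcases i3 x y w h with h' | h'
        · exact hxyL.1 h'
        · exact hywL.1 h'
      · intro h
        rcases i3 w y x h with h' | h'
        · exact hywL.2 h'
        · exact hxyL.2 h'
    refine ⟨fun h => ?_, fun h => ?_, fun h => ?_⟩
    · -- D x y w: D x y b or D b y w
      rcases hcs.c3 x y w h b with h' | h'
      · exact hD1 h'
      · exact hywL.1 (key b y w hbw h')
    · rcases hcs.c3 x w y h b with h' | h'
      · exact hD3 h'
      · exact hywL.2 (key b w y hby h')
    · rcases hcs.c3 y w x h b with h' | h'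
      · exact hD2 h'
      · exact hxwL.2 (key b w x hb h')

end Pool.Agent.H533R2.VD
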