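import Pool.Agent.H533R2.VD.Spec
set_option autoImplicit false
namespace Pool.Agent.H533R2.VD
open Set
open Pool.Agent.H899R2.VP

theorem t_DC2 (h1 : S_UNI) (h2 : S_DP0) : S_DC2 := by
  intro N hN x y z hxy hxz
  obtain ⟨_, hcol, _⟩ := h2 N
  have hyz := hcol x y z hxy
  have hzy := hcol x z y hxz
  have key : ∀ w, Relation.ReflTransGen (Stp N x y) x w → Dp N x w z := by
    intro w hw
    induction hw with
    | refl => exact ⟨hxy.1, Relation.ReflTransGen.refl⟩
    | tail hb hs ih =>
      rename_i b c
      obtain ⟨_, _, _, s4, s5, s6, s7⟩ := hs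
      by_contra hc
      by_cases hcz : c = z
      · subst hcz
        exact s7 (((hcol x b c ih).2.trans hyz.2.symm).trans hzy.2.swap)
      · have e1 := h1 N hN x b z c hcz ih hc
        have e2 := h1 N hN x y z c hcz hxy hc
        exact s7 ((e1.trans e2.symm).trans s5.swap)
  exact (hcol x z z (key z hxz.2)).1 rfl

end Pool.Agent.H533R2.VD
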