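import Pool.Agent.H533R2.VD.Spec

set_option autoImplicit false

namespace Pool.Agent.H533R2.VD

open Set
open Pool.Agent.H899R2.VP
open Pool.Agent.H533R2.VO (Glu Lev OS G BlkC Ic)

/-- axiom c3 -/
theorem t_DC3 (h1 : S_UNI) (h2 : S_DP0) (h3 : S_TRI) : S_DC3 := by
  intro N hN x y z w hxy
  obtain ⟨hsym, _, htr⟩ := h2 N
  have hxz : x ≠ z := hxy.1
  by_cases hw : Dp N x w z
  · exact Or.inr (htr w x z y (hsym x w z hw) hxy)
  by_cases hwz : w = z
  · subst hwz; exact Or.inl hxy
  left
  have hin : ∀ v, Relation.ReflTransGen (Stp N x z) x v → v ≠ w ∧ ce N v w x w := by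
    intro v hv
    refine ⟨?_, h1 N hN x v z w hwz ⟨hxz, hv⟩ hw⟩
    rintro rfl
    exact hw ⟨hxz, hv⟩
  refine ⟨(hin x Relation.ReflTransGen.refl).1, ?_⟩
  obtain ⟨_, hpath⟩ := hxy
  induction hpath with
  | refl => exact Relation.ReflTransGen.refl
  | @tail a b ha hab ih =>
    refine ih.trans ?_
    obtain ⟨haw, hca⟩ := hin a ha
    obtain ⟨hbw, hcb⟩ := hin b (ha.tail hab)
    have hab' := hab
    obtain ⟨e1, e2, e3, e4, e5, e6, e7⟩ := hab
    by_cases hm : ce N a b x w ∨ ce N a b w x
    · -- the colour `mu` is not `kappa` or its reverse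
      have hmk : ¬ ce N x w x z := by
        intro h
        rcases hm with hm | hm
        · exact e6 (hm.trans h)
        · exact e7 (hm.trans h.swap)
      have hmk' : ¬ ce N x w z x := by
        intro h
        rcases hm with hm | hm
        · exact e7 (hm.trans h)
        · exact e6 (hm.trans h.swap)
      have hzw : ce N z w x w := by
        rcases h3 N hN a z w e1 (Ne.symm hwz) haw with h | h | h
        · exact h.symm.trans hca
        · exfalso
          apply hw
          refine ⟨hxz, ha.tail ⟨e1, hwz, haw, e4, h.symm.trans e4, ?_, ?_⟩⟩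
          · exact fun h' => hmk (hca.symm.trans h')
          · exact fun h' => hmk' (hca.symm.trans h')
        · exfalso
          apply hmk
          -- `c(x, w) = c(a, w) = c(a, z) = c(x, z)`
          exact hca.symm.trans (h.swap.symm.trans e4)
      have s1 : Stp N x w a z := by
        refine ⟨haw, Ne.symm hwz, e1, hca, hzw, ?_, ?_⟩
        · exact fun h' => hmk (h'.symm.trans e4)
        · exact fun h' => hmk' ((h'.symm.trans e4).swap)
      have s2 : Stp N x w z b := by
        refine ⟨Ne.symm hwz, hbw, Ne.symm e2, hzw, hcb, ?_, ?_⟩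
        · exact fun h' => hmk' (h'.symm.trans e5.swap)
        · exact fun h' => hmk ((h'.symm.trans e5.swap).swap)
      exact (Relation.ReflTransGen.single s1).tail s2
    · rw [not_or] at hm
      exact Relation.ReflTransGen.single ⟨haw, hbw, e3, hca, hcb, hm.1, hm.2⟩

end Pool.Agent.H533R2.VD
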