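import Pool.Agent.H533R2.VD.Spec

set_option autoImplicit false

namespace Pool.Agent.H533R2.VD

open Set
open Pool.Agent.H899R2.VP
open Pool.Agent.H533R2.VO (Glu Lev OS G BlkC Ic)

private theorem dec_rp (N : R2) : rp (ex N) = N := by
  funext i x y
  rfl

private theorem dec_D (N : R2) (x y z : ℕ) : D (ex N) x y z ↔ Dp N x y z := by
  unfold D ex
  simp

theorem t_DEC (h0 : S_DP0) (h2 : S_DC2) (h3 : S_DC3) (h4 : S_DDEG) : S_DEC := by
  intro N hN
  obtain ⟨hs, hm, -⟩ := h0 N
  refine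
    { flat := fun x y => rfl
      refl := fun x z hxz => (dec_D N x x z).2 ⟨hxz, Relation.ReflTransGen.refl⟩
      irr := fun x y h => ((dec_D N x y x).1 h).1 rfl
      symm := fun x y z h => (dec_D N y x z).2 (hs x y z ((dec_D N x y z).1 h))
      c2 := fun x y z h h' => h2 N hN x y z ((dec_D N x y z).1 h) ((dec_D N x z y).1 h')
      c3 := fun x y z h w => ?_
      mod := fun x y z h => ?_
      deg := fun x y z h1 h2' h3' g1 g2 g3 => ?_ }
  · rw [dec_D, dec_D]
    exact h3 N hN x y z w ((dec_D N x y z).1 h)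
  · rw [dec_rp]
    have := (hm x y z ((dec_D N x y z).1 h)).2
    exact fun i => ⟨(this i).1.symm, (this i).2.symm⟩
  · rw [dec_D] at g1 g2 g3
    rw [dec_rp]
    exact h4 N hN x y z h1 h2' h3' g1 g2 g3

end Pool.Agent.H533R2.VD
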