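import Pool.Agent.H533R2.VD.Spec
set_option autoImplicit false
namespace Pool.Agent.H533R2.VD
open Set
open Pool.Agent.H899R2.VP
open Pool.Agent.H533R2.VO (Glu Lev OS G BlkC Ic)

private theorem dp0_symm {N : R2} {u v w t : ℕ} (h : ce N u v w t) : ce N w t u v :=
  fun i => ⟨(h i).1.symm, (h i).2.symm⟩

private theorem dp0_trans {N : R2} {u v w t a b : ℕ} (h : ce N u v w t) (h' : ce N w t a b) :
    ce N u v a b := fun i => ⟨(h i).1.trans (h' i).1, (h i).2.trans (h' i).2⟩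

private theorem dp0_swap {N : R2} {u v w t : ℕ} (h : ce N u v w t) : ce N v u t w :=
  fun i => ⟨(h i).2, (h i).1⟩

private theorem dp0_stp_symm {N : R2} {x z w w' : ℕ} (h : Stp N x z w w') : Stp N x z w' w := by
  obtain ⟨h1, h2, h3, h4, h5, h6, h7⟩ := h
  exact ⟨h2, h1, h3.symm, h5, h4, fun h => h7 (dp0_swap h), fun h => h6 (dp0_swap h)⟩

private theorem dp0_stp_ref {N : R2} {x y z w w' : ℕ} (hc : ce N x z y z) (h : Stp N x z w w') :
    Stp N y z w w' := by
  obtain ⟨h1, h2, h3, h4, h5, h6, h7⟩ := h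
  exact ⟨h1, h2, h3, dp0_trans h4 hc, dp0_trans h5 hc, fun h => h6 (dp0_trans h (dp0_symm hc)),
    fun h => h7 (dp0_trans h (dp0_swap (dp0_symm hc)))⟩

private theorem dp0_path {N : R2} {x z w w' : ℕ} (h : Relation.ReflTransGen (Stp N x z) w w')
    (hw : w ≠ z) (hc : ce N w z x z) : w' ≠ z ∧ ce N w' z x z := by
  induction h with
  | refl => exact ⟨hw, hc⟩
  | tail _ h2 _ => exact ⟨h2.2.1, h2.2.2.2.2.1⟩

private theorem dp0_facts {N : R2} {x y z : ℕ} (h : Dp N x y z) : y ≠ z ∧ ce N y z x z :=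
  dp0_path h.2 h.1 fun _ => ⟨rfl, rfl⟩

private theorem dp0_rev {r : ℕ → ℕ → Prop} (hs : ∀ a b, r a b → r b a) {a b : ℕ}
    (h : Relation.ReflTransGen r a b) : Relation.ReflTransGen r b a := by
  induction h with
  | refl => exact Relation.ReflTransGen.refl
  | tail _ h2 ih => exact Relation.ReflTransGen.head (hs _ _ h2) ih

private theorem dp0_mono {r r' : ℕ → ℕ → Prop} (hs : ∀ a b, r a b → r' a b) {a b : ℕ}
    (h : Relation.ReflTransGen r a b) : Relation.ReflTransGen r' a b := by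
  induction h with
  | refl => exact Relation.ReflTransGen.refl
  | tail _ h2 ih => exact Relation.ReflTransGen.tail ih (hs _ _ h2)

theorem t_DP0 : S_DP0 := by
  intro N
  refine ⟨?_, fun x y z h => dp0_facts h, ?_⟩
  · intro x y z h
    obtain ⟨h1, h2⟩ := dp0_facts h
    refine ⟨h1, ?_⟩
    exact dp0_mono (fun a b hab => dp0_stp_ref (dp0_symm h2) hab)
      (dp0_rev (fun a b hab => dp0_stp_symm hab) h.2)
  · intro x y z w h1 h2
    obtain ⟨-, h3⟩ := dp0_facts h1
    exact ⟨h1.1, h1.2.trans (dp0_mono (fun a b hab => dp0_stp_ref h3 hab) h2.2)⟩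

end Pool.Agent.H533R2.VD
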