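import Pool.Agent.H533R2.VD.Spec

set_option autoImplicit false

/-! Facts on the filled structures. -/

namespace Pool.Agent.H533R2.VD

open Set
open Pool.Agent.H899R2.VP
open Pool.Agent.H533R2.VO (Glu Lev OS G BlkC Ic)

theorem dsf_div (k : ℕ) (b : Bool) : (2 * k + b.toNat) / 2 = k := by
  cases b <;> simp
  omega

theorem t_DSF (h1 : S_GLB3) (h2 : S_GLF3) (h3 : S_CSBF) : S_DSF := by
  intro α M x z t hSU σ
  have hcb := hSU.cb
  have hM : Cs M := hcb.cs
  have hbf : ∀ k, BF M (t (2 * k + (σ k).toNat)) (Cn M (x k) (z k)) (Cn M (x k) (z k)) α ∅ := by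
    intro k
    have := (hSU.gt (2 * k + (σ k).toNat)).1
    rwa [dsf_div] at this
  have hB : BF M (DS M x z t σ) univ univ α ∅ :=
    h1 ℕ α M x z (fun k => t (2 * k + (σ k).toNat)) hSU.om hM (fun i j hij => hcb.dj i j hij) hbf
  obtain ⟨g1, g2, g3⟩ := h2 ℕ M x z (fun k => t (2 * k + (σ k).toNat)) hM hcb.ne
    (fun i j hij => hcb.dj i j hij)
  refine ⟨hB, h3 α M _ univ hSU.om hM hB, g1, ?_, fun k => (g2 k).mono (empty_subset _)⟩
  intro k
  ext w
  have hkk : ∀ j, x k ∈ Cn M (x j) (z j) → x (k + 1) ∈ Cn M (x j) (z j) →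
      w ∉ Cn M (x j) (z j) := by
    intro j hj hj'
    exfalso
    have e1 : j = k := by
      by_contra hne
      exact Set.disjoint_left.1 (hcb.dj j k hne) hj (hM.self_mem (hcb.ne k))
    have e2 : j = k + 1 := by
      by_contra hne
      exact Set.disjoint_left.1 (hcb.dj j (k + 1) hne) hj' (hM.self_mem (hcb.ne (k + 1)))
    omega
  exact not_congr (g3 (x k) (x (k + 1)) w hkk)

end Pool.Agent.H533R2.VD
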