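import Pool.Agent.H533R2.VD.Spec

set_option autoImplicit false

/-! `M = ex (rp M)` is preserved by back-and-forth equivalence of cones. -/

namespace Pool.Agent.H533R2.VD

open Set
open Pool.Agent.H899R2.VP
open Pool.Agent.H533R2.VO (Glu Lev OS G BlkC Ic)

theorem exbf_stp {M N : St a3} {p : Set (ℕ × ℕ)} (h : PIso M N p)
    {x z w v x' z' w' v' : ℕ} (hx : (x, x') ∈ p) (hz : (z, z') ∈ p) (hw : (w, w') ∈ p)
    (hv : (v, v') ∈ p) : Stp (rp M) x z w v ↔ Stp (rp N) x' z' w' v' := by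
  have e1 : w = z ↔ w' = z' := h.1 _ hw _ hz
  have e2 : v = z ↔ v' = z' := h.1 _ hv _ hz
  have e3 : w = v ↔ w' = v' := h.1 _ hw _ hv
  unfold Stp
  rw [ne_eq, ne_eq, ne_eq, ne_eq, ne_eq, ne_eq, e1, e2, e3, PIso_ce h hw hz hx hz,
    PIso_ce h hv hz hx hz, PIso_ce h hw hv hx hz, PIso_ce h hw hv hz hx]

theorem t_EXBF (h1 : S_EXQ1) (h2 : S_EXQ2) (h3 : S_CSBF) : S_EXBF := by
  intro α M N x z om hM he hb
  have hN : Cs N := h3 α M N _ om hM hb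
  have hF : FO M := h1 M hM he
  have lt : ∀ n : ℕ, ((n : ℕ) : Ordinal.{0}) < ((n + 1 : ℕ) : Ordinal.{0}) := fun n => by
    exact_mod_cast Nat.lt_succ_self n
  have hb4 : BF M N (Cn M x z) univ ((4 : ℕ) : Ordinal.{0}) ∅ :=
    hb.mono ((Ordinal.natCast_lt_omega0 4).le.trans om)
  have key : ∀ a b c : ℕ, ∃ a' ∈ Cn M x z, ∃ b' ∈ Cn M x z, ∃ c' ∈ Cn M x z,
      BF M N (Cn M x z) univ ((1 : ℕ) : Ordinal.{0})
        (insert (c', c) (insert (b', b) (insert (a', a) ∅))) := by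
    intro a b c
    obtain ⟨a', ha', hb3⟩ := hb4.back (lt 3) (mem_univ a)
    obtain ⟨b', hb', hb2⟩ := hb3.back (lt 2) (mem_univ b)
    obtain ⟨c', hc', hb1⟩ := hb2.back (lt 1) (mem_univ c)
    exact ⟨a', ha', b', hb', c', hc', hb1⟩
  refine h2 N hN ⟨fun w w' z0 hs => ?_, fun x0 y0 z0 hd => ?_⟩
  · obtain ⟨w1, -, w1', -, z1, -, hq⟩ := key w w' z0
    have hp := hq.piso
    have m1 : (w1, w) ∈ (insert (z1, z0) (insert (w1', w') (insert (w1, w) ∅)) :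
        Set (ℕ × ℕ)) := by simp
    have m2 : (w1', w') ∈ (insert (z1, z0) (insert (w1', w') (insert (w1, w) ∅)) :
        Set (ℕ × ℕ)) := by simp
    have m3 : (z1, z0) ∈ (insert (z1, z0) (insert (w1', w') (insert (w1, w) ∅)) :
        Set (ℕ × ℕ)) := by simp
    exact (PIso_D hp m1 m2 m3).1 (hF.u _ _ _ ((exbf_stp hp m1 m3 m1 m2).2 hs))
  · obtain ⟨x1, hx1, y1, hy1, z1, hz1, hq⟩ := key x0 y0 z0
    have hp := hq.piso
    have m1 : (x1, x0) ∈ (insert (z1, z0) (insert (y1, y0) (insert (x1, x0) ∅)) :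
        Set (ℕ × ℕ)) := by simp
    have m2 : (y1, y0) ∈ (insert (z1, z0) (insert (y1, y0) (insert (x1, x0) ∅)) :
        Set (ℕ × ℕ)) := by simp
    have m3 : (z1, z0) ∈ (insert (z1, z0) (insert (y1, y0) (insert (x1, x0) ∅)) :
        Set (ℕ × ℕ)) := by simp
    rcases hF.e _ _ _ ((PIso_D hp m1 m2 m3).2 hd) with h4 | h4 | ⟨w1, h4, h5⟩
    · exact Or.inl ((hp.1 _ m1 _ m2).1 h4)
    · exact Or.inr (Or.inl ((exbf_stp hp m1 m3 m1 m2).1 h4))
    · have hw1 : w1 ∈ Cn M x z := hM.csub hx1 hz1 (hF.u _ _ _ h4)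
      obtain ⟨w0, -, hq0⟩ := hq.forth (lt 0) hw1
      have hp0 := hq0.piso
      exact Or.inr (Or.inr ⟨w0,
        (exbf_stp hp0 (mem_insert_of_mem _ m1) (mem_insert_of_mem _ m3) (mem_insert_of_mem _ m1)
          (mem_insert _ _)).1 h4,
        (exbf_stp hp0 (mem_insert_of_mem _ m1) (mem_insert_of_mem _ m3) (mem_insert _ _)
          (mem_insert_of_mem _ m2)).1 h5⟩)

end Pool.Agent.H533R2.VD
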