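import Pool.Agent.H533R2.VD.Spec
set_option autoImplicit false
namespace Pool.Agent.H533R2.VD
open Set
open Pool.Agent.H899R2.VP
open Pool.Agent.H533R2.VO (Glu Lev OS G BlkC Ic)

private theorem exi_ce {N N' : R2} {e : Equiv.Perm ℕ} (h : ∀ i u v, N' i (e u) (e v) = N i u v)
    (u v w t : ℕ) : ce N' (e u) (e v) (e w) (e t) ↔ ce N u v w t := by
  constructor
  · intro hc i
    have := hc i
    rwa [h, h, h, h] at this
  · intro hc i
    rw [h, h, h, h]
    exact hc i

private theorem exi_stp {N N' : R2} {e : Equiv.Perm ℕ} (h : ∀ i u v, N' i (e u) (e v) = N i u v)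
    (x z w w' : ℕ) : Stp N' (e x) (e z) (e w) (e w') ↔ Stp N x z w w' := by
  simp only [Stp, exi_ce h, ne_eq, EmbeddingLike.apply_eq_iff_eq]

private theorem exi_dp {N N' : R2} {e : Equiv.Perm ℕ} (h : ∀ i u v, N' i (e u) (e v) = N i u v)
    (x y z : ℕ) (hd : Dp N x y z) : Dp N' (e x) (e y) (e z) := by
  refine ⟨fun he => hd.1 (e.injective he), ?_⟩
  exact hd.2.lift e (fun a b hab => (exi_stp h x z a b).2 hab)

private theorem exi_dp' {N N' : R2} {e : Equiv.Perm ℕ} (h : ∀ i u v, N' i (e u) (e v) = N i u v)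
    (x y z : ℕ) : Dp N x y z ↔ Dp N' (e x) (e y) (e z) := by
  refine ⟨exi_dp h x y z, fun hd => ?_⟩
  have h' : ∀ i u v, N i (e.symm u) (e.symm v) = N' i u v := by
    intro i u v
    rw [← h i, e.apply_symm_apply, e.apply_symm_apply]
  have := exi_dp h' _ _ _ hd
  rwa [e.symm_apply_apply, e.symm_apply_apply, e.symm_apply_apply] at this

private theorem exi_D (N : R2) (x y z : ℕ) : D (ex N) x y z ↔ Dp N x y z := by
  classical
  show decide (Dp N x y z) = true ↔ Dp N x y z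
  exact decide_eq_true_iff

private theorem exi_rp (N : R2) (i x y : ℕ) : rp (ex N) i x y = N i x y := by
  simp [rp, ex]

theorem t_EXI : S_EXI := by
  intro N N' e h
  refine PIso_mk ?_ ?_ ?_ ?_
  · rintro ⟨u, u'⟩ hu ⟨v, v'⟩ hv
    simp only [mem_ofPred_eq] at hu hv
    subst hu hv
    exact (e.injective.eq_iff).symm
  · rintro ⟨u, u'⟩ hu ⟨v, v'⟩ hv
    rfl
  · rintro ⟨u, u'⟩ hu ⟨v, v'⟩ hv ⟨w, w'⟩ hw
    simp only [mem_ofPred_eq] at hu hv hw
    subst hu hv hw
    rw [exi_D, exi_D]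
    exact exi_dp' h u v w
  · rintro i ⟨u, u'⟩ hu ⟨v, v'⟩ hv
    simp only [mem_ofPred_eq] at hu hv
    subst hu hv
    rw [exi_rp, exi_rp]
    exact (h i u v).symm

end Pool.Agent.H533R2.VD
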