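import Pool.Agent.H533R2.VD.Spec

set_option autoImplicit false

namespace Pool.Agent.H533R2.VD

open Set
open Pool.Agent.H899R2.VP

private theorem exq1_cross {R : ℕ → ℕ → Prop} {P : ℕ → Prop} {a b : ℕ}
    (h : Relation.ReflTransGen R a b) (ha : P a) (hb : ¬ P b) :
    ∃ u v, R u v ∧ P u ∧ ¬ P v := by
  induction h with
  | refl => exact absurd ha hb
  | tail hab hbc ih =>
    rename_i b c
    by_cases hPb : P b
    · exact ⟨b, c, hbc, hPb, hb⟩
    · exact ih hPb

theorem t_EXQ1 : S_EXQ1 := by
  intro M hM he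
  have hD : ∀ x y z, D M x y z ↔ Dp (rp M) x y z := by
    intro x y z
    have h0 : M.2 0 ![x, y, z] = (ex (rp M)).2 0 ![x, y, z] := by
      conv_lhs => rw [he]
    unfold D
    rw [h0]
    exact @decide_eq_true_iff (Dp (rp M) x y z) (Classical.propDecidable _)
  refine ⟨?_, ?_⟩
  · intro w w' z h
    rw [hD]
    exact ⟨h.1, Relation.ReflTransGen.single h⟩
  · intro x y z h
    by_cases hxy : x = y
    · exact Or.inl hxy
    right
    have hxz : x ≠ z := hM.ne h
    have hyz : y ≠ z := hM.ne' h
    have hmod : ce (rp M) x z y z := hM.mod _ _ _ h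
    by_cases hs : Stp (rp M) x z x y
    · exact Or.inl hs
    right
    have hk : ce (rp M) x y x z ∨ ce (rp M) x y z x := by
      by_contra hcon
      push Not at hcon
      exact hs ⟨hxz, hyz, hxy, ce.refl, hmod.symm, hcon.1, hcon.2⟩
    have hp : Relation.ReflTransGen (Stp (rp M) x z) x y := ((hD x y z).1 h).2
    obtain ⟨w, w', hst, hw, hw'⟩ := exq1_cross (P := fun w => w ∈ Cn M x y) hp
      (hM.self_mem hxy) hM.not_mem
    obtain ⟨s1, s2, s3, s4, s5, s6, s7⟩ := hst
    have hxw : ce (rp M) x w' w w' := hM.cce (hM.self_mem hxy) hw hw'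
    have n1 : ¬ ce (rp M) x w' x z := fun h1 => s6 (hxw.symm.trans h1)
    have n2 : ¬ ce (rp M) x w' z x := fun h1 => s7 (hxw.symm.trans h1)
    -- the colour of `(x, w')` is not that of `(x, y)` or `(y, x)`
    have m1 : ¬ ce (rp M) x w' x y := by
      intro h1
      rcases hk with h2 | h2
      · exact n1 (h1.trans h2)
      · exact n2 (h1.trans h2)
    have m2 : ¬ ce (rp M) x w' y x := by
      intro h1
      rcases hk with h2 | h2
      · exact n2 (h1.trans h2.swap)
      · exact n1 (h1.trans h2.swap)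
    have e1 : w' ≠ y := by
      rintro rfl
      exact m1 ce.refl
    have e2 : x ≠ w' := by
      rintro rfl
      exact hw' (hM.self_mem hxy)
    have hcl : D M x y w' := by
      by_contra hc
      have c2 : ¬ D M x w' y := hw'
      have c3 : ¬ D M y w' x := by
        intro h1
        exact m1 (hM.mod _ _ _ h1).swap.symm
      rcases hM.deg x y w' hxy (Ne.symm e1) e2 hc c2 c3 with h1 | h1 | h1 | h1 | h1 | h1
      · exact m1 h1.1.symm
      · exact m1 h1.1
      · exact m2 (h1.1.trans h1.2).symm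
      · exact m1 h1.2.swap.symm
      · exact m2 (h1.1.trans h1.2).swap
      · exact m1 h1.2.swap
    have hm2 : ce (rp M) x w' y w' := hM.mod _ _ _ hcl
    refine ⟨w', ⟨hxz, s2, e2, ce.refl, s5, n1, n2⟩, ⟨s2, hyz, e1, s5, hmod.symm, ?_, ?_⟩⟩
    · intro h1
      exact n2 (hm2.trans h1.swap)
    · intro h1
      exact n1 (hm2.trans h1.swap)

end Pool.Agent.H533R2.VD
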