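import Pool.Agent.H533R2.VD.Spec

set_option autoImplicit false

namespace Pool.Agent.H533R2.VD

open Set
open Pool.Agent.H899R2.VP
open Pool.Agent.H533R2.VO (Glu Lev OS G BlkC Ic)

theorem exq2_iff {M : St a3} (h : Cs M) (hF : FO M) (x y z : ℕ) :
    D M x y z ↔ Dp (rp M) x y z := by
  constructor
  · intro h1
    refine ⟨h.ne h1, ?_⟩
    rcases hF.e x y z h1 with e | e | ⟨w, e1, e2⟩
    · subst e
      exact Relation.ReflTransGen.refl
    · exact Relation.ReflTransGen.single e
    · exact (Relation.ReflTransGen.single e1).tail e2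
  · rintro ⟨h0, h1⟩
    induction h1 with
    | refl => exact h.refl x z h0
    | tail hp hs ih =>
      rename_i w w'
      obtain ⟨a1, a2, a3', a4, a5, a6, a7⟩ := hs
      refine h.trans ih (hF.u w w' z ⟨a1, a2, a3', ce.refl, a5.trans a4.symm, ?_, ?_⟩)
      · intro h2
        exact a6 (h2.trans a4)
      · intro h2
        exact a7 (h2.trans a4.swap)

theorem t_EXQ2 : S_EXQ2 := by
  intro M h hF
  refine Prod.ext ?_ ?_
  · funext x y
    rw [h.flat]
    rfl
  · funext i
    match i with
    | 0 =>
      funext t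
      have h1 : t = ![t 0, t 1, t 2] := by
        funext j
        fin_cases j <;> rfl
      have h2 := exq2_iff h hF (t 0) (t 1) (t 2)
      have h3 : (ex (rp M)).2 0 t = true ↔ Dp (rp M) (t 0) (t 1) (t 2) := by
        simp [ex]
      rw [Bool.eq_iff_iff, h3, ← h2]
      conv_lhs => rw [h1]
      rfl
    | i + 1 =>
      funext t
      have h1 : t = ![t 0, t 1] := by
        funext j
        fin_cases j <;> rfl
      conv_lhs => rw [h1]
      rfl

end Pool.Agent.H533R2.VD
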