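import Pool.Agent.H533R2.VD.Spec
import Pool.Agent.H899R2.VP.Few

set_option autoImplicit false

/-! Task FEWB: no perfect set over a finite base. -/

namespace Pool.Agent.H533R2.VD

open Set
open Pool.Agent.H899R2.VP

/-- binary reduct of a structure with binary relations -/
def fewb_r (M : St a2) : R2 := fun i x y => M.2 i ![x, y]

/-- the structure with the given binary relations -/
def fewb_s (x : R2) : St a2 := (fun _ _ => false, fun i t => x i (t 0) (t 1))

theorem fewb_rs (x : R2) : fewb_r (fewb_s x) = x := rfl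

theorem fewb_vec (t : Fin 2 → ℕ) : t = ![t 0, t 1] := by
  funext k
  fin_cases k <;> rfl

theorem fewb_meas_r : Measurable fewb_r := by
  refine measurable_pi_lambda _ fun i => measurable_pi_lambda _ fun x =>
    measurable_pi_lambda _ fun y => ?_
  exact (measurable_pi_apply (![x, y] : Fin 2 → ℕ)).comp ((measurable_pi_apply i).comp measurable_snd)

theorem fewb_cont_r : Continuous fewb_r := by
  refine continuous_pi fun i => continuous_pi fun x => continuous_pi fun y => ?_
  exact (continuous_apply (![x, y] : Fin 2 → ℕ)).comp ((continuous_apply i).comp continuous_snd)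

theorem fewb_cont_s : Continuous fewb_s := by
  refine Continuous.prodMk continuous_const ?_
  refine continuous_pi fun i => continuous_pi fun t => ?_
  exact (continuous_apply (t 1)).comp ((continuous_apply (t 0)).comp (continuous_apply i))

theorem fewb_iso {M N : St a2} {p : Set (ℕ × ℕ)} (h : IsoOn M N univ univ p) :
    ∃ e : Equiv.Perm ℕ, PIso M N {w | w.2 = e w.1} ∧ ∀ u ∈ p, u.2 = e u.1 := by
  obtain ⟨q, hpq, -, h3, h4, h5⟩ := h
  choose f hf using fun x => h4 x (mem_univ x)
  choose g hg using fun x => h5 x (mem_univ x)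
  have hq : ∀ x y, (x, y) ∈ q ↔ y = f x := by
    intro x y
    constructor
    · intro h
      exact (h3.1 _ h _ (hf x)).1 rfl
    · rintro rfl
      exact hf x
  refine ⟨⟨f, g, fun x => ?_, fun y => ?_⟩, ?_, ?_⟩
  · exact (h3.1 _ (hg (f x)) _ (hf x)).2 rfl
  · exact ((hq _ _).1 (hg y)).symm
  · have : {w : ℕ × ℕ | w.2 = f w.1} ⊆ q := fun w hw => (hq w.1 w.2).2 hw
    exact ⟨fun u hu v hv => h3.1 u (this hu) v (this hv),
      fun u hu v hv => h3.2.1 u (this hu) v (this hv),
      fun i t ht => h3.2.2 i t fun k => this (ht k)⟩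
  · intro u hu
    exact (hq u.1 u.2).1 (hpq hu)

theorem t_FEWB (h : S_EXI) : S_FEWB := by
  rintro B hB hfew F hF ⟨g, hgc, hg, hiso⟩
  have hK : MeasurableSet {M : St a2 | M.1 = (fun _ _ => false) ∧ fewb_r M ∈ B} := by
    refine MeasurableSet.inter ?_ (fewb_meas_r hB)
    have h1 : MeasurableSet ({(fun _ _ => false : ℕ → ℕ → Bool)} : Set (ℕ → ℕ → Bool)) :=
      measurableSet_singleton _
    have h2 : Measurable (fun M : St a2 => M.1) := measurable_fst
    exact h2 h1
  have few : ¬ ∃ g2 : (ℕ → Bool) → St a2, Continuous g2 ∧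
      (∀ c, g2 c ∈ {M : St a2 | M.1 = (fun _ _ => false) ∧ fewb_r M ∈ B}) ∧
      ∀ c d, IsoOn (g2 c) (g2 d) univ univ ∅ → c = d := by
    rintro ⟨g2, hc2, h2, hi2⟩
    refine hfew ⟨fun c => fewb_r (g2 c), fewb_cont_r.comp hc2, fun c => (h2 c).2, ?_⟩
    rintro c d ⟨σ, hσ⟩
    refine hi2 c d ⟨{w | w.2 = σ w.1}, empty_subset _, ?_, ⟨?_, ?_, ?_⟩, ?_, ?_⟩
    · intro w _
      exact ⟨mem_univ _, mem_univ _⟩
    · intro u hu v hv
      rw [show u.2 = σ u.1 from hu, show v.2 = σ v.1 from hv]
      exact σ.injective.eq_iff.symm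
    · intro u _ v _
      rw [(h2 c).1, (h2 d).1]
    · intro i t ht
      have e0 : (t 0).2 = σ (t 0).1 := ht 0
      have e1 : (t 1).2 = σ (t 1).1 := ht 1
      have h3 := hσ i (t 0).1 (t 1).1
      rw [← e0, ← e1] at h3
      have h4 : (g2 c).2 i (fun k => (t k).1) = fewb_r (g2 c) i (t 0).1 (t 1).1 := by
        unfold fewb_r
        rw [fewb_vec (fun k => (t k).1)]
      have h5 : (g2 d).2 i (fun k => (t k).2) = fewb_r (g2 d) i (t 0).2 (t 1).2 := by
        unfold fewb_r
        rw [fewb_vec (fun k => (t k).2)]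
      rw [h4, h5]
      exact h3.symm
    · intro x _
      exact ⟨σ x, rfl⟩
    · intro y _
      exact ⟨σ.symm y, (σ.apply_symm_apply y).symm⟩
  refine few_base hK few hF (fun c => fewb_s (g c)) (fewb_cont_s.comp hgc)
    (fun c => ⟨rfl, hg c⟩) ?_
  intro c d hcd
  refine hiso c d ?_
  obtain ⟨e, he, heF⟩ := fewb_iso hcd
  have h1 : ∀ i u v, g d i (e u) (e v) = g c i u v := by
    intro i u v
    have h2 := he.2.2 i (![(u, e u), (v, e v)] : Fin 2 → ℕ × ℕ) (by
      intro k
      fin_cases k <;> rfl)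
    exact h2.symm
  have h2 : PIso (ex (g c)) (ex (g d)) {w | w.2 = e w.1} := h (g c) (g d) e h1
  refine ⟨{w | w.2 = e w.1}, fun u hu => heF u hu, fun w _ => ⟨mem_univ _, mem_univ _⟩, h2, ?_, ?_⟩
  · intro x _
    exact ⟨e x, rfl⟩
  · intro y _
    exact ⟨e.symm y, (e.apply_symm_apply y).symm⟩

end Pool.Agent.H533R2.VD
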