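import Pool.Agent.H533R2.VD.Spec
import Pool.Agent.H899R2.VP.Borel

set_option autoImplicit false

/-! Task FINAL3 (helper329). -/

namespace Pool.Agent.H533R2.VD

open Set
open Pool.Agent.H899R2.VP

theorem final3_ext {M N N' : St a3} {e : Equiv.Perm ℕ} (h : Is M N e) (h' : Is M N' e) :
    N = N' := by
  refine Prod.ext ?_ ?_
  · funext x y
    have h1 := h.2.1 (e.symm x, x) (by simp) (e.symm y, y) (by simp)
    have h2 := h'.2.1 (e.symm x, x) (by simp) (e.symm y, y) (by simp)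
    exact h1.symm.trans h2
  · funext i t
    have h1 := h.2.2 i (fun k => (e.symm (t k), t k)) (fun k => by simp)
    have h2 := h'.2.2 i (fun k => (e.symm (t k), t k)) (fun k => by simp)
    exact h1.symm.trans h2

theorem final3_riso {M N : St a3} (h : IsoOn M N univ univ ∅) : RIso2 (rp M) (rp N) := by
  obtain ⟨e, he, -⟩ := exists_is h
  exact ⟨e, fun i u v => (PIso_rp he (by rfl) (by rfl) i).symm⟩

theorem final3_borel : BorelSpace R2 := by
  have b2 : BorelSpace (ℕ → ℕ → Bool) := inferInstance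
  have s2 : SecondCountableTopology (ℕ → ℕ → Bool) := inferInstance
  have : BorelSpace (ℕ → (ℕ → ℕ → Bool)) :=
    @Pi.borelSpace ℕ (fun _ => ℕ → ℕ → Bool) _ _ _ (fun _ => s2) (fun _ => b2)
  exact this

theorem t_FINAL3 (h1 : S_MAIN3) (h2 : S_DEC) (h3 : S_KPM2) (h4 : S_EXI) (h5 : S_FEWB) :
    S_FINAL3 := by
  intro B hBm hBi hB
  by_cases hg : ∃ g : (ℕ → Bool) → R2, Continuous g ∧ (∀ c, g c ∈ B) ∧
      ∀ c d, RIso2 (g c) (g d) → c = d
  · exact Or.inr hg
  left
  obtain ⟨K, hK⟩ : ∃ K : Set (St a3), K = {M | M = ex (rp M) ∧ rp M ∈ B} := ⟨_, rfl⟩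
  have hmem : ∀ M, M ∈ K ↔ M = ex (rp M) ∧ rp M ∈ B := fun M => by rw [hK]; rfl
  have b0 : BorelSpace R2 := final3_borel
  have s1 : SecondCountableTopology (St a3) := inferInstance
  have b3 : BorelSpace (St a3) := inferInstance
  have b4 : BorelSpace (St a3 × St a3) := Prod.borelSpace
  have hrp : Measurable (rp : St a3 → R2) := continuous_rp.measurable
  have hKm : MeasurableSet K := by
    rw [hK]
    refine MeasurableSet.inter ?_ (hrp hBm)
    have hd : MeasurableSet (Set.diagonal (St a3)) := isClosed_diagonal.measurableSet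
    exact (measurable_id.prodMk (h3.1.comp hrp)) hd
  have hKinv : ∀ M ∈ K, ∀ N : St a3, IsoOn M N univ univ ∅ → N ∈ K := by
    intro M hM N hMN
    rw [hmem] at hM ⊢
    obtain ⟨e, he, -⟩ := exists_is hMN
    have hr : ∀ i u v, rp N i (e u) (e v) = rp M i u v := fun i u v =>
      (PIso_rp he (by rfl) (by rfl) i).symm
    refine ⟨?_, (hBi _ _ ⟨e, hr⟩).1 hM.2⟩
    have h6 := h4 (rp M) (rp N) e hr
    rw [← hM.1] at h6
    exact final3_ext he h6
  obtain ⟨α₀, hα₀, hcl⟩ := closed_rank hKm hKinv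
  have hω : Ordinal.omega0 < Ordinal.omega.{0} 1 := by
    rw [← Ordinal.omega_zero]; exact Ordinal.omega_lt_omega.2 one_pos
  have hG : GC (max α₀ Ordinal.omega0) K := by
    refine ⟨hKm, max_lt hα₀ hω, le_max_right _ _, ?_, ?_, ?_, ?_⟩
    · exact fun M hM N hb => hcl M hM N (hb.mono (le_max_left _ _))
    · intro M hM
      have h6 := (hmem M).1 hM
      rw [h6.1]
      exact h2 _ (hB _ h6.2)
    · exact fun M hM => ((hmem M).1 hM).1
    · rintro F hF ⟨g, hgc, hg1, hg2⟩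
      refine h5 B hBm hg F hF ⟨g, hgc, fun c => ?_, hg2⟩
      exact ((hmem _).1 (hg1 c)).2
  obtain ⟨f, hf⟩ := h1 _ K hG
  refine ⟨fun n => rp (f n), fun x hx => ?_⟩
  obtain ⟨n, hn⟩ := hf (ex x) ((hmem _).2 ⟨rfl, hx⟩)
  exact ⟨n, final3_riso hn⟩

end Pool.Agent.H533R2.VD
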