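import Pool.Agent.H533R2.VD.Spec
import Pool.Agent.H533R2.VO.FIN

set_option autoImplicit false

/-! Task FINC: finite cones. -/

namespace Pool.Agent.H533R2.VD

open Set
open Pool.Agent.H899R2.VP

theorem t_FINC (h1 : S_LAB3) : S_FINC := by
  intro α K hG
  have hω : Ordinal.omega0 < Ordinal.omega.{0} 1 := by
    rw [← Ordinal.omega_zero]; exact Ordinal.omega_lt_omega.2 one_pos
  obtain ⟨c, hc⟩ := h1 α K hG Ordinal.omega0 hω
  classical
  let R : ℕ → St a3 × Set ℕ → Prop := fun n P =>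
    ∃ x z, P.1 ∈ K ∧ P.2 = Cn P.1 x z ∧ P.2.Finite ∧ c P.1 [x, z] = n
  let h : ℕ → St a3 × Set ℕ := fun n =>
    if hn : ∃ P, R n P then hn.choose else (((fun _ _ => false, fun _ _ => false) : St a3), ∅)
  refine ⟨h, fun M hM x z _ hfin => ⟨c M [x, z], ?_⟩⟩
  have hex : ∃ P, R (c M [x, z]) P := ⟨(M, Cn M x z), x, z, hM, rfl, hfin, rfl⟩
  have hh : h (c M [x, z]) = hex.choose := dif_pos hex
  obtain ⟨x0, z0, hM0, he, hf0, hlab⟩ := hex.choose_spec
  rw [← hh] at hM0 he hf0 hlab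
  have hb := hc (h (c M [x, z])).1 hM0 M hM [x0, z0] [x, z] rfl hlab
  have hb' := resCn0 (x := x0) (z := z0) (x' := x) (z' := z)
    (show (x0, x) ∈ zipSet [x0, z0] [x, z] by simp [zipSet])
    (show (z0, z) ∈ zipSet [x0, z0] [x, z] by simp [zipSet]) hb
  rw [← he] at hb'
  exact Pool.Agent.H533R2.VO.t_FIN a3 _ M _ _ hf0 hb'

end Pool.Agent.H533R2.VD
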