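import Pool.Agent.H533R2.VD.Spec

set_option autoImplicit false

/-! FUN1: functoriality of `Rc` and `ex`. -/

namespace Pool.Agent.H533R2.VD

open Set
open Pool.Agent.H899R2.VP

theorem fun1_exists_equiv {a : ℕ → ℕ} {M N : St a} {p : Set (ℕ × ℕ)}
    (h : IsoOn M N univ univ p) :
    ∃ e : Equiv.Perm ℕ, PIso M N {w | w.2 = e w.1} ∧ ∀ u ∈ p, u.2 = e u.1 := by
  obtain ⟨q, hpq, -, h3, h4, h5⟩ := h
  choose f hf using fun x => h4 x (mem_univ x)
  choose g hg using fun x => h5 x (mem_univ x)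
  have hq : ∀ x y, (x, y) ∈ q ↔ y = f x := by
    intro x y
    constructor
    · intro h
      exact h3.snd_eq h (hf x) rfl
    · rintro rfl
      exact hf x
  refine ⟨⟨f, g, fun x => h3.fst_eq (hg (f x)) (hf x) rfl, fun y => ?_⟩, ?_, ?_⟩
  · exact ((hq _ _).1 (hg y)).symm
  · refine PIso.mono h3 ?_
    rintro ⟨x, y⟩ hxy
    exact (hq x y).2 hxy
  · rintro ⟨x, y⟩ hu
    exact (hq x y).1 (hpq hu)

theorem fun1_rel {O O' : St a2} {e : Equiv.Perm ℕ} (h : PIso O O' {w | w.2 = e w.1})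
    (j x y : ℕ) : O.2 j ![x, y] = O'.2 j ![e x, e y] := by
  have h1 := h.2.2 j ![(x, e x), (y, e y)] (by
    intro k
    fin_cases k <;> rfl)
  have e1 : (fun k => (![(x, e x), (y, e y)] k).1) = ![x, y] := by
    funext k
    fin_cases k <;> rfl
  have e2 : (fun k => (![(x, e x), (y, e y)] k).2) = ![e x, e y] := by
    funext k
    fin_cases k <;> rfl
  rw [← e1, ← e2]
  exact h1

theorem fun1_adj {O O' : St a2} {e : Equiv.Perm ℕ} (h : PIso O O' {w | w.2 = e w.1})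
    (x y : ℕ) : O.1 x y = O'.1 (e x) (e y) :=
  h.2.1 (x, e x) rfl (y, e y) rfl

theorem t_FUN1 (h : S_EXI) : S_FUN1 := by
  intro O O' p hp
  obtain ⟨e, he, hpe⟩ := fun1_exists_equiv hp
  have h1 : ∀ i u v, Rc O' i (e u) (e v) = Rc O i u v := by
    intro i u v
    unfold Rc
    rw [fun1_adj he u v, fun1_adj he v u, fun1_rel he _ v v, fun1_rel he _ u u,
      fun1_rel he _ u v]
  have h2 : Is (ex (Rc O)) (ex (Rc O')) e := h (Rc O) (Rc O') e h1
  refine ⟨{w | w.2 = e w.1}, fun u hu => hpe u hu, fun u _ => ⟨mem_univ _, mem_univ _⟩, h2,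
    fun x _ => ⟨e x, rfl⟩, fun y _ => ⟨e.symm y, ?_⟩⟩
  show y = e (e.symm y)
  rw [e.apply_symm_apply]

end Pool.Agent.H533R2.VD
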