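import Pool.Agent.H533R2.VD.Spec

/-! Task FUN2 (helper485): functoriality of `Ob`. -/

set_option autoImplicit false

namespace Pool.Agent.H533R2.VD

open Set
open Pool.Agent.H899R2.VP
open Pool.Agent.H533R2.VO (Glu Lev OS G BlkC Ic iso_refl0 iso_symm0 iso_trans0)

section fun2

variable {S : Set (St a3 × Set ℕ)} {f : ℕ → St a3 × Set ℕ} {b : Bool} {N N' : St a3}
  {e : Equiv.Perm ℕ} {v : ℕ} {B B' : ℕ → ℕ → Prop}

theorem fun2_isoCn (h : Is N N' e) (P : St a3) (X : Set ℕ) (x y : ℕ) :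
    IsoOn P N X (Cn N x y) ∅ ↔ IsoOn P N' X (Cn N' (e x) (e y)) ∅ := by
  have hI := h.isoOn (Cn N x y)
  rw [h.image_Cn] at hI
  exact ⟨fun h1 => iso_trans0 h1 hI, fun h1 => iso_trans0 h1 (iso_symm0 hI)⟩

theorem fun2_Be (hS : CF S) (h : Is N N' e) (x y : ℕ) :
    Be S b N v x y ↔ Be S b N' (e v) (e x) (e y) := by
  cases b with
  | false => exact h.D_iff v x y
  | true =>
    show (x ≠ y ∧ (N, Cn N x y) ∉ S) ↔ (e x ≠ e y ∧ (N', Cn N' (e x) (e y)) ∉ S)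
    have hI := h.isoOn (Cn N x y)
    rw [h.image_Cn] at hI
    rw [hS.iso' hI, e.injective.ne_iff]

theorem fun2_rp (h : Is N N' e) (i x y : ℕ) : rp N i x y = rp N' i (e x) (e y) :=
  PIso_rp h (by rfl) (by rfl) i

theorem fun2_pc (h : Is N N' e) (hB : ∀ x y, B x y ↔ B' (e x) (e y)) (i y : ℕ) :
    pc N B i y ↔ pc N' B' i (e y) := by
  unfold pc
  refine e.exists_congr fun c => ?_
  rw [hB c y, fun2_rp h i c y]

theorem fun2_pd (h : Is N N' e) (hB : ∀ x y, B x y ↔ B' (e x) (e y)) (i y : ℕ) :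
    pd N B i y ↔ pd N' B' i (e y) := by
  unfold pd
  refine e.exists_congr fun c => ?_
  rw [hB c y, fun2_rp h i y c]

theorem fun2_ty (h : Is N N' e) (hB : ∀ x y, B x y ↔ B' (e x) (e y)) (n x : ℕ) :
    ty S f N B n x ↔ ty S f N' B' n (e x) := by
  unfold ty
  refine and_congr_right fun _ => e.exists_congr fun c => ?_
  rw [hB c x, fun2_isoCn h]

theorem fun2_idl (h : Is N N' e) (hB : ∀ x y, B x y ↔ B' (e x) (e y)) (x y : ℕ) :
    idl S f N B x y ↔ idl S f N' B' (e x) (e y) := by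
  unfold idl
  simp only [fun2_ty h hB]

theorem fun2_sy (h : Is N N' e) (hB : ∀ x y, B x y ↔ B' (e x) (e y)) (x : ℕ) :
    sy N B x ↔ sy N' B' (e x) := by
  unfold sy
  simp only [fun2_pc h hB, fun2_pd h hB]

theorem fun2_pos (h : Is N N' e) (hB : ∀ x y, B x y ↔ B' (e x) (e y)) (x : ℕ) :
    pos N B x ↔ pos N' B' (e x) := by
  unfold pos
  simp only [fun2_pc h hB, fun2_pd h hB]

theorem fun2_Ll (h : Is N N' e) (hB : ∀ x y, B x y ↔ B' (e x) (e y)) (x y : ℕ) :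
    Ll S f N B x y ↔ Ll S f N' B' (e x) (e y) := by
  have h1 : (∀ c, B c x → ¬ D N x y c) ↔ (∀ c, B' c (e x) → ¬ D N' (e x) (e y) c) := by
    refine e.forall_congr fun c => ?_
    rw [hB c x, h.D_iff x y c]
  unfold Ll
  rw [h1]
  simp only [hB x y, hB y x, fun2_sy h hB, fun2_idl h hB, fun2_pos h hB, fun2_pc h hB,
    fun2_pd h hB, fun2_rp h, e.injective.ne_iff]

end fun2

theorem t_FUN2 : S_FUN2 := by
  classical
  intro S f b N N' e v hS h
  have hB : ∀ x y, Be S b N v x y ↔ Be S b N' (e v) (e x) (e y) := fun2_Be hS h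
  have hL : ∀ x y, Ll S f N (Be S b N v) x y ↔ Ll S f N' (Be S b N' (e v)) (e x) (e y) :=
    fun2_Ll h hB
  refine ⟨?_, ?_, ?_⟩
  · rintro ⟨u1, u2⟩ hu ⟨w1, w2⟩ hw
    have e1 : u2 = e u1 := hu
    have e2 : w2 = e w1 := hw
    subst e1 e2
    exact e.injective.eq_iff.symm
  · rintro ⟨u1, u2⟩ hu ⟨w1, w2⟩ hw
    have e1 : u2 = e u1 := hu
    have e2 : w2 = e w1 := hw
    subst e1 e2
    show decide (Ll S f N (Be S b N v) u1 w1) = decide (Ll S f N' (Be S b N' (e v)) (e u1) (e w1))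
    exact decide_eq_decide.2 (hL u1 w1)
  · intro j t ht
    have e0 : (t (0 : Fin 2)).2 = e (t (0 : Fin 2)).1 := ht 0
    have e1 : (t (1 : Fin 2)).2 = e (t (1 : Fin 2)).1 := ht 1
    show (if j % 3 = 0 then
      decide (¬ Ll S f N (Be S b N v) (t (0 : Fin 2)).1 (t (1 : Fin 2)).1 ∧
        ¬ Ll S f N (Be S b N v) (t (1 : Fin 2)).1 (t (0 : Fin 2)).1 ∧
        rp N (j / 3) (t (0 : Fin 2)).1 (t (1 : Fin 2)).1 = true)
      else if j % 3 = 1 then
        decide ((t (0 : Fin 2)).1 = (t (1 : Fin 2)).1 ∧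
          pc N (Be S b N v) (j / 3) (t (0 : Fin 2)).1)
      else decide ((t (0 : Fin 2)).1 = (t (1 : Fin 2)).1 ∧
          pd N (Be S b N v) (j / 3) (t (0 : Fin 2)).1)) =
      (if j % 3 = 0 then
      decide (¬ Ll S f N' (Be S b N' (e v)) (t (0 : Fin 2)).2 (t (1 : Fin 2)).2 ∧
        ¬ Ll S f N' (Be S b N' (e v)) (t (1 : Fin 2)).2 (t (0 : Fin 2)).2 ∧
        rp N' (j / 3) (t (0 : Fin 2)).2 (t (1 : Fin 2)).2 = true)
      else if j % 3 = 1 then
        decide ((t (0 : Fin 2)).2 = (t (1 : Fin 2)).2 ∧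
          pc N' (Be S b N' (e v)) (j / 3) (t (0 : Fin 2)).2)
      else decide ((t (0 : Fin 2)).2 = (t (1 : Fin 2)).2 ∧
          pd N' (Be S b N' (e v)) (j / 3) (t (0 : Fin 2)).2))
    rw [e0, e1]
    split_ifs
    · apply decide_eq_decide.2
      rw [hL, hL, fun2_rp h]
    · apply decide_eq_decide.2
      rw [fun2_pc h hB, e.injective.eq_iff]
    · apply decide_eq_decide.2
      rw [fun2_pd h hB, e.injective.eq_iff]

end Pool.Agent.H533R2.VD
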