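import Pool.Agent.H533R2.VD.Spec

set_option autoImplicit false

/-! Task GENUC (helper913): unions of families. -/

namespace Pool.Agent.H533R2.VD

open Set
open Pool.Agent.H899R2.VP
open Pool.Agent.H533R2.VO (Glu Lev OS G BlkC Ic)

theorem t_GENUC : S_GENUC := by
  intro ι _ F hF
  refine ⟨⋃ i, F i, ⟨?_, ?_, ?_⟩, fun i => subset_iUnion F i⟩
  · intro M X N Y h hiso
    obtain ⟨i, hi⟩ := mem_iUnion.1 h
    exact mem_iUnion.2 ⟨i, (hF i).iso M X N Y hi hiso⟩
  · choose g hg using fun i => (hF i).cnt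
    by_cases hne : Nonempty ι
    · obtain ⟨e, he⟩ := exists_surjective_nat ι
      refine ⟨fun n => g (e n.unpair.1) n.unpair.2, fun M X h => ?_⟩
      obtain ⟨i, hi⟩ := mem_iUnion.1 h
      obtain ⟨a, rfl⟩ := he i
      obtain ⟨n, hn⟩ := hg (e a) M X hi
      refine ⟨Nat.pair a n, ?_⟩
      simp only [Nat.unpair_pair]
      exact hn
    · refine ⟨fun _ => ((fun _ _ => false, fun _ _ => false), ∅), fun M X h => ?_⟩
      obtain ⟨i, -⟩ := mem_iUnion.1 h
      exact absurd ⟨i⟩ hne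
  · intro M X h x hx z hz
    obtain ⟨i, hi⟩ := mem_iUnion.1 h
    exact mem_iUnion.2 ⟨i, (hF i).sub M X hi x hx z hz⟩

end Pool.Agent.H533R2.VD
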