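import Pool.Agent.H533R2.VD.Spec

set_option autoImplicit false

/-! GLB3: the glued structure is equivalent. -/

namespace Pool.Agent.H533R2.VD

open Set
open Pool.Agent.H899R2.VP
open Pool.Agent.H533R2.VO (Glu Lev OS G BlkC Ic Glu_adj Glu_adj' Glu_rel Glu_rel')

/-- the partial isomorphisms -/
theorem glb3_piso (h : S_MIX) {ι : Type} {M : St a3} {x z : ι → ℕ} {T : ι → St a3} (hM : Cs M)
    (hd : ∀ i j, i ≠ j → Disjoint (Cn M (x i) (z i)) (Cn M (x j) (z j)))
    {p : Set (ℕ × ℕ)} (ha : ∀ w ∈ p, ∀ j, (w.1 ∈ Cn M (x j) (z j) ↔ w.2 ∈ Cn M (x j) (z j)))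
    (ha2 : ∀ w ∈ p, (∀ j, w.1 ∉ Cn M (x j) (z j)) → w.1 = w.2)
    (hb : ∀ j, PIso M (T j) {w | w ∈ p ∧ w.1 ∈ Cn M (x j) (z j)}) :
    PIso M (Glu M (fun j => Cn M (x j) (z j)) T) p := by
  refine ⟨?_, ?_, ?_⟩
  · intro u hu v hv
    by_cases hc : ∃ j, u.1 ∈ Cn M (x j) (z j) ∧ v.1 ∈ Cn M (x j) (z j)
    · obtain ⟨j, h1, h2⟩ := hc
      exact (hb j).1 u ⟨hu, h1⟩ v ⟨hv, h2⟩
    · constructor
      · intro e
        have hu' : ∀ j, u.1 ∉ Cn M (x j) (z j) := fun j hj => hc ⟨j, hj, e ▸ hj⟩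
        have hv' : ∀ j, v.1 ∉ Cn M (x j) (z j) := fun j hj => hu' j (e ▸ hj)
        rw [← ha2 u hu hu', ← ha2 v hv hv', e]
      · intro e
        have hu' : ∀ j, u.1 ∉ Cn M (x j) (z j) := fun j hj =>
          hc ⟨j, hj, (ha v hv j).2 (e ▸ (ha u hu j).1 hj)⟩
        have hv' : ∀ j, v.1 ∉ Cn M (x j) (z j) := fun j hj =>
          hu' j ((ha u hu j).2 (e ▸ (ha v hv j).1 hj))
        rw [ha2 u hu hu', ha2 v hv hv', e]
  · intro u hu v hv
    by_cases hc : ∃ j, u.1 ∈ Cn M (x j) (z j) ∧ v.1 ∈ Cn M (x j) (z j)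
    · obtain ⟨j, h1, h2⟩ := hc
      have e1 := (hb j).2.1 u ⟨hu, h1⟩ v ⟨hv, h2⟩
      have e2 := Glu_adj (M := M) (T := T) hd ((ha u hu j).1 h1) ((ha v hv j).1 h2)
      rw [e1]
      exact (Bool.eq_iff_iff.2 e2).symm
    · have e2 := Glu_adj' (M := M) (J := fun j => Cn M (x j) (z j)) (T := T) (x := u.2)
        (y := v.2) (fun j h1 h2 => hc ⟨j, (ha u hu j).2 h1, (ha v hv j).2 h2⟩)
      have e3 : (Glu M (fun j => Cn M (x j) (z j)) T).1 u.2 v.2 = M.1 u.2 v.2 :=
        Bool.eq_iff_iff.2 e2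
      rw [e3, hM.flat, hM.flat]
  · intro i t ht
    by_cases hc : ∃ j, ∀ k, (t k).1 ∈ Cn M (x j) (z j)
    · obtain ⟨j, hj⟩ := hc
      have e1 := (hb j).2.2 i t fun k => ⟨ht k, hj k⟩
      have hi : Nonempty (Fin (a3 i)) := by
        match i with
        | 0 => exact ⟨(0 : Fin 3)⟩
        | i + 1 => exact ⟨(0 : Fin 2)⟩
      have e2 := Glu_rel (M := M) (T := T) hd (j := j) hi (t := fun k => (t k).2)
        fun k => (ha _ (ht k) j).1 (hj k)
      rw [e1]
      exact e2.symm
    · have e2 := Glu_rel' (M := M) (J := fun j => Cn M (x j) (z j)) (T := T)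
        (t := fun k => (t k).2) (i := i)
        (fun h1 => hc ⟨h1.2.choose, fun k => (ha _ (ht k) _).2 (h1.2.choose_spec k)⟩)
      rw [e2]
      exact h ι M x z hM hd i _ _ (fun k j => ha _ (ht k) j)
        (fun k hk => ha2 _ (ht k) hk) hc

theorem t_GLB3 (h : S_MIX) : S_GLB3 := by
  intro ι α M x z T _ hM hd hT
  have key : ∀ (o : Ordinal.{0}) (p : Set (ℕ × ℕ)),
      (∀ w ∈ p, ∀ j, (w.1 ∈ Cn M (x j) (z j) ↔ w.2 ∈ Cn M (x j) (z j))) →
      (∀ w ∈ p, (∀ j, w.1 ∉ Cn M (x j) (z j)) → w.1 = w.2) →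
      (∀ j, BF M (T j) (Cn M (x j) (z j)) (Cn M (x j) (z j)) o
        {w | w ∈ p ∧ w.1 ∈ Cn M (x j) (z j)}) →
      BF M (Glu M (fun j => Cn M (x j) (z j)) T) univ univ o p := by
    intro o
    induction o using WellFoundedLT.induction with
    | ind o ih =>
      intro p ha ha2 hb
      have hins : ∀ (a b : ℕ) (j : ι), a ∈ Cn M (x j) (z j) →
          {w | w ∈ insert (a, b) p ∧ w.1 ∈ Cn M (x j) (z j)} =
            insert (a, b) {w | w ∈ p ∧ w.1 ∈ Cn M (x j) (z j)} := by
        intro a b j hj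
        ext u
        constructor
        · rintro ⟨hu | hu, hu'⟩
          · exact Or.inl hu
          · exact Or.inr ⟨hu, hu'⟩
        · rintro (hu | hu)
          · refine ⟨Or.inl hu, ?_⟩
            rw [hu]
            exact hj
          · exact ⟨Or.inr hu.1, hu.2⟩
      have hout : ∀ (a b : ℕ) (j : ι), a ∉ Cn M (x j) (z j) →
          {w | w ∈ insert (a, b) p ∧ w.1 ∈ Cn M (x j) (z j)} =
            {w | w ∈ p ∧ w.1 ∈ Cn M (x j) (z j)} := by
        intro a b j hj
        ext u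
        constructor
        · rintro ⟨hu | hu, hu'⟩
          · exfalso
            rw [hu] at hu'
            exact hj hu'
          · exact ⟨hu, hu'⟩
        · exact fun hu => ⟨Or.inr hu.1, hu.2⟩
      -- one step, inside a cone
      have hstep1 : ∀ o' < o, ∀ (j : ι) (a b : ℕ), a ∈ Cn M (x j) (z j) →
          b ∈ Cn M (x j) (z j) →
          BF M (T j) (Cn M (x j) (z j)) (Cn M (x j) (z j)) o'
            (insert (a, b) {w | w ∈ p ∧ w.1 ∈ Cn M (x j) (z j)}) →
          BF M (Glu M (fun j => Cn M (x j) (z j)) T) univ univ o' (insert (a, b) p) := by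
        intro o' ho' j a b haj hbj hbf
        have huniq : ∀ i (c : ℕ), c ∈ Cn M (x j) (z j) → c ∈ Cn M (x i) (z i) → i = j := by
          intro i c h1 h2
          by_contra hne
          exact Set.disjoint_left.1 (hd i j hne) h2 h1
        refine ih o' ho' _ ?_ ?_ ?_
        · rintro u (hu | hu) i
          · rw [hu]
            constructor
            · intro h1
              rw [huniq i a haj h1]
              exact hbj
            · intro h1
              rw [huniq i b hbj h1]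
              exact haj
          · exact ha u hu i
        · rintro u (hu | hu) h1
          · rw [hu] at h1
            exact absurd haj (h1 j)
          · exact ha2 u hu h1
        · intro i
          by_cases hi : a ∈ Cn M (x i) (z i)
          · have e := huniq i a haj hi
            subst e
            rw [hins a b i hi]
            exact hbf
          · rw [hout a b i hi]
            exact (hb i).mono ho'.le
      -- one step, outside
      have hstep2 : ∀ o' < o, ∀ a : ℕ, (∀ j, a ∉ Cn M (x j) (z j)) →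
          BF M (Glu M (fun j => Cn M (x j) (z j)) T) univ univ o' (insert (a, a) p) := by
        intro o' ho' a haj
        refine ih o' ho' _ ?_ ?_ ?_
        · rintro u (hu | hu) i
          · rw [hu]
          · exact ha u hu i
        · rintro u (hu | hu) h1
          · rw [hu]
          · exact ha2 u hu h1
        · intro i
          rw [hout a a i (haj i)]
          exact (hb i).mono ho'.le
      rw [BF_iff]
      refine ⟨glb3_piso h hM hd ha ha2 fun j => (hb j).piso, fun o' ho' =>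
        ⟨fun a _ => ?_, fun b _ => ?_⟩⟩
      · by_cases hc : ∃ j, a ∈ Cn M (x j) (z j)
        · obtain ⟨j, hj⟩ := hc
          obtain ⟨b, hbj, hbf⟩ := (hb j).forth ho' hj
          exact ⟨b, mem_univ _, hstep1 o' ho' j a b hj hbj hbf⟩
        · push Not at hc
          exact ⟨a, mem_univ _, hstep2 o' ho' a hc⟩
      · by_cases hc : ∃ j, b ∈ Cn M (x j) (z j)
        · obtain ⟨j, hj⟩ := hc
          obtain ⟨a, haj, hbf⟩ := (hb j).back ho' hj
          exact ⟨a, mem_univ _, hstep1 o' ho' j a b haj hj hbf⟩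
        · push Not at hc
          exact ⟨b, mem_univ _, hstep2 o' ho' b hc⟩
  refine key α ∅ (fun w hw => hw.elim) (fun w hw => hw.elim) fun j => ?_
  have e : {w : ℕ × ℕ | w ∈ (∅ : Set (ℕ × ℕ)) ∧ w.1 ∈ Cn M (x j) (z j)} = ∅ := by
    ext w
    simp
  rw [e]
  exact hT j

end Pool.Agent.H533R2.VD
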