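import Pool.Agent.H533R2.VD.Spec

set_option autoImplicit false

/-! Facts on the glued structure. -/

namespace Pool.Agent.H533R2.VD

open Set
open Pool.Agent.H899R2.VP
open Pool.Agent.H533R2.VO (Glu Lev OS G BlkC Ic iso_congr Glu_adj Glu_adj' Glu_rel Glu_rel')

theorem glf3_third (ι : Type) (M : St a3) (x z : ι → ℕ) (T : ι → St a3) (u v w : ℕ)
    (h : ∀ j, u ∈ Cn M (x j) (z j) → v ∈ Cn M (x j) (z j) → w ∉ Cn M (x j) (z j)) :
    (D (Glu M (fun j => Cn M (x j) (z j)) T) u v w ↔ D M u v w) := by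
  have h1 : (Glu M (fun j => Cn M (x j) (z j)) T).2 0 ![u, v, w] = M.2 0 ![u, v, w] := by
    refine Glu_rel' (a := a3) (i := 0) ?_
    rintro ⟨-, j, hj⟩
    exact h j (hj (0 : Fin 3)) (hj (1 : Fin 3)) (hj (2 : Fin 3))
  unfold D
  rw [h1]

theorem t_GLF3 : S_GLF3 := by
  intro ι M x z T hM hne hdis
  refine ⟨fun j => ?_, fun j => ?_, glf3_third ι M x z T⟩
  · ext y
    refine glf3_third ι M x z T (x j) y (z j) ?_
    intro i hi _ hz
    by_cases hij : i = j
    · subst hij
      exact hM.not_mem hz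
    · exact Set.disjoint_left.1 (hdis i j hij) hi (hM.self_mem (hne j))
  · refine iso_congr ?_ ?_
    · intro u hu v hv
      exact (Bool.eq_iff_iff.2 (Glu_adj (M := M) (T := T) hdis (j := j) hu hv)).symm
    · intro i t ht
      have hi : Nonempty (Fin (a3 i)) := by
        match i with
        | 0 => exact ⟨(0 : Fin 3)⟩
        | _ + 1 => exact ⟨(0 : Fin 2)⟩
      exact (Glu_rel (M := M) (T := T) hdis (j := j) hi ht).symm

end Pool.Agent.H533R2.VD
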