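import Pool.Agent.H533R2.VD.Spec

set_option autoImplicit false

namespace Pool.Agent.H533R2.VD

open Set
open Pool.Agent.H899R2.VP
open Pool.Agent.H533R2.VO (Glu Lev OS G BlkC Ic)

theorem idl_ex (S : Set (St a3 × Set ℕ)) (f : ℕ → St a3 × Set ℕ) (N : St a3)
    (B : ℕ → ℕ → Prop) (hE : Enu S f) (hC : Ctr S N B) (x b : ℕ) (hb : B b x) :
    ∃ n, ty S f N B n x ∧ ∀ m < n, ¬ ty S f N B m x := by
  classical
  have h1 : ∃ n, ty S f N B n x := by
    obtain ⟨n, h2, h3⟩ := hE N (Cn N x b) (hC.thin b x hb)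
    exact ⟨n, h2, b, hb, h3⟩
  exact ⟨Nat.find h1, Nat.find_spec h1, fun m hm => Nat.find_min h1 hm⟩

theorem t_IDL (h2 : S_CT2) : S_IDL := by
  intro S f N B _ hE hC
  obtain ⟨k1, k2, k3, _, _, _⟩ := h2 S N B hC
  refine ⟨?_, ?_, ?_, ?_, idl_ex S f N B hE hC⟩
  · rintro x ⟨n, h1, h2⟩
    exact h2 n le_rfl h1
  · rintro x y z ⟨n, h1, h2⟩ ⟨n', h3, h4⟩
    refine ⟨n, h1, fun m hm => h4 m ?_⟩
    by_contra h5
    exact h2 n' (by omega) h3
  · rintro x y z b hb ⟨n, h1, h2⟩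
    obtain ⟨k, hk1, hk2⟩ := idl_ex S f N B hE hC y b hb
    rcases Nat.lt_or_ge n k with h3 | h3
    · exact Or.inl ⟨n, h1, fun m hm => hk2 m (by omega)⟩
    · exact Or.inr ⟨k, hk1, fun m hm => h2 m (by omega)⟩
  · intro x y b hb hD n
    have hby : B b y := (k1 x y b (k3 x y b hb hD)).mp hb
    have hc : Cn N x b = Cn N y b := hC.cs.Cn_eq hD
    constructor
    · rintro ⟨h3, b', hb', h4⟩
      refine ⟨h3, b, hby, ?_⟩
      rw [← hc, ← k2 x b' b hb' hb]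
      exact h4
    · rintro ⟨h3, b', hb', h4⟩
      refine ⟨h3, b, hb, ?_⟩
      rw [hc, ← k2 y b' b hb' hby]
      exact h4

end Pool.Agent.H533R2.VD
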