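import Pool.Agent.H533R2.VD.Spec
import Pool.Agent.H533R2.VO.PUT

set_option autoImplicit false

namespace Pool.Agent.H533R2.VD

open Set
open Pool.Agent.H899R2.VP
open Pool.Agent.H533R2.VO (Glu Lev OS G BlkC Ic bf_comp0 put lift t_PUT Glu_rel Glu_rel')

private theorem kc1_rel (M : St a3) (X : Set ℕ) (e : ℕ → ℕ) (he : Function.Injective e)
    (N : R2) (i m n : ℕ) (hm : e m ∈ X) (hn : e n ∈ X) :
    rp (Glu M (fun _ : Unit => X) (fun _ => put e (ex N).2)) i (e m) (e n) = N i m n := by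
  have h1 : (Glu M (fun _ : Unit => X) (fun _ => put e (ex N).2)).2 (i + 1) ![e m, e n] =
      (put e (ex N).2).2 (i + 1) ![e m, e n] := by
    refine Glu_rel (T := fun _ : Unit => put e (ex N).2) (j := ()) ?_ ?_ ?_
    · intro a b hab
      exact absurd (Subsingleton.elim a b) hab
    · exact ⟨(0 : Fin 2)⟩
    · intro k
      fin_cases k
      · exact hm
      · exact hn
  have h2 : (put e (ex N).2).2 (i + 1) ![e m, e n] = (ex N).2 (i + 1) ![m, n] := by
    have h3 := (t_PUT a3 e he).2.2.1 (ex N).2 (i + 1) ![m, n]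
    have h4 : (e ∘ ![m, n] : Fin 2 → ℕ) = ![e m, e n] := by
      funext k
      fin_cases k <;> rfl
    rw [← h3]
    exact congrArg ((put e (ex N).2).2 (i + 1)) h4.symm
  unfold rp
  rw [h1, h2]
  rfl

private theorem kc1_rel' (M : St a3) (X : Set ℕ) (T : St a3) (i u v : ℕ)
    (h : ¬ (u ∈ X ∧ v ∈ X)) :
    rp (Glu M (fun _ : Unit => X) (fun _ => T)) i u v = rp M i u v := by
  unfold rp
  refine Glu_rel' ?_
  rintro ⟨-, j, hj⟩
  exact h ⟨hj (0 : Fin 2), hj (1 : Fin 2)⟩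

theorem t_KC1 (h1 : S_GLB3) (h2 : S_GLF3) : S_KC1 := by
  classical
  intro α K hK M hMK x z hxz hinf F hF
  rintro ⟨g, hg, hBF, hinj⟩
  have hM : Cs M := hK.cs M hMK
  obtain ⟨X, hX⟩ : ∃ X, X = Cn M x z := ⟨_, rfl⟩
  rw [← hX] at hinf hBF
  obtain ⟨e, he, hr⟩ : ∃ e : ℕ → ℕ, Function.Injective e ∧ range e = X := by
    have := hinf.to_subtype
    refine ⟨fun n => (Nat.Subtype.orderIsoOfNat X n : ℕ), ?_, ?_⟩
    · intro a b hab
      exact (Nat.Subtype.orderIsoOfNat X).injective (Subtype.ext hab)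
    · ext y
      constructor
      · rintro ⟨n, rfl⟩
        exact (Nat.Subtype.orderIsoOfNat X n).2
      · intro hy
        refine ⟨(Nat.Subtype.orderIsoOfNat X).symm ⟨y, hy⟩, ?_⟩
        simp
  have heX : ∀ n, e n ∈ X := fun n => hr ▸ mem_range_self n
  obtain ⟨T, hT⟩ : ∃ T : (ℕ → Bool) → St a3, T = fun c => put e (ex (g c)).2 := ⟨_, rfl⟩
  have hput : ∀ c, IsoOn (ex (g c)) (T c) univ X {w | w.2 = e w.1} := by
    intro c
    have h3 := (t_PUT a3 e he).2.1 (ex (g c)).2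
    rw [hr] at h3
    rw [hT]
    exact h3
  obtain ⟨Gc, hG⟩ : ∃ Gc : (ℕ → Bool) → St a3,
      Gc = fun c => Glu M (fun _ : Unit => X) (fun _ => T c) := ⟨_, rfl⟩
  have hdisj : ∀ i j : Unit, i ≠ j →
      Disjoint (Cn M ((fun _ : Unit => x) i) ((fun _ : Unit => z) i))
        (Cn M ((fun _ : Unit => x) j) ((fun _ : Unit => z) j)) :=
    fun a b hab => absurd (Subsingleton.elim a b) hab
  have hGK : ∀ c, Gc c ∈ K := by
    intro c
    have h3 := h1 Unit α M (fun _ => x) (fun _ => z) (fun _ => T c) hK.om hM hdisj (by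
      intro _
      show BF M (T c) (Cn M x z) (Cn M x z) α ∅
      rw [← hX]
      exact bf_comp0 (hBF c) (((hput c).mono (empty_subset _)).bf α))
    refine hK.closed M hMK _ ?_
    rw [hG, hX]
    exact h3
  have hGex : ∀ c, ex (rp (Gc c)) = Gc c := fun c => (hK.exq _ (hGK c)).symm
  have hglf : ∀ c, Cn (Gc c) x z = X ∧ IsoOn (T c) (Gc c) X X (idOn X) := by
    intro c
    have h3 := h2 Unit M (fun _ => x) (fun _ => z) (fun _ => T c) hM (fun _ => hxz) hdisj
    rw [hG, hX]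
    exact ⟨h3.1 (), h3.2.1 ()⟩
  refine hK.fewR (e '' F ∪ {x, z}) ((hF.image e).union (Set.toFinite _)) ⟨fun c => rp (Gc c),
    ?_, fun c => ?_, fun c d hcd => ?_⟩
  · refine continuous_pi fun i => continuous_pi fun u => continuous_pi fun v => ?_
    by_cases huv : u ∈ X ∧ v ∈ X
    · obtain ⟨hu, hv⟩ := huv
      rw [← hr] at hu hv
      obtain ⟨m, rfl⟩ := hu
      obtain ⟨n, rfl⟩ := hv
      have : (fun c => rp (Gc c) i (e m) (e n)) = fun c => g c i m n := by
        funext c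
        rw [hG, hT]
        exact kc1_rel M X e he (g c) i m n (heX m) (heX n)
      rw [this]
      exact (continuous_apply n).comp ((continuous_apply m).comp ((continuous_apply i).comp hg))
    · have : (fun c => rp (Gc c) i u v) = fun _ => rp M i u v := by
        funext c
        rw [hG]
        exact kc1_rel' M X (T c) i u v huv
      rw [this]
      exact continuous_const
  · show ex (rp (Gc c)) ∈ K
    rw [hGex]
    exact hGK c
  · have hcd' : IsoOn (Gc c) (Gc d) univ univ (idOn (e '' F ∪ {x, z})) := by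
      rw [← hGex c, ← hGex d]
      exact hcd
    have hxx : (x, x) ∈ idOn (e '' F ∪ {x, z}) := ⟨rfl, Or.inr (Or.inl rfl)⟩
    have hzz : (z, z) ∈ idOn (e '' F ∪ {x, z}) := ⟨rfl, Or.inr (Or.inr rfl)⟩
    have h3 := resIsoCn hxx hzz hcd'
    rw [(hglf c).1, (hglf d).1, univ_inter] at h3
    have h4 : IsoOn (Gc c) (Gc d) X X (idOn (e '' F)) := by
      refine h3.mono ?_
      rintro ⟨u, v⟩ ⟨hu, hu'⟩
      refine ⟨⟨hu, Or.inl hu'⟩, ?_⟩
      obtain ⟨n, -, hn⟩ := hu'
      rw [← hn]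
      exact heX n
    have h5 := ((((hput c).trans (hglf c).2).trans h4).trans (hglf d).2.symm).trans (hput d).symm
    refine hinj c d (h5.mono ?_)
    rintro ⟨u, v⟩ ⟨huv, hu⟩
    simp only at huv hu
    subst huv
    refine ⟨e u, ⟨e u, ⟨e u, ⟨e u, rfl, rfl, heX u⟩, rfl, mem_image_of_mem e hu⟩, rfl, heX u⟩, rfl⟩

end Pool.Agent.H533R2.VD
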