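import Pool.Agent.H533R2.VD.Spec
import Pool.Agent.H533R2.VO.MEAS1

set_option autoImplicit false

/-! KCONE: the class of variations of a cone. -/

namespace Pool.Agent.H533R2.VD

open Set
open Pool.Agent.H899R2.VP
open Pool.Agent.H533R2.VO (bf_comp0 t_MEAS1)

theorem t_KCONE (h1 : S_CSBF) (h2 : S_EXBF) (h3 : S_KC1) : S_KCONE := by
  intro α K hK M hM x z hxz hinf
  refine ⟨?_, hK.lt, hK.om, ?_, ?_, ?_, ?_⟩
  · exact t_MEAS1 a3 M (Cn M x z) (fun _ => univ) (fun _ => by simp) α hK.lt ∅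
  · intro M' hM' N hN
    exact bf_comp0 hM' hN
  · intro N hN
    exact h1 α M N (Cn M x z) hK.om (hK.cs M hM) hN
  · intro N hN
    exact h2 α M N x z hK.om (hK.cs M hM) (hK.exq M hM) hN
  · intro F hF
    exact h3 α K hK M hM x z hxz hinf F hF

end Pool.Agent.H533R2.VD
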