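import Pool.Agent.H533R2.VD.Spec

set_option autoImplicit false

/-! Few types of presentations (helper118). -/

namespace Pool.Agent.H533R2.VD

open Set
open Pool.Agent.H899R2.VP
open Pool.Agent.H533R2.VO (Glu Lev OS G BlkC Ic S_MAIN)

theorem kpf_iso {O O' : St a2} {e : Equiv.Perm ℕ} (h : PIso O O' {w | w.2 = e w.1}) :
    IsoOn O O' univ univ ∅ := by
  refine ⟨{w | w.2 = e w.1}, empty_subset _, fun u _ => ⟨mem_univ _, mem_univ _⟩, h,
    fun x _ => ⟨e x, rfl⟩, fun y _ => ⟨e.symm y, ?_⟩⟩
  show y = e (e.symm y)
  rw [Equiv.apply_symm_apply]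

theorem kpf_closed (v : ℕ) : IsClosed (Cv false v) := by
  have : Cv false v = ⋂ y : ℕ, ⋂ _ : y ≠ v, {O : St a2 | O.1 v y = true} := by
    ext O
    simp only [Cv, Set.mem_ofPred_eq, mem_iInter]
  rw [this]
  refine isClosed_iInter fun y => isClosed_iInter fun _ => ?_
  have hc : Continuous fun O : St a2 => O.1 v y :=
    (continuous_apply y).comp ((continuous_apply v).comp continuous_fst)
  exact isClosed_eq hc continuous_const

theorem t_KPF (h1 : S_OBS) (h2 : S_FUN2) (h3 : S_KPM2) : S_KPF := by
  intro α K S f b hK hS hf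
  rintro ⟨g, hg1, hg2, hg3⟩
  cases b with
  | true =>
    refine hK.fewR ∅ finite_empty ⟨fun c => Rc (g c), h3.2.comp hg1, fun c => ?_,
      fun c d hcd => hg3 c d ?_⟩
    · obtain ⟨v, -, hN, -, -⟩ := hg2 c
      exact hN
    · obtain ⟨e, he, -⟩ := exists_is hcd
      obtain ⟨v, -, hN, hC, hO⟩ := hg2 c
      obtain ⟨v', -, hN', hC', hO'⟩ := hg2 d
      have hp := h2 S f true (ex (Rc (g c))) (ex (Rc (g d))) e v hS he
      rw [← hO] at hp
      have hO'' : g d = Ob S f (ex (Rc (g d))) (Be S true (ex (Rc (g d))) (e v)) := hO'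
      rw [← hO''] at hp
      exact kpf_iso hp
  | false =>
    have hcl : ∀ v, IsClosed {c | g c ∈ Cv false v} := fun v => (kpf_closed v).preimage hg1
    have hcov : ⋃ v, {c | g c ∈ Cv false v} = univ := by
      rw [eq_univ_iff_forall]
      intro c
      obtain ⟨v, hv, -⟩ := hg2 c
      exact mem_iUnion.2 ⟨v, hv⟩
    obtain ⟨v, s, hs⟩ := nonempty_interior_of_iUnion_of_closed hcl hcov
    obtain ⟨I, u, hI, hIu⟩ := isOpen_pi_iff.1 isOpen_interior s hs
    let n : ℕ := I.sup id + 1
    let h : (ℕ → Bool) → (ℕ → Bool) := fun c i => if i < n then s i else c (i - n)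
    have hcont : Continuous h := by
      refine continuous_pi fun i => ?_
      by_cases hi : i < n
      · simp only [h, hi, if_true]
        exact continuous_const
      · simp only [h, hi, if_false]
        exact continuous_apply _
    have hinj : ∀ c d, h c = h d → c = d := by
      intro c d hcd
      funext i
      have := congrFun hcd (i + n)
      simp only [h, Nat.not_lt.2 (Nat.le_add_left n i), if_false, Nat.add_sub_cancel] at this
      exact this
    have hmem : ∀ c, g (h c) ∈ Cv false v := by
      intro c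
      have : h c ∈ interior {c | g c ∈ Cv false v} := by
        apply hIu
        intro i hi
        have hin : i < n := Nat.lt_succ_of_le (Finset.le_sup (f := id) hi)
        have : h c i = s i := by simp only [h, hin, if_true]
        rw [this]
        exact (hI i hi).2
      have h' : h c ∈ {c | g c ∈ Cv false v} := interior_subset this
      exact h'
    have hdat : ∀ c, ex (Rc (g (h c))) ∈ K ∧
        g (h c) = Ob S f (ex (Rc (g (h c)))) (Be S false (ex (Rc (g (h c)))) v) := by
      intro c
      obtain ⟨v', hv', hN, hC, hO⟩ := hg2 (h c)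
      have hos : OS (g (h c)) := by
        rw [hO]
        exact h1 S f _ _ hS hf hC
      have hvv : v' = v := by
        by_contra hne
        exact hos.irr v (hos.tr v v' v (hmem c v' hne) (hv' v (Ne.symm hne)))
      subst hvv
      exact ⟨hN, hO⟩
    refine hK.fewR {v} (finite_singleton v) ⟨fun c => Rc (g (h c)),
      h3.2.comp (hg1.comp hcont), fun c => (hdat c).1, fun c d hcd => ?_⟩
    apply hinj
    apply hg3
    obtain ⟨e, he, hev⟩ := exists_is hcd
    have hv : v = e v := hev (v, v) ⟨rfl, mem_singleton v⟩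
    have hp := h2 S f false (ex (Rc (g (h c)))) (ex (Rc (g (h d)))) e v hS he
    rw [← hv, ← (hdat c).2, ← (hdat d).2] at hp
    exact kpf_iso hp

end Pool.Agent.H533R2.VD
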