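import Pool.Agent.H533R2.VD.Spec
import Pool.Agent.H899R2.VP.Borel

set_option autoImplicit false

/-! Task KPG: the class of presentations. -/

namespace Pool.Agent.H533R2.VD

open Set
open Pool.Agent.H899R2.VP
open Pool.Agent.H533R2.VO (Glu Lev OS G BlkC Ic)

theorem t_KPG (h1 : S_OBS) (h2 : S_KPV) (h3 : S_KPM) (h4 : S_KPF) : S_KPG := by
  intro α K S f b hG hCF hEnu
  have hm := h3 α K S f b hG hCF hEnu
  obtain ⟨α₀, hα₀, hcl⟩ := closed_rank hm (h2 α K S f b hG hCF hEnu)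
  have hω : Ordinal.omega0 < Ordinal.omega.{0} 1 := by
    rw [← Ordinal.omega_zero]; exact Ordinal.omega_lt_omega.2 one_pos
  refine ⟨max α₀ Ordinal.omega0, hm, max_lt hα₀ hω, le_max_right _ _, ?_, ?_, ?_⟩
  · exact fun M hM N hb => hcl M hM N (hb.mono (le_max_left _ _))
  · intro M hM
    obtain ⟨v, -, -, hC, hO⟩ := hM
    have := h1 S f (ex (Rc M)) (Be S b (ex (Rc M)) v) hCF hEnu hC
    rw [← hO] at this
    exact this
  · exact h4 α K S f b hG hCF hEnu

end Pool.Agent.H533R2.VD
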