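import Pool.Agent.H533R2.VD.Spec

set_option autoImplicit false

/-! Members of `K` with a centre give members of `KP`. -/

namespace Pool.Agent.H533R2.VD

open Set
open Pool.Agent.H899R2.VP
open Pool.Agent.H533R2.VO (Glu Lev OS G BlkC Ic)

theorem t_KPI (h : S_OB2) : S_KPI := by
  intro α K S f b hG hC hE N hN v hctr
  have hr : ex (Rc (Ob S f N (Be S b N v))) = N := by
    rw [h S f N _ hC hE hctr]
    exact (hG.exq N hN).symm
  cases b with
  | false =>
    refine ⟨v, ?_, ?_, ?_, ?_⟩
    · intro y hy
      have h1 : Ll S f N (Be S false N v) v y := Or.inl ((hG.cs N hN).refl v y (Ne.symm hy))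
      classical exact decide_eq_true h1
    · rw [hr]; exact hN
    · rw [hr]; exact hctr
    · rw [hr]
  | true =>
    have h0 : Be S true N v = Be S true N 0 := rfl
    rw [h0] at hr hctr ⊢
    refine ⟨0, rfl, ?_, ?_, ?_⟩
    · rw [hr]; exact hN
    · rw [hr]; exact hctr
    · rw [hr]

end Pool.Agent.H533R2.VD
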