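import Pool.Agent.H533R2.VD.Spec

set_option autoImplicit false

/-! `KP` is measurable. -/

namespace Pool.Agent.H533R2.VD

open Set
open Pool.Agent.H899R2.VP
open Pool.Agent.H533R2.VO (Glu Lev OS G BlkC Ic)

theorem kpm_coord1 (x y : ℕ) : Measurable fun O : St a2 => O.1 x y :=
  (measurable_pi_apply y).comp ((measurable_pi_apply x).comp measurable_fst)

theorem kpm_coord2 (i : ℕ) (t : Fin (a2 i) → ℕ) : Measurable fun O : St a2 => O.2 i t :=
  (measurable_pi_apply t).comp ((measurable_pi_apply i).comp measurable_snd)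

theorem kpm_eq {g : St a2 → St a2} (hg : Measurable g) : MeasurableSet {O : St a2 | O = g O} := by
  have h1 : {O : St a2 | O = g O} = (⋂ x : ℕ, ⋂ y : ℕ, {O : St a2 | O.1 x y = (g O).1 x y}) ∩
      ⋂ i : ℕ, ⋂ t : Fin (a2 i) → ℕ, {O : St a2 | O.2 i t = (g O).2 i t} := by
    ext O
    simp only [mem_inter_iff, mem_iInter, Set.mem_ofPred_eq]
    constructor
    · intro h
      exact ⟨fun x y => by rw [← h], fun i t => by rw [← h]⟩
    · rintro ⟨h1, h2⟩
      refine Prod.ext ?_ ?_
      · funext x y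
        exact h1 x y
      · funext i t
        exact h2 i t
  rw [h1]
  refine MeasurableSet.inter ?_ ?_
  · refine MeasurableSet.iInter fun x => MeasurableSet.iInter fun y => ?_
    exact measurableSet_eq_fun (kpm_coord1 x y) ((kpm_coord1 x y).comp hg)
  · refine MeasurableSet.iInter fun i => MeasurableSet.iInter fun t => ?_
    exact measurableSet_eq_fun (kpm_coord2 i t) ((kpm_coord2 i t).comp hg)

theorem kpm_cv (b : Bool) (v : ℕ) : MeasurableSet (Cv b v) := by
  cases b with
  | false =>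
    have h1 : Cv false v = ⋂ y : ℕ, ⋂ _ : y ≠ v, {O : St a2 | O.1 v y = true} := by
      ext O
      simp only [mem_iInter, Set.mem_ofPred_eq]
      rfl
    rw [h1]
    refine MeasurableSet.iInter fun y => MeasurableSet.iInter fun _ => ?_
    exact measurableSet_eq_fun (kpm_coord1 v y) measurable_const
  | true => exact MeasurableSet.const _

theorem t_KPM (h1 : S_KPM1) (h2 : S_KPM2) : S_KPM := by
  intro α K S f b hG hC hE
  have hr : Measurable (Rc : St a2 → R2) := by
    refine measurable_pi_iff.2 fun i => measurable_pi_iff.2 fun x => measurable_pi_iff.2 fun y => ?_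
    exact ((continuous_apply y).comp ((continuous_apply x).comp
      ((continuous_apply i).comp h2.2))).measurable
  have hm : Measurable fun O : St a2 => ex (Rc O) := h2.1.comp hr
  have h3 : KP S f K b = ⋃ v : ℕ, (Cv b v ∩ (fun O : St a2 => ex (Rc O)) ⁻¹' K ∩
      (fun O : St a2 => ex (Rc O)) ⁻¹' {N | Ctr S N (Be S b N v)} ∩
      {O : St a2 | O = Ob S f (ex (Rc O)) (Be S b (ex (Rc O)) v)}) := by
    ext O
    simp only [mem_iUnion, mem_inter_iff, mem_preimage, Set.mem_ofPred_eq]
    constructor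
    · rintro ⟨v, a1, a2, a3, a4⟩
      exact ⟨v, ⟨⟨a1, a2⟩, a3⟩, a4⟩
    · rintro ⟨v, ⟨⟨a1, a2⟩, a3⟩, a4⟩
      exact ⟨v, a1, a2, a3, a4⟩
  rw [h3]
  refine MeasurableSet.iUnion fun v => ?_
  obtain ⟨k1, k2⟩ := h1 S f b v hC hE
  exact (((kpm_cv b v).inter (hm hG.meas)).inter (hm k1)).inter (kpm_eq (k2.comp hm))

end Pool.Agent.H533R2.VD
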