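import Pool.Agent.H533R2.VD.Spec

set_option autoImplicit false

/-! Measurability of `Ctr` and `Ob`. -/

namespace Pool.Agent.H533R2.VD

open Set
open Pool.Agent.H899R2.VP
open Pool.Agent.H533R2.VO (Glu Lev OS G BlkC Ic)

private theorem kpm1_coord (i : ℕ) (t : Fin (a3 i) → ℕ) :
    Measurable fun N : St a3 => N.2 i t :=
  (measurable_pi_apply t).comp ((measurable_pi_apply i).comp measurable_snd)

private theorem kpm1_fst (x y : ℕ) : Measurable fun N : St a3 => N.1 x y :=
  (measurable_pi_apply y).comp ((measurable_pi_apply x).comp measurable_fst)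

private theorem kpm1_eqc {g : St a3 → Bool} (hg : Measurable g) (c : Bool) :
    Measurable fun N => g N = c :=
  measurableSet_setOfPred.1 (hg (measurableSet_singleton c))

private theorem kpm1_eq {g h : St a3 → Bool} (hg : Measurable g) (hh : Measurable h) :
    Measurable fun N => g N = h N :=
  measurableSet_setOfPred.1 (measurableSet_eq_fun hg hh)

private theorem kpm1_D (x y z : ℕ) : Measurable fun N : St a3 => D N x y z :=
  kpm1_eqc (kpm1_coord 0 _) true

private theorem kpm1_rp (i x y : ℕ) : Measurable fun N : St a3 => rp N i x y :=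
  kpm1_coord (i + 1) _

private theorem kpm1_rpt (i x y : ℕ) : Measurable fun N : St a3 => rp N i x y = true :=
  kpm1_eqc (kpm1_rp i x y) true

private theorem kpm1_ce (u v w t : ℕ) : Measurable fun N : St a3 => ce (rp N) u v w t := by
  refine Measurable.forall fun i => Measurable.and ?_ ?_
  · exact kpm1_eq (kpm1_rp i u v) (kpm1_rp i w t)
  · exact kpm1_eq (kpm1_rp i v u) (kpm1_rp i t w)

private theorem kpm1_lin (x y z : ℕ) : Measurable fun N : St a3 => Lin3 (rp N) x y z :=
  Measurable.and (kpm1_ce _ _ _ _) (kpm1_ce _ _ _ _)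

private theorem kpm1_Cs : Measurable fun N : St a3 => Cs N := by
  have h : (fun N : St a3 => Cs N) = fun N : St a3 =>
      (∀ x y, N.1 x y = false) ∧ (∀ x z, x ≠ z → D N x x z) ∧ (∀ x y, ¬ D N x y x) ∧
      (∀ x y z, D N x y z → D N y x z) ∧ (∀ x y z, D N x y z → ¬ D N x z y) ∧
      (∀ x y z, D N x y z → ∀ w, D N x y w ∨ D N w y z) ∧
      (∀ x y z, D N x y z → ce (rp N) x z y z) ∧
      (∀ x y z, x ≠ y → y ≠ z → x ≠ z → ¬ D N x y z → ¬ D N x z y → ¬ D N y z x →
    Lin3 (rp N) x y z ∨ Lin3 (rp N) x z y ∨ Lin3 (rp N) y x z ∨ Lin3 (rp N) y z x ∨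
    Lin3 (rp N) z x y ∨ Lin3 (rp N) z y x) := by
    funext N
    apply propext
    constructor
    · rintro ⟨h1, h2, h3, h4, h5, h6, h7, h8⟩
      exact ⟨h1, h2, h3, h4, h5, h6, h7, h8⟩
    · rintro ⟨h1, h2, h3, h4, h5, h6, h7, h8⟩
      exact ⟨h1, h2, h3, h4, h5, h6, h7, h8⟩
  rw [h]
  refine Measurable.and ?_ (Measurable.and ?_ (Measurable.and ?_ (Measurable.and ?_
    (Measurable.and ?_ (Measurable.and ?_ (Measurable.and ?_ ?_))))))
  · exact Measurable.forall fun x => Measurable.forall fun y => kpm1_eqc (kpm1_fst x y) false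
  · exact Measurable.forall fun x => Measurable.forall fun z =>
      Measurable.imp measurable_const (kpm1_D _ _ _)
  · exact Measurable.forall fun x => Measurable.forall fun y => Measurable.not (kpm1_D _ _ _)
  · exact Measurable.forall fun x => Measurable.forall fun y => Measurable.forall fun z =>
      Measurable.imp (kpm1_D _ _ _) (kpm1_D _ _ _)
  · exact Measurable.forall fun x => Measurable.forall fun y => Measurable.forall fun z =>
      Measurable.imp (kpm1_D _ _ _) (Measurable.not (kpm1_D _ _ _))
  · exact Measurable.forall fun x => Measurable.forall fun y => Measurable.forall fun z =>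
      Measurable.imp (kpm1_D _ _ _) (Measurable.forall fun w =>
        Measurable.or (kpm1_D _ _ _) (kpm1_D _ _ _))
  · exact Measurable.forall fun x => Measurable.forall fun y => Measurable.forall fun z =>
      Measurable.imp (kpm1_D _ _ _) (kpm1_ce _ _ _ _)
  · refine Measurable.forall fun x => Measurable.forall fun y => Measurable.forall fun z =>
      Measurable.imp measurable_const (Measurable.imp measurable_const
        (Measurable.imp measurable_const (Measurable.imp (Measurable.not (kpm1_D _ _ _))
        (Measurable.imp (Measurable.not (kpm1_D _ _ _))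
        (Measurable.imp (Measurable.not (kpm1_D _ _ _)) ?_)))))
    exact Measurable.or (kpm1_lin _ _ _) (Measurable.or (kpm1_lin _ _ _)
      (Measurable.or (kpm1_lin _ _ _) (Measurable.or (kpm1_lin _ _ _)
      (Measurable.or (kpm1_lin _ _ _) (kpm1_lin _ _ _)))))

section gen

variable {S : Set (St a3 × Set ℕ)} {f : ℕ → St a3 × Set ℕ} {B : St a3 → ℕ → ℕ → Prop}

private theorem kpm1_Ctr (hS : ∀ x z, MeasurableSet {M : St a3 | (M, Cn M x z) ∈ S})
    (hB : ∀ x y, Measurable fun N : St a3 => B N x y) :
    Measurable fun N : St a3 => Ctr S N (B N) := by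
  have h : (fun N : St a3 => Ctr S N (B N)) = fun N : St a3 =>
      Cs N ∧ (∀ x y, B N x y → x ≠ y ∧ ∀ x', (B N x' y ↔ D N x x' y)) ∧
      (∀ y y', (∃ x, B N x y) → (∃ x, B N x y') → ∃ x, B N x y ∧ B N x y') ∧
      (∀ v, (¬ ∃ x, B N x v) → ∀ y, y ≠ v → B N v y) ∧
      (∀ x y, B N x y → (N, Cn N y x) ∈ S) := by
    funext N
    apply propext
    constructor
    · rintro ⟨h1, h2, h3, h4, h5⟩
      exact ⟨h1, h2, h3, h4, h5⟩
    · rintro ⟨h1, h2, h3, h4, h5⟩
      exact ⟨h1, h2, h3, h4, h5⟩
  rw [h]
  refine Measurable.and kpm1_Cs (Measurable.and ?_ (Measurable.and ?_ (Measurable.and ?_ ?_)))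
  · exact Measurable.forall fun x => Measurable.forall fun y => Measurable.imp (hB x y)
      (Measurable.and measurable_const (Measurable.forall fun x' =>
        Measurable.iff (hB _ _) (kpm1_D _ _ _)))
  · exact Measurable.forall fun x => Measurable.forall fun y => Measurable.imp
      (Measurable.exists fun _ => hB _ _) (Measurable.imp (Measurable.exists fun _ => hB _ _)
        (Measurable.exists fun _ => Measurable.and (hB _ _) (hB _ _)))
  · exact Measurable.forall fun v => Measurable.imp
      (Measurable.not (Measurable.exists fun _ => hB _ _))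
      (Measurable.forall fun y => Measurable.imp measurable_const (hB _ _))
  · exact Measurable.forall fun x => Measurable.forall fun y => Measurable.imp (hB _ _)
      (measurableSet_setOfPred.1 (hS y x))

private theorem kpm1_pc (hB : ∀ x y, Measurable fun N : St a3 => B N x y) (i y : ℕ) :
    Measurable fun N : St a3 => pc N (B N) i y :=
  Measurable.exists fun b => Measurable.and (hB _ _) (kpm1_rpt i b y)

private theorem kpm1_pd (hB : ∀ x y, Measurable fun N : St a3 => B N x y) (i y : ℕ) :
    Measurable fun N : St a3 => pd N (B N) i y :=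
  Measurable.exists fun b => Measurable.and (hB _ _) (kpm1_rpt i y b)

private theorem kpm1_ty
    (hT : ∀ P ∈ S, ∀ x z, MeasurableSet {M : St a3 | IsoOn P.1 M P.2 (Cn M x z) ∅})
    (hB : ∀ x y, Measurable fun N : St a3 => B N x y) (n x : ℕ) :
    Measurable fun N : St a3 => ty S f N (B N) n x := by
  by_cases h : f n ∈ S
  · exact Measurable.and measurable_const (Measurable.exists fun b => Measurable.and (hB _ _)
      (measurableSet_setOfPred.1 (hT (f n) h x b)))
  · have h2 : (fun N : St a3 => ty S f N (B N) n x) = fun _ => False := by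
      funext N
      apply propext
      constructor
      · intro h1
        exact h h1.1
      · intro h1
        exact h1.elim
    rw [h2]
    exact measurable_const

private theorem kpm1_idl
    (hT : ∀ P ∈ S, ∀ x z, MeasurableSet {M : St a3 | IsoOn P.1 M P.2 (Cn M x z) ∅})
    (hB : ∀ x y, Measurable fun N : St a3 => B N x y) (x y : ℕ) :
    Measurable fun N : St a3 => idl S f N (B N) x y :=
  Measurable.exists fun n => Measurable.and (kpm1_ty hT hB n x)
    (Measurable.forall fun m => Measurable.imp measurable_const
      (Measurable.not (kpm1_ty hT hB m y)))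

private theorem kpm1_sy (hB : ∀ x y, Measurable fun N : St a3 => B N x y) (x : ℕ) :
    Measurable fun N : St a3 => sy N (B N) x :=
  Measurable.forall fun i => Measurable.iff (kpm1_pc hB i x) (kpm1_pd hB i x)

private theorem kpm1_pos (hB : ∀ x y, Measurable fun N : St a3 => B N x y) (x : ℕ) :
    Measurable fun N : St a3 => pos N (B N) x :=
  Measurable.exists fun i => Measurable.and
    (Measurable.forall fun j => Measurable.imp measurable_const
      (Measurable.iff (kpm1_pc hB j x) (kpm1_pd hB j x)))
    (Measurable.and (kpm1_pc hB i x) (Measurable.not (kpm1_pd hB i x)))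

private theorem kpm1_Ll
    (hT : ∀ P ∈ S, ∀ x z, MeasurableSet {M : St a3 | IsoOn P.1 M P.2 (Cn M x z) ∅})
    (hB : ∀ x y, Measurable fun N : St a3 => B N x y) (x y : ℕ) :
    Measurable fun N : St a3 => Ll S f N (B N) x y := by
  have hc : Measurable fun N : St a3 => ∀ i, (rp N i x y = true ↔ pc N (B N) i y) ∧
        (rp N i y x = true ↔ pd N (B N) i y) :=
    Measurable.forall fun i => Measurable.and
      (Measurable.iff (kpm1_rpt i x y) (kpm1_pc hB i y))
      (Measurable.iff (kpm1_rpt i y x) (kpm1_pd hB i y))
  exact Measurable.or (hB _ _) (Measurable.and measurable_const (Measurable.and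
    (Measurable.not (hB _ _)) (Measurable.and (Measurable.not (hB _ _)) (Measurable.and
    (Measurable.forall fun b => Measurable.imp (hB _ _) (Measurable.not (kpm1_D _ _ _)))
    (Measurable.or (Measurable.and (kpm1_sy hB x) (kpm1_idl hT hB x y))
      (Measurable.and (Measurable.not (kpm1_sy hB x)) (Measurable.or
        (Measurable.and (kpm1_pos hB x) (Measurable.and (kpm1_pos hB y) hc))
        (Measurable.or (Measurable.and (Measurable.not (kpm1_pos hB x))
          (Measurable.and (Measurable.not (kpm1_pos hB y)) hc))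
          (Measurable.and (Measurable.not (kpm1_pos hB x)) (kpm1_pos hB y))))))))))

private theorem kpm1_dec {p : St a3 → Prop} {d : ∀ N, Decidable (p N)} (hp : Measurable p) :
    Measurable fun N => @decide (p N) (d N) := by
  apply measurable_to_bool
  have h : (fun N => @decide (p N) (d N)) ⁻¹' {true} = {N | p N} := by
    ext N
    simp
  rw [h]
  exact hp.setOf

private theorem kpm1_Ob
    (hT : ∀ P ∈ S, ∀ x z, MeasurableSet {M : St a3 | IsoOn P.1 M P.2 (Cn M x z) ∅})
    (hB : ∀ x y, Measurable fun N : St a3 => B N x y) :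
    Measurable fun N : St a3 => Ob S f N (B N) := by
  refine Measurable.prodMk ?_ ?_
  · refine measurable_pi_lambda _ fun x => measurable_pi_lambda _ fun y => ?_
    exact kpm1_dec (kpm1_Ll hT hB x y)
  · refine measurable_pi_lambda _ fun j => measurable_pi_lambda _ fun t => ?_
    by_cases h0 : j % 3 = 0
    · simp only [h0, if_true]
      exact kpm1_dec (Measurable.and (Measurable.not (kpm1_Ll hT hB _ _)) (Measurable.and
        (Measurable.not (kpm1_Ll hT hB _ _)) (kpm1_rpt _ _ _)))
    · by_cases h1 : j % 3 = 1
      · simp only [h1, if_true, one_ne_zero, if_false]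
        exact kpm1_dec (Measurable.and measurable_const (kpm1_pc hB _ _))
      · simp only [h0, h1, if_false]
        exact kpm1_dec (Measurable.and measurable_const (kpm1_pd hB _ _))

end gen

theorem t_KPM1 (h1 : S_LEV3) (h2 : S_MS) : S_KPM1 := by
  intro S f b v hS hf
  obtain ⟨l, hl1, hl2, hl3⟩ := h1 S hS
  obtain ⟨hM, hT⟩ := h2 S l hS hl3 hl1
  have hB : ∀ x y, Measurable fun N : St a3 => Be S b N v x y := by
    intro x y
    cases b with
    | false => exact kpm1_D v x y
    | true =>
      exact Measurable.and measurable_const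
        (Measurable.not (measurableSet_setOfPred.1 (hM x y)))
  exact ⟨(kpm1_Ctr hM hB).setOf, kpm1_Ob hT hB⟩

end Pool.Agent.H533R2.VD
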