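import Pool.Agent.H533R2.VD.Spec

set_option autoImplicit false

/-! `KP` is invariant. -/

namespace Pool.Agent.H533R2.VD

open Set
open Pool.Agent.H899R2.VP
open Pool.Agent.H533R2.VO (Glu Lev OS G BlkC Ic)

theorem kpv_eq {O O' O'' : St a2} {e : Equiv.Perm ℕ}
    (h1 : PIso O O' {w | w.2 = e w.1}) (h2 : PIso O O'' {w | w.2 = e w.1}) : O' = O'' := by
  refine Prod.ext ?_ ?_
  · funext x y
    have a1 := h1.2.1 (e.symm x, x) (by simp) (e.symm y, y) (by simp)
    have a2 := h2.2.1 (e.symm x, x) (by simp) (e.symm y, y) (by simp)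
    exact a1.symm.trans a2
  · funext i t
    have a1 := h1.2.2 i (fun k => (e.symm (t k), t k)) (fun k => by simp)
    have a2 := h2.2.2 i (fun k => (e.symm (t k), t k)) (fun k => by simp)
    exact a1.symm.trans a2

theorem t_KPV (h1 : S_FUN1) (h2 : S_FUN2) (h3 : S_FUN3) (h4 : S_KPI) : S_KPV := by
  rintro α K S f b hG hC hE O ⟨v, -, hK, hctr, hO⟩ O' ⟨q, -, hq1, hq2, hq3, hq4⟩
  have hqq : IsoOn O O' univ univ q := ⟨q, subset_rfl, hq1, hq2, hq3, hq4⟩
  have hi := h1 O O' q hqq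
  obtain ⟨e, he, heq⟩ := exists_is hi
  have hsub : {w : ℕ × ℕ | w.2 = e w.1} ⊆ q := by
    rintro ⟨x, y⟩ hw
    obtain ⟨y', hy'⟩ := hq3 x (mem_univ x)
    have h5 : y' = e x := heq _ hy'
    have h6 : y = e x := hw
    rw [h6, ← h5]
    exact hy'
  have hP : PIso O O' {w | w.2 = e w.1} := PIso.mono hq2 hsub
  have hN' : ex (Rc O') ∈ K := hG.iso hK (hi.mono (empty_subset _))
  have hc' := h3 S b _ _ e v hC he hctr
  have hf := h2 S f b _ _ e v hC he
  rw [← hO] at hf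
  rw [kpv_eq hP hf]
  exact h4 α K S f b hG hC hE _ hN' (e v) hc'

end Pool.Agent.H533R2.VD
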