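import Pool.Agent.H533R2.VD.Spec

set_option autoImplicit false

/-! Task LEV3: every family has a countable level (Scott rank argument), adapted from VO/LEV. -/

namespace Pool.Agent.H533R2.VD

open Set
open Pool.Agent.H899R2.VP
open Pool.Agent.H533R2.VO (Glu Lev OS G BlkC Ic)

/-- A finite set of pairs is the set of members of a list. -/
private theorem lev3_list {p : Set (ℕ × ℕ)} (hp : p.Finite) :
    ∃ e : List (ℕ × ℕ), p = {u | u ∈ e} := by
  refine ⟨hp.toFinset.toList, ?_⟩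
  ext u
  simp

private theorem lev3_comp_finite {p q : Set (ℕ × ℕ)} (hp : p.Finite) (hq : q.Finite) :
    (comp p q).Finite := by
  apply ((hp.image Prod.fst).prod (hq.image Prod.snd)).subset
  rintro ⟨u, v⟩ ⟨w, h1, h2⟩
  exact ⟨⟨_, h1, rfl⟩, ⟨_, h2, rfl⟩⟩

/-- `comp r p` is finite if `p` is finite and `r` is injective. -/
private theorem lev3_comp_finite_left {a : ℕ → ℕ} {M N : St a} {r p : Set (ℕ × ℕ)}
    (hr : PIso M N r) (hp : p.Finite) : (comp r p).Finite := by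
  classical
  have h1 : {u | u ∈ r ∧ u.2 ∈ Prod.fst '' p}.Finite := by
    apply Set.Finite.of_finite_image (f := Prod.snd)
    · apply (hp.image Prod.fst).subset
      rintro _ ⟨u, ⟨_, hu⟩, rfl⟩
      exact hu
    · rintro ⟨u, v⟩ ⟨hu, _⟩ ⟨u', v'⟩ ⟨hu', _⟩ he
      simp only at he
      subst he
      have := hr.fst_eq hu hu' rfl
      rw [this]
  apply (lev3_comp_finite h1 hp).subset
  rintro ⟨u, v⟩ ⟨w, h2, h3⟩
  exact ⟨w, ⟨h2, _, h3, rfl⟩, h3⟩

private theorem lev3_inv_finite {p : Set (ℕ × ℕ)} (hp : p.Finite) : (inv p).Finite := by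
  apply (hp.image Prod.swap).subset
  rintro ⟨u, v⟩ h
  exact ⟨(v, u), h, rfl⟩

private theorem lev3_inv_comp (p q : Set (ℕ × ℕ)) : inv (comp p q) = comp (inv q) (inv p) := by
  ext ⟨u, v⟩
  constructor
  · rintro ⟨w, h1, h2⟩
    exact ⟨w, h2, h1⟩
  · rintro ⟨w, h1, h2⟩
    exact ⟨w, h2, h1⟩

private theorem lev3_zip_finite (s t : List ℕ) : (zipSet s t).Finite := by
  have : zipSet s t = {u | u ∈ s.zip t} := rfl
  rw [this]
  exact List.finite_toSet _

private theorem lev3_beta {a : ℕ → ℕ} (f : ℕ → St a × Set ℕ) :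
    ∃ β : Ordinal.{0}, β < Ordinal.omega 1 ∧ ∀ n m (p : Set (ℕ × ℕ)), p.Finite →
      BF (f n).1 (f m).1 (f n).2 (f m).2 β p →
      ∀ o < Ordinal.omega 1, BF (f n).1 (f m).1 (f n).2 (f m).2 o p := by
  classical
  have h1 : ∀ j : ℕ × ℕ × List (ℕ × ℕ), ∃ o : Ordinal.{0}, o < Ordinal.omega 1 ∧
      (BF (f j.1).1 (f j.2.1).1 (f j.1).2 (f j.2.1).2 o {u | u ∈ j.2.2} →
        ∀ o' < Ordinal.omega 1,
          BF (f j.1).1 (f j.2.1).1 (f j.1).2 (f j.2.1).2 o' {u | u ∈ j.2.2}) := by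
    intro j
    by_cases hb : ∃ o : Ordinal.{0}, o < Ordinal.omega 1 ∧
        ¬ BF (f j.1).1 (f j.2.1).1 (f j.1).2 (f j.2.1).2 o {u | u ∈ j.2.2}
    · obtain ⟨o, ho, hb⟩ := hb
      exact ⟨o, ho, fun h => absurd h hb⟩
    · push Not at hb
      exact ⟨0, Ordinal.omega_pos 1, fun _ => hb⟩
  choose o ho1 ho2 using h1
  refine ⟨iSup o, Ordinal.iSup_lt_omega_one ho1, ?_⟩
  intro n m p hp hb
  obtain ⟨e, rfl⟩ := lev3_list hp
  exact ho2 (n, m, e) (hb.mono (Ordinal.le_iSup o (n, m, e)))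

theorem t_LEV3 : S_LEV3 := by
  intro S hS
  obtain ⟨f, hf⟩ := hS.cnt
  obtain ⟨β, hβ, hβ1⟩ := lev3_beta f
  have hp : Ordinal.IsPrincipal (· + ·) (Ordinal.omega 1 : Ordinal.{0}) :=
    Ordinal.isPrincipal_add_omega 1
  have hω : Ordinal.omega0 < (Ordinal.omega 1 : Ordinal.{0}) := Ordinal.omega0_lt_omega_one
  -- transport
  have key : ∀ (M : St a3) (X : Set ℕ) (N : St a3) (Y : Set ℕ) (p : Set (ℕ × ℕ)), (M, X) ∈ S →
      (N, Y) ∈ S → p.Finite → p ⊆ X ×ˢ Y → BF M N X Y β p →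
      ∀ o < Ordinal.omega 1, BF M N X Y o p := by
    intro M X N Y p hM hN hp hpX hb o ho
    obtain ⟨n, r1, -, r1b, r1c, r1d, r1e⟩ := hf M X hM
    obtain ⟨m, r2, -, r2b, r2c, r2d, r2e⟩ := hf N Y hN
    have c1 : ∀ o, BF (f n).1 M (f n).2 X o r1 := fun o => BF_of_total r1b r1c r1d r1e
    have c2 : ∀ o, BF (f m).1 N (f m).2 Y o r2 := fun o => BF_of_total r2b r2c r2d r2e
    have c3 := ((c1 β).comp hb).comp (c2 β).symm
    have fin : (comp (comp r1 p) (inv r2)).Finite := by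
      have f1 : (comp r1 p).Finite := lev3_comp_finite_left r1c hp
      have f2 : (comp r2 (inv (comp r1 p))).Finite :=
        lev3_comp_finite_left r2c (lev3_inv_finite f1)
      have f3 := lev3_inv_finite f2
      rwa [lev3_inv_comp, inv_inv] at f3
    have c4 := hβ1 n m _ fin c3 o ho
    have c5 := ((c1 o).symm.comp c4).comp (c2 o)
    apply c5.subset
    rintro ⟨x, y⟩ hxy
    have hx := (hpX hxy).1
    have hy := (hpX hxy).2
    simp only at hx hy
    obtain ⟨x', hx'⟩ := r1e x hx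
    obtain ⟨y', hy'⟩ := r2e y hy
    exact ⟨y', ⟨x', hx', y, ⟨x, hx', hxy⟩, hy'⟩, hy'⟩
  refine ⟨β + Ordinal.omega0, hp hβ hω, le_add_self, ?_⟩
  intro M X N Y p hM hpf hpX hb
  have claim : ∀ q : Set (ℕ × ℕ), q.Finite → p ⊆ q → q ⊆ X ×ˢ Y → BF M N X Y β q →
      BF M N X Y (β + 1) q := by
    intro q hq hpq hqX hbq
    obtain ⟨e, he⟩ := lev3_list hq
    have h1 : BF M N X Y ((β + 1) + (e.map Prod.snd).length) p := by
      apply hb.mono
      rw [add_assoc]
      gcongr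
      have : (1 : Ordinal.{0}) + ((e.map Prod.snd).length : Ordinal.{0}) =
          ((1 + (e.map Prod.snd).length : ℕ) : Ordinal.{0}) := by
        push_cast; rfl
      rw [this]
      exact (Ordinal.natCast_lt_omega0 _).le
    obtain ⟨s, hs, hsX, hb2⟩ := h1.back_list (e.map Prod.snd) le_rfl (by
      intro y hy
      obtain ⟨u, hu, rfl⟩ := List.mem_map.1 hy
      have : u ∈ q := by rw [he]; exact hu
      exact (hqX this).2)
    set z : Set (ℕ × ℕ) := p ∪ zipSet s (e.map Prod.snd) with hz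
    have hzf : z.Finite := hpf.union (lev3_zip_finite _ _)
    have hzX : z ⊆ X ×ˢ Y := by
      rintro ⟨x, y⟩ (h | h)
      · exact hpX h
      · refine ⟨hsX x (mem_zipSet_left h), ?_⟩
        have := mem_zipSet_right h
        obtain ⟨u, hu, hu2⟩ := List.mem_map.1 this
        have hu' : u ∈ q := by rw [he]; exact hu
        have := (hqX hu').2
        rw [hu2] at this
        exact this
    have h3 : BF M M X X β (comp q (inv z)) :=
      hbq.comp (hb2.mono (le_self_add)).symm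
    have h4 : BF M M X X (β + 1) (comp q (inv z)) := by
      apply key M X M X _ hM hM (lev3_comp_finite hq (lev3_inv_finite hzf)) _ h3
      · exact (Cardinal.isSuccLimit_omega 1).add_one_lt hβ
      · rintro ⟨x, y⟩ ⟨w, h5, h6⟩
        exact ⟨(hqX h5).1, (hzX h6).1⟩
    apply (h4.comp hb2).subset
    rintro ⟨x, y⟩ hxy
    have hy : y ∈ e.map Prod.snd := by
      rw [he] at hxy
      exact List.mem_map.2 ⟨(x, y), hxy, rfl⟩
    obtain ⟨x', hx'⟩ := exists_zipSet_right hs hy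
    exact ⟨x', ⟨y, hxy, Or.inr hx'⟩, Or.inr hx'⟩
  apply isoOn_of_system {q | q.Finite ∧ p ⊆ q ∧ q ⊆ X ×ˢ Y ∧ BF M N X Y β q}
  · exact ⟨hpf, Subset.rfl, hpX, hb.mono le_self_add⟩
  · rintro q ⟨h1, h2, h3, h4⟩
    exact ⟨h4.piso, h3⟩
  · rintro q ⟨h1, h2, h3, h4⟩ x hx
    obtain ⟨y, hy, hby⟩ := (claim q h1 h2 h3 h4).forth (lt_add_one β) hx
    exact ⟨insert (x, y) q, ⟨h1.insert _, h2.trans (subset_insert _ _),
      insert_subset ⟨hx, hy⟩ h3, hby⟩, subset_insert _ _, y, mem_insert _ _⟩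
  · rintro q ⟨h1, h2, h3, h4⟩ y hy
    obtain ⟨x, hx, hbx⟩ := (claim q h1 h2 h3 h4).back (lt_add_one β) hy
    exact ⟨insert (x, y) q, ⟨h1.insert _, h2.trans (subset_insert _ _),
      insert_subset ⟨hx, hy⟩ h3, hbx⟩, subset_insert _ _, x, mem_insert _ _⟩

end Pool.Agent.H533R2.VD
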