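import Pool.Agent.H533R2.VD.Spec

set_option autoImplicit false

/-! Task LL1: the refined order depends only on the children. -/

namespace Pool.Agent.H533R2.VD

open Set
open Pool.Agent.H899R2.VP
open Pool.Agent.H533R2.VO (Glu Lev OS G BlkC Ic)

/-- The refined order between different children of one level. -/
private theorem ll1_iff {S : Set (St a3 × Set ℕ)} {f : ℕ → St a3 × Set ℕ} {N : St a3}
    {B : ℕ → ℕ → Prop} (u v : ℕ) (h1 : u ≠ v) (h2 : Lv B u v)
    (h3 : ∀ b, B b u → ¬ D N u v b) : Ll S f N B u v ↔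
    ((sy N B u ∧ idl S f N B u v) ∨
     (¬ sy N B u ∧ ((pos N B u ∧ pos N B v ∧ ∀ i, (rp N i u v = true ↔ pc N B i v) ∧
        (rp N i v u = true ↔ pd N B i v)) ∨
      (¬ pos N B u ∧ ¬ pos N B v ∧ ∀ i, (rp N i u v = true ↔ pc N B i v) ∧
        (rp N i v u = true ↔ pd N B i v)) ∨
      (¬ pos N B u ∧ pos N B v)))) :=
  ⟨fun h => h.elim (fun h => absurd h h2.1) (fun h => h.2.2.2.2),
    fun h => Or.inr ⟨h1, h2.1, h2.2, h3, h⟩⟩

theorem t_LL1 (h1 : S_CT1) (h2 : S_CT2) (h3 : S_SGN1) (h4 : S_SGN2) (h5 : S_IDL) : S_LL1 := by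
  intro S f N B hS hf hC x x' y b hb hd hl hn
  obtain ⟨g1, g2, g3⟩ := h1 S N B hC
  obtain ⟨c1, c2, c3, c4, c5, c6⟩ := h2 S N B hC
  have hxx : Lv B x x' := c3 x x' b hb hd
  have hl' : Lv B x' y := by
    constructor
    · intro h
      rcases g3 x' x y h with h | h
      exacts [hxx.2 h, hl.1 h]
    · intro h
      rcases g3 y x x' h with h | h
      exacts [hl.2 h, hxx.1 h]
  have hb' : B b x' := (c1 x x' b hxx).1 hb
  have hxb : x ≠ b := ((hC.cone b x hb).1).symm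
  have nxy : x ≠ y := by
    rintro rfl
    exact hn (hC.cs.refl _ _ hxb)
  have nxy' : x' ≠ y := by
    rintro rfl
    exact hn hd
  have cx : ∀ b', B b' x → ¬ D N x y b' := by
    intro b' hb1 h
    have h6 : y ∈ Cn N x b' := h
    rw [c2 x b' b hb1 hb] at h6
    exact hn h6
  have cx' : ∀ b', B b' x' → ¬ D N x' y b' := by
    intro b' hb1 h
    have hb2 := (c1 x x' b' hxx).2 hb1
    have h6 : x' ∈ Cn N x b' := by
      rw [c2 x b' b hb2 hb]
      exact hd
    exact cx b' hb2 (hC.cs.trans h6 h)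
  have cy : ∀ b', B b' y → ¬ D N y x b' := by
    intro b' hb1 h
    exact cx b' ((c1 x y b' hl).2 hb1) (hC.cs.symm _ _ _ h)
  have cy' : ∀ b', B b' y → ¬ D N y x' b' := by
    intro b' hb1 h
    exact cx' b' ((c1 x' y b' hl').2 hb1) (hC.cs.symm _ _ _ h)
  have hs := (h4 S N B hC b x x' hb hxx).1
  have hk := (h4 S N B hC b x x' hb hxx).2.2.1 hd
  have hp : pos N B x ↔ pos N B x' := hk.2.symm
  have hpc : ∀ i, (pc N B i x ↔ pc N B i x') := by
    intro i
    rw [((h3 S N B hC b x hb).1 i).1, ((h3 S N B hC b x' hb').1 i).1, (hk.1 i).1]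
  have hpd : ∀ i, (pd N B i x ↔ pd N B i x') := by
    intro i
    rw [((h3 S N B hC b x hb).1 i).2, ((h3 S N B hC b x' hb').1 i).2, (hk.1 i).2]
  have ht : ∀ n, (ty S f N B n x ↔ ty S f N B n x') :=
    (h5 S f N B hS hf hC).2.2.2.1 x x' b hb hd
  have hi : idl S f N B x y ↔ idl S f N B x' y := by
    unfold idl
    simp only [ht]
  have hi' : idl S f N B y x ↔ idl S f N B y x' := by
    unfold idl
    simp only [ht]
  have hce : ce (rp N) x y x' y :=
    hC.cs.cce (x := x) (z := b) (hC.cs.self_mem hxb) hd hn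
  have e1 : ∀ i, rp N i x y = rp N i x' y := fun i => (hce i).1
  have e2 : ∀ i, rp N i y x = rp N i y x' := fun i => (hce i).2
  constructor
  · rw [ll1_iff x y nxy hl cx, ll1_iff x' y nxy' hl' cx', hs, hi, hp]
    simp only [e1, e2]
  · rw [ll1_iff y x nxy.symm ⟨hl.2, hl.1⟩ cy, ll1_iff y x' nxy'.symm ⟨hl'.2, hl'.1⟩ cy', hi', hp]
    simp only [e1, e2, hpc, hpd]

end Pool.Agent.H533R2.VD
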