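import Pool.Agent.H533R2.VD.Spec

set_option autoImplicit false

/-! Asymmetric levels: totality. -/

namespace Pool.Agent.H533R2.VD

open Set
open Pool.Agent.H899R2.VP
open Pool.Agent.H533R2.VO (Glu Lev OS G BlkC Ic)

theorem ll2_clause (h5 : S_SGN1) (S : Set (St a3 × Set ℕ)) (N : St a3) (B : ℕ → ℕ → Prop)
    (hC : Ctr S N B) (b x y : ℕ) (hby : B b y) :
    (∀ i, (rp N i x y = true ↔ pc N B i y) ∧ (rp N i y x = true ↔ pd N B i y)) ↔
      ce (rp N) x y b y := by
  have h := (h5 S N B hC b y hby).1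
  constructor
  · intro h1 i
    refine ⟨Bool.eq_iff_iff.2 ((h1 i).1.trans (h i).1), Bool.eq_iff_iff.2 ((h1 i).2.trans (h i).2)⟩
  · intro h1 i
    rw [(h i).1, (h i).2, (h1 i).1, (h1 i).2]
    exact ⟨Iff.rfl, Iff.rfl⟩

theorem t_LL2 (_h1 : S_CT1) (h2 : S_CT2) (h3 : S_CT3) (h4 : S_COL) (h5 : S_SGN1) (h6 : S_SGN2) :
    S_LL2 := by
  intro S f N B hC x y b hb hLv hne hD hs
  obtain ⟨hCT2a, hCT2b, -⟩ := h2 S N B hC
  have hby : B b y := (hCT2a x y b hLv).1 hb
  obtain ⟨g1, g2, g3, g4, g5⟩ := (h3 S N B hC).1 x y b hLv hb hne hD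
  have hdeg := hC.cs.deg b x y g4 hne g5 g1 g2 g3
  have hcol := h4 (rp N) b x y hdeg
  have hsy : ¬ sy N B y := fun h => hs (((h6 S N B hC b x y hb hLv).1).2 h)
  have hsb : ¬ ce (rp N) b x x b := fun h => hs ((h5 S N B hC b x hb).2.1.2 h)
  have hDx : ∀ b', B b' x → ¬ D N x y b' := by
    intro b' hb' hd
    have : y ∈ Cn N x b' := hd
    rw [← hCT2b x b b' hb hb'] at this
    exact hD this
  have hDy : ∀ b', B b' y → ¬ D N y x b' := by
    intro b' hb' hd
    exact hDx b' ((hCT2a x y b' hLv).2 hb') (hC.cs.symm _ _ _ hd)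
  have hx : Ll S f N B x y ↔ ((pos N B x ∧ pos N B y ∧ ce (rp N) x y b y) ∨
      (¬ pos N B x ∧ ¬ pos N B y ∧ ce (rp N) x y b y) ∨ (¬ pos N B x ∧ pos N B y)) := by
    rw [← ll2_clause h5 S N B hC b x y hby]
    constructor
    · rintro (h | ⟨-, -, -, -, h | h⟩)
      · exact absurd h hLv.1
      · exact absurd h.1 hs
      · exact h.2
    · intro h
      exact Or.inr ⟨hne, hLv.1, hLv.2, hDx, Or.inr ⟨hs, h⟩⟩
  have hy : Ll S f N B y x ↔ ((pos N B y ∧ pos N B x ∧ ce (rp N) y x b x) ∨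
      (¬ pos N B y ∧ ¬ pos N B x ∧ ce (rp N) y x b x) ∨ (¬ pos N B y ∧ pos N B x)) := by
    rw [← ll2_clause h5 S N B hC b y x hb]
    constructor
    · rintro (h | ⟨-, -, -, -, h | h⟩)
      · exact absurd h hLv.2
      · exact absurd h.1 hsy
      · exact h.2
    · intro h
      exact Or.inr ⟨hne.symm, hLv.2, hLv.1, hDy, Or.inr ⟨hsy, h⟩⟩
  rw [hx, hy]
  have hs2 := (h6 S N B hC b x y hb hLv).2.2.2 hs
  by_cases hpx : pos N B x <;> by_cases hpy : pos N B y
  · have k : ce (rp N) b y b x := by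
      rcases hs2 with ⟨k, -⟩ | ⟨-, k⟩
      · exact k
      · exact absurd hpx (k.1 hpy)
    rcases hcol.2.1 with e | e
    · -- `ce x y b x`
      have e1 : ce (rp N) x y b y := e.trans k.symm
      have e2 : ¬ ce (rp N) y x b x := fun h => hsb (h.symm.trans e.swap)
      simp [hpx, hpy, e1, e2]
    · have e1 : ce (rp N) y x b x := e.swap
      have e2 : ¬ ce (rp N) x y b y := fun h => hsb ((k.symm.trans h.symm).trans e)
      simp [hpx, hpy, e1, e2]
  · simp [hpx, hpy]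
  · simp [hpx, hpy]
  · have k : ce (rp N) b y b x := by
      rcases hs2 with ⟨k, -⟩ | ⟨-, k⟩
      · exact k
      · exact absurd (k.2 hpx) hpy
    rcases hcol.2.1 with e | e
    · have e1 : ce (rp N) x y b y := e.trans k.symm
      have e2 : ¬ ce (rp N) y x b x := fun h => hsb (h.symm.trans e.swap)
      simp [hpx, hpy, e1, e2]
    · have e1 : ce (rp N) y x b x := e.swap
      have e2 : ¬ ce (rp N) x y b y := fun h => hsb ((k.symm.trans h.symm).trans e)
      simp [hpx, hpy, e1, e2]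

end Pool.Agent.H533R2.VD
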