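import Pool.Agent.H533R2.VD.Spec
set_option autoImplicit false
namespace Pool.Agent.H533R2.VD
open Set
open Pool.Agent.H899R2.VP
open Pool.Agent.H533R2.VO (Glu Lev OS G BlkC Ic)

/-- equality of bits from the equivalence of their truth -/
private theorem ll3_beq {a b : Bool} (h : a = true ↔ b = true) : a = b := by
  cases a <;> cases b <;> simp_all

/-- the colour of `(x, w)` on an asymmetric level -/
private theorem ll3_col (h3 : S_CT3) (h4 : S_COL) (h5 : S_SGN1)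
    {S : Set (St a3 × Set ℕ)} {N : St a3} {B : ℕ → ℕ → Prop} (hC : Ctr S N B) {x y w b : ℕ}
    (hbx : B b x) (hby : B b y) (hbw : B b w) (hxy : Lv B x y) (hyw : Lv B y w)
    (nxy : x ≠ y) (nyw : y ≠ w) (nxw : x ≠ w) (dxy : ¬ D N x y b) (dyw : ¬ D N y w b)
    (dxw : ¬ D N x w b) (hwy : ce (rp N) b w b y)
    (cxy : ∀ i, (rp N i x y = true ↔ pc N B i y) ∧ (rp N i y x = true ↔ pd N B i y))
    (cyw : ∀ i, (rp N i y w = true ↔ pc N B i w) ∧ (rp N i w y = true ↔ pd N B i w)) :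
    ∀ i, (rp N i x w = true ↔ pc N B i w) ∧ (rp N i w x = true ↔ pd N B i w) := by
  have sy := (h5 S N B hC b y hby).1
  have sw := (h5 S N B hC b w hbw).1
  have e1 : ce (rp N) x y b y := fun i =>
    ⟨ll3_beq ((cxy i).1.trans (sy i).1), ll3_beq ((cxy i).2.trans (sy i).2)⟩
  have e2 : ce (rp N) y w b w := fun i =>
    ⟨ll3_beq ((cyw i).1.trans (sw i).1), ll3_beq ((cyw i).2.trans (sw i).2)⟩
  have e3 : ce (rp N) y w x y := fun i =>
    ⟨(e2 i).1.trans ((hwy i).1.trans (e1 i).1.symm), (e2 i).2.trans ((hwy i).2.trans (e1 i).2.symm)⟩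
  obtain ⟨d1, d2, d3⟩ := (h3 S N B hC).2 x y w b hxy hyw hbx nxy nyw nxw dxy dyw dxw
  have hlin := hC.cs.deg x y w nxy nyw nxw d1 d2 d3
  have e4 : ce (rp N) x w x y := (h4 (rp N) x y w hlin).2.2.2 e3
  intro i
  have a1 : rp N i x w = rp N i b w := (e4 i).1.trans ((e1 i).1.trans (hwy i).1.symm)
  have a2 : rp N i w x = rp N i w b := (e4 i).2.trans ((e1 i).2.trans (hwy i).2.symm)
  rw [a1, a2]
  exact ⟨(sw i).1.symm, (sw i).2.symm⟩

theorem t_LL3 (h1 : S_CT1) (h2 : S_CT2) (h3 : S_CT3) (h4 : S_COL) (h5 : S_SGN1) (h6 : S_SGN2)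
    (h7 : S_LL1) (h8 : S_LL2) : S_LL3 := by
  intro S f N B hCF hE hC x y w b hbx hxy hyw hsx lxy lyw
  obtain ⟨irr, -, ntr⟩ := h1 S N B hC
  obtain ⟨lvb, -⟩ := h2 S N B hC
  have hby : B b y := (lvb x y b hxy).1 hbx
  have hbw : B b w := (lvb y w b hyw).1 hby
  obtain ⟨syxy, -, -, sgxy⟩ := h6 S N B hC b x y hbx hxy
  have hsy : ¬ sy N B y := fun h => hsx (syxy.2 h)
  obtain ⟨-, -, -, sgyw⟩ := h6 S N B hC b y w hby hyw
  have nBxy : ¬ B x y := hxy.1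
  have nByx : ¬ B y x := hxy.2
  have nByw : ¬ B y w := hyw.1
  have nBwy : ¬ B w y := hyw.2
  have nBxw : ¬ B x w := fun h => (ntr x y w h).elim nBxy nByw
  have nBwx : ¬ B w x := fun h => (ntr w y x h).elim nBwy nByx
  rcases lxy with h | ⟨nxy, -, -, dxy, ⟨h, -⟩ | ⟨-, cxy⟩⟩
  · exact absurd h nBxy
  · exact absurd h hsx
  rcases id lyw with h | ⟨nyw, -, -, dyw, ⟨h, -⟩ | ⟨-, cyw⟩⟩
  · exact absurd h nByw
  · exact absurd h hsy
  have lxy' : Ll S f N B x y := Or.inr ⟨nxy, nBxy, nByx, dxy, Or.inr ⟨hsx, cxy⟩⟩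
  have nxw : x ≠ w := by
    rintro rfl
    exact (h8 S f N B hC x y b hbx hxy nxy (dxy b hbx) hsx).2 ⟨lxy', lyw⟩
  have dxw : ∀ b', B b' x → ¬ D N x w b' := by
    intro b' hb' hd
    have h9 := (h7 S f N B hCF hE hC x w y b' hb' hd hxy (dxy b' hb')).1
    exact (h8 S f N B hC y w b hby hyw nyw (dyw b hby) hsy).2 ⟨lyw, h9.1 lxy'⟩
  refine Or.inr ⟨nxw, nBxw, nBwx, dxw, Or.inr ⟨hsx, ?_⟩⟩
  rcases cxy with ⟨px, py, c1⟩ | ⟨px, py, c1⟩ | ⟨px, py⟩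
  · rcases cyw with ⟨_, pw, c2⟩ | ⟨py', _, _⟩ | ⟨py', _⟩
    · refine Or.inl ⟨px, pw, ?_⟩
      rcases sgyw hsy with ⟨e, _⟩ | ⟨_, e⟩
      · exact ll3_col h3 h4 h5 hC hbx hby hbw hxy hyw nxy nyw nxw (dxy b hbx) (dyw b hby)
          (dxw b hbx) e c1 c2
      · exact absurd py (e.1 pw)
    · exact absurd py py'
    · exact absurd py py'
  · rcases cyw with ⟨py', _, _⟩ | ⟨_, pw, c2⟩ | ⟨_, pw⟩
    · exact absurd py' py
    · refine Or.inr (Or.inl ⟨px, pw, ?_⟩)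
      rcases sgyw hsy with ⟨e, _⟩ | ⟨_, e⟩
      · exact ll3_col h3 h4 h5 hC hbx hby hbw hxy hyw nxy nyw nxw (dxy b hbx) (dyw b hby)
          (dxw b hbx) e c1 c2
      · exact absurd (e.2 py) pw
    · exact Or.inr (Or.inr ⟨px, pw⟩)
  · rcases cyw with ⟨_, pw, _⟩ | ⟨py', _, _⟩ | ⟨py', _⟩
    · exact Or.inr (Or.inr ⟨px, pw⟩)
    · exact absurd py py'
    · exact absurd py py'

end Pool.Agent.H533R2.VD
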