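import Pool.Agent.H533R2.VD.Spec

set_option autoImplicit false

/-! Task LL4 (helper317). -/

namespace Pool.Agent.H533R2.VD

open Set
open Pool.Agent.H899R2.VP
open Pool.Agent.H533R2.VO (Glu Lev OS G BlkC Ic)

theorem t_LL4 (h3 : S_IDL) : S_LL4 := by
  intro S f N B hS hf hc x y b hb hl hs
  obtain ⟨i1, -, -, i4, -⟩ := h3 S f N B hS hf hc
  constructor
  · rintro (h | ⟨-, -, -, -, (⟨-, h⟩ | ⟨h, -⟩)⟩)
    · exact absurd h hl.1
    · exact h
    · exact absurd hs h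
  · intro h
    refine Or.inr ⟨?_, hl.1, hl.2, ?_, Or.inl ⟨hs, h⟩⟩
    · rintro rfl
      exact i1 x h
    · intro b' hb' hD
      obtain ⟨n, h1, h2⟩ := h
      exact h2 n le_rfl ((i4 x y b' hb' hD n).1 h1)

end Pool.Agent.H533R2.VD
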