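import Pool.Agent.H533R2.VD.Spec

set_option autoImplicit false

/-! The colour of `(x, y)` is read from `y` when `x` comes before `y`. -/

namespace Pool.Agent.H533R2.VD

open Set
open Pool.Agent.H899R2.VP
open Pool.Agent.H533R2.VO (Glu Lev OS G BlkC Ic)

theorem llc_clause (h5 : S_SGN1) (S : Set (St a3 × Set ℕ)) (N : St a3) (B : ℕ → ℕ → Prop)
    (hC : Ctr S N B) (b x y : ℕ) (hby : B b y) :
    (∀ i, (rp N i x y = true ↔ pc N B i y) ∧ (rp N i y x = true ↔ pd N B i y)) ↔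
      ce (rp N) x y b y := by
  have h := (h5 S N B hC b y hby).1
  constructor
  · intro h1 i
    refine ⟨Bool.eq_iff_iff.2 ((h1 i).1.trans (h i).1), Bool.eq_iff_iff.2 ((h1 i).2.trans (h i).2)⟩
  · intro h1 i
    rw [(h i).1, (h i).2, (h1 i).1, (h1 i).2]
    exact ⟨Iff.rfl, Iff.rfl⟩

theorem t_LLC (_h1 : S_CT1) (h2 : S_CT2) (h3 : S_CT3) (h4 : S_COL) (h5 : S_SGN1) (h6 : S_SGN2) :
    S_LLC := by
  intro S f N B hC x y hL
  by_cases hB : B x y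
  · intro i
    have h := (h5 S N B hC x y hB).1 i
    exact ⟨h.1.symm, h.2.symm⟩
  rcases hL with hL | ⟨hne, -, hyx, hD, hL⟩
  · exact absurd hL hB
  obtain ⟨b, hb⟩ : ∃ b, B b x := by
    by_contra hcon
    exact hB (hC.cen x hcon y (Ne.symm hne))
  have hLv : Lv B x y := ⟨hB, hyx⟩
  obtain ⟨hCT2a, -⟩ := h2 S N B hC
  have hby : B b y := (hCT2a x y b hLv).1 hb
  obtain ⟨g1, g2, g3, g4, g5⟩ := (h3 S N B hC).1 x y b hLv hb hne (hD b hb)
  have hdeg := hC.cs.deg b x y g4 hne g5 g1 g2 g3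
  have hcol := h4 (rp N) b x y hdeg
  have hcol' := h4 (rp N) x b y (by tauto)
  rcases hL with ⟨hs, -⟩ | ⟨hs, ⟨hpx, hpy, hcl⟩ | ⟨hpx, hpy, hcl⟩ | ⟨hpx, hpy⟩⟩
  · rw [llc_clause h5 S N B hC b x y hby]
    have hsb : ce (rp N) b x x b := (h5 S N B hC b x hb).2.1.1 hs
    obtain ⟨k1, k2⟩ := hcol.2.2.1 hsb
    exact k2.trans k1.symm
  · exact hcl
  · exact hcl
  · rw [llc_clause h5 S N B hC b x y hby]
    have hs2 := (h6 S N B hC b x y hb hLv).2.2.2 hs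
    rcases hs2 with ⟨-, k⟩ | ⟨k, -⟩
    · exact absurd (k.1 hpy) hpx
    · exact (hcol'.2.2.2 k).trans k.symm

end Pool.Agent.H533R2.VD
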