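import Pool.Agent.H533R2.VD.Spec

set_option autoImplicit false

/-! The values of mixed tuples depend only on the cones. -/

namespace Pool.Agent.H533R2.VD

open Set
open Pool.Agent.H899R2.VP
open Pool.Agent.H533R2.VO (Glu Lev OS G BlkC Ic)

/-- the two-place case -/
theorem mix_two {ι : Type} {M : St a3} {x z : ι → ℕ} (h : Cs M) (i : ℕ) (a b a' b' : ℕ)
    (ha : ∀ j, a ∈ Cn M (x j) (z j) ↔ a' ∈ Cn M (x j) (z j))
    (hb : ∀ j, b ∈ Cn M (x j) (z j) ↔ b' ∈ Cn M (x j) (z j))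
    (ha0 : (∀ j, a ∉ Cn M (x j) (z j)) → a = a')
    (hb0 : (∀ j, b ∉ Cn M (x j) (z j)) → b = b')
    (hn : ¬ ∃ j, a ∈ Cn M (x j) (z j) ∧ b ∈ Cn M (x j) (z j)) :
    rp M i a b = rp M i a' b' := by
  have e1 : rp M i a b = rp M i a' b := by
    by_cases hj : ∃ j, a ∈ Cn M (x j) (z j)
    · obtain ⟨j, hj⟩ := hj
      have hbj : b ∉ Cn M (x j) (z j) := fun hb => hn ⟨j, hj, hb⟩
      exact (h.cce hj ((ha j).1 hj) hbj i).1
    · push Not at hj
      rw [← ha0 hj]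
  have e2 : rp M i a' b = rp M i a' b' := by
    by_cases hj : ∃ j, b ∈ Cn M (x j) (z j)
    · obtain ⟨j, hj⟩ := hj
      have haj : a' ∉ Cn M (x j) (z j) := fun ha' => hn ⟨j, (ha j).2 ha', hj⟩
      exact (h.cce hj ((hb j).1 hj) haj i).2
    · push Not at hj
      rw [← hb0 hj]
  rw [e1, e2]

/-- the three-place case -/
theorem mix_three {ι : Type} {M : St a3} {x z : ι → ℕ} (h : Cs M) (a b c a' b' c' : ℕ)
    (ha : ∀ j, a ∈ Cn M (x j) (z j) ↔ a' ∈ Cn M (x j) (z j))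
    (hb : ∀ j, b ∈ Cn M (x j) (z j) ↔ b' ∈ Cn M (x j) (z j))
    (hc : ∀ j, c ∈ Cn M (x j) (z j) ↔ c' ∈ Cn M (x j) (z j))
    (ha0 : (∀ j, a ∉ Cn M (x j) (z j)) → a = a')
    (hb0 : (∀ j, b ∉ Cn M (x j) (z j)) → b = b')
    (hc0 : (∀ j, c ∉ Cn M (x j) (z j)) → c = c')
    (hn : ¬ ∃ j, a ∈ Cn M (x j) (z j) ∧ b ∈ Cn M (x j) (z j) ∧ c ∈ Cn M (x j) (z j)) :
    D M a b c ↔ D M a' b' c' := by
  by_cases h1 : ∃ j, a ∈ Cn M (x j) (z j) ∧ b ∈ Cn M (x j) (z j)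
  · obtain ⟨j, h1, h2⟩ := h1
    have h3 : c ∉ Cn M (x j) (z j) := fun h3 => hn ⟨j, h1, h2, h3⟩
    have h3' : c' ∉ Cn M (x j) (z j) := fun h4 => h3 ((hc j).2 h4)
    exact ⟨fun _ => h.cin ((ha j).1 h1) ((hb j).1 h2) h3', fun _ => h.cin h1 h2 h3⟩
  by_cases h4 : ∃ j, a ∈ Cn M (x j) (z j) ∧ c ∈ Cn M (x j) (z j)
  · obtain ⟨j, h4, h5⟩ := h4
    have h6 : b ∉ Cn M (x j) (z j) := fun h6 => hn ⟨j, h4, h6, h5⟩
    have h6' : b' ∉ Cn M (x j) (z j) := fun h7 => h6 ((hb j).2 h7)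
    exact ⟨fun h7 => absurd h7 (h.cout h4 h5 h6),
      fun h7 => absurd h7 (h.cout ((ha j).1 h4) ((hc j).1 h5) h6')⟩
  by_cases h7 : ∃ j, b ∈ Cn M (x j) (z j) ∧ c ∈ Cn M (x j) (z j)
  · obtain ⟨j, h7, h8⟩ := h7
    have h9 : a ∉ Cn M (x j) (z j) := fun h9 => hn ⟨j, h9, h7, h8⟩
    have h9' : a' ∉ Cn M (x j) (z j) := fun h10 => h9 ((ha j).2 h10)
    exact ⟨fun h10 => absurd h10 (h.cout' h7 h8 h9),
      fun h10 => absurd h10 (h.cout' ((hb j).1 h7) ((hc j).1 h8) h9')⟩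
  have e1 : D M a b c ↔ D M a' b c := by
    by_cases hj : ∃ j, a ∈ Cn M (x j) (z j)
    · obtain ⟨j, hj⟩ := hj
      exact h.csw hj ((ha j).1 hj) fun hcj => h4 ⟨j, hj, hcj⟩
    · push Not at hj
      rw [← ha0 hj]
  have e2 : D M a' b c ↔ D M a' b' c := by
    by_cases hj : ∃ j, b ∈ Cn M (x j) (z j)
    · obtain ⟨j, hj⟩ := hj
      have h5 := h.csw (w := a') hj ((hb j).1 hj) fun hcj => h7 ⟨j, hj, hcj⟩
      exact ⟨fun h6 => h.symm _ _ _ (h5.1 (h.symm _ _ _ h6)),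
        fun h6 => h.symm _ _ _ (h5.2 (h.symm _ _ _ h6))⟩
    · push Not at hj
      rw [← hb0 hj]
  have e3 : D M a' b' c ↔ D M a' b' c' := by
    by_cases hj : ∃ j, c ∈ Cn M (x j) (z j)
    · obtain ⟨j, hj⟩ := hj
      exact h.csw' hj ((hc j).1 hj) fun hbj => h7 ⟨j, (hb j).2 hbj, hj⟩
    · push Not at hj
      rw [← hc0 hj]
  rw [e1, e2, e3]

theorem t_MIX : S_MIX := by
  intro ι M x z h hd i t t' ht ht0 hn
  cases i with
  | zero =>
    have et : t = ![t 0, t 1, t 2] := by funext k; fin_cases k <;> rfl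
    have et' : t' = ![t' 0, t' 1, t' 2] := by funext k; fin_cases k <;> rfl
    have key := mix_three (x := x) (z := z) h (t 0) (t 1) (t 2) (t' 0) (t' 1) (t' 2)
      (ht 0) (ht 1) (ht 2) (ht0 0) (ht0 1) (ht0 2) (by
        rintro ⟨j, h1, h2, h3⟩
        refine hn ⟨j, fun k => ?_⟩
        fin_cases k
        · exact h1
        · exact h2
        · exact h3)
    unfold D at key
    rw [et, et']
    exact Bool.eq_iff_iff.2 key
  | succ i =>
    have et : t = ![t 0, t 1] := by funext k; fin_cases k <;> rfl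
    have et' : t' = ![t' 0, t' 1] := by funext k; fin_cases k <;> rfl
    have key := mix_two (x := x) (z := z) h i (t 0) (t 1) (t' 0) (t' 1)
      (ht 0) (ht 1) (ht0 0) (ht0 1) (by
        rintro ⟨j, h1, h2⟩
        refine hn ⟨j, fun k => ?_⟩
        fin_cases k
        · exact h1
        · exact h2)
    unfold rp at key
    rw [et, et']
    exact key

end Pool.Agent.H533R2.VD
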