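import Pool.Agent.H533R2.VD.Spec

set_option autoImplicit false

namespace Pool.Agent.H533R2.VD

open Set
open Pool.Agent.H899R2.VP

/-- The path `b - z - a - w` on four points is prime. -/
theorem mode_p4 (T : ℕ → ℕ → Prop) (hT : ∀ u v, T u v → T v u) (a b z w : ℕ)
    (h1 : T b z) (h2 : T z a) (h3 : T a w) (h4 : ¬ T z w) (h5 : ¬ T a b) (h6 : ¬ T b w)
    (hab : a ≠ b) (haz : a ≠ z) (haw : a ≠ w) (hbz : b ≠ z) (hbw : b ≠ w) (hzw : z ≠ w)
    (X : Finset ℕ) (hX : X ⊆ {a, b, z, w}) (hc1 : 1 < X.card) (hc2 : X.card < 4)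
    (hm : ∀ u ∈ X, ∀ v ∈ X, ∀ t ∈ ({a, b, z, w} : Finset ℕ), t ∉ X → (T u t → T v t)) : False := by
  have hall : ¬ (a ∈ X ∧ b ∈ X ∧ z ∈ X ∧ w ∈ X) := by
    rintro ⟨ha, hb, hz, hw⟩
    have : ({a, b, z, w} : Finset ℕ) ⊆ X := by
      intro t ht
      simp only [Finset.mem_insert, Finset.mem_singleton] at ht
      rcases ht with rfl | rfl | rfl | rfl <;> assumption
    have h := Finset.card_le_card this
    have h' : ({a, b, z, w} : Finset ℕ).card = 4 := by
      rw [Finset.card_insert_of_notMem, Finset.card_insert_of_notMem, Finset.card_pair hzw]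
      · simp [hbz, hbw]
      · simp [hab, haz, haw]
    omega
  obtain ⟨p, hp, q, hq, hpq⟩ := Finset.one_lt_card.1 hc1
  have hp' := hX hp
  have hq' := hX hq
  simp only [Finset.mem_insert, Finset.mem_singleton] at hp' hq'
  have ma : a ∈ ({a, b, z, w} : Finset ℕ) := by simp
  have mb : b ∈ ({a, b, z, w} : Finset ℕ) := by simp
  have mz : z ∈ ({a, b, z, w} : Finset ℕ) := by simp
  have mw : w ∈ ({a, b, z, w} : Finset ℕ) := by simp
  have e1 : a ∈ X → b ∈ X → w ∈ X := fun h h' => by
    by_contra hn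
    exact h6 (hm a h b h' w mw hn h3)
  have e3 : a ∈ X → z ∈ X → b ∈ X := fun h h' => by
    by_contra hn
    exact h5 (hm z h' a h b mb hn (hT _ _ h1))
  have e4 : a ∈ X → z ∈ X → w ∈ X := fun h h' => by
    by_contra hn
    exact h4 (hm a h z h' w mw hn h3)
  have e5 : a ∈ X → w ∈ X → z ∈ X := fun h h' => by
    by_contra hn
    exact h4 (hT _ _ (hm a h w h' z mz hn (hT _ _ h2)))
  have e6 : b ∈ X → z ∈ X → a ∈ X := fun h h' => by
    by_contra hn
    exact h5 (hT _ _ (hm z h' b h a ma hn h2))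
  have e7 : b ∈ X → w ∈ X → a ∈ X := fun h h' => by
    by_contra hn
    exact h5 (hT _ _ (hm w h' b h a ma hn (hT _ _ h3)))
  have e8 : b ∈ X → w ∈ X → z ∈ X := fun h h' => by
    by_contra hn
    exact h4 (hT _ _ (hm b h w h' z mz hn h1))
  have e9 : z ∈ X → w ∈ X → b ∈ X := fun h h' => by
    by_contra hn
    exact h6 (hT _ _ (hm z h w h' b mb hn (hT _ _ h1)))
  have k1 : a ∈ X → b ∈ X → False := fun h h' =>
    hall ⟨h, h', e5 h (e1 h h'), e1 h h'⟩
  have k2 : a ∈ X → z ∈ X → False := fun h h' => k1 h (e3 h h')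
  have k3 : a ∈ X → w ∈ X → False := fun h h' => k2 h (e5 h h')
  have k4 : b ∈ X → z ∈ X → False := fun h h' => k2 (e6 h h') h'
  have k5 : b ∈ X → w ∈ X → False := fun h h' => k3 (e7 h h') h'
  have k6 : z ∈ X → w ∈ X → False := fun h h' => k5 (e9 h h') h'
  rcases hp' with rfl | rfl | rfl | rfl <;> rcases hq' with rfl | rfl | rfl | rfl <;>
    first
    | exact absurd rfl hpq
    | exact k1 hp hq
    | exact k1 hq hp
    | exact k2 hp hq
    | exact k2 hq hp
    | exact k3 hp hq
    | exact k3 hq hp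
    | exact k4 hp hq
    | exact k4 hq hp
    | exact k5 hp hq
    | exact k5 hq hp
    | exact k6 hp hq
    | exact k6 hq hp

theorem mode_aux (N : R2) (hN : Dec N) (x a b z w : ℕ) (hwa : w ≠ a) (hwb : w ≠ b) (hwz : w ≠ z)
    (haz : a ≠ z) (hbz : b ≠ z) (hab : a ≠ b) (h1 : ce N a z x z) (h2 : ce N b z x z)
    (h3 : ¬ ce N a b x z) (h4 : ¬ ce N a b z x)
    (h5 : ce N a b w b) (h6 : ce N w b w z) (h7 : ce N w a z x) : False := by
  -- colours: ab = wb = wz; wa = zx; az = bz = xz
  obtain ⟨X, hX, hc1, hc2, hm⟩ := hN {a, b, z, w} (Or.inr (by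
    rw [Finset.card_insert_of_notMem, Finset.card_insert_of_notMem, Finset.card_pair hwz.symm]
    · simp [hbz, hwb.symm]
    · simp [hab, haz, hwa.symm]))
  have hcard : ({a, b, z, w} : Finset ℕ).card = 4 := by
    rw [Finset.card_insert_of_notMem, Finset.card_insert_of_notMem, Finset.card_pair hwz.symm]
    · simp [hbz, hwb.symm]
    · simp [hab, haz, hwa.symm]
  rw [hcard] at hc2
  refine mode_p4 (fun u v => ce N u v x z ∨ ce N u v z x) ?_ a b z w ?_ ?_ ?_ ?_ ?_ ?_
    hab haz hwa.symm hbz hwb.symm hwz.symm X hX hc1 hc2 ?_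
  · rintro u v (h | h)
    · exact Or.inr h.swap
    · exact Or.inl h.swap
  · exact Or.inl h2
  · exact Or.inr h1.swap
  · exact Or.inl h7.swap
  · rintro (h | h)
    · -- zw = xz: then wz = zx, ab = zx
      exact h4 (h5.trans (h6.trans h.swap))
    · exact h3 (h5.trans (h6.trans h.swap))
  · rintro (h | h)
    · exact h3 h
    · exact h4 h
  · rintro (h | h)
    · -- bw = xz: wb = zx
      exact h4 (h5.trans h.swap)
    · exact h3 (h5.trans h.swap)
  · intro u hu v hv t ht hn h
    have h' := hm u hu v hv t ht hn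
    rcases h with h | h
    · exact Or.inl (h'.symm.trans h)
    · exact Or.inr (h'.symm.trans h)

theorem t_MODE (h : S_TRI) : S_MODE := by
  intro N hN x a b z w hwa hwb hwz hs hsa hsb
  obtain ⟨haz, hbz, hab, ha, hb, h1, h2⟩ := hs
  by_contra hcon
  by_cases hwzc : ce N w z x z
  · -- case 1
    have ca : ce N a w x z ∨ ce N a w z x := by
      by_contra hc
      rw [not_or] at hc
      exact hsa ⟨haz, hwz, hwa.symm, ha, hwzc, hc.1, hc.2⟩
    have cb : ce N b w x z ∨ ce N b w z x := by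
      by_contra hc
      rw [not_or] at hc
      exact hsb ⟨hbz, hwz, hwb.symm, hb, hwzc, hc.1, hc.2⟩
    rcases h N hN a b w hab hwb.symm hwa.symm with h3 | h3 | h3
    · exact hcon h3
    · rcases cb with h4 | h4
      · exact h2 (h3.trans h4.swap)
      · exact h1 (h3.trans h4.swap)
    · rcases ca with h4 | h4
      · exact h1 ((h3.trans h4.swap).swap)
      · exact h2 ((h3.trans h4.swap).swap)
  · -- case 2
    have tb : ce N w b z x ∨ ce N w b w z := by
      rcases h N hN w b z hwb hbz hwz with h3 | h3 | h3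
      · exact absurd (h3.trans hb) hwzc
      · exact Or.inl (h3.trans hb.swap)
      · exact Or.inr h3.swap
    have ta : ce N w a z x ∨ ce N w a w z := by
      rcases h N hN w a z hwa haz hwz with h3 | h3 | h3
      · exact absurd (h3.trans ha) hwzc
      · exact Or.inl (h3.trans ha.swap)
      · exact Or.inr h3.swap
    rcases h N hN a b w hab hwb.symm hwa.symm with h3 | h3 | h3
    · exact hcon h3
    · -- ab = wb
      rcases tb with h4 | h4
      · exact h2 (h3.trans h4)
      · rcases ta with h5 | h5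
        · exact mode_aux N hN x a b z w hwa hwb hwz haz hbz hab ha hb h1 h2 h3 h4 h5
        · exact hcon (h5.trans h4.symm).swap
    · -- ba = wa
      rcases ta with h4 | h4
      · exact h1 (h3.trans h4).swap
      · rcases tb with h5 | h5
        · exact mode_aux N hN x b a z w hwb hwa hwz hbz haz hab.symm hb ha
            (fun h6 => h2 h6.swap) (fun h6 => h1 h6.swap) h3 h4 h5
        · exact hcon (h4.trans h5.symm).swap

end Pool.Agent.H533R2.VD
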