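import Pool.Agent.H533R2.VD.Spec

set_option autoImplicit false

namespace Pool.Agent.H533R2.VD

open Set
open Pool.Agent.H899R2.VP
open Pool.Agent.H533R2.VO (Glu Lev OS G BlkC Ic)

open Classical in
theorem t_OB2 (h1 : S_OB1) (h2 : S_LLC) : S_OB2 := by
  intro S f N B hS hf hB
  obtain ⟨hirr, htr, -⟩ := h1 S f N B hS hf hB
  have hll := h2 S f N B hB
  funext i x y
  have e1 : (3 * i + 1) % 3 = 1 := by omega
  have e2 : (3 * i + 1) / 3 = i := by omega
  have e3 : (3 * i + 2) % 3 = 2 := by omega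
  have e4 : (3 * i + 2) / 3 = i := by omega
  have e5 : (3 * i) % 3 = 0 := by omega
  have e6 : (3 * i) / 3 = i := by omega
  rw [Bool.eq_iff_iff]
  by_cases hxy : Ll S f N B x y
  · have h := (hll x y hxy i).1
    rw [h]
    simp [Rc, Ob, hxy, e1, e2]
  · by_cases hyx : Ll S f N B y x
    · have h := (hll y x hyx i).2
      rw [h]
      simp [Rc, Ob, hxy, hyx, e3, e4]
    · simp [Rc, Ob, hxy, hyx, e5, e6]

end Pool.Agent.H533R2.VD
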