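import Pool.Agent.H533R2.VD.Spec

set_option autoImplicit false

/-! # OBQ: isomorphisms of blocks of `Ob` (author helper234) -/

namespace Pool.Agent.H533R2.VD

open Set
open Pool.Agent.H899R2.VP
open Pool.Agent.H533R2.VO (Glu Lev OS G BlkC Ic)

open Classical in
private theorem obq_nadj {S : Set (St a3 × Set ℕ)} {f : ℕ → St a3 × Set ℕ} {N : St a3}
    {B : ℕ → ℕ → Prop} {x u v : ℕ} (h : OS (Ob S f N B)) (hu : u ∈ Ic (Ob S f N B) x x)
    (hv : v ∈ Ic (Ob S f N B) x x) : ¬ Ll S f N B u v := by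
  intro h1
  have h2 : Adj (Ob S f N B) u v := decide_eq_true h1
  rcases h.ntr u x v h2 with h3 | h3
  · exact hu.1 h3
  · exact hv.2 h3

open Classical in
theorem t_OBQ : S_OBQ := by
  intro S f N N' B B' x x' q hO hO' hq h0 h1 h2 h3 h4
  refine ⟨q, empty_subset _, hq, ⟨h0, ?_, ?_⟩, h2, h3⟩
  · intro u hu v hv
    have e1 := obq_nadj hO (hq hu).1 (hq hv).1
    have e2 := obq_nadj hO' (hq hu).2 (hq hv).2
    show decide _ = decide _
    rw [decide_eq_false e1, decide_eq_false e2]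
  · intro j t ht
    have e1 := obq_nadj hO (hq (ht 0)).1 (hq (ht 1)).1
    have e2 := obq_nadj hO' (hq (ht 0)).2 (hq (ht 1)).2
    have e1' := obq_nadj hO (hq (ht 1)).1 (hq (ht 0)).1
    have e2' := obq_nadj hO' (hq (ht 1)).2 (hq (ht 0)).2
    have e3 : (t 0).1 = (t 1).1 ↔ (t 0).2 = (t 1).2 := h0 _ (ht 0) _ (ht 1)
    have e4 := h1 (j / 3) _ (ht 0) _ (ht 1)
    have e5 := h4 (j / 3) _ (ht 0)
    show (if j % 3 = 0 then decide _ else if j % 3 = 1 then decide _ else decide _) =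
      (if j % 3 = 0 then decide _ else if j % 3 = 1 then decide _ else decide _)
    split_ifs
    · rw [Bool.eq_iff_iff, decide_eq_true_iff, decide_eq_true_iff, e4]
      exact ⟨fun h => ⟨e2, e2', h.2.2⟩, fun h => ⟨e1, e1', h.2.2⟩⟩
    · rw [Bool.eq_iff_iff, decide_eq_true_iff, decide_eq_true_iff]
      exact and_congr e3 e5.1
    · rw [Bool.eq_iff_iff, decide_eq_true_iff, decide_eq_true_iff]
      exact and_congr e3 e5.2

end Pool.Agent.H533R2.VD
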