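import Pool.Agent.H533R2.VD.Spec

set_option autoImplicit false

/-! `Ob` is an ordered structure. -/

namespace Pool.Agent.H533R2.VD

open Set
open Pool.Agent.H899R2.VP
open Pool.Agent.H533R2.VO (Glu Lev OS G BlkC Ic)

theorem t_OBS (h : S_OB1) : S_OBS := by
  classical
  intro S f N B hS hf hC
  obtain ⟨hirr, htr, hntr⟩ := h S f N B hS hf hC
  have hadj : ∀ x y, Adj (Ob S f N B) x y ↔ Ll S f N B x y := by
    intro x y
    unfold Adj Ob
    simp only [decide_eq_true_eq]
  refine ⟨?_, ?_, ?_, ?_⟩
  · intro x hx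
    exact hirr x ((hadj x x).1 hx)
  · intro x y z hxy hyz
    exact (hadj x z).2 (htr x y z ((hadj x y).1 hxy) ((hadj y z).1 hyz))
  · intro x y z hxz
    rcases hntr x y z ((hadj x z).1 hxz) with h1 | h1
    · exact Or.inl ((hadj _ _).2 h1)
    · exact Or.inr ((hadj _ _).2 h1)
  · intro i t hit
    have key : ¬ Ll S f N B (t (0 : Fin 2)) (t (1 : Fin 2)) ∧
        ¬ Ll S f N B (t (1 : Fin 2)) (t (0 : Fin 2)) := by
      unfold Ob at hit
      simp only at hit
      split_ifs at hit with h1 h2
      · have h3 := decide_eq_true_eq.mp hit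
        exact ⟨h3.1, h3.2.1⟩
      · have h3 := (decide_eq_true_eq.mp hit).1
        have h4 : t (0 : Fin 2) = t (1 : Fin 2) := h3
        rw [h4]
        exact ⟨hirr _, hirr _⟩
      · have h3 := (decide_eq_true_eq.mp hit).1
        have h4 : t (0 : Fin 2) = t (1 : Fin 2) := h3
        rw [h4]
        exact ⟨hirr _, hirr _⟩
    have all : ∀ j k : Fin 2, ¬ Adj (Ob S f N B) (t j) (t k) := by
      intro j k hjk
      have hl := (hadj _ _).1 hjk
      fin_cases j <;> fin_cases k
      · exact hirr _ hl
      · exact key.1 hl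
      · exact key.2 hl
      · exact hirr _ hl
    exact all

end Pool.Agent.H533R2.VD
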