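import Pool.Agent.H533R2.VD.Spec

set_option autoImplicit false

/-! # Task SBI: unions of isomorphic children -/

namespace Pool.Agent.H533R2.VD

open Set
open Pool.Agent.H899R2.VP
open Pool.Agent.H533R2.VO (iso_symm0 iso_trans0)

/-- The children in `X`. -/
private def sbiC (N : St a3) (b : ℕ) (X : Set ℕ) : Set (Set ℕ) := {C | ∃ y ∈ X, C = Cn N y b}

private theorem sbiC_countable (N : St a3) (b : ℕ) (X : Set ℕ) : (sbiC N b X).Countable := by
  have h : sbiC N b X = (fun y => Cn N y b) '' X := by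
    ext C
    constructor
    · rintro ⟨y, hy, rfl⟩
      exact ⟨y, hy, rfl⟩
    · rintro ⟨y, hy, rfl⟩
      exact ⟨y, hy, rfl⟩
  rw [h]
  exact (Set.to_countable X).image _

private theorem sbi_equiv {A B : Set (Set ℕ)} (hA : A.Countable) (hB : B.Countable)
    (h : A.encard = B.encard) : Nonempty (A ≃ B) := by
  rw [← Set.toENat_cardinalMk, ← Set.toENat_cardinalMk,
    Cardinal.toENat_eq_iff_of_le_aleph0 hA.le_aleph0 hB.le_aleph0] at h
  exact Cardinal.eq.1 h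

variable {P : St a3 × Set ℕ} {N : St a3} {b : ℕ} {κ : ℕ → Prop} {X : Set ℕ}

private theorem sbi_mem (h : SB P N b κ X) {C : Set ℕ} (hC : C ∈ sbiC N b X) {u : ℕ}
    (hu : u ∈ C) : u ∈ X ∧ C = Cn N u b := by
  obtain ⟨y, hy, rfl⟩ := hC
  exact ⟨(h.ch y hy).1 hu, h.cs.Cn_eq hu⟩

private theorem sbi_iso (h : SB P N b κ X) {C : Set ℕ} (hC : C ∈ sbiC N b X) :
    IsoOn P.1 N P.2 C ∅ := by
  obtain ⟨y, hy, rfl⟩ := hC
  exact (h.ch y hy).2

private theorem sbi_col (h : SB P N b κ X) {C C' : Set ℕ} (hC : C ∈ sbiC N b X)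
    (hC' : C' ∈ sbiC N b X) (hne : C ≠ C') {u v : ℕ} (hu : u ∈ C) (hv : v ∈ C') (i : ℕ) :
    rp N i u v = true ↔ κ i := by
  have h1 := sbi_mem h hC hu
  have h2 := sbi_mem h hC' hv
  refine h.col u h1.1 v h2.1 (fun hD => hne ?_) i
  rw [h1.2, h2.2]
  exact h.cs.Cn_eq hD

theorem t_SBI : S_SBI := by
  intro P N N' b b' κ X X' h h' hcard
  obtain ⟨e⟩ := sbi_equiv (sbiC_countable N b X) (sbiC_countable N' b' X') hcard
  have hiso : ∀ C : sbiC N b X, IsoOn N N' C.1 (e C).1 ∅ := fun C =>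
    iso_trans0 (iso_symm0 (sbi_iso h C.2)) (sbi_iso h' (e C).2)
  choose q _ hq1 hq2 hq3 hq4 using hiso
  have hdisj : ∀ C C' : sbiC N b X, C ≠ C' → ∀ u ∈ q C, ∀ v ∈ q C', u.1 ≠ v.1 ∧ u.2 ≠ v.2 := by
    intro C C' hne u hu v hv
    have hu1 := (hq1 C hu).1
    have hu2 := (hq1 C hu).2
    have hv1 := (hq1 C' hv).1
    have hv2 := (hq1 C' hv).2
    constructor
    · intro heq
      apply hne
      apply Subtype.ext
      rw [(sbi_mem h C.2 hu1).2, (sbi_mem h C'.2 hv1).2, heq]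
    · intro heq
      apply hne
      apply e.injective
      apply Subtype.ext
      rw [(sbi_mem h' (e C).2 hu2).2, (sbi_mem h' (e C').2 hv2).2, heq]
  refine ⟨{u | ∃ C, u ∈ q C}, ?_, ?_, ?_, ?_, ?_⟩
  · rintro u ⟨C, hu⟩
    exact ⟨(sbi_mem h C.2 (hq1 C hu).1).1, (sbi_mem h' (e C).2 (hq1 C hu).2).1⟩
  · rintro u ⟨C, hu⟩ v ⟨C', hv⟩
    by_cases hne : C = C'
    · subst hne
      exact (hq2 C).1 u hu v hv
    · have := hdisj C C' hne u hu v hv
      exact ⟨fun h1 => absurd h1 this.1, fun h1 => absurd h1 this.2⟩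
  · rintro i u ⟨C, hu⟩ v ⟨C', hv⟩
    by_cases hne : C = C'
    · subst hne
      exact PIso_rp (hq2 C) hu hv i
    · have h1 := sbi_col h C.2 C'.2 (fun h2 => hne (Subtype.ext h2)) (hq1 C hu).1 (hq1 C' hv).1 i
      have h2 := sbi_col h' (e C).2 (e C').2
        (fun h2 => hne (e.injective (Subtype.ext h2))) (hq1 C hu).2 (hq1 C' hv).2 i
      exact Bool.eq_iff_iff.2 (h1.trans h2.symm)
  · intro x hx
    obtain ⟨y, hy⟩ := hq3 ⟨Cn N x b, x, hx, rfl⟩ x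
      (h.cs.self_mem (fun heq => h.nb (heq ▸ hx)))
    exact ⟨y, _, hy⟩
  · intro y hy
    have hC' : Cn N' y b' ∈ sbiC N' b' X' := ⟨y, hy, rfl⟩
    have h1 : y ∈ (e (e.symm ⟨Cn N' y b', hC'⟩)).1 := by
      rw [Equiv.apply_symm_apply]
      exact h'.cs.self_mem (fun heq => h'.nb (heq ▸ hy))
    obtain ⟨x, hx⟩ := hq4 (e.symm ⟨Cn N' y b', hC'⟩) y h1
    exact ⟨x, _, hx⟩

end Pool.Agent.H533R2.VD
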