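import Pool.Agent.H533R2.VD.Spec

set_option autoImplicit false

/-! Recursion for the fillings of the cones of a comb (helper818, after VO/SEQ). -/

namespace Pool.Agent.H533R2.VD

open Set
open Pool.Agent.H899R2.VP

/-- Auxiliary recursion. -/
noncomputable def seq3Rec {X : Type*} (x0 : X) (f : ℕ → (ℕ → X) → X) (k : ℕ) : X :=
  f k (fun i => if _h : i < k then seq3Rec x0 f i else x0)
termination_by k

theorem seq3_rec {X : Type*} (x0 : X) (P : ℕ → (ℕ → X) → X → Prop)
    (hP : ∀ k τ, ∃ σ, P k τ σ)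
    (hcongr : ∀ k τ τ' σ, (∀ i < k, τ i = τ' i) → P k τ σ → P k τ' σ) :
    ∃ τ : ℕ → X, ∀ k, P k τ (τ k) := by
  choose f hf using hP
  refine ⟨seq3Rec x0 f, fun k => ?_⟩
  have h := hf k (fun i => if _h : i < k then seq3Rec x0 f i else x0)
  rw [show f k (fun i => if _h : i < k then seq3Rec x0 f i else x0) = seq3Rec x0 f k by
    rw [seq3Rec]] at h
  refine hcongr k _ _ _ ?_ h
  intro i hi
  simp only [hi, dite_true]

theorem seq3_trunc {M : St a3} {t t' : ℕ → St a3} {s r : ℕ} (h : ∀ i < s, t i = t' i)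
    (hr : r ≤ s) : trunc M t r = trunc M t' r := by
  funext i
  unfold trunc
  by_cases hi : i < r
  · simp only [hi, if_true]
    rw [h i (by omega)]
  · simp only [hi, if_false]

theorem seq3_FF_congr {M : St a3} {x z : ℕ → ℕ} {t t' : ℕ → St a3} {s : ℕ}
    (h : ∀ i < s, t i = t' i) : FF M x z t s = FF M x z t' s := by
  ext P
  unfold FF
  simp only [Set.mem_ofPred_eq]
  refine exists_congr fun r => and_congr_right fun hr => ?_
  rw [seq3_trunc h hr]

theorem seq3_FF_countable (M : St a3) (x z : ℕ → ℕ) (t : ℕ → St a3) (s : ℕ) :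
    (FF M x z t s).Countable := by
  have h : FF M x z t s ⊆ Set.range (fun q : ℕ × ℕ × ℕ × ℕ =>
      ((DS M x z (trunc M t q.1) (fun j => q.2.1.testBit j),
        Cn (DS M x z (trunc M t q.1) (fun j => q.2.1.testBit j)) q.2.2.1 q.2.2.2) :
        St a3 × Set ℕ)) := by
    rintro P ⟨r, _, c, u, v, _, rfl⟩
    exact ⟨(r, c, u, v), rfl⟩
  exact (Set.countable_range _).mono h

theorem t_SEQ3 (h : S_FILL3) : S_SEQ3 := by
  intro α M x z hα hb
  obtain ⟨t, ht⟩ := seq3_rec (X := St a3) M (fun s t σ =>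
      BF M σ (Cn M (x (s / 2)) (z (s / 2))) (Cn M (x (s / 2)) (z (s / 2))) α ∅ ∧
      ∀ P ∈ FF M x z t s, ¬ IsoOn P.1 σ P.2 (Cn M (x (s / 2)) (z (s / 2))) ∅)
    (fun s t => h α M (Cn M (x (s / 2)) (z (s / 2))) hα (hb.big (s / 2)) (FF M x z t s)
      (seq3_FF_countable M x z t s))
    (by
      intro s t t' σ htt hσ
      rw [← seq3_FF_congr htt]
      exact hσ)
  exact ⟨t, ht⟩

end Pool.Agent.H533R2.VD
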