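import Pool.Agent.H533R2.VD.Spec

set_option autoImplicit false

/-! Task SGN1 (helper317). -/

namespace Pool.Agent.H533R2.VD

open Set
open Pool.Agent.H899R2.VP
open Pool.Agent.H533R2.VO (Glu Lev OS G BlkC Ic)

theorem t_SGN1 (h : S_CT2) : S_SGN1 := by
  intro S N B hc b x hb
  obtain ⟨-, -, -, c4, -, -⟩ := h S N B hc
  have hpc : ∀ i, (pc N B i x ↔ rp N i b x = true) := fun i =>
    ⟨fun ⟨b', hb', e⟩ => by rw [(c4 x b b' hb hb' i).1]; exact e, fun e => ⟨b, hb, e⟩⟩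
  have hpd : ∀ i, (pd N B i x ↔ rp N i x b = true) := fun i =>
    ⟨fun ⟨b', hb', e⟩ => by rw [(c4 x b b' hb hb' i).2]; exact e, fun e => ⟨b, hb, e⟩⟩
  refine ⟨fun i => ⟨hpc i, hpd i⟩, ?_, ?_⟩
  · constructor
    · intro h1 i
      have h2 := h1 i
      rw [hpc, hpd, ← Bool.eq_iff_iff] at h2
      exact ⟨h2, h2.symm⟩
    · intro h1 i
      rw [hpc, hpd, (h1 i).1]
  · constructor
    · rintro ⟨i, h1, h2, h3⟩
      refine ⟨i, fun j hj => ?_, (hpc i).1 h2, ?_⟩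
      · have h4 := h1 j hj
        rw [hpc, hpd, ← Bool.eq_iff_iff] at h4
        exact h4
      · rw [hpd, Bool.not_eq_true] at h3
        exact h3
    · rintro ⟨i, h1, h2, h3⟩
      refine ⟨i, fun j hj => ?_, (hpc i).2 h2, ?_⟩
      · rw [hpc, hpd, h1 j hj]
      · rw [hpd, h3]; simp

end Pool.Agent.H533R2.VD
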