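import Pool.Agent.H533R2.VD.Spec
set_option autoImplicit false
namespace Pool.Agent.H533R2.VD
open Set
open Pool.Agent.H899R2.VP
open Pool.Agent.H533R2.VO (Glu Lev OS G BlkC Ic)

/-- first difference positive -/
private def sgn2P (f g : ℕ → Bool) : Prop := ∃ i, (∀ j < i, f j = g j) ∧ f i = true ∧ g i = false

private theorem sgn2_flip (f g : ℕ → Bool) (h : ∃ i, f i ≠ g i) : sgn2P g f ↔ ¬ sgn2P f g := by
  classical
  obtain ⟨hi, hmin⟩ : f (Nat.find h) ≠ g (Nat.find h) ∧ ∀ j < Nat.find h, f j = g j :=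
    ⟨Nat.find_spec h, fun j hj => not_not.1 (Nat.find_min h hj)⟩
  obtain ⟨i, hi'⟩ : ∃ i, i = Nat.find h := ⟨_, rfl⟩
  rw [← hi'] at hi hmin
  have key : ∀ u v : ℕ → Bool, u i ≠ v i → (∀ j < i, u j = v j) →
      (sgn2P u v ↔ u i = true ∧ v i = false) := by
    intro u v hne hm
    constructor
    · rintro ⟨k, hk, h1, h2⟩
      have hki : k = i := by
        rcases lt_trichotomy k i with h3 | h3 | h3
        · have := hm k h3
          rw [h1, h2] at this
          exact absurd this (by decide)
        · exact h3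
        · exact absurd (hk i h3) hne
      rw [← hki]
      exact ⟨h1, h2⟩
    · intro hh
      exact ⟨i, hm, hh.1, hh.2⟩
  rw [key f g hi hmin, key g f hi.symm (fun j hj => (hmin j hj).symm)]
  cases h1 : f i <;> cases h2 : g i <;> simp_all

private theorem sgn2_pos (N : R2) (a b c d : ℕ) (h : ce N a b c d) :
    (∃ i, (∀ j < i, N j a b = N j b a) ∧ N i a b = true ∧ N i b a = false) ↔
    (∃ i, (∀ j < i, N j c d = N j d c) ∧ N i c d = true ∧ N i d c = false) := by
  have h1 : ∀ i, N i a b = N i c d := fun i => (h i).1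
  have h2 : ∀ i, N i b a = N i d c := fun i => (h i).2
  simp only [h1, h2]

theorem t_SGN2 (h1 : S_CT1) (h2 : S_CT2) (h3 : S_CT3) (h4 : S_COL) (h5 : S_SGN1) : S_SGN2 := by
  intro S N B hC b x y hbx hL
  obtain ⟨c1, c2, c3, c4, c5, c6⟩ := h2 S N B hC
  have hby : B b y := (c1 x y b hL).1 hbx
  obtain ⟨-, sx, px⟩ := h5 S N B hC b x hbx
  obtain ⟨-, sy', py⟩ := h5 S N B hC b y hby
  have hcase : ce (rp N) b y b x ∨ (ce (rp N) b y x b ∧ ¬ D N x y b) := by
    by_cases hxy : x = y
    · left
      subst hxy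
      exact fun i => ⟨rfl, rfl⟩
    by_cases hD : D N x y b
    · left
      have := c5 x y b hbx hD
      exact fun i => ⟨(this i).1.symm, (this i).2.symm⟩
    · obtain ⟨d1, d2, d3, d4, d5⟩ := (h3 S N B hC).1 x y b hL hbx hxy hD
      have hdeg := hC.cs.deg b x y d4 hxy d5 d1 d2 d3
      rcases (h4 (rp N) b x y hdeg).1 with h | h
      · exact Or.inl h
      · exact Or.inr ⟨h, hD⟩
  rcases hcase with hc | ⟨hc, hD⟩
  · have e1 : sy N B x ↔ sy N B y := by
      rw [sx, sy']
      constructor
      · intro h i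
        rw [(hc i).1, (hc i).2]
        exact h i
      · intro h i
        have := h i
        rw [(hc i).1, (hc i).2] at this
        exact this
    have e2 : pos N B y ↔ pos N B x := by
      rw [px, py]
      exact sgn2_pos (rp N) b y b x hc
    exact ⟨e1, fun _ => hc, fun _ => ⟨hc, e2⟩, fun _ => Or.inl ⟨hc, e2⟩⟩
  · have e1 : sy N B x ↔ sy N B y := by
      rw [sx, sy']
      constructor
      · intro h i
        rw [(hc i).1, (hc i).2]
        exact ⟨(h i).2, (h i).1⟩
      · intro h i
        have := h i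
        rw [(hc i).1, (hc i).2] at this
        exact ⟨this.2, this.1⟩
    refine ⟨e1, ?_, fun h => absurd h hD, ?_⟩
    · intro hs i
      rw [sx] at hs
      rw [(hc i).1, (hc i).2]
      exact ⟨(hs i).2, (hs i).1⟩
    · intro hs
      right
      refine ⟨hc, ?_⟩
      rw [px, py]
      refine (sgn2_pos (rp N) b y x b hc).trans ?_
      apply sgn2_flip (fun i => rp N i b x) (fun i => rp N i x b)
      by_contra hcon
      push Not at hcon
      exact hs (sx.2 fun i => ⟨hcon i, (hcon i).symm⟩)

end Pool.Agent.H533R2.VD
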