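import Pool.Agent.H533R2.VD.Spec

set_option autoImplicit false

/-! SIM3: one step. -/

namespace Pool.Agent.H533R2.VD

open Set
open Pool.Agent.H899R2.VP
open Pool.Agent.H533R2.VO (Glu Lev OS G BlkC Ic resBF resIso iso_refl0 iso_symm0 iso_trans0
  bf_comp0 bf_symm0)

/-- The representatives for one label. -/
private theorem sim3_label (h5 : S_INFC) {α : Ordinal.{0}} {K : Set (St a3)}
    {S : Set (St a3 × Set ℕ)} (hK : GC α K) (hS : CF S) (c : St a3 → List ℕ → ℕ)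
    (hc : ∀ M ∈ K, ∀ N ∈ K, ∀ s t : List ℕ, s.length = t.length → c M s = c N t →
      BF M N univ univ α (zipSet s t)) (κ : ℕ) :
    ∃ h : ℕ → St a3, ∀ M ∈ K, ∀ x z, x ≠ z → (Cn M x z).Infinite → c M [x, z] = κ →
      ∀ N : St a3, BF M N (Cn M x z) univ α ∅ →
      (∀ x z x' z', x ≠ z → x' ≠ z' → Disjoint (Cn N x z) (Cn N x' z') →
        (N, Cn N x z) ∈ S ∨ (N, Cn N x' z') ∈ S) → ∃ n, IsoOn (h n) N univ univ ∅ := by
  by_cases hex : ∃ M0 ∈ K, ∃ x0 z0, x0 ≠ z0 ∧ (Cn M0 x0 z0).Infinite ∧ c M0 [x0, z0] = κ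
  · obtain ⟨M0, hM0, x0, z0, hne, hinf, hκ⟩ := hex
    obtain ⟨h, hh⟩ := h5 α K S hK hS M0 hM0 x0 z0 hne hinf
    refine ⟨h, ?_⟩
    intro M hM x z _ _ hxz N hN hd
    have h1 := hc M0 hM0 M hM [x0, z0] [x, z] rfl (hκ.trans hxz.symm)
    have h2 : BF M0 M (Cn M0 x0 z0) (Cn M x z) α ∅ := by
      refine resCn0 (p := zipSet [x0, z0] [x, z]) ?_ ?_ h1
      · show (x0, x) ∈ [x0, z0].zip [x, z]
        simp
      · show (z0, z) ∈ [x0, z0].zip [x, z]
        simp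
    exact hh N (bf_comp0 h2 hN) hd
  · refine ⟨fun _ => (fun _ _ => false, fun _ _ => false), ?_⟩
    intro M hM x z hne hinf hxz
    exact absurd ⟨M, hM, x, z, hne, hinf, hxz⟩ hex

theorem t_SIM3 (h1 : S_LAB3) (h2 : S_GENC) (h3 : S_GENUC) (h4 : S_FINC) (h5 : S_INFC)
    (h6 : S_TRX) : S_SIM3 := by
  intro α K S hK hS
  obtain ⟨c, hc⟩ := h1 α K hK α hK.lt
  choose H hH using sim3_label h5 hK hS c hc
  obtain ⟨S1, hS1, hS1m⟩ := h2 fun m => (H m.unpair.1 m.unpair.2, univ)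
  obtain ⟨hf, hhf⟩ := h4 α K hK
  obtain ⟨S2, hS2, hS2m⟩ := h2 hf
  let F : ULift.{1} (Option Bool) → Set (St a3 × Set ℕ) := fun i =>
    match i.down with
    | none => S
    | some true => S1
    | some false => S2
  obtain ⟨S', hS', hS'm⟩ := h3 (ULift.{1} (Option Bool)) F (by
    rintro ⟨_ | _ | _⟩
    · exact hS
    · exact hS2
    · exact hS1)
  have hm0 : S ⊆ S' := hS'm ⟨none⟩
  have hm1 : S1 ⊆ S' := hS'm ⟨some true⟩
  have hm2 : S2 ⊆ S' := hS'm ⟨some false⟩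
  refine ⟨S', hS', hm0, ?_⟩
  intro M hM p hp
  obtain ⟨hpr, hpS⟩ := hp
  by_contra hno
  have hcs := hK.cs M hM
  have hne : p.unpair.1 ≠ p.unpair.2 := hpr
  set x := p.unpair.1 with hx
  set z := p.unpair.2 with hz
  have hCc : Cc M p = Cn M x z := rfl
  -- the cone is infinite
  have hinf : (Cn M x z).Infinite := by
    intro hfin
    obtain ⟨n, hn⟩ := hhf M hM x z hne hfin
    apply hpS
    rw [hCc]
    exact (hS'.iso' hn).1 (hm2 (hS2m n))
  obtain ⟨N, hN⟩ := h6 M (Cn M x z) hinf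
  -- no two disjoint cones of `N` outside `S`
  have hd : ∀ u v u' v', u ≠ v → u' ≠ v' → Disjoint (Cn N u v) (Cn N u' v') →
      (N, Cn N u v) ∈ S ∨ (N, Cn N u' v') ∈ S := by
    intro u v u' v' huv huv' hdis
    by_contra hcon
    push Not at hcon
    obtain ⟨hn1, hn2⟩ := hcon
    obtain ⟨q0, -, hq1, hq2, hq3, hq4⟩ := hN
    have hN' : IsoOn M N (Cn M x z) univ q0 := ⟨q0, Subset.rfl, hq1, hq2, hq3, hq4⟩
    -- the preimage of a cone
    have key : ∀ u v, u ≠ v → (N, Cn N u v) ∉ S → ∃ a b, (a, u) ∈ q0 ∧ (b, v) ∈ q0 ∧ a ≠ b ∧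
        Cn M a b ⊆ Cn M x z ∧ (M, Cn M a b) ∉ S := by
      intro u v huv hnS
      obtain ⟨a, ha⟩ := hq4 u (mem_univ u)
      obtain ⟨b, hb⟩ := hq4 v (mem_univ v)
      have haC : a ∈ Cn M x z := (hq1 ha).1
      have hbC : b ∈ Cn M x z := (hq1 hb).1
      have hab : a ≠ b := fun e => huv ((hq2.1 (a, u) ha (b, v) hb).1 e)
      have hsub := hcs.csub haC hbC
      refine ⟨a, b, ha, hb, hab, hsub, fun hmem => hnS ?_⟩
      have h7 := resIsoCn ha hb hN'
      rw [inter_eq_self_of_subset_right hsub, univ_inter] at h7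
      exact (hS.iso' (h7.mono (empty_subset _))).1 hmem
    obtain ⟨a, b, ha, hb, hab, hsub, hnS⟩ := key u v huv hn1
    obtain ⟨a', b', ha', hb', hab', hsub', hnS'⟩ := key u' v' huv' hn2
    apply hno
    refine ⟨Nat.pair a b, Nat.pair a' b', ⟨?_, ?_, ?_, ?_, ?_⟩, ⟨?_, ?_⟩, ⟨?_, ?_⟩⟩
    · unfold Pr
      rw [Nat.unpair_pair]
      exact hab
    · unfold Pr
      rw [Nat.unpair_pair]
      exact hab'
    · rw [hCc]
      unfold Cc
      rw [Nat.unpair_pair]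
      exact hsub
    · rw [hCc]
      unfold Cc
      rw [Nat.unpair_pair]
      exact hsub'
    · unfold Cc
      rw [Nat.unpair_pair, Nat.unpair_pair]
      rw [Set.disjoint_left]
      intro w hw hw'
      obtain ⟨w', hww⟩ := hq3 w (hsub hw)
      have e1 : D N u w' v := (PIso_D hq2 ha hww hb).1 hw
      have e2 : D N u' w' v' := (PIso_D hq2 ha' hww hb').1 hw'
      exact Set.disjoint_left.1 hdis e1 e2
    · unfold Pr
      rw [Nat.unpair_pair]
      exact hab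
    · unfold Cc
      rw [Nat.unpair_pair]
      exact hnS
    · unfold Pr
      rw [Nat.unpair_pair]
      exact hab'
    · unfold Cc
      rw [Nat.unpair_pair]
      exact hnS'
  obtain ⟨n, hn⟩ := hH (c M [x, z]) M hM x z hne hinf rfl N (hN.bf α) hd
  have h7 : (H (c M [x, z]) n, (univ : Set ℕ)) ∈ S' := by
    have h8 := hm1 (hS1m (Nat.pair (c M [x, z]) n))
    simpa only [Nat.unpair_pair] using h8
  have h9 : (N, (univ : Set ℕ)) ∈ S' := (hS'.iso' hn).1 h7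
  apply hpS
  rw [hCc]
  exact (hS'.iso' hN).2 h9

end Pool.Agent.H533R2.VD
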