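import Pool.Agent.H533R2.VD.Spec
set_option autoImplicit false
namespace Pool.Agent.H533R2.VD
open Set
open Pool.Agent.H899R2.VP
open Pool.Agent.H533R2.VO (Glu Lev OS G BlkC Ic)

theorem t_TRI : S_TRI := by
  intro N hN x y z hxy hyz hxz
  have hc : ({x, y, z} : Finset ℕ).card = 3 := by
    rw [Finset.card_eq_three]
    exact ⟨x, y, z, hxy, hxz, hyz, rfl⟩
  obtain ⟨X, hX, h1, h2, hm⟩ := hN {x, y, z} (Or.inl hc)
  rw [hc] at h2
  have hF : ∀ t, t ∈ X → t = x ∨ t = y ∨ t = z := by
    intro t ht
    simpa using hX ht
  by_cases px : x ∈ X
  · by_cases py : y ∈ X
    · by_cases pz : z ∈ X
      · exfalso
        have : ({x, y, z} : Finset ℕ) ⊆ X := by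
          intro t ht
          simp only [Finset.mem_insert, Finset.mem_singleton] at ht
          rcases ht with rfl | rfl | rfl <;> assumption
        have := Finset.card_le_card this
        omega
      · left
        exact hm x px y py z (by simp) pz
    · by_cases pz : z ∈ X
      · right; left
        exact hm x px z pz y (by simp) py
      · exfalso
        have : X ⊆ {x} := by
          intro t ht
          rcases hF t ht with rfl | rfl | rfl
          · simp
          · exact absurd ht py
          · exact absurd ht pz
        have := Finset.card_le_card this
        simp at this
        omega
  · by_cases py : y ∈ X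
    · by_cases pz : z ∈ X
      · right; right
        exact hm y py z pz x (by simp) px
      · exfalso
        have : X ⊆ {y} := by
          intro t ht
          rcases hF t ht with rfl | rfl | rfl
          · exact absurd ht px
          · simp
          · exact absurd ht pz
        have := Finset.card_le_card this
        simp at this
        omega
    · exfalso
      have : X ⊆ {z} := by
        intro t ht
        rcases hF t ht with rfl | rfl | rfl
        · exact absurd ht px
        · exact absurd ht py
        · simp
      have := Finset.card_le_card this
      simp at this
      omega

end Pool.Agent.H533R2.VD
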