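import Pool.Agent.H533R2.VD.Spec
import Pool.Agent.H899R2.VP.Choice

set_option autoImplicit false

namespace Pool.Agent.H533R2.VD

open Set
open Pool.Agent.H899R2.VP

/-- The transported structure. -/
private def trp3T (N : St a3) (g : ℕ → ℕ) : St a3 :=
  (fun x y => N.1 (g x) (g y), fun i t => N.2 i (fun k => g (t k)))

theorem t_TRP3 : S_TRP3 := by
  intro M N X Y α hα hb
  have h1 := encard_eq_of_bf (hb.mono hα)
  have e1 : pdom (∅ : Set (ℕ × ℕ)) = ∅ := by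
    ext x; simp [pdom]
  have e2 : pran (∅ : Set (ℕ × ℕ)) = ∅ := by
    ext x; simp [pran]
  rw [e1, e2, sdiff_empty, sdiff_empty] at h1
  obtain ⟨g, hg1, hg2, hg3⟩ := exists_bijOn_of_encard h1
  refine ⟨trp3T N g, {u | u.2 ∈ X ∧ u.1 = g u.2}, empty_subset _, ?_, ?_, ?_, ?_⟩
  · rintro ⟨u, v⟩ ⟨h2, h3⟩
    simp only at h2 h3
    exact ⟨by rw [h3]; exact hg1 h2, h2⟩
  · refine ⟨?_, ?_, ?_⟩
    · rintro ⟨u, u'⟩ ⟨hu, eu⟩ ⟨v, v'⟩ ⟨hv, ev⟩
      simp only at hu hv eu ev ⊢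
      rw [eu, ev]
      exact ⟨fun h => hg2 hu hv h, fun h => by rw [h]⟩
    · rintro ⟨u, u'⟩ ⟨hu, eu⟩ ⟨v, v'⟩ ⟨hv, ev⟩
      simp only at hu hv eu ev ⊢
      rw [eu, ev]
      rfl
    · intro i t ht
      have e3 : (fun k => (t k).1) = fun k => g (t k).2 := funext fun k => (ht k).2
      rw [e3]
      rfl
  · intro y hy
    obtain ⟨x, hx, rfl⟩ := hg3 hy
    exact ⟨x, hx, rfl⟩
  · intro x hx
    exact ⟨g x, hx, rfl⟩

end Pool.Agent.H533R2.VD
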