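import Pool.Agent.H533R2.VD.Spec

set_option autoImplicit false

namespace Pool.Agent.H533R2.VD

open Set
open Pool.Agent.H899R2.VP

theorem t_UNI (h1 : S_MODE) : S_UNI := by
  intro N hN x a z w hwz ha hw
  obtain ⟨hxz, hp⟩ := ha
  have hw' : ¬ Relation.ReflTransGen (Stp N x z) x w := fun h => hw ⟨hxz, h⟩
  clear hw
  induction hp with
  | refl => exact ce.refl
  | tail hb hs ih =>
    rename_i b c
    have hwb : w ≠ b := by
      rintro rfl
      exact hw' hb
    have hwc : w ≠ c := by
      rintro rfl
      exact hw' (hb.tail hs)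
    have h2 := h1 N hN x b c z w hwb hwc hwz hs (fun h => hw' (hb.tail h))
      (fun h => hw' ((hb.tail hs).tail h))
    exact h2.symm.trans ih

end Pool.Agent.H533R2.VD
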