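import Pool.Agent.H533R2.VD.BASE3
import Pool.Agent.H533R2.VD.BK1
import Pool.Agent.H533R2.VD.BK2
import Pool.Agent.H533R2.VD.BK3
import Pool.Agent.H533R2.VD.BKF
import Pool.Agent.H533R2.VD.BL3
import Pool.Agent.H533R2.VD.BLK3
import Pool.Agent.H533R2.VD.CBF
import Pool.Agent.H533R2.VD.CNT3
import Pool.Agent.H533R2.VD.CODE3
import Pool.Agent.H533R2.VD.COL
import Pool.Agent.H533R2.VD.COMB
import Pool.Agent.H533R2.VD.COR1
import Pool.Agent.H533R2.VD.COR2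
import Pool.Agent.H533R2.VD.COR3
import Pool.Agent.H533R2.VD.CSBF
import Pool.Agent.H533R2.VD.CT
import Pool.Agent.H533R2.VD.CT1
import Pool.Agent.H533R2.VD.CT2
import Pool.Agent.H533R2.VD.CT3
import Pool.Agent.H533R2.VD.CTF
import Pool.Agent.H533R2.VD.CTT
import Pool.Agent.H533R2.VD.DA
import Pool.Agent.H533R2.VD.DB
import Pool.Agent.H533R2.VD.DC
import Pool.Agent.H533R2.VD.DC2b
import Pool.Agent.H533R2.VD.DC3
import Pool.Agent.H533R2.VD.DD
import Pool.Agent.H533R2.VD.DDEG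
import Pool.Agent.H533R2.VD.DEC
import Pool.Agent.H533R2.VD.DP0
import Pool.Agent.H533R2.VD.DSF
import Pool.Agent.H533R2.VD.EXBF
import Pool.Agent.H533R2.VD.EXI
import Pool.Agent.H533R2.VD.EXQ1
import Pool.Agent.H533R2.VD.EXQ2
import Pool.Agent.H533R2.VD.FEWB
import Pool.Agent.H533R2.VD.FILL3
import Pool.Agent.H533R2.VD.FINAL3
import Pool.Agent.H533R2.VD.FINC
import Pool.Agent.H533R2.VD.FUN1
import Pool.Agent.H533R2.VD.FUN2
import Pool.Agent.H533R2.VD.FUN3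
import Pool.Agent.H533R2.VD.GENC
import Pool.Agent.H533R2.VD.GENUC
import Pool.Agent.H533R2.VD.GLB3
import Pool.Agent.H533R2.VD.GLF3
import Pool.Agent.H533R2.VD.IDL
import Pool.Agent.H533R2.VD.INFC
import Pool.Agent.H533R2.VD.KC1
import Pool.Agent.H533R2.VD.KCONE
import Pool.Agent.H533R2.VD.KPF
import Pool.Agent.H533R2.VD.KPG
import Pool.Agent.H533R2.VD.KPI
import Pool.Agent.H533R2.VD.KPM
import Pool.Agent.H533R2.VD.KPM1
import Pool.Agent.H533R2.VD.KPM2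
import Pool.Agent.H533R2.VD.KPV
import Pool.Agent.H533R2.VD.LAB3
import Pool.Agent.H533R2.VD.LEV3
import Pool.Agent.H533R2.VD.LL1
import Pool.Agent.H533R2.VD.LL2
import Pool.Agent.H533R2.VD.LL3
import Pool.Agent.H533R2.VD.LL4
import Pool.Agent.H533R2.VD.LLC
import Pool.Agent.H533R2.VD.MAIN3
import Pool.Agent.H533R2.VD.MIX
import Pool.Agent.H533R2.VD.MODE
import Pool.Agent.H533R2.VD.MS
import Pool.Agent.H533R2.VD.MSC
import Pool.Agent.H533R2.VD.OB1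
import Pool.Agent.H533R2.VD.OB2
import Pool.Agent.H533R2.VD.OBQ
import Pool.Agent.H533R2.VD.OBS
import Pool.Agent.H533R2.VD.SBI
import Pool.Agent.H533R2.VD.SEQ3
import Pool.Agent.H533R2.VD.SGN1
import Pool.Agent.H533R2.VD.SGN2
import Pool.Agent.H533R2.VD.SIM3
import Pool.Agent.H533R2.VD.STG
import Pool.Agent.H533R2.VD.TRI
import Pool.Agent.H533R2.VD.TRP3
import Pool.Agent.H533R2.VD.TRXb
import Pool.Agent.H533R2.VD.UNI
import Pool.Agent.H533R2.VD.VM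

set_option autoImplicit false

/-! Assembly of the proof. -/

namespace Pool.Agent.H533R2.VD

theorem final3 : S_FINAL3 := by
  have tri := t_TRI
  have dp0 := t_DP0
  have mode := t_MODE tri
  have uni := t_UNI mode
  have dc2 := t_DC2 uni dp0
  have dc3 := t_DC3 uni dp0 tri
  have ddeg := t_DDEG tri
  have dec := t_DEC dp0 dc2 dc3 ddeg
  have exbf := t_EXBF t_EXQ1 t_EXQ2 t_CSBF
  have glb := t_GLB3 t_MIX
  have kc1 := t_KC1 glb t_GLF3
  have kcone := t_KCONE t_CSBF exbf kc1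
  have fill := t_FILL3 t_TRP3
  have sq := t_SEQ3 fill
  have dsf := t_DSF glb t_GLF3 t_CSBF
  have stg := t_STG dsf t_CBF
  have da := t_DA dsf stg
  have db := t_DB dsf stg t_CBF
  have dc := t_DC dsf da db t_CBF
  have dd := t_DD dsf dc stg
  have code := t_CODE3 sq dsf dd
  have ct1 := t_CT1
  have ct2 := t_CT2 ct1
  have ct3 := t_CT3 ct1 ct2
  have sgn1 := t_SGN1 ct2
  have sgn2 := t_SGN2 ct1 ct2 ct3 t_COL sgn1
  have idl := t_IDL ct2
  have ll1 := t_LL1 ct1 ct2 sgn1 sgn2 idl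
  have ll2 := t_LL2 ct1 ct2 ct3 t_COL sgn1 sgn2
  have ll3 := t_LL3 ct1 ct2 ct3 t_COL sgn1 sgn2 ll1 ll2
  have ll4 := t_LL4 idl
  have llc := t_LLC ct1 ct2 ct3 t_COL sgn1 sgn2
  have ob1 := t_OB1 ct1 ct2 sgn2 idl ll1 ll2 ll3 ll4
  have obs := t_OBS ob1
  have ob2 := t_OB2 ob1 llc
  have kpi := t_KPI ob2
  have kpv := t_KPV (t_FUN1 t_EXI) t_FUN2 t_FUN3 kpi
  have kpm1 := t_KPM1 t_LEV3 t_MS
  have kpm := t_KPM kpm1 t_KPM2
  have kpf := t_KPF obs t_FUN2 t_KPM2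
  have bkf := t_BKF ct1 ct2 ct3 t_COL sgn1 sgn2 idl ll2 ll4 ob1
  have bk1 := t_BK1 bkf t_OBQ obs
  have bk2 := t_BK2 bkf t_OBQ obs ct2 sgn1
  have bk3 := t_BK3 bkf t_SBI t_OBQ obs sgn1
  have blk := t_BLK3 t_LAB3 bk1 bk2 bk3 idl
  have kpg := t_KPG obs kpv kpm kpf
  have ct := t_CT VO.voMain kpg blk kpi (t_FUN1 t_EXI) ob2
  have finc := t_FINC t_LAB3
  have infc := t_INFC kcone ct t_CTF t_CTT
  have sim := t_SIM3 t_LAB3 t_GENC t_GENUC finc infc t_TRX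
  have cnt := t_CNT3 sim t_GENUC
  have base := t_BASE3 t_LAB3 t_GENC
  have main := t_MAIN3 base t_LEV3 t_MS t_MSC t_BL3 t_COMB code cnt ct t_CTF
  exact t_FINAL3 main dec t_KPM2 t_EXI (t_FEWB t_EXI)

end Pool.Agent.H533R2.VD
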