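import Pool.Agent.H533R2.VD.Cor

set_option autoImplicit false

/-! COR2: cographs are completely decomposable. -/

namespace Pool.Agent.H533R2.VD

open Set

private theorem cor2_bool : ∀ e01 e02 e03 e12 e13 e23 : Bool,
    (e02 = e12 ∧ e03 = e13) ∨
    (e01 = e12 ∧ e03 = e23) ∨
    (e01 = e13 ∧ e02 = e23) ∨
    (e01 = e02 ∧ e13 = e23) ∨
    (e01 = e03 ∧ e12 = e23) ∨
    (e02 = e03 ∧ e12 = e13) ∨
    (e01 = e02 ∧ e02 = e03) ∨
    (e01 = e12 ∧ e12 = e13) ∨
    (e02 = e12 ∧ e12 = e23) ∨
    (e03 = e13 ∧ e13 = e23) ∨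
    (e01 = true ∧ e12 = true ∧ e23 = true ∧ e02 = false ∧ e13 = false ∧ e03 = false) ∨
    (e01 = true ∧ e13 = true ∧ e23 = true ∧ e03 = false ∧ e12 = false ∧ e02 = false) ∨
    (e02 = true ∧ e12 = true ∧ e13 = true ∧ e01 = false ∧ e23 = false ∧ e03 = false) ∨
    (e02 = true ∧ e23 = true ∧ e13 = true ∧ e03 = false ∧ e12 = false ∧ e01 = false) ∨
    (e03 = true ∧ e13 = true ∧ e12 = true ∧ e01 = false ∧ e23 = false ∧ e02 = false) ∨
    (e03 = true ∧ e23 = true ∧ e12 = true ∧ e02 = false ∧ e13 = false ∧ e01 = false) ∨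
    (e01 = true ∧ e02 = true ∧ e23 = true ∧ e12 = false ∧ e03 = false ∧ e13 = false) ∨
    (e01 = true ∧ e03 = true ∧ e23 = true ∧ e13 = false ∧ e02 = false ∧ e12 = false) ∨
    (e12 = true ∧ e02 = true ∧ e03 = true ∧ e01 = false ∧ e23 = false ∧ e13 = false) ∨
    (e13 = true ∧ e03 = true ∧ e02 = true ∧ e01 = false ∧ e23 = false ∧ e12 = false) ∨
    (e02 = true ∧ e01 = true ∧ e13 = true ∧ e12 = false ∧ e03 = false ∧ e23 = false) ∨
    (e12 = true ∧ e01 = true ∧ e03 = true ∧ e02 = false ∧ e13 = false ∧ e23 = false) := by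
  intro e01 e02 e03 e12 e13 e23
  cases e01 <;> cases e02 <;> cases e03 <;> cases e12 <;> cases e13 <;> cases e23 <;> simp

private theorem cor2_ce {x : R2} (hs : ∀ u v, x 0 u v = x 0 v u)
    (hu : ∀ i u v, u ≠ v → x (i + 1) u v = false) {u v w : ℕ} (h1 : u ≠ w) (h2 : v ≠ w)
    (h : x 0 u w = x 0 v w) : ce x u w v w := by
  intro i
  cases i with
  | zero => exact ⟨h, by rw [hs w u, hs w v]; exact h⟩
  | succ i =>
    exact ⟨by rw [hu i u w h1, hu i v w h2], by rw [hu i w u h1.symm, hu i w v h2.symm]⟩

private theorem cor2_m2 {x : R2} (hs : ∀ u v, x 0 u v = x 0 v u)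
    (hu : ∀ i u v, u ≠ v → x (i + 1) u v = false) {F : Finset ℕ} {a b c d : ℕ}
    (hF : ∀ w, w ∈ F ↔ (w = a ∨ w = b ∨ w = c ∨ w = d)) (hc : 2 < F.card)
    (hab : a ≠ b) (hac : a ≠ c) (had : a ≠ d) (hbc : b ≠ c) (hbd : b ≠ d)
    (h1 : x 0 a c = x 0 b c) (h2 : x 0 a d = x 0 b d) :
    ∃ X ⊆ F, 1 < X.card ∧ X.card < F.card ∧ ∀ u ∈ X, ∀ v ∈ X, ∀ w ∈ F, w ∉ X → ce x u w v w := by
  have hX : ({a, b} : Finset ℕ).card = 2 := Finset.card_pair hab
  refine ⟨{a, b}, ?_, by rw [hX]; norm_num, by rw [hX]; exact hc, ?_⟩
  · intro w hw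
    rw [Finset.mem_insert, Finset.mem_singleton] at hw
    rw [hF]
    tauto
  · intro u hu' v hv w hw hwX
    rw [Finset.mem_insert, Finset.mem_singleton] at hu' hv hwX
    push Not at hwX
    have hw2 : w = c ∨ w = d := by
      rcases (hF w).1 hw with h | h | h | h
      · exact absurd h hwX.1
      · exact absurd h hwX.2
      · exact Or.inl h
      · exact Or.inr h
    rcases hw2 with rfl | rfl
    · rcases hu' with rfl | rfl <;> rcases hv with rfl | rfl
      · exact ce.refl
      · exact cor2_ce hs hu hac hbc h1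
      · exact cor2_ce hs hu hbc hac h1.symm
      · exact ce.refl
    · rcases hu' with rfl | rfl <;> rcases hv with rfl | rfl
      · exact ce.refl
      · exact cor2_ce hs hu had hbd h2
      · exact cor2_ce hs hu hbd had h2.symm
      · exact ce.refl

private theorem cor2_m3 {x : R2} (hs : ∀ u v, x 0 u v = x 0 v u)
    (hu : ∀ i u v, u ≠ v → x (i + 1) u v = false) {F : Finset ℕ} {a b c d : ℕ}
    (hF : ∀ w, w ∈ F ↔ (w = a ∨ w = b ∨ w = c ∨ w = d)) (hc : F.card = 4)
    (hab : a ≠ b) (hac : a ≠ c) (had : a ≠ d) (hbc : b ≠ c) (hbd : b ≠ d) (hcd : c ≠ d)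
    (h1 : x 0 a d = x 0 b d) (h2 : x 0 b d = x 0 c d) :
    ∃ X ⊆ F, 1 < X.card ∧ X.card < F.card ∧ ∀ u ∈ X, ∀ v ∈ X, ∀ w ∈ F, w ∉ X → ce x u w v w := by
  have hX : ({a, b, c} : Finset ℕ).card = 3 := Finset.card_eq_three.2 ⟨a, b, c, hab, hac, hbc, rfl⟩
  have hall : ∀ u, (u = a ∨ u = b ∨ u = c) → u ≠ d ∧ x 0 u d = x 0 c d := by
    rintro u (rfl | rfl | rfl)
    · exact ⟨had, h1.trans h2⟩
    · exact ⟨hbd, h2⟩
    · exact ⟨hcd, rfl⟩
  refine ⟨{a, b, c}, ?_, by rw [hX]; norm_num, by rw [hX, hc]; norm_num, ?_⟩
  · intro w hw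
    rw [Finset.mem_insert, Finset.mem_insert, Finset.mem_singleton] at hw
    rw [hF]
    tauto
  · intro u hu' v hv w hw hwX
    rw [Finset.mem_insert, Finset.mem_insert, Finset.mem_singleton] at hu' hv hwX
    push Not at hwX
    have hw2 : w = d := by
      rcases (hF w).1 hw with h | h | h | h
      · exact absurd h hwX.1
      · exact absurd h hwX.2.1
      · exact absurd h hwX.2.2
      · exact h
    subst hw2
    exact cor2_ce hs hu (hall u hu').1 (hall v hv).1 ((hall u hu').2.trans (hall v hv).2.symm)

theorem t_COR2 : S_COR2 := by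
  intro x _ hs hu hP F hF
  rcases hF with h3 | h4
  · obtain ⟨a, b, c, hab, hac, hbc, rfl⟩ := Finset.card_eq_three.1 h3
    have hm : ∀ w, w ∈ ({a, b, c} : Finset ℕ) ↔ (w = a ∨ w = b ∨ w = c) := by
      intro w
      rw [Finset.mem_insert, Finset.mem_insert, Finset.mem_singleton]
    have key : (x 0 a b = x 0 a c) ∨ (x 0 a b = x 0 b c) ∨ (x 0 a c = x 0 b c) := by
      generalize x 0 a b = p
      generalize x 0 a c = q
      generalize x 0 b c = r
      revert p q r
      decide
    rcases key with h | h | h
    · refine cor2_m2 hs hu (a := b) (b := c) (c := a) (d := a) (fun w => (hm w).trans (by tauto))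
        (by rw [h3]; norm_num) hbc hab.symm hab.symm hac.symm hac.symm ?_ ?_ <;>
      rw [hs b a, hs c a] <;> exact h
    · refine cor2_m2 hs hu (a := a) (b := c) (c := b) (d := b) (fun w => (hm w).trans (by tauto))
        (by rw [h3]; norm_num) hac hab hab hbc.symm hbc.symm ?_ ?_ <;>
      rw [hs c b] <;> exact h
    · exact cor2_m2 hs hu (a := a) (b := b) (c := c) (d := c) (fun w => (hm w).trans (by tauto))
        (by rw [h3]; norm_num) hab hac hac hbc hbc h h
  · obtain ⟨a, b, c, d, hab, hac, had, hbc, hbd, hcd, rfl⟩ := Finset.card_eq_four.1 h4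
    have hm : ∀ w, w ∈ ({a, b, c, d} : Finset ℕ) ↔ (w = a ∨ w = b ∨ w = c ∨ w = d) := by
      intro w
      rw [Finset.mem_insert, Finset.mem_insert, Finset.mem_insert, Finset.mem_singleton]
    have h2 : 2 < ({a, b, c, d} : Finset ℕ).card := by rw [h4]; norm_num
    have hP' : ∀ p q r s, p ≠ r → q ≠ s → p ≠ s → x 0 p q = true → x 0 q r = true →
        x 0 r s = true → x 0 p r = false → x 0 q s = false → x 0 p s = false → False := by
      intro p q r s n1 n2 n3 t1 t2 t3 t4 t5 t6
      rcases hP p q r s t1 t2 t3 t4 t5 t6 with h | h | h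
      · exact n1 h
      · exact n2 h
      · exact n3 h
    have s1 : x 0 b a = x 0 a b := hs b a
    have s2 : x 0 c a = x 0 a c := hs c a
    have s3 : x 0 d a = x 0 a d := hs d a
    have s4 : x 0 c b = x 0 b c := hs c b
    have s5 : x 0 d b = x 0 b d := hs d b
    have s6 : x 0 d c = x 0 c d := hs d c
    have key := cor2_bool (x 0 a b) (x 0 a c) (x 0 a d) (x 0 b c) (x 0 b d) (x 0 c d)
    rcases key with h | h | h | h | h | h | h | h | h | h | h | h | h | h | h | h | h | h | h | h | h | h
    · exact cor2_m2 hs hu (a := a) (b := b) (c := c) (d := d) (fun w => (hm w).trans (by tauto)) h2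
        hab hac had hbc hbd
        (by first | exact h.1 | exact h.1.symm | (simp only [s1, s2, s3, s4, s5, s6]; first | exact h.1 | exact h.1.symm))
        (by first | exact h.2 | exact h.2.symm | (simp only [s1, s2, s3, s4, s5, s6]; first | exact h.2 | exact h.2.symm))
    · exact cor2_m2 hs hu (a := a) (b := c) (c := b) (d := d) (fun w => (hm w).trans (by tauto)) h2
        hac hab had hbc.symm hcd
        (by first | exact h.1 | exact h.1.symm | (simp only [s1, s2, s3, s4, s5, s6]; first | exact h.1 | exact h.1.symm))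
        (by first | exact h.2 | exact h.2.symm | (simp only [s1, s2, s3, s4, s5, s6]; first | exact h.2 | exact h.2.symm))
    · exact cor2_m2 hs hu (a := a) (b := d) (c := b) (d := c) (fun w => (hm w).trans (by tauto)) h2
        had hab hac hbd.symm hcd.symm
        (by first | exact h.1 | exact h.1.symm | (simp only [s1, s2, s3, s4, s5, s6]; first | exact h.1 | exact h.1.symm))
        (by first | exact h.2 | exact h.2.symm | (simp only [s1, s2, s3, s4, s5, s6]; first | exact h.2 | exact h.2.symm))
    · exact cor2_m2 hs hu (a := b) (b := c) (c := a) (d := d) (fun w => (hm w).trans (by tauto)) h2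
        hbc hab.symm hbd hac.symm hcd
        (by first | exact h.1 | exact h.1.symm | (simp only [s1, s2, s3, s4, s5, s6]; first | exact h.1 | exact h.1.symm))
        (by first | exact h.2 | exact h.2.symm | (simp only [s1, s2, s3, s4, s5, s6]; first | exact h.2 | exact h.2.symm))
    · exact cor2_m2 hs hu (a := b) (b := d) (c := a) (d := c) (fun w => (hm w).trans (by tauto)) h2
        hbd hab.symm hbc had.symm hcd.symm
        (by first | exact h.1 | exact h.1.symm | (simp only [s1, s2, s3, s4, s5, s6]; first | exact h.1 | exact h.1.symm))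
        (by first | exact h.2 | exact h.2.symm | (simp only [s1, s2, s3, s4, s5, s6]; first | exact h.2 | exact h.2.symm))
    · exact cor2_m2 hs hu (a := c) (b := d) (c := a) (d := b) (fun w => (hm w).trans (by tauto)) h2
        hcd hac.symm hbc.symm had.symm hbd.symm
        (by first | exact h.1 | exact h.1.symm | (simp only [s1, s2, s3, s4, s5, s6]; first | exact h.1 | exact h.1.symm))
        (by first | exact h.2 | exact h.2.symm | (simp only [s1, s2, s3, s4, s5, s6]; first | exact h.2 | exact h.2.symm))
    · exact cor2_m3 hs hu (a := b) (b := c) (c := d) (d := a) (fun w => (hm w).trans (by tauto)) h4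
        hbc hbd hab.symm hcd hac.symm had.symm
        (by first | exact h.1 | exact h.1.symm | (simp only [s1, s2, s3, s4, s5, s6]; first | exact h.1 | exact h.1.symm))
        (by first | exact h.2 | exact h.2.symm | (simp only [s1, s2, s3, s4, s5, s6]; first | exact h.2 | exact h.2.symm))
    · exact cor2_m3 hs hu (a := a) (b := c) (c := d) (d := b) (fun w => (hm w).trans (by tauto)) h4
        hac had hab hcd hbc.symm hbd.symm
        (by first | exact h.1 | exact h.1.symm | (simp only [s1, s2, s3, s4, s5, s6]; first | exact h.1 | exact h.1.symm))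
        (by first | exact h.2 | exact h.2.symm | (simp only [s1, s2, s3, s4, s5, s6]; first | exact h.2 | exact h.2.symm))
    · exact cor2_m3 hs hu (a := a) (b := b) (c := d) (d := c) (fun w => (hm w).trans (by tauto)) h4
        hab had hac hbd hbc hcd.symm
        (by first | exact h.1 | exact h.1.symm | (simp only [s1, s2, s3, s4, s5, s6]; first | exact h.1 | exact h.1.symm))
        (by first | exact h.2 | exact h.2.symm | (simp only [s1, s2, s3, s4, s5, s6]; first | exact h.2 | exact h.2.symm))
    · exact cor2_m3 hs hu (a := a) (b := b) (c := c) (d := d) (fun w => (hm w).trans (by tauto)) h4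
        hab hac had hbc hbd hcd
        (by first | exact h.1 | exact h.1.symm | (simp only [s1, s2, s3, s4, s5, s6]; first | exact h.1 | exact h.1.symm))
        (by first | exact h.2 | exact h.2.symm | (simp only [s1, s2, s3, s4, s5, s6]; first | exact h.2 | exact h.2.symm))
    · obtain ⟨t1, t2, t3, t4, t5, t6⟩ := h
      exact (hP' a b c d hac hbd had
        (by first | exact t1 | (simp only [s1, s2, s3, s4, s5, s6]; exact t1)) (by first | exact t2 | (simp only [s1, s2, s3, s4, s5, s6]; exact t2))
        (by first | exact t3 | (simp only [s1, s2, s3, s4, s5, s6]; exact t3)) (by first | exact t4 | (simp only [s1, s2, s3, s4, s5, s6]; exact t4))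
        (by first | exact t5 | (simp only [s1, s2, s3, s4, s5, s6]; exact t5)) (by first | exact t6 | (simp only [s1, s2, s3, s4, s5, s6]; exact t6))).elim
    · obtain ⟨t1, t2, t3, t4, t5, t6⟩ := h
      exact (hP' a b d c had hbc hac
        (by first | exact t1 | (simp only [s1, s2, s3, s4, s5, s6]; exact t1)) (by first | exact t2 | (simp only [s1, s2, s3, s4, s5, s6]; exact t2))
        (by first | exact t3 | (simp only [s1, s2, s3, s4, s5, s6]; exact t3)) (by first | exact t4 | (simp only [s1, s2, s3, s4, s5, s6]; exact t4))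
        (by first | exact t5 | (simp only [s1, s2, s3, s4, s5, s6]; exact t5)) (by first | exact t6 | (simp only [s1, s2, s3, s4, s5, s6]; exact t6))).elim
    · obtain ⟨t1, t2, t3, t4, t5, t6⟩ := h
      exact (hP' a c b d hab hcd had
        (by first | exact t1 | (simp only [s1, s2, s3, s4, s5, s6]; exact t1)) (by first | exact t2 | (simp only [s1, s2, s3, s4, s5, s6]; exact t2))
        (by first | exact t3 | (simp only [s1, s2, s3, s4, s5, s6]; exact t3)) (by first | exact t4 | (simp only [s1, s2, s3, s4, s5, s6]; exact t4))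
        (by first | exact t5 | (simp only [s1, s2, s3, s4, s5, s6]; exact t5)) (by first | exact t6 | (simp only [s1, s2, s3, s4, s5, s6]; exact t6))).elim
    · obtain ⟨t1, t2, t3, t4, t5, t6⟩ := h
      exact (hP' a c d b had hbc.symm hab
        (by first | exact t1 | (simp only [s1, s2, s3, s4, s5, s6]; exact t1)) (by first | exact t2 | (simp only [s1, s2, s3, s4, s5, s6]; exact t2))
        (by first | exact t3 | (simp only [s1, s2, s3, s4, s5, s6]; exact t3)) (by first | exact t4 | (simp only [s1, s2, s3, s4, s5, s6]; exact t4))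
        (by first | exact t5 | (simp only [s1, s2, s3, s4, s5, s6]; exact t5)) (by first | exact t6 | (simp only [s1, s2, s3, s4, s5, s6]; exact t6))).elim
    · obtain ⟨t1, t2, t3, t4, t5, t6⟩ := h
      exact (hP' a d b c hab hcd.symm hac
        (by first | exact t1 | (simp only [s1, s2, s3, s4, s5, s6]; exact t1)) (by first | exact t2 | (simp only [s1, s2, s3, s4, s5, s6]; exact t2))
        (by first | exact t3 | (simp only [s1, s2, s3, s4, s5, s6]; exact t3)) (by first | exact t4 | (simp only [s1, s2, s3, s4, s5, s6]; exact t4))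
        (by first | exact t5 | (simp only [s1, s2, s3, s4, s5, s6]; exact t5)) (by first | exact t6 | (simp only [s1, s2, s3, s4, s5, s6]; exact t6))).elim
    · obtain ⟨t1, t2, t3, t4, t5, t6⟩ := h
      exact (hP' a d c b hac hbd.symm hab
        (by first | exact t1 | (simp only [s1, s2, s3, s4, s5, s6]; exact t1)) (by first | exact t2 | (simp only [s1, s2, s3, s4, s5, s6]; exact t2))
        (by first | exact t3 | (simp only [s1, s2, s3, s4, s5, s6]; exact t3)) (by first | exact t4 | (simp only [s1, s2, s3, s4, s5, s6]; exact t4))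
        (by first | exact t5 | (simp only [s1, s2, s3, s4, s5, s6]; exact t5)) (by first | exact t6 | (simp only [s1, s2, s3, s4, s5, s6]; exact t6))).elim
    · obtain ⟨t1, t2, t3, t4, t5, t6⟩ := h
      exact (hP' b a c d hbc had hbd
        (by first | exact t1 | (simp only [s1, s2, s3, s4, s5, s6]; exact t1)) (by first | exact t2 | (simp only [s1, s2, s3, s4, s5, s6]; exact t2))
        (by first | exact t3 | (simp only [s1, s2, s3, s4, s5, s6]; exact t3)) (by first | exact t4 | (simp only [s1, s2, s3, s4, s5, s6]; exact t4))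
        (by first | exact t5 | (simp only [s1, s2, s3, s4, s5, s6]; exact t5)) (by first | exact t6 | (simp only [s1, s2, s3, s4, s5, s6]; exact t6))).elim
    · obtain ⟨t1, t2, t3, t4, t5, t6⟩ := h
      exact (hP' b a d c hbd hac hbc
        (by first | exact t1 | (simp only [s1, s2, s3, s4, s5, s6]; exact t1)) (by first | exact t2 | (simp only [s1, s2, s3, s4, s5, s6]; exact t2))
        (by first | exact t3 | (simp only [s1, s2, s3, s4, s5, s6]; exact t3)) (by first | exact t4 | (simp only [s1, s2, s3, s4, s5, s6]; exact t4))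
        (by first | exact t5 | (simp only [s1, s2, s3, s4, s5, s6]; exact t5)) (by first | exact t6 | (simp only [s1, s2, s3, s4, s5, s6]; exact t6))).elim
    · obtain ⟨t1, t2, t3, t4, t5, t6⟩ := h
      exact (hP' b c a d hab.symm hcd hbd
        (by first | exact t1 | (simp only [s1, s2, s3, s4, s5, s6]; exact t1)) (by first | exact t2 | (simp only [s1, s2, s3, s4, s5, s6]; exact t2))
        (by first | exact t3 | (simp only [s1, s2, s3, s4, s5, s6]; exact t3)) (by first | exact t4 | (simp only [s1, s2, s3, s4, s5, s6]; exact t4))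
        (by first | exact t5 | (simp only [s1, s2, s3, s4, s5, s6]; exact t5)) (by first | exact t6 | (simp only [s1, s2, s3, s4, s5, s6]; exact t6))).elim
    · obtain ⟨t1, t2, t3, t4, t5, t6⟩ := h
      exact (hP' b d a c hab.symm hcd.symm hbc
        (by first | exact t1 | (simp only [s1, s2, s3, s4, s5, s6]; exact t1)) (by first | exact t2 | (simp only [s1, s2, s3, s4, s5, s6]; exact t2))
        (by first | exact t3 | (simp only [s1, s2, s3, s4, s5, s6]; exact t3)) (by first | exact t4 | (simp only [s1, s2, s3, s4, s5, s6]; exact t4))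
        (by first | exact t5 | (simp only [s1, s2, s3, s4, s5, s6]; exact t5)) (by first | exact t6 | (simp only [s1, s2, s3, s4, s5, s6]; exact t6))).elim
    · obtain ⟨t1, t2, t3, t4, t5, t6⟩ := h
      exact (hP' c a b d hbc.symm had hcd
        (by first | exact t1 | (simp only [s1, s2, s3, s4, s5, s6]; exact t1)) (by first | exact t2 | (simp only [s1, s2, s3, s4, s5, s6]; exact t2))
        (by first | exact t3 | (simp only [s1, s2, s3, s4, s5, s6]; exact t3)) (by first | exact t4 | (simp only [s1, s2, s3, s4, s5, s6]; exact t4))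
        (by first | exact t5 | (simp only [s1, s2, s3, s4, s5, s6]; exact t5)) (by first | exact t6 | (simp only [s1, s2, s3, s4, s5, s6]; exact t6))).elim
    · obtain ⟨t1, t2, t3, t4, t5, t6⟩ := h
      exact (hP' c b a d hac.symm hbd hcd
        (by first | exact t1 | (simp only [s1, s2, s3, s4, s5, s6]; exact t1)) (by first | exact t2 | (simp only [s1, s2, s3, s4, s5, s6]; exact t2))
        (by first | exact t3 | (simp only [s1, s2, s3, s4, s5, s6]; exact t3)) (by first | exact t4 | (simp only [s1, s2, s3, s4, s5, s6]; exact t4))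
        (by first | exact t5 | (simp only [s1, s2, s3, s4, s5, s6]; exact t5)) (by first | exact t6 | (simp only [s1, s2, s3, s4, s5, s6]; exact t6))).elim

end Pool.Agent.H533R2.VD
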