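import Pool.Agent.H533R2.VD.Spec

set_option autoImplicit false

/-! Statements of some corollaries: examples of completely decomposable structures. -/

namespace Pool.Agent.H533R2.VD

/-- Partially ordered sets without the pattern `N`, with unary predicates (on the diagonal). -/
def S_COR1 : Prop := ∀ x : R2, (∀ u, x 0 u u = false) →
  (∀ u v w, x 0 u v = true → x 0 v w = true → x 0 u w = true) →
  (∀ i u v, u ≠ v → x (i + 1) u v = false) →
  (∀ a b c d, x 0 a c = true → x 0 b c = true → x 0 b d = true → x 0 a b = false →
    x 0 b a = false → x 0 c d = false → x 0 d c = false → x 0 a d = false → x 0 d a = false →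
    a = b ∨ c = d) → Dec x

/-- Graphs without an induced path with four vertices, with unary predicates. -/
def S_COR2 : Prop := ∀ x : R2, (∀ u, x 0 u u = false) → (∀ u v, x 0 u v = x 0 v u) →
  (∀ i u v, u ≠ v → x (i + 1) u v = false) →
  (∀ a b c d, x 0 a b = true → x 0 b c = true → x 0 c d = true → x 0 a c = false →
    x 0 b d = false → x 0 a d = false → a = c ∨ b = d ∨ a = d) → Dec x

/-- Families of equivalence relations whose classes are pairwise nested or disjoint, with unary
predicates. -/
def S_COR3 : Prop := ∀ x : R2, (∀ i u, x (2 * i) u u = true) →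
  (∀ i u v, x (2 * i) u v = true → x (2 * i) v u = true) →
  (∀ i u v w, x (2 * i) u v = true → x (2 * i) v w = true → x (2 * i) u w = true) →
  (∀ i u v, u ≠ v → x (2 * i + 1) u v = false) →
  (∀ i j u v w, x (2 * i) u v = true → x (2 * j) u w = true →
    x (2 * j) u v = true ∨ x (2 * i) u w = true) → Dec x

end Pool.Agent.H533R2.VD
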