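import Pool.Agent.H533R2.VD.Spec

set_option autoImplicit false

namespace Pool.Agent.H533R2.VD

open Set
open Pool.Agent.H899R2.VP

private theorem ddeg_aux {N : R2} {x y z : ℕ} (hxy : x ≠ y) (hyz : y ≠ z) (hxz : x ≠ z)
    (hn : ¬ Dp N x y z) (h1 : ce N x z y z) : Lin3 N x y z ∨ Lin3 N y x z := by
  have h2 : ¬ Stp N x z x y := fun h => hn ⟨hxz, Relation.ReflTransGen.single h⟩
  have h3 : ce N x y x z ∨ ce N x y z x := by
    by_contra hcon
    push Not at hcon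
    exact h2 ⟨hxz, hyz, hxy, ce.refl, h1.symm, hcon.1, hcon.2⟩
  rcases h3 with h3 | h3
  · exact Or.inl ⟨h3, h1⟩
  · exact Or.inr ⟨h3.swap.trans h1, h1.symm⟩

theorem t_DDEG (h : S_TRI) : S_DDEG := by
  intro N hN x y z hxy hyz hxz h1 h2 h3
  rcases h N hN x y z hxy hyz hxz with h4 | h4 | h4
  · rcases ddeg_aux hxy hyz hxz h1 h4 with h5 | h5
    · exact Or.inl h5
    · exact Or.inr (Or.inr (Or.inl h5))
  · rcases ddeg_aux hxz hyz.symm hxy h2 h4 with h5 | h5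
    · exact Or.inr (Or.inl h5)
    · exact Or.inr (Or.inr (Or.inr (Or.inr (Or.inl h5))))
  · rcases ddeg_aux hyz hxz.symm hxy.symm h3 h4 with h5 | h5
    · exact Or.inr (Or.inr (Or.inr (Or.inl h5)))
    · exact Or.inr (Or.inr (Or.inr (Or.inr (Or.inr h5))))

end Pool.Agent.H533R2.VD
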