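import Pool.Agent.H533R2.VO.Spec

set_option autoImplicit false

/-!
# Vaught's conjecture for completely decomposable binary structures: definitions

`R2` is the space of structures on `ℕ` with countably many binary relations. `ex N` is the
expansion of `N` by the ternary relation `D x y z` (`x`, `y` are together away from `z`), which is
defined by paths.
-/

namespace Pool.Agent.H533R2.VD

open Set
open Pool.Agent.H899R2.VP (St Adj PIso BF IsoOn idOn inv comp zipSet)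
open Pool.Agent.H533R2.VO (Glu Lev OS G BlkC Ic S_MAIN)

/-- Structures on `ℕ` with binary relations `x i` (`i : ℕ`). -/
abbrev R2 : Type := ℕ → ℕ → ℕ → Bool

/-- Arities: one ternary relation, then binary relations. -/
abbrev a3 : ℕ → ℕ
  | 0 => 3
  | _ + 1 => 2

/-- Arities: all binary. -/
abbrev a2 : ℕ → ℕ := fun _ => 2

/-- The ternary relation. -/
def D (M : St a3) (x y z : ℕ) : Prop := M.2 0 ![x, y, z] = true

/-- The binary reduct. -/
def rp (M : St a3) : R2 := fun i x y => M.2 (i + 1) ![x, y]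

/-- The pairs `(u, v)` and `(w, t)` have the same colour. -/
def ce (x : R2) (u v w t : ℕ) : Prop := ∀ i, x i u v = x i w t ∧ x i v u = x i t w

/-- Every substructure with three or four points has a nontrivial module. -/
def Dec (x : R2) : Prop := ∀ F : Finset ℕ, (F.card = 3 ∨ F.card = 4) →
  ∃ X ⊆ F, 1 < X.card ∧ X.card < F.card ∧ ∀ u ∈ X, ∀ v ∈ X, ∀ w ∈ F, w ∉ X → ce x u w v w

/-- One step of a path away from `z`, with reference point `x`. -/
def Stp (N : R2) (x z w w' : ℕ) : Prop :=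
  w ≠ z ∧ w' ≠ z ∧ w ≠ w' ∧ ce N w z x z ∧ ce N w' z x z ∧ ¬ ce N w w' x z ∧ ¬ ce N w w' z x

/-- `x` and `y` are together away from `z` (defined by paths). -/
def Dp (N : R2) (x y z : ℕ) : Prop := x ≠ z ∧ Relation.ReflTransGen (Stp N x z) x y

open Classical in
/-- The expansion by `Dp`. -/
noncomputable def ex (N : R2) : St a3 :=
  (fun _ _ => false, fun i => match i with
    | 0 => fun t => decide (Dp N (t 0) (t 1) (t 2))
    | i + 1 => fun t => N i (t 0) (t 1))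

/-- The triple `x, y, z` is of linear type in this order. -/
def Lin3 (N : R2) (x y z : ℕ) : Prop := ce N x y x z ∧ ce N x z y z

/-- Tree-like structures with modules. -/
structure Cs (M : St a3) : Prop where
  flat : ∀ x y, M.1 x y = false
  refl : ∀ x z, x ≠ z → D M x x z
  irr : ∀ x y, ¬ D M x y x
  symm : ∀ x y z, D M x y z → D M y x z
  c2 : ∀ x y z, D M x y z → ¬ D M x z y
  c3 : ∀ x y z, D M x y z → ∀ w, D M x y w ∨ D M w y z
  mod : ∀ x y z, D M x y z → ce (rp M) x z y z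
  deg : ∀ x y z, x ≠ y → y ≠ z → x ≠ z → ¬ D M x y z → ¬ D M x z y → ¬ D M y z x →
    Lin3 (rp M) x y z ∨ Lin3 (rp M) x z y ∨ Lin3 (rp M) y x z ∨ Lin3 (rp M) y z x ∨
    Lin3 (rp M) z x y ∨ Lin3 (rp M) z y x

/-- The cone at `x` away from `z`. -/
def Cn (M : St a3) (x z : ℕ) : Set ℕ := {y | D M x y z}

/-- The node generated by `x` and `y`. -/
def Nd (M : St a3) (x y : ℕ) : Set ℕ := {z | ¬ D M x y z}

/-- Families of (isomorphism types of) pieces, closed under subcones. -/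
structure CF (S : Set (St a3 × Set ℕ)) : Prop where
  iso : ∀ M X N Y, (M, X) ∈ S → IsoOn M N X Y ∅ → (N, Y) ∈ S
  cnt : ∃ f : ℕ → St a3 × Set ℕ, ∀ M X, (M, X) ∈ S → ∃ n, IsoOn (f n).1 M (f n).2 X ∅
  sub : ∀ M X, (M, X) ∈ S → ∀ x ∈ X, ∀ z ∈ X, (M, X ∩ Cn M x z) ∈ S

/-- Small pieces: countably many variations of rank `α`. -/
def Small (α : Ordinal.{0}) (M : St a3) (X : Set ℕ) : Prop :=
  ∃ f : ℕ → St a3 × Set ℕ, ∀ (N : St a3) (Y : Set ℕ), BF M N X Y α ∅ →
    ∃ n, IsoOn (f n).1 N (f n).2 Y ∅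

/-- The standing hypotheses on the class `K`. -/
structure GC (α : Ordinal.{0}) (K : Set (St a3)) : Prop where
  meas : MeasurableSet K
  lt : α < Ordinal.omega 1
  om : Ordinal.omega0 ≤ α
  closed : ∀ M ∈ K, ∀ N : St a3, BF M N univ univ α ∅ → N ∈ K
  cs : ∀ M ∈ K, Cs M
  exq : ∀ M ∈ K, M = ex (rp M)
  fewR : ∀ F : Set ℕ, F.Finite → ¬ ∃ g : (ℕ → Bool) → R2, Continuous g ∧ (∀ c, ex (g c) ∈ K) ∧
    ∀ c d, IsoOn (ex (g c)) (ex (g d)) univ univ (idOn F) → c = d

/-- `e` is an isomorphism. -/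
def Is (M N : St a3) (e : Equiv.Perm ℕ) : Prop := PIso M N {w | w.2 = e w.1}

/-- Cones given by codes. -/
def Cc (M : St a3) (p : ℕ) : Set ℕ := Cn M p.unpair.1 p.unpair.2

/-- The code is proper. -/
def Pr (p : ℕ) : Prop := p.unpair.1 ≠ p.unpair.2

/-- The cone with code `p` is not in the family. -/
def Bc (S : Set (St a3 × Set ℕ)) (M : St a3) (p : ℕ) : Prop := Pr p ∧ (M, Cc M p) ∉ S

/-- `q` and `r` are disjoint subcones of `p`. -/
def Sc (M : St a3) (p q r : ℕ) : Prop :=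
  Pr q ∧ Pr r ∧ Cc M q ⊆ Cc M p ∧ Cc M r ⊆ Cc M p ∧ Disjoint (Cc M q) (Cc M r)

/-- The splitting rank of `p` is at least `o`. -/
def Rk (B : ℕ → Prop) (Sp : ℕ → ℕ → ℕ → Prop) (o : Ordinal.{0}) (p : ℕ) : Prop :=
  B p ∧ ∀ o' : Ordinal.{0}, ∀ _h : o' < o, ∃ q r, Sp p q r ∧ Rk B Sp o' q ∧ Rk B Sp o' r
termination_by o
decreasing_by all_goals exact _h

/-! ### Combs -/

/-- A comb: disjoint big cones `X k = Cn M (x k) (z k)` and the descending nodes
`J k = Nd M (x k) (x (k + 1))`. -/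
structure Cb (α : Ordinal.{0}) (M : St a3) (x z : ℕ → ℕ) : Prop where
  cs : Cs M
  ne : ∀ k, x k ≠ z k
  dj : ∀ k j, k ≠ j → Disjoint (Cn M (x k) (z k)) (Cn M (x j) (z j))
  XJ : ∀ k, Cn M (x k) (z k) ⊆ Nd M (x k) (x (k + 1))
  JJ : ∀ k, Nd M (x (k + 1)) (x (k + 2)) ⊆ Nd M (x k) (x (k + 1))
  XJd : ∀ k, Disjoint (Cn M (x k) (z k)) (Nd M (x (k + 1)) (x (k + 2)))
  Jc : ∀ k, ∀ v ∈ Nd M (x (k + 1)) (x (k + 2)), D M v (x (k + 1)) (x k)
  big : ∀ k, ¬ Small α M (Cn M (x k) (z k))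

/-- The structure with the cones of the comb filled according to the bits of `σ`. -/
noncomputable def DS (M : St a3) (x z : ℕ → ℕ) (t : ℕ → St a3) (σ : ℕ → Bool) : St a3 :=
  Glu M (fun k => Cn M (x k) (z k)) (fun k => t (2 * k + (σ k).toNat))

/-- Truncation. -/
noncomputable def trunc (M : St a3) (t : ℕ → St a3) (s : ℕ) : ℕ → St a3 :=
  fun r => if r < s then t r else M

/-- The countable set of pieces to be avoided at stage `s`. -/
def FF (M : St a3) (x z : ℕ → ℕ) (t : ℕ → St a3) (s : ℕ) : Set (St a3 × Set ℕ) :=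
  {P | ∃ r ≤ s, ∃ c u v : ℕ, u ≠ v ∧ P = (DS M x z (trunc M t r) (fun j => c.testBit j),
    Cn (DS M x z (trunc M t r) (fun j => c.testBit j)) u v)}

/-- Good fillings. -/
def GoodT (α : Ordinal.{0}) (M : St a3) (x z : ℕ → ℕ) (t : ℕ → St a3) : Prop :=
  ∀ s, BF M (t s) (Cn M (x (s / 2)) (z (s / 2))) (Cn M (x (s / 2)) (z (s / 2))) α ∅ ∧
    ∀ P ∈ FF M x z t s, ¬ IsoOn P.1 (t s) P.2 (Cn M (x (s / 2)) (z (s / 2))) ∅

/-- The standing assumptions of the coding. -/
structure SU (α : Ordinal.{0}) (M : St a3) (x z : ℕ → ℕ) (t : ℕ → St a3) : Prop where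
  om : Ordinal.omega0 ≤ α
  cb : Cb α M x z
  gt : GoodT α M x z t

/-! ### Presentation as ordered sums -/

/-- Reconstruction of the binary relations from an ordered sum. -/
def Rc (O : St a2) : R2 := fun i x y =>
  if O.1 x y = true then O.2 (3 * i + 1) ![y, y]
  else if O.1 y x = true then O.2 (3 * i + 2) ![x, x]
  else O.2 (3 * i) ![x, y]

/-- `B x y` means that `x` is in the cone at `y` towards the centre. -/
structure Ctr (S : Set (St a3 × Set ℕ)) (N : St a3) (B : ℕ → ℕ → Prop) : Prop where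
  cs : Cs N
  cone : ∀ x y, B x y → x ≠ y ∧ ∀ x', (B x' y ↔ D N x x' y)
  cmp : ∀ y y', (∃ x, B x y) → (∃ x, B x y') → ∃ x, B x y ∧ B x y'
  cen : ∀ v, (¬ ∃ x, B x v) → ∀ y, y ≠ v → B v y
  thin : ∀ x y, B x y → (N, Cn N y x) ∈ S

/-- The colour of `y` seen from the centre, first half. -/
def pc (N : St a3) (B : ℕ → ℕ → Prop) (i y : ℕ) : Prop := ∃ b, B b y ∧ rp N i b y = true

/-- The colour of `y` seen from the centre, second half. -/
def pd (N : St a3) (B : ℕ → ℕ → Prop) (i y : ℕ) : Prop := ∃ b, B b y ∧ rp N i y b = true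

/-- The child at `x` (cone away from the centre) has type `n`. -/
def ty (S : Set (St a3 × Set ℕ)) (f : ℕ → St a3 × Set ℕ) (N : St a3) (B : ℕ → ℕ → Prop)
    (n x : ℕ) : Prop := f n ∈ S ∧ ∃ b, B b x ∧ IsoOn (f n).1 N (f n).2 (Cn N x b) ∅

/-- The type of the child at `x` comes before that of the child at `y`. -/
def idl (S : Set (St a3 × Set ℕ)) (f : ℕ → St a3 × Set ℕ) (N : St a3) (B : ℕ → ℕ → Prop)
    (x y : ℕ) : Prop := ∃ n, ty S f N B n x ∧ ∀ m ≤ n, ¬ ty S f N B m y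

/-- The colour of `x` seen from the centre is symmetric. -/
def sy (N : St a3) (B : ℕ → ℕ → Prop) (x : ℕ) : Prop := ∀ i, pc N B i x ↔ pd N B i x

/-- The colour of `x` seen from the centre is positive. -/
def pos (N : St a3) (B : ℕ → ℕ → Prop) (x : ℕ) : Prop :=
  ∃ i, (∀ j < i, (pc N B j x ↔ pd N B j x)) ∧ pc N B i x ∧ ¬ pd N B i x

/-- The refined order: `x` comes before `y`. -/
def Ll (S : Set (St a3 × Set ℕ)) (f : ℕ → St a3 × Set ℕ) (N : St a3) (B : ℕ → ℕ → Prop)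
    (x y : ℕ) : Prop :=
  B x y ∨ (x ≠ y ∧ ¬ B x y ∧ ¬ B y x ∧ (∀ b, B b x → ¬ D N x y b) ∧
    ((sy N B x ∧ idl S f N B x y) ∨
     (¬ sy N B x ∧ ((pos N B x ∧ pos N B y ∧ ∀ i, (rp N i x y = true ↔ pc N B i y) ∧
        (rp N i y x = true ↔ pd N B i y)) ∨
      (¬ pos N B x ∧ ¬ pos N B y ∧ ∀ i, (rp N i x y = true ↔ pc N B i y) ∧
        (rp N i y x = true ↔ pd N B i y)) ∨
      (¬ pos N B x ∧ pos N B y)))))

open Classical in
/-- The presentation of a centred structure as an ordered sum. -/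
noncomputable def Ob (S : Set (St a3 × Set ℕ)) (f : ℕ → St a3 × Set ℕ) (N : St a3)
    (B : ℕ → ℕ → Prop) : St a2 :=
  (fun x y => decide (Ll S f N B x y),
   fun j t => if j % 3 = 0 then
      decide (¬ Ll S f N B (t 0) (t 1) ∧ ¬ Ll S f N B (t 1) (t 0) ∧
        rp N (j / 3) (t 0) (t 1) = true)
    else if j % 3 = 1 then decide (t 0 = t 1 ∧ pc N B (j / 3) (t 0))
    else decide (t 0 = t 1 ∧ pd N B (j / 3) (t 0)))

/-- The two kinds of centres: a point `v`, or the end determined by the cones not in `S`. -/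
def Be (S : Set (St a3 × Set ℕ)) (b : Bool) (N : St a3) (v x y : ℕ) : Prop :=
  match b with
  | false => D N v x y
  | true => x ≠ y ∧ (N, Cn N x y) ∉ S

/-- Closed conditions locating the centre. -/
def Cv (b : Bool) (v : ℕ) : Set (St a2) :=
  match b with
  | false => {O | ∀ y, y ≠ v → O.1 v y = true}
  | true => {_O | v = 0}

/-- The class of presentations of members of `K`. -/
def KP (S : Set (St a3 × Set ℕ)) (f : ℕ → St a3 × Set ℕ) (K : Set (St a3)) (b : Bool) :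
    Set (St a2) :=
  {O | ∃ v, O ∈ Cv b v ∧ ex (Rc O) ∈ K ∧ Ctr S (ex (Rc O)) (Be S b (ex (Rc O)) v) ∧
    O = Ob S f (ex (Rc O)) (Be S b (ex (Rc O)) v)}

/-- `f` enumerates the types of `S`. -/
def Enu (S : Set (St a3 × Set ℕ)) (f : ℕ → St a3 × Set ℕ) : Prop :=
  ∀ M X, (M, X) ∈ S → ∃ n, f n ∈ S ∧ IsoOn (f n).1 M (f n).2 X ∅

end Pool.Agent.H533R2.VD
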