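import Pool.Agent.H533R2.VD.Spec

set_option autoImplicit false

/-! FUN3: functoriality of `Ctr`. -/

namespace Pool.Agent.H533R2.VD

open Set
open Pool.Agent.H899R2.VP
open Pool.Agent.H533R2.VO (Glu Lev OS G BlkC Ic)

private theorem fun3_ce {N N' : St a3} {e : Equiv.Perm ℕ} (h : Is N N' e) (x y z w : ℕ) :
    ce (rp N) x y z w ↔ ce (rp N') (e x) (e y) (e z) (e w) :=
  PIso_ce h (by rfl) (by rfl) (by rfl) (by rfl)

private theorem fun3_lin {N N' : St a3} {e : Equiv.Perm ℕ} (h : Is N N' e) (x y z : ℕ) :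
    Lin3 (rp N) x y z ↔ Lin3 (rp N') (e x) (e y) (e z) := by
  unfold Lin3
  rw [fun3_ce h x y x z, fun3_ce h x z y z]

private theorem fun3_cs {N N' : St a3} {e : Equiv.Perm ℕ} (h : Is N N' e) (hc : Cs N) :
    Cs N' := by
  have hs : ∀ x, ∃ x0, e x0 = x := fun x => e.surjective x
  refine ⟨?_, ?_, ?_, ?_, ?_, ?_, ?_, ?_⟩
  · intro x y
    obtain ⟨x, rfl⟩ := hs x
    obtain ⟨y, rfl⟩ := hs y
    have h1 := h.2.1 (x, e x) (by rfl) (y, e y) (by rfl)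
    simp only at h1
    rw [← h1]
    exact hc.flat x y
  · intro x z hxz
    obtain ⟨x, rfl⟩ := hs x
    obtain ⟨z, rfl⟩ := hs z
    exact (h.D_iff _ _ _).1 (hc.refl x z (fun hh => hxz (by rw [hh])))
  · intro x y
    obtain ⟨x, rfl⟩ := hs x
    obtain ⟨y, rfl⟩ := hs y
    exact fun hh => hc.irr x y ((h.D_iff _ _ _).2 hh)
  · intro x y z
    obtain ⟨x, rfl⟩ := hs x
    obtain ⟨y, rfl⟩ := hs y
    obtain ⟨z, rfl⟩ := hs z
    rw [← h.D_iff, ← h.D_iff]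
    exact hc.symm x y z
  · intro x y z
    obtain ⟨x, rfl⟩ := hs x
    obtain ⟨y, rfl⟩ := hs y
    obtain ⟨z, rfl⟩ := hs z
    rw [← h.D_iff, ← h.D_iff]
    exact hc.c2 x y z
  · intro x y z hD w
    obtain ⟨x, rfl⟩ := hs x
    obtain ⟨y, rfl⟩ := hs y
    obtain ⟨z, rfl⟩ := hs z
    obtain ⟨w, rfl⟩ := hs w
    rw [← h.D_iff] at hD
    rw [← h.D_iff, ← h.D_iff]
    exact hc.c3 x y z hD w
  · intro x y z hD
    obtain ⟨x, rfl⟩ := hs x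
    obtain ⟨y, rfl⟩ := hs y
    obtain ⟨z, rfl⟩ := hs z
    rw [← h.D_iff] at hD
    exact (fun3_ce h x z y z).1 (hc.mod x y z hD)
  · intro x y z hxy hyz hxz
    obtain ⟨x, rfl⟩ := hs x
    obtain ⟨y, rfl⟩ := hs y
    obtain ⟨z, rfl⟩ := hs z
    rw [← h.D_iff, ← h.D_iff, ← h.D_iff]
    intro h1 h2 h3
    rw [← fun3_lin h, ← fun3_lin h, ← fun3_lin h, ← fun3_lin h, ← fun3_lin h, ← fun3_lin h]
    exact hc.deg x y z (fun hh => hxy (by rw [hh])) (fun hh => hyz (by rw [hh]))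
      (fun hh => hxz (by rw [hh])) h1 h2 h3

private theorem fun3_mem {S : Set (St a3 × Set ℕ)} {N N' : St a3} {e : Equiv.Perm ℕ}
    (hS : CF S) (h : Is N N' e) (x y : ℕ) :
    (N, Cn N x y) ∈ S ↔ (N', Cn N' (e x) (e y)) ∈ S := by
  have h1 := h.isoOn (Cn N x y)
  rw [h.image_Cn] at h1
  exact hS.iso' h1

private theorem fun3_be {S : Set (St a3 × Set ℕ)} {N N' : St a3} {e : Equiv.Perm ℕ}
    (hS : CF S) (h : Is N N' e) (b : Bool) (v x y : ℕ) :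
    Be S b N v x y ↔ Be S b N' (e v) (e x) (e y) := by
  cases b with
  | false => exact h.D_iff v x y
  | true =>
    show (x ≠ y ∧ (N, Cn N x y) ∉ S) ↔ (e x ≠ e y ∧ (N', Cn N' (e x) (e y)) ∉ S)
    rw [fun3_mem hS h x y, e.injective.ne_iff]

theorem t_FUN3 : S_FUN3 := by
  intro S b N N' e v hS h hc
  have hs : ∀ x, ∃ x0, e x0 = x := fun x => e.surjective x
  have hB := fun3_be hS h b v
  refine ⟨fun3_cs h hc.cs, ?_, ?_, ?_, ?_⟩
  · intro x y hxy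
    obtain ⟨x, rfl⟩ := hs x
    obtain ⟨y, rfl⟩ := hs y
    rw [← hB] at hxy
    obtain ⟨h1, h2⟩ := hc.cone x y hxy
    refine ⟨e.injective.ne h1, ?_⟩
    intro x'
    obtain ⟨x', rfl⟩ := hs x'
    rw [← hB, ← h.D_iff]
    exact h2 x'
  · intro y y' h1 h2
    obtain ⟨y, rfl⟩ := hs y
    obtain ⟨y', rfl⟩ := hs y'
    obtain ⟨x, hx⟩ := h1
    obtain ⟨x', hx'⟩ := h2
    obtain ⟨x, rfl⟩ := hs x
    obtain ⟨x', rfl⟩ := hs x'
    obtain ⟨w, hw1, hw2⟩ := hc.cmp y y' ⟨x, (hB _ _).2 hx⟩ ⟨x', (hB _ _).2 hx'⟩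
    exact ⟨e w, (hB _ _).1 hw1, (hB _ _).1 hw2⟩
  · intro w hw y hy
    obtain ⟨w, rfl⟩ := hs w
    obtain ⟨y, rfl⟩ := hs y
    rw [← hB]
    refine hc.cen w ?_ y (fun hh => hy (by rw [hh]))
    rintro ⟨x, hx⟩
    exact hw ⟨e x, (hB _ _).1 hx⟩
  · intro x y hxy
    obtain ⟨x, rfl⟩ := hs x
    obtain ⟨y, rfl⟩ := hs y
    rw [← hB] at hxy
    exact (fun3_mem hS h y x).1 (hc.thin x y hxy)

end Pool.Agent.H533R2.VD
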