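import Pool.Agent.H533R2.VD.Spec

set_option autoImplicit false

/-! KPM2: `ex` is measurable, `Rc` is continuous. -/

namespace Pool.Agent.H533R2.VD

open Set
open Pool.Agent.H899R2.VP
open Pool.Agent.H533R2.VO (Glu Lev OS G BlkC Ic)

theorem kpm2_coord (i x y : ℕ) : Continuous fun N : R2 => N i x y :=
  (continuous_apply y).comp ((continuous_apply x).comp (continuous_apply i))

theorem kpm2_ce (u v w t : ℕ) : MeasurableSet {N : R2 | ce N u v w t} := by
  have h1 : {N : R2 | ce N u v w t} =
      ⋂ i : ℕ, ({N : R2 | N i u v = N i w t} ∩ {N : R2 | N i v u = N i t w}) := by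
    ext N
    simp only [ce, Set.mem_ofPred_eq, mem_iInter, mem_inter_iff]
  rw [h1]
  exact MeasurableSet.iInter fun i => MeasurableSet.inter
    (measurableSet_eq_fun (kpm2_coord i u v).measurable (kpm2_coord i w t).measurable)
    (measurableSet_eq_fun (kpm2_coord i v u).measurable (kpm2_coord i t w).measurable)

theorem kpm2_stp (x z w w' : ℕ) : MeasurableSet {N : R2 | Stp N x z w w'} := by
  unfold Stp
  simp only [Set.ofPred_and]
  refine MeasurableSet.inter (MeasurableSet.const _) (MeasurableSet.inter (MeasurableSet.const _)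
    (MeasurableSet.inter (MeasurableSet.const _) (MeasurableSet.inter (kpm2_ce _ _ _ _)
    (MeasurableSet.inter (kpm2_ce _ _ _ _) (MeasurableSet.inter (kpm2_ce _ _ _ _).compl
    (kpm2_ce _ _ _ _).compl)))))

/-- Paths of length `n`. -/
def kpm2_Pt (N : R2) (x z : ℕ) : ℕ → ℕ → Prop
  | 0, y => x = y
  | n + 1, y => ∃ w, kpm2_Pt N x z n w ∧ Stp N x z w y

theorem kpm2_pt (x z n y : ℕ) : MeasurableSet {N : R2 | kpm2_Pt N x z n y} := by
  induction n generalizing y with
  | zero => exact MeasurableSet.const _
  | succ n ih =>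
    have h1 : {N : R2 | kpm2_Pt N x z (n + 1) y} =
        ⋃ w : ℕ, ({N : R2 | kpm2_Pt N x z n w} ∩ {N : R2 | Stp N x z w y}) := by
      ext N
      simp only [kpm2_Pt, Set.mem_ofPred_eq, mem_iUnion, mem_inter_iff]
    rw [h1]
    exact MeasurableSet.iUnion fun w => (ih w).inter (kpm2_stp x z w y)

theorem kpm2_dp_iff (N : R2) (x y z : ℕ) : Dp N x y z ↔ x ≠ z ∧ ∃ n, kpm2_Pt N x z n y := by
  unfold Dp
  refine and_congr_right fun _ => ⟨fun h => ?_, ?_⟩
  · induction h with
    | refl => exact ⟨0, rfl⟩
    | tail _ h2 ih =>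
      obtain ⟨n, hn⟩ := ih
      exact ⟨n + 1, _, hn, h2⟩
  · rintro ⟨n, hn⟩
    induction n generalizing y with
    | zero =>
      have h1 : x = y := hn
      rw [h1]
    | succ n ih =>
      obtain ⟨w, hw1, hw2⟩ := hn
      exact (ih w hw1).tail hw2

theorem kpm2_dp (x y z : ℕ) : MeasurableSet {N : R2 | Dp N x y z} := by
  have h1 : {N : R2 | Dp N x y z} = {N : R2 | x ≠ z} ∩ ⋃ n, {N : R2 | kpm2_Pt N x z n y} := by
    ext N
    simp only [Set.mem_ofPred_eq, mem_iUnion, mem_inter_iff, kpm2_dp_iff]
  rw [h1]
  exact (MeasurableSet.const _).inter (MeasurableSet.iUnion fun n => kpm2_pt x z n y)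

theorem t_KPM2 : S_KPM2 := by
  classical
  constructor
  · refine Measurable.prodMk measurable_const ?_
    refine measurable_pi_lambda _ fun i => ?_
    refine measurable_pi_lambda _ fun t => ?_
    match i, t with
    | 0, t =>
      refine measurable_to_bool ?_
      have h1 : (fun N : R2 => decide (Dp N (t 0) (t 1) (t 2))) ⁻¹' {true} =
          {N : R2 | Dp N (t 0) (t 1) (t 2)} := by
        ext N
        simp
      show MeasurableSet ((fun N : R2 => decide (Dp N (t 0) (t 1) (t 2))) ⁻¹' {true})
      rw [h1]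
      exact kpm2_dp _ _ _
    | i + 1, t => exact (kpm2_coord i (t 0) (t 1)).measurable
  · refine continuous_pi fun i => continuous_pi fun x => continuous_pi fun y => ?_
    have h1 : Continuous fun O : St a2 => (O.1 x y, O.1 y x, O.2 (3 * i + 1) (![y, y] : Fin 2 → ℕ),
        O.2 (3 * i + 2) (![x, x] : Fin 2 → ℕ), O.2 (3 * i) (![x, y] : Fin 2 → ℕ)) := by
      refine Continuous.prodMk ?_ (Continuous.prodMk ?_ (Continuous.prodMk ?_
        (Continuous.prodMk ?_ ?_)))
      · exact (continuous_apply y).comp ((continuous_apply x).comp continuous_fst)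
      · exact (continuous_apply x).comp ((continuous_apply y).comp continuous_fst)
      · exact (continuous_apply (![y, y] : Fin 2 → ℕ)).comp
          ((continuous_apply (3 * i + 1)).comp continuous_snd)
      · exact (continuous_apply (![x, x] : Fin 2 → ℕ)).comp
          ((continuous_apply (3 * i + 2)).comp continuous_snd)
      · exact (continuous_apply (![x, y] : Fin 2 → ℕ)).comp
          ((continuous_apply (3 * i)).comp continuous_snd)
    have h2 : Continuous fun w : Bool × Bool × Bool × Bool × Bool =>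
        if w.1 = true then w.2.2.1 else if w.2.1 = true then w.2.2.2.1 else w.2.2.2.2 :=
      continuous_of_discreteTopology
    exact h2.comp h1

end Pool.Agent.H533R2.VD
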