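import Pool.Agent.H533R2.VD.Defs

set_option autoImplicit false

/-! Basic lemmas. -/

namespace Pool.Agent.H533R2.VD

open Set
open Pool.Agent.H899R2.VP
open Pool.Agent.H533R2.VO (Glu Lev OS G BlkC Ic S_MAIN resBF resIso iso_refl0 iso_symm0 iso_trans0
  bf_comp0 bf_symm0)

section colours

variable {N : R2} {u v w t u' v' : ℕ}

theorem ce.refl : ce N u v u v := fun _ => ⟨rfl, rfl⟩

theorem ce.symm (h : ce N u v w t) : ce N w t u v := fun i => ⟨(h i).1.symm, (h i).2.symm⟩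

theorem ce.trans (h : ce N u v w t) (h' : ce N w t u' v') : ce N u v u' v' :=
  fun i => ⟨(h i).1.trans (h' i).1, (h i).2.trans (h' i).2⟩

/-- Both pairs reversed. -/
theorem ce.swap (h : ce N u v w t) : ce N v u t w := fun i => ⟨(h i).2, (h i).1⟩

end colours

section cs

variable {M N : St a3} {x y z u v w a b d x' z' : ℕ} {X Y : Set ℕ}

theorem Cs.ne (h : Cs M) (h1 : D M x y z) : x ≠ z := fun e => h.irr z y (e ▸ h1)

theorem Cs.ne' (h : Cs M) (h1 : D M x y z) : y ≠ z := h.ne (h.symm _ _ _ h1)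

theorem Cs.trans (h : Cs M) (h1 : D M x y z) (h2 : D M y w z) : D M x w z := by
  rcases h.c3 _ _ _ (h.symm _ _ _ h1) w with h3 | h3
  · rcases h.c3 _ _ _ h2 x with h4 | h4
    · exact absurd (h.symm _ _ _ h3) (fun h5 => h.c2 _ _ _ h4 (h.symm _ _ _ h5))
    · exact h4
  · exact h.symm _ _ _ h3

theorem mem_Cn : y ∈ Cn M x z ↔ D M x y z := Iff.rfl

theorem mem_Nd : z ∈ Nd M x y ↔ ¬ D M x y z := Iff.rfl

theorem Cs.self_mem (h : Cs M) (h1 : x ≠ z) : x ∈ Cn M x z := h.refl x z h1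

theorem Cs.not_mem (h : Cs M) : z ∉ Cn M x z := fun h1 => h.ne' h1 rfl

theorem Cs.Cn_eq (h : Cs M) (h1 : D M x y z) : Cn M x z = Cn M y z := by
  ext w
  exact ⟨fun h2 => h.trans (h.symm _ _ _ h1) h2, fun h2 => h.trans h1 h2⟩

/-- A3, first part. -/
theorem Cs.cin (h : Cs M) (ha : a ∈ Cn M x z) (hb : b ∈ Cn M x z) (hw : w ∉ Cn M x z) :
    D M a b w := by
  have h1 : D M a b z := h.trans (h.symm _ _ _ ha) hb
  rcases h.c3 _ _ _ h1 w with h2 | h2
  · exact h2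
  · exact absurd (h.trans hb (h.symm _ _ _ h2)) hw

/-- A3, second part. -/
theorem Cs.cout (h : Cs M) (ha : a ∈ Cn M x z) (hb : b ∈ Cn M x z) (hw : w ∉ Cn M x z) :
    ¬ D M a w b := h.c2 _ _ _ (h.cin ha hb hw)

theorem Cs.cout' (h : Cs M) (ha : a ∈ Cn M x z) (hb : b ∈ Cn M x z) (hw : w ∉ Cn M x z) :
    ¬ D M w a b := fun h1 => h.cout ha hb hw (h.symm _ _ _ h1)

/-- A3, third part. -/
theorem Cs.csw (h : Cs M) (ha : a ∈ Cn M x z) (hb : b ∈ Cn M x z) (hv : v ∉ Cn M x z) :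
    D M a w v ↔ D M b w v :=
  ⟨fun h1 => h.trans (h.cin hb ha hv) h1, fun h1 => h.trans (h.cin ha hb hv) h1⟩

/-- A3, fourth part. -/
theorem Cs.csw' (h : Cs M) (ha : a ∈ Cn M x z) (hb : b ∈ Cn M x z) (hv : v ∉ Cn M x z) : D M w v a ↔ D M w v b := by
  constructor
  · intro h1
    rcases h.c3 _ _ _ h1 b with h2 | h2
    · exact h2
    · exact absurd h2 (h.cout hb ha hv)
  · intro h1
    rcases h.c3 _ _ _ h1 a with h2 | h2
    · exact h2
    · exact absurd h2 (h.cout ha hb hv)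

theorem Cs.cce (h : Cs M) (ha : a ∈ Cn M x z) (hb : b ∈ Cn M x z) (hw : w ∉ Cn M x z) :
    ce (rp M) a w b w := h.mod _ _ _ (h.cin ha hb hw)

/-- Laminarity of cones. -/
theorem Cs.lam (h : Cs M) : Cn M x z ⊆ Cn M x' z' ∨ Cn M x' z' ⊆ Cn M x z ∨
    Disjoint (Cn M x z) (Cn M x' z') := by
  by_contra hcon
  push Not at hcon
  obtain ⟨h1, h2, h3⟩ := hcon
  obtain ⟨b, hb, hb'⟩ := not_subset.1 h1
  obtain ⟨c, hc, hc'⟩ := not_subset.1 h2
  obtain ⟨a, ha, ha'⟩ := Set.not_disjoint_iff.1 h3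
  exact h.c2 _ _ _ (h.cin ha hb hc') (h.cin ha' hc hb')

theorem Cs.csub (h : Cs M) (hx : x' ∈ Cn M x z) (hz : z' ∈ Cn M x z) :
    Cn M x' z' ⊆ Cn M x z := by
  intro y hy
  by_contra hy'
  exact h.cout hx hz hy' hy

theorem Cs.cmax (h : Cs M) (ha : a ∈ Cn M x z) (hw : w ∉ Cn M x z) : Cn M x z ⊆ Cn M a w :=
  fun _ hb => h.cin ha hb hw

theorem Cs.nself (h : Cs M) : x ∈ Nd M x y := h.irr x y

theorem Cs.nself' (h : Cs M) : y ∈ Nd M x y := fun h1 => h.irr y x (h.symm _ _ _ h1)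

theorem Cs.nsub (h : Cs M) (hu : u ∈ Nd M x y) (hv : v ∈ Nd M x y) : Nd M u v ⊆ Nd M x y := by
  intro w hw h1
  apply hw
  have h2 : D M u y w := by
    rcases h.c3 _ _ _ h1 u with h2 | h2
    · exact absurd h2 hu
    · exact h2
  have h3 : D M v y w := by
    rcases h.c3 _ _ _ h1 v with h3 | h3
    · exact absurd h3 hv
    · exact h3
  exact h.trans h2 (h.symm _ _ _ h3)

theorem Cs.neq (h : Cs M) (h1 : D M v d x) : Nd M x v = Nd M x d := by
  have key : ∀ v d, D M v d x → Nd M x v ⊆ Nd M x d := by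
    intro v d h1 w hw h2
    apply hw
    rcases h.c3 _ _ _ h2 v with h3 | h3
    · exact absurd (h.symm _ _ _ h3) (h.c2 _ _ _ (h.symm _ _ _ h1))
    · exact h.trans h2 (h.symm _ _ _ h3)
  exact Subset.antisymm (key _ _ h1) (key _ _ (h.symm _ _ _ h1))

/-- The cone at `x` away from `v` or from `d`. -/
theorem Cs.ceq (h : Cs M) (h1 : D M v d x) : Cn M x v = Cn M x d := by
  have key : ∀ v d, D M v d x → Cn M x v ⊆ Cn M x d := by
    intro v d h1 w hw
    rcases h.c3 _ _ _ hw d with h3 | h3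
    · exact h3
    · exact absurd (h.symm _ _ _ h1) (h.c2 _ _ _ (h.trans h3 (h.symm _ _ _ hw)))
  exact Subset.antisymm (key _ _ h1) (key _ _ (h.symm _ _ _ h1))

/-- A cone and a node which meet are comparable. -/
theorem Cs.cnode (h : Cs M) (ha : a ∈ Cn M x z) (ha' : a ∈ Nd M u v)
    (hn : ¬ Nd M u v ⊆ Cn M x z) : Cn M x z ⊆ Nd M u v := by
  obtain ⟨b, hb, hb'⟩ := not_subset.1 hn
  intro c hc hcn
  have key : ∀ s, s ∈ Nd M u v → D M s v c := by
    intro s hs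
    rcases h.c3 _ _ _ hcn s with h1 | h1
    · exact absurd h1 hs
    · exact h1
  exact h.cout ha hc hb' (h.trans (key a ha') (h.symm _ _ _ (key b hb)))

end cs

section bf

variable {M N K : St a3} {X Y : Set ℕ} {p : Set (ℕ × ℕ)} {o : Ordinal.{0}}

/-- `D` is preserved by partial isomorphisms. -/
theorem PIso_D (h : PIso M N p) {x y z x' y' z' : ℕ} (hx : (x, x') ∈ p) (hy : (y, y') ∈ p)
    (hz : (z, z') ∈ p) : D M x y z ↔ D N x' y' z' := by
  have h1 := h.2.2 0 ![(x, x'), (y, y'), (z, z')] (by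
    intro k
    fin_cases k <;> assumption)
  have e1 : (fun k => (![(x, x'), (y, y'), (z, z')] k).1) = ![x, y, z] := by
    funext k
    fin_cases k <;> rfl
  have e2 : (fun k => (![(x, x'), (y, y'), (z, z')] k).2) = ![x', y', z'] := by
    funext k
    fin_cases k <;> rfl
  unfold D
  rw [← e1, ← e2]
  exact iff_of_eq (congrArg (· = true) h1)

/-- The binary relations are preserved by partial isomorphisms. -/
theorem PIso_rp (h : PIso M N p) {x y x' y' : ℕ} (hx : (x, x') ∈ p) (hy : (y, y') ∈ p) (i : ℕ) :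
    rp M i x y = rp N i x' y' := by
  have h1 := h.2.2 (i + 1) ![(x, x'), (y, y')] (by
    intro k
    fin_cases k <;> assumption)
  have e1 : (fun k => (![(x, x'), (y, y')] k).1) = ![x, y] := by
    funext k
    fin_cases k <;> rfl
  have e2 : (fun k => (![(x, x'), (y, y')] k).2) = ![x', y'] := by
    funext k
    fin_cases k <;> rfl
  unfold rp
  rw [← e1, ← e2]
  exact h1

theorem PIso_ce (h : PIso M N p) {x y z w x' y' z' w' : ℕ} (hx : (x, x') ∈ p)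
    (hy : (y, y') ∈ p) (hz : (z, z') ∈ p) (hw : (w, w') ∈ p) :
    ce (rp M) x y z w ↔ ce (rp N) x' y' z' w' := by
  unfold ce
  constructor
  · intro h1 i
    rw [← PIso_rp h hx hy, ← PIso_rp h hy hx, ← PIso_rp h hz hw, ← PIso_rp h hw hz]
    exact h1 i
  · intro h1 i
    rw [PIso_rp h hx hy, PIso_rp h hy hx, PIso_rp h hz hw, PIso_rp h hw hz]
    exact h1 i

/-- Characterisation of partial isomorphisms. -/
theorem PIso_mk (h0 : ∀ u ∈ p, ∀ v ∈ p, (u.1 = v.1 ↔ u.2 = v.2))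
    (h1 : ∀ u ∈ p, ∀ v ∈ p, M.1 u.1 v.1 = N.1 u.2 v.2)
    (h2 : ∀ u ∈ p, ∀ v ∈ p, ∀ w ∈ p, (D M u.1 v.1 w.1 ↔ D N u.2 v.2 w.2))
    (h3 : ∀ i, ∀ u ∈ p, ∀ v ∈ p, rp M i u.1 v.1 = rp N i u.2 v.2) : PIso M N p := by
  refine ⟨h0, h1, fun i t ht => ?_⟩
  match i, t, ht with
  | 0, t, ht =>
    have h4 := h2 (t 0) (ht 0) (t 1) (ht 1) (t 2) (ht 2)
    unfold D at h4
    have e1 : (fun k => (t k).1) = ![(t 0).1, (t 1).1, (t 2).1] := by
      funext k
      fin_cases k <;> rfl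
    have e2 : (fun k => (t k).2) = ![(t 0).2, (t 1).2, (t 2).2] := by
      funext k
      fin_cases k <;> rfl
    rw [e1, e2]
    exact Bool.eq_iff_iff.2 h4
  | i + 1, t, ht =>
    have h4 := h3 i (t 0) (ht 0) (t 1) (ht 1)
    unfold rp at h4
    have e1 : (fun k => (t k).1) = ![(t 0).1, (t 1).1] := by
      funext k
      fin_cases k <;> rfl
    have e2 : (fun k => (t k).2) = ![(t 0).2, (t 1).2] := by
      funext k
      fin_cases k <;> rfl
    rw [e1, e2]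
    exact h4

/-- Restriction to cones. -/
theorem resCn {x z x' z' : ℕ} (hx : (x, x') ∈ p) (hz : (z, z') ∈ p) (hb : BF M N X Y o p) :
    BF M N (X ∩ Cn M x z) (Y ∩ Cn N x' z') o p := by
  refine resBF inter_subset_left inter_subset_left (fun u hu v hv hp => ?_) hb
  have h1 := PIso_D hp (mem_insert_of_mem _ hx) (mem_insert (u, v) _) (mem_insert_of_mem _ hz)
  exact ⟨fun h => ⟨hv, h1.1 h.2⟩, fun h => ⟨hu, h1.2 h.2⟩⟩

theorem resIsoCn {x z x' z' : ℕ} (hx : (x, x') ∈ p) (hz : (z, z') ∈ p)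
    (hb : IsoOn M N X Y p) : IsoOn M N (X ∩ Cn M x z) (Y ∩ Cn N x' z')
      {u | u ∈ p ∧ u.1 ∈ X ∩ Cn M x z} := by
  refine resIso (X' := X ∩ Cn M x z) (Y' := Y ∩ Cn N x' z') inter_subset_left inter_subset_left
    (fun u hu v hv hp => ?_) hb
  have h1 := PIso_D hp (mem_insert_of_mem _ hx) (mem_insert (u, v) _) (mem_insert_of_mem _ hz)
  exact ⟨fun h => ⟨hv, h1.1 h.2⟩, fun h => ⟨hu, h1.2 h.2⟩⟩

theorem resCn0 {x z x' z' : ℕ} (hx : (x, x') ∈ p) (hz : (z, z') ∈ p)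
    (hb : BF M N univ univ o p) : BF M N (Cn M x z) (Cn N x' z') o ∅ := by
  have h := resCn hx hz hb
  rw [univ_inter, univ_inter] at h
  exact h.subset (empty_subset _)

end bf

section is

variable {M N : St a3} {e : Equiv.Perm ℕ}

theorem Is.D_iff (h : Is M N e) (x y z : ℕ) : D M x y z ↔ D N (e x) (e y) (e z) :=
  PIso_D h (by rfl) (by rfl) (by rfl)

theorem Is.symm (h : Is M N e) : Is N M e.symm := by
  have h1 := PIso.symm h
  have : inv {w : ℕ × ℕ | w.2 = e w.1} = {w | w.2 = e.symm w.1} := by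
    ext ⟨u, v⟩
    simp only [inv, Set.mem_ofPred_eq]
    exact ⟨fun h2 => by rw [h2, Equiv.symm_apply_apply], fun h2 => by
      rw [h2, Equiv.apply_symm_apply]⟩
  unfold Is
  rw [← this]
  exact h1

theorem Is.image_Cn (h : Is M N e) (x z : ℕ) : e '' Cn M x z = Cn N (e x) (e z) := by
  ext w
  constructor
  · rintro ⟨y, hy, rfl⟩
    exact (h.D_iff _ _ _).1 hy
  · intro hw
    refine ⟨e.symm w, ?_, e.apply_symm_apply w⟩
    apply (h.D_iff _ _ _).2
    rw [e.apply_symm_apply]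
    exact hw

theorem Is.image_Nd (h : Is M N e) (x y : ℕ) : e '' Nd M x y = Nd N (e x) (e y) := by
  ext w
  constructor
  · rintro ⟨z, hz, rfl⟩
    exact fun h1 => hz ((h.D_iff _ _ _).2 h1)
  · intro hw
    refine ⟨e.symm w, ?_, e.apply_symm_apply w⟩
    intro h1
    apply hw
    have := (h.D_iff _ _ _).1 h1
    rwa [e.apply_symm_apply] at this

theorem Is.isoOn (h : Is M N e) (X : Set ℕ) : IsoOn M N X (e '' X) ∅ := by
  refine ⟨{w | w.2 = e w.1 ∧ w.1 ∈ X}, empty_subset _, ?_, PIso.mono h fun w hw => hw.1, ?_, ?_⟩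
  · rintro ⟨u, v⟩ ⟨h1, h2⟩
    simp only at h1 h2
    subst h1
    exact ⟨h2, mem_image_of_mem e h2⟩
  · intro x hx
    exact ⟨e x, rfl, hx⟩
  · rintro y ⟨x, hx, rfl⟩
    exact ⟨x, rfl, hx⟩

theorem exists_is {p : Set (ℕ × ℕ)} (h : IsoOn M N univ univ p) :
    ∃ e : Equiv.Perm ℕ, Is M N e ∧ ∀ u ∈ p, u.2 = e u.1 := by
  obtain ⟨q, hpq, -, h3, h4, h5⟩ := h
  choose f hf using fun x => h4 x (mem_univ x)
  choose g hg using fun x => h5 x (mem_univ x)
  have hq : ∀ x y, (x, y) ∈ q ↔ y = f x := by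
    intro x y
    constructor
    · intro h
      exact h3.snd_eq h (hf x) rfl
    · rintro rfl
      exact hf x
  refine ⟨⟨f, g, fun x => h3.fst_eq (hg (f x)) (hf x) rfl, fun y => ?_⟩, ?_, ?_⟩
  · exact ((hq _ _).1 (hg y)).symm
  · refine PIso.mono h3 ?_
    rintro ⟨x, y⟩ hxy
    exact (hq x y).2 hxy
  · rintro ⟨x, y⟩ hu
    exact (hq x y).1 (hpq hu)

end is

section ranks

theorem Rk_iff (B : ℕ → Prop) (Sp : ℕ → ℕ → ℕ → Prop) (o : Ordinal.{0}) (p : ℕ) :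
    Rk B Sp o p ↔ B p ∧ ∀ o' : Ordinal.{0}, o' < o → ∃ q r, Sp p q r ∧ Rk B Sp o' q ∧
      Rk B Sp o' r := by
  rw [Rk]

theorem Rk_rel {B : ℕ → Prop} {Sp : ℕ → ℕ → ℕ → Prop} {o : Ordinal.{0}} {p : ℕ}
    (h : Rk B Sp o p) : B p := by
  rw [Rk_iff] at h; exact h.1

theorem Rk_mono {B : ℕ → Prop} {Sp : ℕ → ℕ → ℕ → Prop} {o o' : Ordinal.{0}} {p : ℕ}
    (hle : o' ≤ o) (h : Rk B Sp o p) : Rk B Sp o' p := by
  rw [Rk_iff] at h ⊢
  exact ⟨h.1, fun b hb => h.2 b (lt_of_lt_of_le hb hle)⟩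

end ranks

section families

variable {S : Set (St a3 × Set ℕ)}

theorem CF.iso' (h : CF S) {M N : St a3} {X Y : Set ℕ} (hi : IsoOn M N X Y ∅) :
    (M, X) ∈ S ↔ (N, Y) ∈ S :=
  ⟨fun h1 => h.iso _ _ _ _ h1 hi, fun h1 => h.iso _ _ _ _ h1 (iso_symm0 hi)⟩

theorem CF.enu (h : CF S) : ∃ f : ℕ → St a3 × Set ℕ, Enu S f := by
  obtain ⟨f, hf⟩ := h.cnt
  refine ⟨f, fun M X hMX => ?_⟩
  obtain ⟨n, hn⟩ := hf M X hMX
  exact ⟨n, (h.iso' hn).2 hMX, hn⟩

theorem CF.sub' (h : CF S) {M : St a3} (hM : Cs M) {x z x' z' : ℕ} (h1 : (M, Cn M x z) ∈ S)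
    (hx : x' ∈ Cn M x z) (hz : z' ∈ Cn M x z) : (M, Cn M x' z') ∈ S := by
  have h2 := h.sub M _ h1 x' hx z' hz
  rwa [inter_eq_self_of_subset_right (hM.csub hx hz)] at h2

end families

section gc

variable {α : Ordinal.{0}} {K : Set (St a3)}

theorem rp_ex (N : R2) : rp (ex N) = N := rfl

theorem continuous_rp : Continuous (rp : St a3 → R2) := by
  refine continuous_pi fun i => continuous_pi fun x => continuous_pi fun y => ?_
  exact (continuous_apply ![x, y]).comp ((continuous_apply (i + 1)).comp continuous_snd)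

theorem GC.few (h : GC α K) : ¬ ∃ g : (ℕ → Bool) → St a3, Continuous g ∧ (∀ c, g c ∈ K) ∧
    ∀ c d, IsoOn (g c) (g d) univ univ ∅ → c = d := by
  rintro ⟨g, hg1, hg2, hg3⟩
  refine h.fewR ∅ finite_empty ⟨fun c => rp (g c), continuous_rp.comp hg1, fun c => ?_,
    fun c d hcd => hg3 c d ?_⟩
  · have h1 := h.exq _ (hg2 c)
    rw [← h1]
    exact hg2 c
  · have h1 := h.exq _ (hg2 c)
    have h2 := h.exq _ (hg2 d)
    rw [← h1, ← h2] at hcd
    exact hcd.mono (empty_subset _)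

theorem GC.iso (h : GC α K) {M N : St a3} (hM : M ∈ K) (hi : IsoOn M N univ univ ∅) : N ∈ K :=
  h.closed M hM N (hi.bf α)

end gc

end Pool.Agent.H533R2.VD
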