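import Pool.Agent.H533R2.VD.Spec

set_option autoImplicit false

/-! OB1: the refined order is a strict weak order. -/

namespace Pool.Agent.H533R2.VD

open Set
open Pool.Agent.H899R2.VP

theorem ob1_cases {S : Set (St a3 × Set ℕ)} {f : ℕ → St a3 × Set ℕ} {N : St a3}
    {B : ℕ → ℕ → Prop} {x y : ℕ} (h : Ll S f N B x y) :
    B x y ∨ (x ≠ y ∧ Lv B x y ∧ ∀ b, B b x → ¬ D N x y b) := by
  rcases h with h | ⟨h1, h2, h3, h4, -⟩
  · exact Or.inl h
  · exact Or.inr ⟨h1, ⟨h2, h3⟩, h4⟩

theorem t_OB1 (h1 : S_CT1) (h2 : S_CT2) (h3 : S_SGN2) (h4 : S_IDL) (h5 : S_LL1) (h6 : S_LL2)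
    (h7 : S_LL3) (h8 : S_LL4) : S_OB1 := by
  intro S f N B hS hf hC
  obtain ⟨birr, btr, bnt⟩ := h1 S N B hC
  obtain ⟨lvb, -, -, -, -, -⟩ := h2 S N B hC
  obtain ⟨-, itr, int, -, -⟩ := h4 S f N B hS hf hC
  have lvs : ∀ {x y}, Lv B x y → Lv B y x := fun h => ⟨h.2, h.1⟩
  have lvt : ∀ {x y z}, Lv B x y → Lv B y z → Lv B x z := by
    intro x y z h h'
    refine ⟨fun hb => ?_, fun hb => ?_⟩
    · rcases bnt x y z hb with hb | hb
      · exact h.1 hb
      · exact h'.1 hb
    · rcases bnt z y x hb with hb | hb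
      · exact h'.2 hb
      · exact h.2 hb
  have hex : ∀ {x y}, x ≠ y → Lv B x y → ∃ b, B b x := by
    intro x y hne hl
    by_contra hcon
    exact hl.1 (hC.cen x hcon y (Ne.symm hne))
  refine ⟨?_, ?_, ?_⟩
  · intro x hx
    rcases ob1_cases hx with h | ⟨h, -⟩
    · exact birr x h
    · exact h rfl
  · intro x y z hxy hyz
    rcases ob1_cases hxy with hb | ⟨hne, hl, -⟩
    · rcases ob1_cases hyz with hb' | ⟨hne', hl', -⟩
      · exact Or.inl (btr x y z hb hb')
      · rcases bnt x z y hb with h | h
        · exact Or.inl h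
        · exact absurd h hl'.2
    · rcases ob1_cases hyz with hb' | ⟨hne', hl', -⟩
      · rcases bnt y x z hb' with h | h
        · exact absurd h hl.2
        · exact Or.inl h
      · obtain ⟨b, hb⟩ := hex hne hl
        by_cases hs : sy N B x
        · have hby : B b y := (lvb x y b hl).1 hb
          have hsy : sy N B y := (h3 S N B hC b x y hb hl).1.1 hs
          have e1 := (h8 S f N B hS hf hC x y b hb hl hs).1 hxy
          have e2 := (h8 S f N B hS hf hC y z b hby hl' hsy).1 hyz
          exact (h8 S f N B hS hf hC x z b hb (lvt hl hl') hs).2 (itr x y z e1 e2)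
        · exact h7 S f N B hS hf hC x y z b hb hl hl' hs hxy hyz
  · intro x y z hxz
    rcases ob1_cases hxz with hb | ⟨hne, hl, hD⟩
    · rcases bnt x y z hb with h | h
      · exact Or.inl (Or.inl h)
      · exact Or.inr (Or.inl h)
    · obtain ⟨b, hb⟩ := hex hne hl
      by_cases hxy : Lv B x y
      · have hby : B b y := (lvb x y b hxy).1 hb
        have hyz : Lv B y z := lvt (lvs hxy) hl
        by_cases hs : sy N B x
        · have hsy : sy N B y := (h3 S N B hC b x y hb hxy).1.1 hs
          have e1 := (h8 S f N B hS hf hC x z b hb hl hs).1 hxz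
          rcases int x y z b hby e1 with h | h
          · exact Or.inl ((h8 S f N B hS hf hC x y b hb hxy hs).2 h)
          · exact Or.inr ((h8 S f N B hS hf hC y z b hby hyz hsy).2 h)
        · have hsy : ¬ sy N B y := fun h => hs ((h3 S N B hC b x y hb hxy).1.2 h)
          by_cases hne' : x = y
          · subst hne'
            exact Or.inr hxz
          by_cases hd : D N x y b
          · exact Or.inr ((h5 S f N B hS hf hC x y z b hb hd hl (hD b hb)).1.1 hxz)
          rcases (h6 S f N B hC x y b hb hxy hne' hd hs).1 with h | h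
          · exact Or.inl h
          · exact Or.inr (h7 S f N B hS hf hC y x z b hby (lvs hxy) hl hsy h hxz)
      · by_cases hB : B x y
        · exact Or.inl (Or.inl hB)
        · have hB' : B y x := by
            by_contra hcon
            exact hxy ⟨hB, hcon⟩
          rcases bnt y z x hB' with h | h
          · exact Or.inr (Or.inl h)
          · exact absurd h hl.2

end Pool.Agent.H533R2.VD
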