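import Pool.Agent.H533R2.VD.Lib

set_option autoImplicit false

/-! Statements of the steps of the proof. -/

namespace Pool.Agent.H533R2.VD

open Set
open Pool.Agent.H899R2.VP
open Pool.Agent.H533R2.VO (Glu Lev OS G BlkC Ic S_MAIN)

/-! ### Completely decomposable structures -/

/-- A triple has a module with two elements. -/
def S_TRI : Prop := ∀ N : R2, Dec N → ∀ x y z : ℕ, x ≠ y → y ≠ z → x ≠ z →
  ce N x z y z ∨ ce N x y z y ∨ ce N y x z x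

/-- A point which is not adjacent to `a`, `b` (away from `z`) does not separate them. -/
def S_MODE : Prop := ∀ N : R2, Dec N → ∀ x a b z w : ℕ, w ≠ a → w ≠ b → w ≠ z →
  Stp N x z a b → ¬ Stp N x z a w → ¬ Stp N x z b w → ce N a w b w

/-- Points outside see the cone uniformly. -/
def S_UNI : Prop := ∀ N : R2, Dec N → ∀ x a z w : ℕ, w ≠ z → Dp N x a z → ¬ Dp N x w z →
  ce N a w x w

/-- Simple properties of `Dp`. -/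
def S_DP0 : Prop := ∀ N : R2, (∀ x y z, Dp N x y z → Dp N y x z) ∧
  (∀ x y z, Dp N x y z → y ≠ z ∧ ce N y z x z) ∧
  (∀ x y z w, Dp N x y z → Dp N y w z → Dp N x w z)

def S_DC2 : Prop := ∀ N : R2, Dec N → ∀ x y z : ℕ, Dp N x y z → ¬ Dp N x z y

def S_DC3 : Prop := ∀ N : R2, Dec N → ∀ x y z w : ℕ, Dp N x y z → Dp N x y w ∨ Dp N w y z

def S_DDEG : Prop := ∀ N : R2, Dec N → ∀ x y z : ℕ, x ≠ y → y ≠ z → x ≠ z → ¬ Dp N x y z →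
  ¬ Dp N x z y → ¬ Dp N y z x →
  Lin3 N x y z ∨ Lin3 N x z y ∨ Lin3 N y x z ∨ Lin3 N y z x ∨ Lin3 N z x y ∨ Lin3 N z y x

def S_DEC : Prop := ∀ N : R2, Dec N → Cs (ex N)

/-- The first-order description of `M = ex (rp M)`. -/
structure FO (M : St a3) : Prop where
  u : ∀ w w' z, Stp (rp M) w z w w' → D M w w' z
  e : ∀ x y z, D M x y z → x = y ∨ Stp (rp M) x z x y ∨
    ∃ w, Stp (rp M) x z x w ∧ Stp (rp M) x z w y

def S_EXQ1 : Prop := ∀ M : St a3, Cs M → M = ex (rp M) → FO M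

def S_EXQ2 : Prop := ∀ M : St a3, Cs M → FO M → M = ex (rp M)

/-- `Cs` is universal. -/
def S_CSBF : Prop := ∀ (α : Ordinal.{0}) (M N : St a3) (X : Set ℕ), Ordinal.omega0 ≤ α → Cs M →
  BF M N X univ α ∅ → Cs N

def S_EXBF : Prop := ∀ (α : Ordinal.{0}) (M N : St a3) (x z : ℕ), Ordinal.omega0 ≤ α → Cs M →
  M = ex (rp M) → BF M N (Cn M x z) univ α ∅ → N = ex (rp N)

/-! ### General facts -/

def S_LEV3 : Prop := ∀ S : Set (St a3 × Set ℕ), CF S →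
  ∃ l : Ordinal.{0}, l < Ordinal.omega 1 ∧ Ordinal.omega0 ≤ l ∧ Lev S l

def S_GENC : Prop := ∀ f : ℕ → St a3 × Set ℕ, ∃ S : Set (St a3 × Set ℕ), CF S ∧ ∀ n, f n ∈ S

def S_GENUC : Prop := ∀ (ι : Type 1) [Countable ι] (F : ι → Set (St a3 × Set ℕ)),
  (∀ i, CF (F i)) → ∃ S : Set (St a3 × Set ℕ), CF S ∧ ∀ i, F i ⊆ S

def S_LAB3 : Prop := ∀ (α : Ordinal.{0}) (K : Set (St a3)), GC α K →
  ∀ β : Ordinal.{0}, β < Ordinal.omega 1 → ∃ c : St a3 → List ℕ → ℕ, ∀ M ∈ K, ∀ N ∈ K,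
  ∀ s t : List ℕ, s.length = t.length → c M s = c N t → BF M N univ univ β (zipSet s t)

/-- Measurability of membership in a family and of types. -/
def S_MS : Prop := ∀ (S : Set (St a3 × Set ℕ)) (l : Ordinal.{0}), CF S → Lev S l →
  l < Ordinal.omega 1 → (∀ x z, MeasurableSet {M : St a3 | (M, Cn M x z) ∈ S}) ∧
  ∀ P ∈ S, ∀ x z, MeasurableSet {M : St a3 | IsoOn P.1 M P.2 (Cn M x z) ∅}

/-- Transport of an infinite piece to `ℕ`. -/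
def S_TRX : Prop := ∀ (M : St a3) (X : Set ℕ), X.Infinite → ∃ N : St a3, IsoOn M N X univ ∅

/-- Transport of an equivalent piece. -/
def S_TRP3 : Prop := ∀ (M N : St a3) (X Y : Set ℕ) (α : Ordinal.{0}),
  Ordinal.omega0 ≤ α → BF M N X Y α ∅ → ∃ T : St a3, IsoOn N T Y X ∅

def S_BASE3 : Prop := ∀ (α : Ordinal.{0}) (K : Set (St a3)), GC α K →
  ∃ S : Set (St a3 × Set ℕ), CF S ∧
  ∀ M ∈ K, ∀ x z, x ≠ z → (M, Cn M x z) ∉ S → ¬ Small α M (Cn M x z)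

/-! ### Replacement -/

/-- The values of mixed tuples depend only on the cones. -/
def S_MIX : Prop := ∀ (ι : Type) (M : St a3) (x z : ι → ℕ), Cs M →
  (∀ i j, i ≠ j → Disjoint (Cn M (x i) (z i)) (Cn M (x j) (z j))) →
  ∀ (i : ℕ) (t t' : Fin (a3 i) → ℕ), (∀ k j, t k ∈ Cn M (x j) (z j) ↔ t' k ∈ Cn M (x j) (z j)) →
  (∀ k, (∀ j, t k ∉ Cn M (x j) (z j)) → t k = t' k) →
  (¬ ∃ j, ∀ k, t k ∈ Cn M (x j) (z j)) → M.2 i t = M.2 i t'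

def S_GLB3 : Prop := ∀ (ι : Type) (α : Ordinal.{0}) (M : St a3) (x z : ι → ℕ) (T : ι → St a3),
  Ordinal.omega0 ≤ α → Cs M →
  (∀ i j, i ≠ j → Disjoint (Cn M (x i) (z i)) (Cn M (x j) (z j))) →
  (∀ j, BF M (T j) (Cn M (x j) (z j)) (Cn M (x j) (z j)) α ∅) →
  BF M (Glu M (fun j => Cn M (x j) (z j)) T) univ univ α ∅

def S_GLF3 : Prop := ∀ (ι : Type) (M : St a3) (x z : ι → ℕ) (T : ι → St a3), Cs M →
  (∀ j, x j ≠ z j) →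
  (∀ i j, i ≠ j → Disjoint (Cn M (x i) (z i)) (Cn M (x j) (z j))) →
  (∀ j, Cn (Glu M (fun j => Cn M (x j) (z j)) T) (x j) (z j) = Cn M (x j) (z j)) ∧
  (∀ j, IsoOn (T j) (Glu M (fun j => Cn M (x j) (z j)) T) (Cn M (x j) (z j))
    (Cn M (x j) (z j)) (idOn (Cn M (x j) (z j)))) ∧
  ∀ u v w, (∀ j, u ∈ Cn M (x j) (z j) → v ∈ Cn M (x j) (z j) → w ∉ Cn M (x j) (z j)) →
    (D (Glu M (fun j => Cn M (x j) (z j)) T) u v w ↔ D M u v w)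

def S_KC1 : Prop := ∀ (α : Ordinal.{0}) (K : Set (St a3)), GC α K → ∀ M ∈ K, ∀ x z, x ≠ z →
  (Cn M x z).Infinite → ∀ F : Set ℕ, F.Finite → ¬ ∃ g : (ℕ → Bool) → R2, Continuous g ∧
  (∀ c, BF M (ex (g c)) (Cn M x z) univ α ∅) ∧
  ∀ c d, IsoOn (ex (g c)) (ex (g d)) univ univ (idOn F) → c = d

def S_KCONE : Prop := ∀ (α : Ordinal.{0}) (K : Set (St a3)), GC α K → ∀ M ∈ K, ∀ x z, x ≠ z →
  (Cn M x z).Infinite → GC α {N : St a3 | BF M N (Cn M x z) univ α ∅}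

/-! ### Coding -/

def S_FILL3 : Prop := ∀ (α : Ordinal.{0}) (M : St a3) (X : Set ℕ),
  Ordinal.omega0 ≤ α → ¬ Small α M X → ∀ F : Set (St a3 × Set ℕ), F.Countable →
  ∃ T : St a3, BF M T X X α ∅ ∧ ∀ P ∈ F, ¬ IsoOn P.1 T P.2 X ∅

def S_SEQ3 : Prop := ∀ (α : Ordinal.{0}) (M : St a3) (x z : ℕ → ℕ), Ordinal.omega0 ≤ α →
  Cb α M x z → ∃ t : ℕ → St a3, GoodT α M x z t

/-- Facts on combs. -/
def S_CBF : Prop := ∀ (α : Ordinal.{0}) (M : St a3) (x z : ℕ → ℕ), Cb α M x z →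
  (∀ m n, m ≤ n → Nd M (x n) (x (n + 1)) ⊆ Nd M (x m) (x (m + 1))) ∧
  (∀ m n, m ≤ n → Cn M (x n) (z n) ⊆ Nd M (x m) (x (m + 1))) ∧
  (∀ m n, m < n → Disjoint (Cn M (x m) (z m)) (Nd M (x n) (x (n + 1)))) ∧
  (∀ k, z k ∉ Cn M (x k) (z k)) ∧
  (∀ k, x k ∈ Cn M (x k) (z k))

/-- Facts on the filled structures. -/
def S_DSF : Prop := ∀ (α : Ordinal.{0}) (M : St a3) (x z : ℕ → ℕ) (t : ℕ → St a3),
  SU α M x z t → ∀ σ : ℕ → Bool,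
  BF M (DS M x z t σ) univ univ α ∅ ∧ Cs (DS M x z t σ) ∧
  (∀ k, Cn (DS M x z t σ) (x k) (z k) = Cn M (x k) (z k)) ∧
  (∀ k, Nd (DS M x z t σ) (x k) (x (k + 1)) = Nd M (x k) (x (k + 1))) ∧
  ∀ k, IsoOn (t (2 * k + (σ k).toNat)) (DS M x z t σ) (Cn M (x k) (z k)) (Cn M (x k) (z k)) ∅

/-- Cones disjoint from a node of the comb occur at an early stage. -/
def S_STG : Prop := ∀ (α : Ordinal.{0}) (M : St a3) (x z : ℕ → ℕ) (t : ℕ → St a3),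
  SU α M x z t → ∀ (σ : ℕ → Bool) (n s : ℕ), (∀ k < n, 2 * k + (σ k).toNat < s) →
  ∀ u v, u ≠ v → Disjoint (Cn (DS M x z t σ) u v) (Nd M (x n) (x (n + 1))) →
  ∃ P ∈ FF M x z t s, IsoOn P.1 (DS M x z t σ) P.2 (Cn (DS M x z t σ) u v) ∅

def S_DA : Prop := ∀ (α : Ordinal.{0}) (M : St a3) (x z : ℕ → ℕ) (t : ℕ → St a3),
  SU α M x z t → ∀ (σ τ : ℕ → Bool) (e : Equiv.Perm ℕ), Is (DS M x z t σ) (DS M x z t τ) e →
  ∀ m, ¬ Disjoint (e '' Cn M (x m) (z m)) (Nd M (x m) (x (m + 1)))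

def S_DB : Prop := ∀ (α : Ordinal.{0}) (M : St a3) (x z : ℕ → ℕ) (t : ℕ → St a3),
  SU α M x z t → ∀ (σ τ : ℕ → Bool) (e : Equiv.Perm ℕ), Is (DS M x z t σ) (DS M x z t τ) e →
  ∀ m, ¬ Nd M (x m) (x (m + 1)) ⊆ e '' Cn M (x m) (z m)

def S_DC : Prop := ∀ (α : Ordinal.{0}) (M : St a3) (x z : ℕ → ℕ) (t : ℕ → St a3),
  SU α M x z t → ∀ (σ τ : ℕ → Bool) (e : Equiv.Perm ℕ), Is (DS M x z t σ) (DS M x z t τ) e →
  ∀ m, e '' Nd M (x m) (x (m + 1)) = Nd M (x m) (x (m + 1))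

def S_DD : Prop := ∀ (α : Ordinal.{0}) (M : St a3) (x z : ℕ → ℕ) (t : ℕ → St a3),
  SU α M x z t → ∀ (σ τ : ℕ → Bool) (e : Equiv.Perm ℕ), Is (DS M x z t σ) (DS M x z t τ) e →
  σ = τ

def S_CODE3 : Prop := ∀ (α : Ordinal.{0}) (K : Set (St a3)), GC α K → ∀ M ∈ K,
  ∀ x z : ℕ → ℕ, ¬ Cb α M x z

def S_COMB : Prop := ∀ (α : Ordinal.{0}) (M : St a3) (S : Set (St a3 × Set ℕ))
  (P : List Bool → ℕ), Cs M → (∀ p, Bc S M p → ¬ Small α M (Cc M p)) → (∀ s, Bc S M (P s)) →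
  (∀ s, Sc M (P s) (P (s ++ [false])) (P (s ++ [true]))) → ∃ x z : ℕ → ℕ, Cb α M x z

def S_BL3 : Prop := ∀ (K : Set (St a3)) (B : St a3 → ℕ → Prop) (Sp : St a3 → ℕ → ℕ → ℕ → Prop),
  MeasurableSet K → (∀ p, MeasurableSet {M : St a3 | M ∈ K ∧ B M p}) →
  (∀ p q r, MeasurableSet {M : St a3 | M ∈ K ∧ Sp M p q r}) →
  (∀ ξ : Ordinal.{0}, ξ < Ordinal.omega 1 → ∃ M ∈ K, ∃ p, Rk (B M) (Sp M) ξ p) →
  ∃ M ∈ K, ∃ P : List Bool → ℕ, (∀ s, B M (P s)) ∧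
    ∀ s, Sp M (P s) (P (s ++ [false])) (P (s ++ [true]))

/-! ### Presentation of centred structures as ordered sums -/

/-- Same level. -/
def Lv (B : ℕ → ℕ → Prop) (x y : ℕ) : Prop := ¬ B x y ∧ ¬ B y x

/-- `B` is a strict weak order. -/
def S_CT1 : Prop := ∀ (S : Set (St a3 × Set ℕ)) (N : St a3) (B : ℕ → ℕ → Prop), Ctr S N B →
  (∀ x, ¬ B x x) ∧ (∀ x y z, B x y → B y z → B x z) ∧ (∀ x y z, B x z → B x y ∨ B y z)

/-- Levels and children. -/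
def S_CT2 : Prop := ∀ (S : Set (St a3 × Set ℕ)) (N : St a3) (B : ℕ → ℕ → Prop), Ctr S N B →
  (∀ x y b, Lv B x y → (B b x ↔ B b y)) ∧
  (∀ x b b', B b x → B b' x → Cn N x b = Cn N x b') ∧
  (∀ x y b, B b x → D N x y b → Lv B x y) ∧
  (∀ x b b', B b x → B b' x → ce (rp N) b x b' x) ∧
  (∀ x y b, B b x → D N x y b → ce (rp N) b x b y) ∧
  (∀ x y b, B x y → B b y → ce (rp N) x y b y)

/-- Three points of one level in different children (one of them may be central). -/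
def S_CT3 : Prop := ∀ (S : Set (St a3 × Set ℕ)) (N : St a3) (B : ℕ → ℕ → Prop), Ctr S N B →
  (∀ x y b, Lv B x y → B b x → x ≠ y → ¬ D N x y b →
    ¬ D N b x y ∧ ¬ D N b y x ∧ ¬ D N x y b ∧ b ≠ x ∧ b ≠ y) ∧
  (∀ x y w b, Lv B x y → Lv B y w → B b x → x ≠ y → y ≠ w → x ≠ w → ¬ D N x y b →
    ¬ D N y w b → ¬ D N x w b → ¬ D N x y w ∧ ¬ D N x w y ∧ ¬ D N y w x)

/-- Colours at a node: `κ` the colour of `(x, y)`. -/
def S_COL : Prop := ∀ (N : R2) (x y z : ℕ),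
  (Lin3 N x y z ∨ Lin3 N x z y ∨ Lin3 N y x z ∨ Lin3 N y z x ∨ Lin3 N z x y ∨ Lin3 N z y x) →
  (ce N x z x y ∨ ce N x z y x) ∧ (ce N y z x y ∨ ce N y z y x) ∧
  (ce N x y y x → ce N x z x y ∧ ce N y z x y) ∧
  (ce N y z x y → ce N x z x y)

/-- Colours seen from the centre. -/
def S_SGN1 : Prop := ∀ (S : Set (St a3 × Set ℕ)) (N : St a3) (B : ℕ → ℕ → Prop), Ctr S N B →
  ∀ b x, B b x → (∀ i, (pc N B i x ↔ rp N i b x = true) ∧ (pd N B i x ↔ rp N i x b = true)) ∧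
  (sy N B x ↔ ce (rp N) b x x b) ∧
  (pos N B x ↔ ∃ i, (∀ j < i, rp N j b x = rp N j x b) ∧ rp N i b x = true ∧
    rp N i x b = false)

/-- Symmetry and sign on a level. -/
def S_SGN2 : Prop := ∀ (S : Set (St a3 × Set ℕ)) (N : St a3) (B : ℕ → ℕ → Prop), Ctr S N B →
  ∀ b x y, B b x → Lv B x y → (sy N B x ↔ sy N B y) ∧
  (sy N B x → ce (rp N) b y b x) ∧
  (D N x y b → ce (rp N) b y b x ∧ (pos N B y ↔ pos N B x)) ∧
  (¬ sy N B x → (ce (rp N) b y b x ∧ (pos N B y ↔ pos N B x)) ∨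
    (ce (rp N) b y x b ∧ (pos N B y ↔ ¬ pos N B x)))

/-- The type index is constant on children and gives a weak order. -/
def S_IDL : Prop := ∀ (S : Set (St a3 × Set ℕ)) (f : ℕ → St a3 × Set ℕ) (N : St a3)
  (B : ℕ → ℕ → Prop), CF S → Enu S f → Ctr S N B →
  (∀ x, ¬ idl S f N B x x) ∧
  (∀ x y z, idl S f N B x y → idl S f N B y z → idl S f N B x z) ∧
  (∀ x y z b, B b y → idl S f N B x z → idl S f N B x y ∨ idl S f N B y z) ∧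
  (∀ x y b, B b x → D N x y b → ∀ n, (ty S f N B n x ↔ ty S f N B n y)) ∧
  (∀ x b, B b x → ∃ n, ty S f N B n x ∧ ∀ m < n, ¬ ty S f N B m x)

/-- `Ll` depends only on the children. -/
def S_LL1 : Prop := ∀ (S : Set (St a3 × Set ℕ)) (f : ℕ → St a3 × Set ℕ) (N : St a3)
  (B : ℕ → ℕ → Prop), CF S → Enu S f → Ctr S N B → ∀ x x' y b, B b x → D N x x' b → Lv B x y →
  ¬ D N x y b → (Ll S f N B x y ↔ Ll S f N B x' y) ∧ (Ll S f N B y x ↔ Ll S f N B y x')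

/-- Asymmetric levels: totality. -/
def S_LL2 : Prop := ∀ (S : Set (St a3 × Set ℕ)) (f : ℕ → St a3 × Set ℕ) (N : St a3)
  (B : ℕ → ℕ → Prop), Ctr S N B → ∀ x y b, B b x → Lv B x y → x ≠ y → ¬ D N x y b →
  ¬ sy N B x → (Ll S f N B x y ∨ Ll S f N B y x) ∧ ¬ (Ll S f N B x y ∧ Ll S f N B y x)

/-- Asymmetric levels: transitivity. -/
def S_LL3 : Prop := ∀ (S : Set (St a3 × Set ℕ)) (f : ℕ → St a3 × Set ℕ) (N : St a3)
  (B : ℕ → ℕ → Prop), CF S → Enu S f → Ctr S N B → ∀ x y w b, B b x → Lv B x y → Lv B y w →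
  ¬ sy N B x → Ll S f N B x y → Ll S f N B y w → Ll S f N B x w

/-- Symmetric levels. -/
def S_LL4 : Prop := ∀ (S : Set (St a3 × Set ℕ)) (f : ℕ → St a3 × Set ℕ) (N : St a3)
  (B : ℕ → ℕ → Prop), CF S → Enu S f → Ctr S N B → ∀ x y b, B b x → Lv B x y → sy N B x →
  (Ll S f N B x y ↔ idl S f N B x y)

/-- The colour of `(x, y)` for `x` before `y` in the refined order is the colour of `y`. -/
def S_LLC : Prop := ∀ (S : Set (St a3 × Set ℕ)) (f : ℕ → St a3 × Set ℕ) (N : St a3)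
  (B : ℕ → ℕ → Prop), Ctr S N B → ∀ x y, Ll S f N B x y →
  ∀ i, (rp N i x y = true ↔ pc N B i y) ∧ (rp N i y x = true ↔ pd N B i y)

/-- The refined order is a strict weak order. -/
def S_OB1 : Prop := ∀ (S : Set (St a3 × Set ℕ)) (f : ℕ → St a3 × Set ℕ) (N : St a3)
  (B : ℕ → ℕ → Prop), CF S → Enu S f → Ctr S N B →
  (∀ x, ¬ Ll S f N B x x) ∧ (∀ x y z, Ll S f N B x y → Ll S f N B y z → Ll S f N B x z) ∧
  (∀ x y z, Ll S f N B x z → Ll S f N B x y ∨ Ll S f N B y z)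

def S_OBS : Prop := ∀ (S : Set (St a3 × Set ℕ)) (f : ℕ → St a3 × Set ℕ) (N : St a3)
  (B : ℕ → ℕ → Prop), CF S → Enu S f → Ctr S N B → OS (Ob S f N B)

def S_OB2 : Prop := ∀ (S : Set (St a3 × Set ℕ)) (f : ℕ → St a3 × Set ℕ) (N : St a3)
  (B : ℕ → ℕ → Prop), CF S → Enu S f → Ctr S N B → Rc (Ob S f N B) = rp N

/-- Functoriality. -/
def S_FUN1 : Prop := ∀ (O O' : St a2) (p : Set (ℕ × ℕ)), IsoOn O O' univ univ p →
  IsoOn (ex (Rc O)) (ex (Rc O')) univ univ p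

def S_FUN2 : Prop := ∀ (S : Set (St a3 × Set ℕ)) (f : ℕ → St a3 × Set ℕ) (b : Bool)
  (N N' : St a3) (e : Equiv.Perm ℕ) (v : ℕ), CF S → Is N N' e →
  PIso (Ob S f N (Be S b N v)) (Ob S f N' (Be S b N' (e v))) {w | w.2 = e w.1}

def S_FUN3 : Prop := ∀ (S : Set (St a3 × Set ℕ)) (b : Bool)
  (N N' : St a3) (e : Equiv.Perm ℕ) (v : ℕ), CF S → Is N N' e →
  Ctr S N (Be S b N v) → Ctr S N' (Be S b N' (e v))

/-- Members of `K` with a centre give members of `KP`. -/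
def S_KPI : Prop := ∀ (α : Ordinal.{0}) (K : Set (St a3)) (S : Set (St a3 × Set ℕ))
  (f : ℕ → St a3 × Set ℕ) (b : Bool), GC α K → CF S → Enu S f → ∀ N ∈ K, ∀ v,
  Ctr S N (Be S b N v) → Ob S f N (Be S b N v) ∈ KP S f K b

/-- `KP` is invariant. -/
def S_KPV : Prop := ∀ (α : Ordinal.{0}) (K : Set (St a3)) (S : Set (St a3 × Set ℕ))
  (f : ℕ → St a3 × Set ℕ) (b : Bool), GC α K → CF S → Enu S f → ∀ O ∈ KP S f K b,
  ∀ O' : St a2, IsoOn O O' univ univ ∅ → O' ∈ KP S f K b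

/-- Measurability. -/
def S_KPM1 : Prop := ∀ (S : Set (St a3 × Set ℕ)) (f : ℕ → St a3 × Set ℕ) (b : Bool) (v : ℕ),
  CF S → Enu S f → MeasurableSet {N : St a3 | Ctr S N (Be S b N v)} ∧
  Measurable fun N : St a3 => Ob S f N (Be S b N v)

def S_KPM2 : Prop := Measurable (ex : R2 → St a3) ∧ Continuous (Rc : St a2 → R2)

def S_KPM : Prop := ∀ (α : Ordinal.{0}) (K : Set (St a3)) (S : Set (St a3 × Set ℕ))
  (f : ℕ → St a3 × Set ℕ) (b : Bool), GC α K → CF S → Enu S f → MeasurableSet (KP S f K b)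

/-- Few types. -/
def S_KPF : Prop := ∀ (α : Ordinal.{0}) (K : Set (St a3)) (S : Set (St a3 × Set ℕ))
  (f : ℕ → St a3 × Set ℕ) (b : Bool), GC α K → CF S → Enu S f →
  ¬ ∃ g : (ℕ → Bool) → St a2, Continuous g ∧ (∀ c, g c ∈ KP S f K b) ∧
    ∀ c d, IsoOn (g c) (g d) univ univ ∅ → c = d

/-- The blocks of the presentation. -/
def S_BKF : Prop := ∀ (S : Set (St a3 × Set ℕ)) (f : ℕ → St a3 × Set ℕ) (N : St a3)
  (B : ℕ → ℕ → Prop), CF S → Enu S f → Ctr S N B → ∀ x,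
  ((¬ ∃ b, B b x) → Ic (Ob S f N B) x x = {x}) ∧
  (∀ b, B b x → ¬ sy N B x → Ic (Ob S f N B) x x = Cn N x b) ∧
  (∀ b n, B b x → sy N B x → ty S f N B n x → (∀ m < n, ¬ ty S f N B m x) →
    (∀ y, y ∈ Ic (Ob S f N B) x x → B b y ∧ (∀ i, (pc N B i y ↔ pc N B i x) ∧
      (pd N B i y ↔ pd N B i x)) ∧ Cn N y b ⊆ Ic (Ob S f N B) x x ∧
      IsoOn (f n).1 N (f n).2 (Cn N y b) ∅) ∧
    ∀ y ∈ Ic (Ob S f N B) x x, ∀ w ∈ Ic (Ob S f N B) x x, ¬ D N y w b →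
      ∀ i, (rp N i y w = true ↔ pc N B i x))

/-- Unions of isomorphic children of one node with a symmetric colour. -/
structure SB (P : St a3 × Set ℕ) (N : St a3) (b : ℕ) (κ : ℕ → Prop) (X : Set ℕ) : Prop where
  cs : Cs N
  nb : b ∉ X
  ch : ∀ y ∈ X, Cn N y b ⊆ X ∧ IsoOn P.1 N P.2 (Cn N y b) ∅
  col : ∀ y ∈ X, ∀ w ∈ X, ¬ D N y w b → ∀ i, (rp N i y w = true ↔ κ i)

def S_SBI : Prop := ∀ (P : St a3 × Set ℕ) (N N' : St a3) (b b' : ℕ) (κ : ℕ → Prop)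
  (X X' : Set ℕ), SB P N b κ X → SB P N' b' κ X' →
  {C | ∃ y ∈ X, C = Cn N y b}.encard = {C | ∃ y ∈ X', C = Cn N' y b'}.encard →
  ∃ q : Set (ℕ × ℕ), q ⊆ X ×ˢ X' ∧ (∀ u ∈ q, ∀ v ∈ q, (u.1 = v.1 ↔ u.2 = v.2)) ∧
    (∀ i, ∀ u ∈ q, ∀ v ∈ q, rp N i u.1 v.1 = rp N' i u.2 v.2) ∧
    (∀ x ∈ X, ∃ y, (x, y) ∈ q) ∧ (∀ y ∈ X', ∃ x, (x, y) ∈ q)

/-- Isomorphisms of blocks. -/
def S_OBQ : Prop := ∀ (S : Set (St a3 × Set ℕ)) (f : ℕ → St a3 × Set ℕ) (N N' : St a3)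
  (B B' : ℕ → ℕ → Prop) (x x' : ℕ) (q : Set (ℕ × ℕ)), OS (Ob S f N B) → OS (Ob S f N' B') →
  q ⊆ Ic (Ob S f N B) x x ×ˢ Ic (Ob S f N' B') x' x' →
  (∀ u ∈ q, ∀ v ∈ q, (u.1 = v.1 ↔ u.2 = v.2)) →
  (∀ i, ∀ u ∈ q, ∀ v ∈ q, rp N i u.1 v.1 = rp N' i u.2 v.2) →
  (∀ y ∈ Ic (Ob S f N B) x x, ∃ y', (y, y') ∈ q) →
  (∀ y' ∈ Ic (Ob S f N' B') x' x', ∃ y, (y, y') ∈ q) →
  (∀ i, ∀ u ∈ q, (pc N B i u.1 ↔ pc N' B' i u.2) ∧ (pd N B i u.1 ↔ pd N' B' i u.2)) →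
  IsoOn (Ob S f N B) (Ob S f N' B') (Ic (Ob S f N B) x x) (Ic (Ob S f N' B') x' x') ∅

/-- The three kinds of blocks. -/
def S_BK1 : Prop := ∀ (S : Set (St a3 × Set ℕ)) (f : ℕ → St a3 × Set ℕ) (N N' : St a3)
  (B B' : ℕ → ℕ → Prop) (x x' : ℕ), CF S → Enu S f → Ctr S N B → Ctr S N' B' →
  (¬ ∃ b, B b x) → (¬ ∃ b, B' b x') → (∀ i, rp N i x x = rp N' i x' x') →
  IsoOn (Ob S f N B) (Ob S f N' B') (Ic (Ob S f N B) x x) (Ic (Ob S f N' B') x' x') ∅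

def S_BK2 : Prop := ∀ (S : Set (St a3 × Set ℕ)) (f : ℕ → St a3 × Set ℕ) (N N' : St a3)
  (B B' : ℕ → ℕ → Prop) (x x' b b' n : ℕ), CF S → Enu S f → Ctr S N B → Ctr S N' B' →
  B b x → B' b' x' → ¬ sy N B x → ¬ sy N' B' x' →
  (∀ i, rp N i b x = rp N' i b' x' ∧ rp N i x b = rp N' i x' b') →
  ty S f N B n x → ty S f N' B' n x' →
  IsoOn (Ob S f N B) (Ob S f N' B') (Ic (Ob S f N B) x x) (Ic (Ob S f N' B') x' x') ∅

def S_BK3 : Prop := ∀ (S : Set (St a3 × Set ℕ)) (f : ℕ → St a3 × Set ℕ) (N N' : St a3)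
  (B B' : ℕ → ℕ → Prop) (x x' b b' n : ℕ), CF S → Enu S f → Ctr S N B → Ctr S N' B' →
  B b x → B' b' x' → sy N B x → sy N' B' x' →
  (∀ i, rp N i b x = rp N' i b' x' ∧ rp N i x b = rp N' i x' b') →
  (ty S f N B n x ∧ ∀ m < n, ¬ ty S f N B m x) →
  (ty S f N' B' n x' ∧ ∀ m < n, ¬ ty S f N' B' m x') →
  {C | ∃ y ∈ Ic (Ob S f N B) x x, C = Cn N y b}.encard =
    {C | ∃ y ∈ Ic (Ob S f N' B') x' x', C = Cn N' y b'}.encard →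
  IsoOn (Ob S f N B) (Ob S f N' B') (Ic (Ob S f N B) x x) (Ic (Ob S f N' B') x' x') ∅

def S_BLK3 : Prop := ∀ (α : Ordinal.{0}) (K : Set (St a3)) (S : Set (St a3 × Set ℕ))
  (f : ℕ → St a3 × Set ℕ) (b : Bool), GC α K → CF S → Enu S f → BlkC (KP S f K b)

def S_KPG : Prop := ∀ (α : Ordinal.{0}) (K : Set (St a3)) (S : Set (St a3 × Set ℕ))
  (f : ℕ → St a3 × Set ℕ) (b : Bool), GC α K → CF S → Enu S f →
  ∃ α' : Ordinal.{0}, G α' (KP S f K b)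

def S_CT : Prop := ∀ (α : Ordinal.{0}) (K : Set (St a3)) (S : Set (St a3 × Set ℕ)) (b : Bool),
  GC α K → CF S → ∃ h : ℕ → St a3, ∀ N ∈ K, ∀ v, Ctr S N (Be S b N v) →
    ∃ n, IsoOn (h n) N univ univ ∅

/-- A point centre. -/
def S_CTF : Prop := ∀ (S : Set (St a3 × Set ℕ)) (N : St a3) (v : ℕ), CF S → Cs N →
  (∀ y, y ≠ v → (N, Cn N y v) ∈ S) → Ctr S N (Be S false N v)

/-- An end as centre. -/
def S_CTT : Prop := ∀ (S : Set (St a3 × Set ℕ)) (N : St a3) (v : ℕ), CF S → Cs N →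
  (∀ y, ∃ x, x ≠ y ∧ (N, Cn N x y) ∉ S) →
  (∀ x z x' z', x ≠ z → x' ≠ z' → Disjoint (Cn N x z) (Cn N x' z') →
    (N, Cn N x z) ∈ S ∨ (N, Cn N x' z') ∈ S) → Ctr S N (Be S true N v)

/-! ### The main argument -/

/-- Finite cones. -/
def S_FINC : Prop := ∀ (α : Ordinal.{0}) (K : Set (St a3)), GC α K →
  ∃ h : ℕ → St a3 × Set ℕ, ∀ M ∈ K, ∀ x z, x ≠ z → (Cn M x z).Finite →
    ∃ n, IsoOn (h n).1 M (h n).2 (Cn M x z) ∅

/-- Infinite cones without two disjoint big subcones. -/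
def S_INFC : Prop := ∀ (α : Ordinal.{0}) (K : Set (St a3)) (S : Set (St a3 × Set ℕ)), GC α K →
  CF S → ∀ M ∈ K, ∀ x z, x ≠ z → (Cn M x z).Infinite →
  ∃ h : ℕ → St a3, ∀ N : St a3, BF M N (Cn M x z) univ α ∅ →
  (∀ x z x' z', x ≠ z → x' ≠ z' → Disjoint (Cn N x z) (Cn N x' z') →
    (N, Cn N x z) ∈ S ∨ (N, Cn N x' z') ∈ S) → ∃ n, IsoOn (h n) N univ univ ∅

def S_SIM3 : Prop := ∀ (α : Ordinal.{0}) (K : Set (St a3)) (S : Set (St a3 × Set ℕ)),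
  GC α K → CF S → ∃ S' : Set (St a3 × Set ℕ), CF S' ∧ S ⊆ S' ∧ ∀ M ∈ K, ∀ p,
  Bc S' M p → ∃ q r, Sc M p q r ∧ Bc S M q ∧ Bc S M r

def S_CNT3 : Prop := ∀ (α : Ordinal.{0}) (K : Set (St a3)) (S : Set (St a3 × Set ℕ)),
  GC α K → CF S → ∀ ξ : Ordinal.{0}, ξ < Ordinal.omega 1 → ∃ S' : Set (St a3 × Set ℕ),
  CF S' ∧ S ⊆ S' ∧ ∀ M ∈ K, ∀ p, Pr p → ¬ Rk (Bc S M) (Sc M) ξ p → (M, Cc M p) ∈ S'

/-- Measurability of the splitting relation. -/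
def S_MSC : Prop := ∀ p q r, MeasurableSet {M : St a3 | Sc M p q r}

def S_MAIN3 : Prop := ∀ (α : Ordinal.{0}) (K : Set (St a3)), GC α K →
  ∃ h : ℕ → St a3, ∀ M ∈ K, ∃ n, IsoOn (h n) M univ univ ∅

/-! ### The final theorem -/

/-- Isomorphism. -/
def RIso2 (x y : R2) : Prop := ∃ σ : Equiv.Perm ℕ, ∀ i u v, y i (σ u) (σ v) = x i u v

/-- Isomorphisms of the binary structures are isomorphisms of the expansions. -/
def S_EXI : Prop := ∀ (N N' : R2) (e : Equiv.Perm ℕ),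
  (∀ i u v, N' i (e u) (e v) = N i u v) → Is (ex N) (ex N') e

/-- No perfect set over a finite base. -/
def S_FEWB : Prop := ∀ B : Set R2, MeasurableSet B →
  (¬ ∃ g : (ℕ → Bool) → R2, Continuous g ∧ (∀ c, g c ∈ B) ∧ ∀ c d, RIso2 (g c) (g d) → c = d) →
  ∀ F : Set ℕ, F.Finite → ¬ ∃ g : (ℕ → Bool) → R2, Continuous g ∧ (∀ c, g c ∈ B) ∧
    ∀ c d, IsoOn (ex (g c)) (ex (g d)) univ univ (idOn F) → c = d

def S_FINAL3 : Prop := ∀ B : Set R2, MeasurableSet B → (∀ x y : R2, RIso2 x y → (x ∈ B ↔ y ∈ B)) →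
  (∀ x ∈ B, Dec x) → (∃ f : ℕ → R2, ∀ x ∈ B, ∃ n, RIso2 (f n) x) ∨
  (∃ g : (ℕ → Bool) → R2, Continuous g ∧ (∀ c, g c ∈ B) ∧ ∀ c d, RIso2 (g c) (g d) → c = d)

end Pool.Agent.H533R2.VD
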