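import Pool.Agent.H533R2.VO.A1
import Pool.Agent.H533R2.VO.A1P
import Pool.Agent.H533R2.VO.B2EX
import Pool.Agent.H533R2.VO.BASE
import Pool.Agent.H533R2.VO.BL
import Pool.Agent.H533R2.VO.CAN
import Pool.Agent.H533R2.VO.CASEA1
import Pool.Agent.H533R2.VO.CASEA2
import Pool.Agent.H533R2.VO.CASEB1
import Pool.Agent.H533R2.VO.CASEB2
import Pool.Agent.H533R2.VO.CLMON
import Pool.Agent.H533R2.VO.CLS
import Pool.Agent.H533R2.VO.CLT
import Pool.Agent.H533R2.VO.CNT
import Pool.Agent.H533R2.VO.CODE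
import Pool.Agent.H533R2.VO.CORE
import Pool.Agent.H533R2.VO.CSI
import Pool.Agent.H533R2.VO.DEC1
import Pool.Agent.H533R2.VO.DEC2
import Pool.Agent.H533R2.VO.DYA
import Pool.Agent.H533R2.VO.END
import Pool.Agent.H533R2.VO.EXT
import Pool.Agent.H533R2.VO.FILL
import Pool.Agent.H533R2.VO.GENF
import Pool.Agent.H533R2.VO.GENU
import Pool.Agent.H533R2.VO.GLB
import Pool.Agent.H533R2.VO.GLC
import Pool.Agent.H533R2.VO.GLF
import Pool.Agent.H533R2.VO.GLO
import Pool.Agent.H533R2.VO.GLW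
import Pool.Agent.H533R2.VO.H5
import Pool.Agent.H533R2.VO.INL
import Pool.Agent.H533R2.VO.LAB
import Pool.Agent.H533R2.VO.LEV
import Pool.Agent.H533R2.VO.LHF
import Pool.Agent.H533R2.VO.LOCRK
import Pool.Agent.H533R2.VO.MAIN
import Pool.Agent.H533R2.VO.MEAS1
import Pool.Agent.H533R2.VO.MEAS2
import Pool.Agent.H533R2.VO.MTX
import Pool.Agent.H533R2.VO.PUT
import Pool.Agent.H533R2.VO.REV
import Pool.Agent.H533R2.VO.RKCH
import Pool.Agent.H533R2.VO.SEQ
import Pool.Agent.H533R2.VO.SIM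
import Pool.Agent.H533R2.VO.TOW
import Pool.Agent.H533R2.VO.TOWC
import Pool.Agent.H533R2.VO.TOWR
import Pool.Agent.H533R2.VO.TRC
import Pool.Agent.H533R2.VO.TRP

set_option autoImplicit false

/-! The main theorem on ordered sums, from the project VO. -/

namespace Pool.Agent.H533R2.VO

theorem voMain : S_MAIN := by
  have core := t_CORE
  have cls := t_CLS
  have clt := t_CLT core
  have clmon := t_CLMON
  have locrk := t_LOCRK clt
  have trc := t_TRC core
  have h5 := t_H5
  have mtx := t_MTX h5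
  have ext := t_EXT
  have a1p := t_A1P cls
  have glw := t_GLW
  have a1 := t_A1 a1p glw
  have can := t_CAN mtx
  have ca1 := t_CASEA1 mtx ext trc a1
  have ca2 := t_CASEA2 can ext trc
  have cb1 := t_CASEB1 can core
  have cb2 := t_CASEB2 can ext locrk
  have rkch := t_RKCH clmon
  have b2ex := t_B2EX rkch
  have tow := t_TOW t_INL ca1 ca2 cb1 cb2 b2ex
  have towc := t_TOWC t_LEV tow t_LAB
  have towr := t_TOWR towc t_REV
  have sim := t_SIM towc towr t_GENF
  have cnt := t_CNT sim (t_GENU t_GENF)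
  have en := t_END towc towr
  have base := t_BASE t_LAB t_GENF
  have fill := t_FILL t_TRP
  have sq := t_SEQ fill
  have glo := t_GLO
  have glf := t_GLF
  have glb := t_GLB glf
  have dec1 := t_DEC1 t_LHF
  have dec2 := t_DEC2 t_LHF glo glf
  have code := t_CODE sq glb t_GLC t_LHF dec1 dec2 t_CSI
  exact t_MAIN base t_LEV (t_MEAS2 t_MEAS1) t_BL t_DYA code cnt en

end Pool.Agent.H533R2.VO
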